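import Pool.Agent.UAA.St

/-!
# `ALG_Stmt` (MP_e32761_co): an algebraic integer with small conjugates is zero
-/

set_option autoImplicit false

namespace Pool.Agent.UAA

open Polynomial

namespace ALGaux

theorem prod_norm_lt_one {ι : Type*} [Fintype ι] [Nonempty ι] (f : ι → ℂ)
    (h : ∀ i, ‖f i‖ < 1) : ‖∏ i, f i‖ < 1 := by
  classical
  obtain ⟨i0⟩ := (inferInstance : Nonempty ι)
  rw [norm_prod, ← Finset.mul_prod_erase Finset.univ (fun i => ‖f i‖) (Finset.mem_univ i0)]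
  have h1 : ∏ i ∈ Finset.univ.erase i0, ‖f i‖ ≤ 1 :=
    Finset.prod_le_one (fun i _ => norm_nonneg _) (fun i _ => (h i).le)
  have h0 : 0 ≤ ‖f i0‖ := norm_nonneg _
  calc ‖f i0‖ * ∏ i ∈ Finset.univ.erase i0, ‖f i‖ ≤ ‖f i0‖ * 1 :=
        mul_le_mul_of_nonneg_left h1 h0
    _ < 1 := by rw [mul_one]; exact h i0

end ALGaux

open ALGaux IntermediateField in
theorem t_ALG : ALG_Stmt := by
  intro z A hz hA
  have hzQ : IsIntegral ℚ z := hz.tower_top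
  haveI : FiniteDimensional ℚ ℚ⟮z⟯ := adjoin.finiteDimensional hzQ
  set g : ℚ⟮z⟯ := AdjoinSimple.gen ℚ z with hg
  have hgz : algebraMap ℚ⟮z⟯ ℂ g = z := AdjoinSimple.algebraMap_gen ℚ z
  have hgint : IsIntegral ℤ g := by
    have hinj : Function.Injective (algebraMap ℚ⟮z⟯ ℂ) := (algebraMap ℚ⟮z⟯ ℂ).injective
    rw [← isIntegral_algebraMap_iff hinj, hgz]
    exact hz
  set a : ℚ⟮z⟯ := aeval g A with ha
  have haint : IsIntegral ℤ a := by
    have h1 : a ∈ Algebra.adjoin ℤ ({g} : Set ℚ⟮z⟯) := by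
      rw [ha]; exact aeval_mem_adjoin_singleton ℤ g
    exact IsIntegral.of_mem_of_fg _ hgint.fg_adjoin_singleton _ h1
  have hnorm : IsIntegral ℤ (Algebra.norm ℚ a) := Algebra.isIntegral_norm ℚ haint
  obtain ⟨m, hm⟩ := IsIntegrallyClosed.isIntegral_iff.mp hnorm
  have hprod : algebraMap ℚ ℂ (Algebra.norm ℚ a) = ∏ σ : ℚ⟮z⟯ →ₐ[ℚ] ℂ, σ a :=
    Algebra.norm_eq_prod_embeddings ℚ ℂ a
  haveI : Nonempty (ℚ⟮z⟯ →ₐ[ℚ] ℂ) := ⟨IsScalarTower.toAlgHom ℚ ℚ⟮z⟯ ℂ⟩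
  have hlt : ‖∏ σ : ℚ⟮z⟯ →ₐ[ℚ] ℂ, σ a‖ < 1 := by
    apply prod_norm_lt_one
    intro σ
    have h1 : σ a = aeval (σ g) A := by
      rw [ha]
      have := Polynomial.aeval_algHom_apply (σ.restrictScalars ℤ) g A
      simpa using this.symm
    rw [h1]
    apply hA
    have h2 : aeval g (minpoly ℚ z) = 0 := by
      have hinj : Function.Injective (algebraMap ℚ⟮z⟯ ℂ) := (algebraMap ℚ⟮z⟯ ℂ).injective
      apply hinj
      rw [map_zero, ← Polynomial.aeval_algebraMap_apply, hgz]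
      exact minpoly.aeval ℚ z
    rw [Polynomial.aeval_algHom_apply, h2, map_zero]
  rw [← hprod, ← hm] at hlt
  have hm0 : m = 0 := by
    have h3 : ‖((m : ℤ) : ℂ)‖ < 1 := by simpa using hlt
    rw [Complex.norm_intCast] at h3
    have h4 : |m| < 1 := by exact_mod_cast h3
    exact Int.abs_lt_one_iff.mp h4
  have hN : Algebra.norm ℚ a = 0 := by rw [← hm, hm0]; simp
  have ha0 : a = 0 := Algebra.norm_eq_zero_iff.mp hN
  have h5 : aeval z A = algebraMap ℚ⟮z⟯ ℂ a := by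
    rw [ha, ← Polynomial.aeval_algebraMap_apply, hgz]
  rw [h5, ha0, map_zero]

end Pool.Agent.UAA
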