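import Pool.Agent.UAA.St

/-!
# Balanced and unbalanced tuples
-/

set_option autoImplicit false

namespace Pool.Agent.UAA

open Finset

namespace BNDaux

variable {q d : ℕ} [NeZero q]

/-- The class sum as a function of the class. -/
noncomputable def rr (O' O : Orb q d) : ℤ := ram (Classical.choose (cl_surj O)) O'

omit [NeZero q] in
theorem cl_choose (O : Orb q d) : cl (Classical.choose (cl_surj O)) = O :=
  Classical.choose_spec (cl_surj O)

theorem ram_eq_rr (hR : RAM_Stmt) (x : G q d) (O' : Orb q d) : ram x O' = rr O' (cl x) := by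
  unfold rr
  apply (hR q d).2.1
  rw [← cl_eq, cl_choose]

theorem sum_ram (hR : RAM_Stmt) {k : ℕ} (p : Fin k → G q d) (O' : Orb q d) :
    ∑ i, ram (p i) O' = ∑ O : Orb q d, ((univ.filter fun i => cl (p i) = O).card : ℤ) * rr O' O := by
  rw [← Finset.sum_fiberwise_of_maps_to (s := (univ : Finset (Fin k))) (t := (univ : Finset (Orb q d)))
    (g := fun i => cl (p i)) (fun _ _ => Finset.mem_univ _)]
  apply Finset.sum_congr rfl
  intro O _
  rw [← nsmul_eq_mul, ← Finset.sum_const]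
  apply Finset.sum_congr rfl
  intro i hi
  rw [ram_eq_rr hR, (Finset.mem_filter.1 hi).2]

theorem ex_zero (hR : RAM_Stmt) {k : ℕ} (p m : Fin k → G q d) (h : Bal p m) (O' : Orb q d) :
    ex p m O' = 0 := by
  unfold ex
  rw [sum_ram hR, sum_ram hR, ← Finset.sum_sub_distrib]
  apply Finset.sum_eq_zero
  intro O _
  rw [h O, sub_self]

theorem card_Om : (Fintype.card (Om q d)) = 2 ^ Fintype.card (Orb q d) := by
  simp [Om]

theorem par (w : ℂ) (hw : ‖w‖ = 1) : ‖1 + w‖ ^ 2 + ‖1 - w‖ ^ 2 = 4 := by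
  have h1 : ‖w‖ ^ 2 = 1 := by rw [hw]; norm_num
  rw [Complex.sq_norm, Complex.normSq_apply] at h1
  rw [Complex.sq_norm, Complex.sq_norm, Complex.normSq_apply, Complex.normSq_apply]
  simp only [Complex.add_re, Complex.add_im, Complex.sub_re, Complex.sub_im, Complex.one_re,
    Complex.one_im]
  nlinarith [h1]

theorem fac_le (w : ℂ) (hw : ‖w‖ = 1) (β : ℝ) (h0 : 0 < β) (_h1 : β ≤ 1) (h : β ≤ ‖1 - w‖) :
    ‖1 + w‖ ≤ 2 * (1 - β ^ 2 / 8) := by
  have hp := par w hw
  have h2 : β ^ 2 ≤ ‖1 - w‖ ^ 2 := by gcongr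
  have h3 : (0 : ℝ) ≤ 2 * (1 - β ^ 2 / 8) := by nlinarith
  apply le_of_sq_le_sq _ h3
  nlinarith [sq_nonneg (β ^ 2)]

theorem zpow_far (g E : ℕ) (β : ℝ) (z : ℂ) (hz : Bulk g E β z) (j : ℤ) (hj : j ≠ 0)
    (hjE : |j| ≤ (E : ℤ)) : β ≤ ‖1 - z ^ ((g : ℤ) * j)‖ := by
  obtain ⟨hz1, hz2⟩ := hz
  have hz0 : z ≠ 0 := by
    intro h
    rw [h, norm_zero] at hz1
    exact zero_ne_one hz1
  rcases lt_or_gt_of_ne hj with h | h
  · obtain ⟨n, hn⟩ : ∃ n : ℕ, j = -(n : ℤ) := ⟨j.natAbs, by omega⟩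
    subst hn
    have hn1 : 1 ≤ n := by omega
    have hnE : n ≤ E := by
      rw [abs_neg] at hjE
      have : (n : ℤ) ≤ E := le_trans (le_abs_self _) hjE
      exact_mod_cast this
    have h3 : z ^ ((g : ℤ) * (-(n : ℤ))) = (z ^ (g * n))⁻¹ := by
      rw [mul_neg, zpow_neg]
      congr 1
    rw [h3]
    set w : ℂ := z ^ (g * n) with hw
    have hw0 : w ≠ 0 := pow_ne_zero _ hz0
    have hw1 : ‖w‖ = 1 := by rw [hw, norm_pow, hz1, one_pow]
    have h4 : 1 - w⁻¹ = w⁻¹ * (w - 1) := by
      field_simp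
    rw [h4, norm_mul, norm_inv, hw1, inv_one, one_mul]
    exact hz2 n hn1 hnE
  · obtain ⟨n, hn⟩ : ∃ n : ℕ, j = (n : ℤ) := ⟨j.natAbs, by omega⟩
    subst hn
    have hn1 : 1 ≤ n := by omega
    have hnE : n ≤ E := by
      have : (n : ℤ) ≤ E := le_trans (le_abs_self _) hjE
      exact_mod_cast this
    have h3 : z ^ ((g : ℤ) * (n : ℤ)) = z ^ (g * n) := by
      exact_mod_cast zpow_natCast z (g * n)
    rw [h3, norm_sub_rev]
    exact hz2 n hn1 hnE

theorem norm_fac_le_two (z : ℂ) (hz : ‖z‖ = 1) (e : ℤ) : ‖1 + z ^ e‖ ≤ 2 := by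
  calc ‖1 + z ^ e‖ ≤ ‖(1 : ℂ)‖ + ‖z ^ e‖ := norm_add_le _ _
    _ = 2 := by rw [norm_one, norm_zpow, hz, one_zpow]; norm_num

end BNDaux

open BNDaux in
theorem t_BND : BND_Stmt := by
  intro hR hE hU q d g E _ hq hGE hd β z hβ0 hβ1 hB k p m hk
  have hz1 : ‖z‖ = 1 := hB.1
  have hz0 : z ≠ 0 := by
    intro h
    rw [h, norm_zero] at hz1
    exact zero_ne_one hz1
  have hex := (hE q d z hz0).2 k p m
  constructor
  · intro hbal
    rw [hex, card_Om]
    have : ∀ O : Orb q d, (if O = cl 0 then (2 : ℂ) else (1 + z ^ ex p m O)) = 2 := by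
      intro O
      split_ifs with h
      · rfl
      · rw [ex_zero hR p m hbal, zpow_zero]; norm_num
    rw [Finset.prod_congr rfl (fun O _ => this O), Finset.prod_const, Finset.card_univ]
    push_cast
    rfl
  · intro hbal
    have hc0 : (0 : ℝ) ≤ 1 - β ^ 2 / 8 := by nlinarith
    have hc1 : (1 : ℝ) - β ^ 2 / 8 ≤ 1 := by nlinarith [sq_nonneg β]
    rw [hex, card_Om, norm_prod]
    set S := (univ : Finset (Orb q d)).filter fun O => O ≠ cl 0 ∧ ex p m O ≠ 0 with hS
    have hfac : ∀ O : Orb q d, ‖(if O = cl 0 then (2 : ℂ) else (1 + z ^ ex p m O))‖ ≤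
        2 * (if O ∈ S then (1 - β ^ 2 / 8) else 1) := by
      intro O
      by_cases h : O = cl 0
      · have hO : O ∉ S := by
          intro h'
          exact (Finset.mem_filter.1 h').2.1 h
        rw [if_pos h, if_neg hO]
        simp
      · rw [if_neg h]
        by_cases h2 : ex p m O = 0
        · have hO : O ∉ S := by
            intro h'
            exact (Finset.mem_filter.1 h').2.2 h2
          rw [if_neg hO, mul_one]
          exact norm_fac_le_two z hz1 _
        · have hO : O ∈ S := Finset.mem_filter.2 ⟨Finset.mem_univ _, h, h2⟩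
          rw [if_pos hO]
          obtain ⟨j, hj1, hj2⟩ := hGE k hk p m O h
          have hj0 : j ≠ 0 := by
            intro h0
            rw [h0, mul_zero] at hj2
            exact h2 hj2
          apply fac_le _ _ β hβ0 hβ1
          · rw [hj2]
            exact zpow_far g E β z hB j hj0 hj1
          · rw [norm_zpow, hz1, one_zpow]
    have hprod : ∏ O : Orb q d, ‖(if O = cl 0 then (2 : ℂ) else (1 + z ^ ex p m O))‖ ≤
        2 ^ Fintype.card (Orb q d) * (1 - β ^ 2 / 8) ^ S.card := by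
      calc ∏ O : Orb q d, ‖(if O = cl 0 then (2 : ℂ) else (1 + z ^ ex p m O))‖
          ≤ ∏ O : Orb q d, (2 * (if O ∈ S then (1 - β ^ 2 / 8) else 1)) :=
            Finset.prod_le_prod (fun _ _ => norm_nonneg _) (fun O _ => hfac O)
        _ = 2 ^ Fintype.card (Orb q d) * (1 - β ^ 2 / 8) ^ S.card := by
            rw [Finset.prod_mul_distrib, Finset.prod_const, Finset.card_univ]
            congr 1
            rw [Finset.prod_ite, Finset.prod_const, Finset.prod_const, one_pow, mul_one]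
            congr 2
            ext O
            simp
    have hunb := hU hR q d hq k p m hbal (by
      calc 2 * q ^ (2 * k) ≤ q * q ^ (2 * k) := Nat.mul_le_mul_right _ hq
        _ = q ^ (2 * k + 1) := by ring
        _ ≤ q ^ d := Nat.pow_le_pow_right (by omega) (by omega))
    rw [← hS] at hunb
    have hq10 : 0 < q ^ 10 := by positivity
    have hSc : q ^ (d - 10) ≤ S.card := by
      have h1 : q ^ 10 * q ^ (d - 10) ≤ q ^ 10 * S.card := by
        calc q ^ 10 * q ^ (d - 10) = q ^ d := by rw [← pow_add]; congr 1; omega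
          _ ≤ q ^ (2 * k + 2) * S.card := hunb
          _ ≤ q ^ 10 * S.card :=
            Nat.mul_le_mul_right _ (Nat.pow_le_pow_right (by omega) (by omega))
      exact Nat.le_of_mul_le_mul_left h1 hq10
    refine le_trans hprod ?_
    unfold tiny
    push_cast
    apply mul_le_mul_of_nonneg_left _ (by positivity)
    exact pow_le_pow_of_le_one hc0 hc1 hSc

end Pool.Agent.UAA
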