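import Pool.Agent.UAA.St

/-!
# Balanced quadruples (MP_e32761_co)
-/

set_option autoImplicit false

namespace Pool.Agent.UAA

open Finset

namespace CNT4aux

variable {q d : ℕ}

/-- Balanced pairs, as an equation between sums. -/
theorem bal_sum {p m : Fin 2 → G q d} (h : Bal p m) (O : Orb q d) :
    ((if cl (p 0) = O then 1 else 0) + (if cl (p 1) = O then 1 else 0) : ℕ) =
      (if cl (m 0) = O then 1 else 0) + (if cl (m 1) = O then 1 else 0) := by
  have h1 := h O
  rw [card_filter, card_filter, Fin.sum_univ_two, Fin.sum_univ_two] at h1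
  exact h1

/-- Balanced pairs agree up to a permutation. -/
theorem bal_cases {p m : Fin 2 → G q d} (h : Bal p m) :
    (cl (p 0) = cl (m 0) ∧ cl (p 1) = cl (m 1)) ∨
      (cl (p 1) = cl (m 0) ∧ cl (p 0) = cl (m 1)) := by
  have h0 := bal_sum h (cl (p 0))
  have h1 := bal_sum h (cl (p 1))
  rw [if_pos rfl] at h0
  rw [if_pos (rfl : cl (p 1) = cl (p 1))] at h1
  by_cases e0 : cl (m 0) = cl (p 0)
  · left
    refine ⟨e0.symm, ?_⟩
    rw [e0] at h1
    by_contra hc
    have hc' : ¬ cl (m 1) = cl (p 1) := fun e => hc e.symm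
    rw [if_neg hc'] at h1
    omega
  · right
    have e1 : cl (m 1) = cl (p 0) := by
      by_contra hc
      rw [if_neg e0, if_neg hc] at h0
      omega
    refine ⟨?_, e1.symm⟩
    rw [e1] at h1
    by_contra hc
    have hc' : ¬ cl (m 0) = cl (p 1) := fun e => hc e.symm
    rw [if_neg hc'] at h1
    omega

/-- The parametrisation of the balanced pairs. -/
def par (t : Bool × (ZMod q × ZMod q) × (G q d × G q d)) :
    (Fin 2 → G q d) × (Fin 2 → G q d) :=
  (![t.2.2.1, t.2.2.2],
    if t.1 then ![fun i => t.2.1.1 * t.2.2.1 i, fun i => t.2.1.2 * t.2.2.2 i]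
      else ![fun i => t.2.1.2 * t.2.2.2 i, fun i => t.2.1.1 * t.2.2.1 i])

theorem eta2 {X : Type} (p : Fin 2 → X) : ![p 0, p 1] = p := by
  funext i
  fin_cases i <;> rfl

/-- Every balanced pair is in the image. -/
theorem bal_par {p m : Fin 2 → G q d} (h : Bal p m) :
    ∃ t : Bool × (ZMod q × ZMod q) × (G q d × G q d), par t = (p, m) := by
  rcases bal_cases h with ⟨h0, h1⟩ | ⟨h0, h1⟩
  · obtain ⟨u, hu⟩ := (cl_eq _ _).1 h0
    obtain ⟨v, hv⟩ := (cl_eq _ _).1 h1
    refine ⟨(true, ((u : ZMod q), (v : ZMod q)), (p 0, p 1)), ?_⟩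
    have e0 : (fun i => (u : ZMod q) * p 0 i) = m 0 := funext fun i => (hu i).symm
    have e1 : (fun i => (v : ZMod q) * p 1 i) = m 1 := funext fun i => (hv i).symm
    simp only [par, if_true, e0, e1, eta2]
  · obtain ⟨v, hv⟩ := (cl_eq _ _).1 h0
    obtain ⟨u, hu⟩ := (cl_eq _ _).1 h1
    refine ⟨(false, ((u : ZMod q), (v : ZMod q)), (p 0, p 1)), ?_⟩
    have e0 : (fun i => (u : ZMod q) * p 0 i) = m 1 := funext fun i => (hu i).symm
    have e1 : (fun i => (v : ZMod q) * p 1 i) = m 0 := funext fun i => (hv i).symm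
    simp only [par, e0, e1, eta2, Bool.false_eq_true, if_false]

theorem bal_self (p : Fin 2 → G q d) : Bal p p := fun _ => rfl

theorem bal_swap (a b : G q d) : Bal ![a, b] ![b, a] := by
  intro O
  rw [card_filter, card_filter, Fin.sum_univ_two, Fin.sum_univ_two]
  simp only [Matrix.cons_val_zero, Matrix.cons_val_one]
  exact Nat.add_comm _ _

theorem A4_self {a b : G q d} (ha : a ≠ 0) (hb : b ≠ 0) : A4 ![a, b] ![a, b] := by
  refine ⟨fun i => ?_, fun i => ?_, rfl⟩ <;> fin_cases i <;> assumption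

theorem A4_swap {a b : G q d} (ha : a ≠ 0) (hb : b ≠ 0) : A4 ![a, b] ![b, a] := by
  refine ⟨fun i => ?_, fun i => ?_, ?_⟩
  · fin_cases i <;> assumption
  · fin_cases i <;> assumption
  · simp only [Matrix.cons_val_zero, Matrix.cons_val_one]
    exact add_comm _ _

theorem vec_inj {X : Type} {a b a' b' : X} (h : ![a, b] = ![a', b']) : a = a' ∧ b = b' :=
  ⟨congrFun h 0, congrFun h 1⟩

end CNT4aux

open CNT4aux in
theorem t_CNT4 : CNT4_Stmt := by
  classical
  intro q d _
  have hcard : Fintype.card (G q d) = q ^ d := by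
    rw [Fintype.card_fun, ZMod.card, Fintype.card_fin]
  have hn1 : 1 ≤ q ^ d := Nat.one_le_pow _ _ (Nat.pos_of_ne_zero (NeZero.ne q))
  constructor
  · have h1 : ((univ : Finset ((Fin 2 → G q d) × (Fin 2 → G q d))).filter
        fun t => A4 t.1 t.2 ∧ Bal t.1 t.2) ⊆
        (univ : Finset (Bool × (ZMod q × ZMod q) × (G q d × G q d))).image par := by
      intro t ht
      rw [mem_filter] at ht
      obtain ⟨s, hs⟩ := bal_par ht.2.2
      exact mem_image.2 ⟨s, mem_univ _, hs⟩
    have h2 := (card_le_card h1).trans card_image_le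
    rw [card_univ, Fintype.card_prod, Fintype.card_prod, Fintype.card_prod, Fintype.card_prod,
      Fintype.card_bool, ZMod.card, hcard] at h2
    have h3 : ((2 * (q * q * (q ^ d * q ^ d)) : ℕ) : ℝ) = 2 * (q : ℝ) ^ 2 * nn q d ^ 2 := by
      unfold nn
      push_cast
      ring
    rw [← h3]
    exact_mod_cast h2
  · set S := (univ : Finset ((Fin 2 → G q d) × (Fin 2 → G q d))).filter
      fun t => A4 t.1 t.2 ∧ Bal t.1 t.2 with hS
    set Z : Finset (G q d) := univ.erase 0 with hZ
    have hZc : Z.card = q ^ d - 1 := by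
      rw [hZ, card_erase_of_mem (mem_univ _), card_univ, hcard]
    have hi1 : Function.Injective (fun t : G q d × G q d =>
        ((![t.1, t.2], ![t.1, t.2]) : (Fin 2 → G q d) × (Fin 2 → G q d))) := by
      rintro ⟨a, b⟩ ⟨a', b'⟩ h
      have h1 := vec_inj (congrArg Prod.fst h)
      exact Prod.ext h1.1 h1.2
    have hi2 : Function.Injective (fun t : G q d × G q d =>
        ((![t.1, t.2], ![t.2, t.1]) : (Fin 2 → G q d) × (Fin 2 → G q d))) := by
      rintro ⟨a, b⟩ ⟨a', b'⟩ h
      have h1 := vec_inj (congrArg Prod.fst h)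
      exact Prod.ext h1.1 h1.2
    have hdis : Disjoint ((Z ×ˢ Z).image (fun t : G q d × G q d =>
        ((![t.1, t.2], ![t.1, t.2]) : (Fin 2 → G q d) × (Fin 2 → G q d))))
        (Z.offDiag.image (fun t : G q d × G q d =>
        ((![t.1, t.2], ![t.2, t.1]) : (Fin 2 → G q d) × (Fin 2 → G q d)))) := by
      rw [disjoint_left]
      intro t h1 h2
      obtain ⟨⟨a, b⟩, _, rfl⟩ := mem_image.1 h1
      obtain ⟨⟨a', b'⟩, h3, h4⟩ := mem_image.1 h2
      have h5 := vec_inj (congrArg Prod.fst h4)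
      have h6 := vec_inj (congrArg Prod.snd h4)
      have h7 := (mem_offDiag.1 h3).2.2
      exact h7 (h5.1.trans h6.1.symm)
    have hsub : ((Z ×ˢ Z).image (fun t : G q d × G q d =>
        ((![t.1, t.2], ![t.1, t.2]) : (Fin 2 → G q d) × (Fin 2 → G q d)))) ∪
        (Z.offDiag.image (fun t : G q d × G q d =>
        ((![t.1, t.2], ![t.2, t.1]) : (Fin 2 → G q d) × (Fin 2 → G q d)))) ⊆ S := by
      intro t ht
      rw [hS, mem_filter]
      refine ⟨mem_univ _, ?_⟩
      rcases mem_union.1 ht with h | h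
      · obtain ⟨⟨a, b⟩, h1, rfl⟩ := mem_image.1 h
        obtain ⟨ha, hb⟩ := mem_product.1 h1
        exact ⟨A4_self (ne_of_mem_erase ha) (ne_of_mem_erase hb), bal_self _⟩
      · obtain ⟨⟨a, b⟩, h1, rfl⟩ := mem_image.1 h
        obtain ⟨ha, hb, _⟩ := mem_offDiag.1 h1
        exact ⟨A4_swap (ne_of_mem_erase ha) (ne_of_mem_erase hb), bal_swap a b⟩
    have h1 := card_le_card hsub
    rw [card_union_of_disjoint hdis, card_image_of_injective _ hi1, card_image_of_injective _ hi2,
      card_product, offDiag_card, hZc] at h1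
    obtain ⟨N, hN⟩ : ∃ N, q ^ d = N + 1 := ⟨q ^ d - 1, by omega⟩
    have h2 : nn q d = (N : ℝ) + 1 := by
      unfold nn
      exact_mod_cast hN
    have h3 : N ≤ N * N := by
      rcases Nat.eq_zero_or_pos N with h | h
      · simp [h]
      · exact Nat.le_mul_of_pos_left N h
    rw [hN, Nat.add_sub_cancel] at h1
    have h4 : N * N + N * N ≤ S.card + N := by omega
    have h5 : (N : ℝ) * N + N * N ≤ (S.card : ℝ) + N := by exact_mod_cast h4
    rw [h2]
    nlinarith
end Pool.Agent.UAA
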