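import Pool.Agent.UAA.St

/-!
# Uniform mixing on almost all integral Cayley graphs: counting pairs of triples
-/

set_option autoImplicit false

namespace Pool.Agent.UAA

open Finset

namespace CNT6aux

variable {q d : ℕ}

/-- Balanced tuples are matched by a permutation. -/
theorem exists_perm [NeZero q] {k : ℕ} (p m : Fin k → G q d) (h : Bal p m) :
    ∃ σ : Equiv.Perm (Fin k), ∀ i, cl (m (σ i)) = cl (p i) := by
  classical
  have e : ∀ O : Orb q d, Nonempty ({i // cl (p i) = O} ≃ {i // cl (m i) = O}) := by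
    intro O
    rw [← Fintype.card_eq]
    rw [Fintype.card_subtype, Fintype.card_subtype]
    exact h O
  exact ⟨Equiv.ofFiberEquiv (f := fun i => cl (p i)) (g := fun i => cl (m i))
    fun O => (e O).some, fun i => Equiv.ofFiberEquiv_map (f := fun i => cl (p i))
      (g := fun i => cl (m i)) (fun O => (e O).some) i⟩

/-- The first tuple. -/
def P (t : (Fin 2 → G q d) × (Fin 2 → G q d)) : Fin 3 → G q d :=
  ![t.1 0, t.1 1, t.2 0 + t.2 1]

/-- The second tuple. -/
def M (t : (Fin 2 → G q d) × (Fin 2 → G q d)) : Fin 3 → G q d :=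
  ![t.2 0, t.2 1, t.1 0 + t.1 1]

open Classical in
/-- The matched pairs. -/
noncomputable def S [NeZero q] (σ : Equiv.Perm (Fin 3)) (a : Fin 3 → ZMod q) :
    Finset ((Fin 2 → G q d) × (Fin 2 → G q d)) :=
  univ.filter fun t => ∀ i j, M t (σ i) j = a i * P t i j

theorem card_S [NeZero q] (σ : Equiv.Perm (Fin 3)) (a : Fin 3 → ZMod q) :
    (S σ a : Finset ((Fin 2 → G q d) × (Fin 2 → G q d))).card ≤ (q ^ d) * (q ^ d) := by
  classical
  have key : ∀ t ∈ (S σ a : Finset ((Fin 2 → G q d) × (Fin 2 → G q d))),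
      ∀ t' ∈ (S σ a : Finset ((Fin 2 → G q d) × (Fin 2 → G q d))),
      (∀ i, P t i = P t' i) → t = t' := by
    intro t ht t' ht' hP
    have h1 : ∀ i j, M t (σ i) j = a i * P t i j := (mem_filter.1 ht).2
    have h2 : ∀ i j, M t' (σ i) j = a i * P t' i j := (mem_filter.1 ht').2
    have hM : ∀ i, M t i = M t' i := by
      intro i
      obtain ⟨k, rfl⟩ := σ.surjective i
      funext j
      rw [h1, h2, hP]
    apply Prod.ext
    · funext i
      fin_cases i
      · exact hP 0
      · exact hP 1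
    · funext i
      fin_cases i
      · exact hM 0
      · exact hM 1
  obtain ⟨i0, hi0⟩ := σ.surjective 2
  have hcard : (univ : Finset (G q d × G q d)).card = (q ^ d) * (q ^ d) := by
    rw [card_univ, Fintype.card_prod]
    simp [G, ZMod.card]
  rw [← hcard]
  have hsum : ∀ t ∈ (S σ a : Finset ((Fin 2 → G q d) × (Fin 2 → G q d))), ∀ j,
      t.1 0 j + t.1 1 j = a i0 * P t i0 j := by
    intro t ht j
    have h1 : ∀ i j, M t (σ i) j = a i * P t i j := (mem_filter.1 ht).2
    have := h1 i0 j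
    rw [hi0] at this
    exact this
  have h3 : i0 = 0 ∨ i0 = 1 ∨ i0 = 2 := by
    fin_cases i0 <;> simp
  rcases h3 with h | h | h
  · subst h
    apply card_le_card_of_injOn (fun t => (t.1 0, t.2 0 + t.2 1)) (fun _ _ => mem_coe.2 (mem_univ _))
    intro t ht t' ht' hEq
    have e1 : t.1 0 = t'.1 0 := (Prod.ext_iff.1 hEq).1
    have e2 : t.2 0 + t.2 1 = t'.2 0 + t'.2 1 := (Prod.ext_iff.1 hEq).2
    apply key t ht t' ht'
    intro i
    fin_cases i
    · exact e1
    · show t.1 1 = t'.1 1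
      funext j
      have s1 : t.1 0 j + t.1 1 j = a 0 * t.1 0 j := hsum t ht j
      have s2 : t'.1 0 j + t'.1 1 j = a 0 * t'.1 0 j := hsum t' ht' j
      rw [← e1] at s2
      exact add_left_cancel (s1.trans s2.symm)
    · exact e2
  · subst h
    apply card_le_card_of_injOn (fun t => (t.1 1, t.2 0 + t.2 1)) (fun _ _ => mem_coe.2 (mem_univ _))
    intro t ht t' ht' hEq
    have e1 : t.1 1 = t'.1 1 := (Prod.ext_iff.1 hEq).1
    have e2 : t.2 0 + t.2 1 = t'.2 0 + t'.2 1 := (Prod.ext_iff.1 hEq).2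
    apply key t ht t' ht'
    intro i
    fin_cases i
    · show t.1 0 = t'.1 0
      funext j
      have s1 : t.1 0 j + t.1 1 j = a 1 * t.1 1 j := hsum t ht j
      have s2 : t'.1 0 j + t'.1 1 j = a 1 * t'.1 1 j := hsum t' ht' j
      rw [← e1] at s2
      exact add_right_cancel (s1.trans s2.symm)
    · exact e1
    · exact e2
  · subst h
    apply card_le_card_of_injOn (fun t => (t.1 1, t.2 0 + t.2 1)) (fun _ _ => mem_coe.2 (mem_univ _))
    intro t ht t' ht' hEq
    have e1 : t.1 1 = t'.1 1 := (Prod.ext_iff.1 hEq).1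
    have e2 : t.2 0 + t.2 1 = t'.2 0 + t'.2 1 := (Prod.ext_iff.1 hEq).2
    apply key t ht t' ht'
    intro i
    fin_cases i
    · show t.1 0 = t'.1 0
      funext j
      have s1 : t.1 0 j + t.1 1 j = a 2 * (t.2 0 + t.2 1) j := hsum t ht j
      have s2 : t'.1 0 j + t'.1 1 j = a 2 * (t'.2 0 + t'.2 1) j := hsum t' ht' j
      rw [← e1, ← e2] at s2
      exact add_right_cancel (s1.trans s2.symm)
    · exact e1
    · exact e2

end CNT6aux

open CNT6aux in
theorem t_CNT6 : CNT6_Stmt := by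
  classical
  intro q d _
  have hsub : ((univ : Finset ((Fin 2 → G q d) × (Fin 2 → G q d))).filter
      fun t => A3 t.1 ∧ A3 t.2 ∧
        Bal ![t.1 0, t.1 1, t.2 0 + t.2 1] ![t.2 0, t.2 1, t.1 0 + t.1 1]) ⊆
      (univ : Finset (Equiv.Perm (Fin 3) × (Fin 3 → ZMod q))).biUnion
        fun s => (S s.1 s.2 : Finset ((Fin 2 → G q d) × (Fin 2 → G q d))) := by
    intro t ht
    obtain ⟨_, _, _, hB⟩ := mem_filter.1 ht
    obtain ⟨σ, hσ⟩ := exists_perm _ _ hB
    have h1 : ∀ i, ∃ u : (ZMod q)ˣ, ∀ j, M t (σ i) j = u * P t i j := by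
      intro i
      have := (cl_eq _ _).1 (hσ i).symm
      exact this
    choose u hu using h1
    rw [mem_biUnion]
    refine ⟨(σ, fun i => (u i : ZMod q)), mem_univ _, ?_⟩
    exact mem_filter.2 ⟨mem_univ _, fun i j => hu i j⟩
  have h2 := (card_le_card hsub).trans (card_biUnion_le_card_mul _ _ ((q ^ d) * (q ^ d))
    fun s _ => card_S s.1 s.2)
  have h3 : (univ : Finset (Equiv.Perm (Fin 3) × (Fin 3 → ZMod q))).card = 6 * q ^ 3 := by
    rw [card_univ, Fintype.card_prod, Fintype.card_perm, Fintype.card_fun, ZMod.card,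
      Fintype.card_fin]
    rfl
  rw [h3] at h2
  have h4 := (Nat.cast_le (α := ℝ)).2 h2
  refine h4.trans (le_of_eq ?_)
  unfold nn
  push_cast
  ring

end Pool.Agent.UAA
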