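import Pool.Agent.UAA.St

/-!
# Counting pairs of quadruples
-/

set_option autoImplicit false

namespace Pool.Agent.UAA

open Finset

namespace CNT8aux

variable {q d : ℕ}

lemma exists_perm {k : ℕ} {p m : Fin k → G q d} (h : Bal p m) :
    ∃ σ : Equiv.Perm (Fin k), ∀ i, cl (p i) = cl (m (σ i)) := by
  have e : ∀ O : Orb q d, Nonempty ({i // cl (p i) = O} ≃ {i // cl (m i) = O}) := by
    intro O
    rw [← Fintype.card_eq, Fintype.card_subtype, Fintype.card_subtype]
    exact h O
  let e' : ∀ O : Orb q d, {i // cl (p i) = O} ≃ {i // cl (m i) = O} := fun O =>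
    Classical.choice (e O)
  refine ⟨(Equiv.sigmaFiberEquiv fun i => cl (p i)).symm.trans
    ((Equiv.sigmaCongrRight e').trans (Equiv.sigmaFiberEquiv fun i => cl (m i))), fun i => ?_⟩
  exact ((e' (cl (p i))) ⟨i, rfl⟩).2.symm

lemma bal_two {p m : Fin 2 → G q d} (h : (cl (p 0) = cl (m 0) ∧ cl (p 1) = cl (m 1)) ∨
    (cl (p 0) = cl (m 1) ∧ cl (p 1) = cl (m 0))) : Bal p m := by
  intro O
  rw [Finset.card_filter, Finset.card_filter, Fin.sum_univ_two, Fin.sum_univ_two]
  rcases h with ⟨h1, h2⟩ | ⟨h1, h2⟩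
  · rw [h1, h2]
  · rw [h1, h2, add_comm]

/-- The four tuples. -/
abbrev Q4 (q d : ℕ) := (Fin 2 → G q d) × (Fin 2 → G q d) × (Fin 2 → G q d) × (Fin 2 → G q d)

/-- The left side. -/
abbrev PP (t : Q4 q d) : Fin (2 + 2) → G q d := Fin.append t.1 t.2.2.2

/-- The right side. -/
abbrev MM (t : Q4 q d) : Fin (2 + 2) → G q d := Fin.append t.2.1 t.2.2.1

lemma ext4 {t s : Q4 q d} (h1 : PP t = PP s) (h2 : MM t = MM s) : t = s := by
  have a1 : t.1 = s.1 := by
    funext i
    have := congrFun h1 (Fin.castAdd 2 i)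
    simpa only [PP, Fin.append_left] using this
  have a2 : t.2.1 = s.2.1 := by
    funext i
    have := congrFun h2 (Fin.castAdd 2 i)
    simpa only [MM, Fin.append_left] using this
  have a3 : t.2.2.1 = s.2.2.1 := by
    funext i
    have := congrFun h2 (Fin.natAdd 2 i)
    simpa only [MM, Fin.append_right] using this
  have a4 : t.2.2.2 = s.2.2.2 := by
    funext i
    have := congrFun h1 (Fin.natAdd 2 i)
    simpa only [PP, Fin.append_right] using this
  exact Prod.ext a1 (Prod.ext a2 (Prod.ext a3 a4))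

open Classical in
lemma count [NeZero q] (σ : Equiv.Perm (Fin (2 + 2))) (a : Fin (2 + 2) → (ZMod q)ˣ)
    (i j : Fin 2) (hσ : σ (Fin.castAdd 2 i) = Fin.natAdd 2 j) :
    ((univ : Finset (Q4 q d)).filter fun t => t.1 0 + t.1 1 = t.2.1 0 + t.2.1 1 ∧
      ∀ k x, MM t (σ k) x = (a k : ZMod q) * PP t k x).card ≤ (q ^ d) ^ 3 := by
  have hcard : Fintype.card ({k : Fin (2 + 2) // k ≠ Fin.castAdd 2 i} → G q d) =
      (q ^ d) ^ 3 := by
    have h3 : Fintype.card {k : Fin (2 + 2) // k ≠ Fin.castAdd 2 i} = 3 := by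
      rw [Fintype.card_subtype_compl, Fintype.card_fin, Fintype.card_subtype_eq]
    rw [Fintype.card_fun, h3, Fintype.card_fun, ZMod.card, Fintype.card_fin]
  rw [← hcard, ← Finset.card_univ]
  apply Finset.card_le_card_of_injOn
    (fun t => fun k : {k : Fin (2 + 2) // k ≠ Fin.castAdd 2 i} => PP t k)
  · intro t _
    exact Finset.mem_coe.2 (mem_univ _)
  intro t ht s hs hts
  simp only [Finset.coe_filter, mem_univ, true_and, Set.mem_ofPred_eq] at ht hs
  have hP : ∀ k : Fin (2 + 2), k ≠ Fin.castAdd 2 i → PP t k = PP s k := fun k hk =>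
    congrFun hts ⟨k, hk⟩
  have hM : ∀ k : Fin (2 + 2), k ≠ Fin.castAdd 2 i → MM t (σ k) = MM s (σ k) := by
    intro k hk
    funext x
    rw [ht.2, hs.2, hP k hk]
  have hM2 : ∀ l : Fin 2, t.2.1 l = s.2.1 l := by
    intro l
    have h := hM (σ.symm (Fin.castAdd 2 l)) (by
      intro h
      rw [Equiv.symm_apply_eq, hσ] at h
      have h2 := congrArg Fin.val h
      simp at h2
      omega)
    rw [Equiv.apply_symm_apply] at h
    simpa only [MM, Fin.append_left] using h
  have hP2 : ∀ l : Fin 2, l ≠ i → t.1 l = s.1 l := by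
    intro l hl
    have h := hP (Fin.castAdd 2 l) fun h => hl (Fin.castAdd_injective _ _ h)
    simpa only [PP, Fin.append_left] using h
  have hPi : t.1 i = s.1 i := by
    have e1 := ht.1
    have e2 := hs.1
    rw [hM2 0, hM2 1, ← e2] at e1
    fin_cases i
    · have h := hP2 1 (by decide)
      rw [h] at e1
      exact add_right_cancel e1
    · have h := hP2 0 (by decide)
      rw [h] at e1
      exact add_left_cancel e1
  have hPP : PP t = PP s := by
    funext k
    by_cases hk : k = Fin.castAdd 2 i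
    · rw [hk]
      simpa only [PP, Fin.append_left] using hPi
    · exact hP k hk
  refine ext4 hPP ?_
  funext k
  funext x
  have h1 := ht.2 (σ.symm k) x
  have h2 := hs.2 (σ.symm k) x
  rw [Equiv.apply_symm_apply] at h1 h2
  rw [h1, h2, hPP]

/-- If no index of the first half is moved to the second half then both quadruples are
balanced. -/
lemma bal_of (t : Q4 q d) (σ : Equiv.Perm (Fin (2 + 2)))
    (h : ∀ i, cl (PP t i) = cl (MM t (σ i)))
    (hσ : ∀ i j : Fin 2, σ (Fin.castAdd 2 i) ≠ Fin.natAdd 2 j) :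
    Bal t.1 t.2.1 ∧ Bal t.2.2.1 t.2.2.2 := by
  have h0 : ∀ i : Fin 2, σ (Fin.castAdd 2 i) = Fin.castAdd 2 0 ∨
      σ (Fin.castAdd 2 i) = Fin.castAdd 2 1 := by
    intro i
    have h1 := hσ i 0
    have h2 := hσ i 1
    generalize σ (Fin.castAdd 2 i) = y at h1 h2
    revert h1 h2
    revert y
    decide
  have hinj : σ (Fin.castAdd 2 0) ≠ σ (Fin.castAdd 2 1) := fun h => by
    have := σ.injective h
    exact absurd this (by decide)
  have h2 : ∀ i : Fin 2, σ (Fin.natAdd 2 i) = Fin.natAdd 2 0 ∨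
      σ (Fin.natAdd 2 i) = Fin.natAdd 2 1 := by
    intro i
    have e1 : ∀ l : Fin 2, σ (Fin.natAdd 2 i) ≠ σ (Fin.castAdd 2 l) := fun l h => by
      have h3 := congrArg Fin.val (σ.injective h)
      simp at h3
      omega
    have e2 : σ (Fin.natAdd 2 i) ≠ Fin.castAdd 2 0 ∧ σ (Fin.natAdd 2 i) ≠ Fin.castAdd 2 1 := by
      have f0 := e1 0
      have f1 := e1 1
      rcases h0 0 with h3 | h3 <;> rcases h0 1 with h4 | h4 <;> rw [h3] at f0 hinj <;>
        rw [h4] at f1 hinj
      · exact absurd rfl hinj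
      · exact ⟨f0, f1⟩
      · exact ⟨f1, f0⟩
      · exact absurd rfl hinj
    obtain ⟨f0, f1⟩ := e2
    generalize σ (Fin.natAdd 2 i) = y at f0 f1
    revert f0 f1
    revert y
    decide
  have hinj2 : σ (Fin.natAdd 2 0) ≠ σ (Fin.natAdd 2 1) := fun h => by
    have := σ.injective h
    exact absurd this (by decide)
  constructor
  · apply bal_two
    have g0 := h (Fin.castAdd 2 0)
    have g1 := h (Fin.castAdd 2 1)
    rcases h0 0 with h3 | h3 <;> rcases h0 1 with h4 | h4 <;> rw [h3] at g0 hinj <;>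
      rw [h4] at g1 hinj
    · exact absurd rfl hinj
    · left
      simpa only [PP, MM, Fin.append_left] using And.intro g0 g1
    · right
      simpa only [PP, MM, Fin.append_left] using And.intro g0 g1
    · exact absurd rfl hinj
  · apply bal_two
    have g0 := h (Fin.natAdd 2 0)
    have g1 := h (Fin.natAdd 2 1)
    rcases h2 0 with h3 | h3 <;> rcases h2 1 with h4 | h4 <;> rw [h3] at g0 hinj2 <;>
      rw [h4] at g1 hinj2
    · exact absurd rfl hinj2
    · left
      simpa only [PP, MM, Fin.append_right] using And.intro g0.symm g1.symm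
    · right
      simpa only [PP, MM, Fin.append_right] using And.intro g1.symm g0.symm
    · exact absurd rfl hinj2

end CNT8aux

open CNT8aux in
theorem t_CNT8 : CNT8_Stmt := by
  classical
  intro q d _
  set T := (univ : Finset (Q4 q d)).filter
    fun t => A4 t.1 t.2.1 ∧ A4 t.2.2.1 t.2.2.2 ∧
      Bal (Fin.append t.1 t.2.2.2) (Fin.append t.2.1 t.2.2.1) ∧
      ¬ (Bal t.1 t.2.1 ∧ Bal t.2.2.1 t.2.2.2) with hT
  set U : Finset (Equiv.Perm (Fin (2 + 2)) × (Fin (2 + 2) → (ZMod q)ˣ)) :=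
    univ.filter fun s => ∃ i j : Fin 2, s.1 (Fin.castAdd 2 i) = Fin.natAdd 2 j with hU
  let R : Equiv.Perm (Fin (2 + 2)) × (Fin (2 + 2) → (ZMod q)ˣ) → Finset (Q4 q d) := fun s =>
    (univ : Finset (Q4 q d)).filter fun t => t.1 0 + t.1 1 = t.2.1 0 + t.2.1 1 ∧
      ∀ k x, MM t (s.1 k) x = ((s.2 k : (ZMod q)ˣ) : ZMod q) * PP t k x
  have hsub : T ⊆ U.biUnion R := by
    intro t ht
    rw [hT, mem_filter] at ht
    obtain ⟨-, h1, -, h3, h4⟩ := ht
    obtain ⟨σ, hσ⟩ := exists_perm h3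
    have h5 : ∃ i j : Fin 2, σ (Fin.castAdd 2 i) = Fin.natAdd 2 j := by
      by_contra hne
      push Not at hne
      exact h4 (bal_of t σ hσ hne)
    have h6 : ∀ k, ∃ u : (ZMod q)ˣ, ∀ x, MM t (σ k) x = (u : ZMod q) * PP t k x := fun k =>
      (cl_eq _ _).1 (hσ k)
    choose a ha using h6
    rw [mem_biUnion]
    refine ⟨(σ, a), ?_, ?_⟩
    · rw [hU, mem_filter]
      exact ⟨mem_univ _, h5⟩
    · rw [mem_filter]
      exact ⟨mem_univ _, h1.2.2, ha⟩
  have hR : ∀ s ∈ U, (R s).card ≤ (q ^ d) ^ 3 := by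
    rintro ⟨σ, a⟩ hs
    rw [hU, mem_filter] at hs
    obtain ⟨-, i, j, hij⟩ := hs
    exact count σ a i j hij
  have hUc : U.card ≤ 24 * q ^ 4 := by
    refine (Finset.card_le_univ U).trans ?_
    rw [Fintype.card_prod, Fintype.card_perm, Fintype.card_fun, Fintype.card_fin]
    have h1 : Fintype.card (ZMod q)ˣ ≤ q := by
      rw [ZMod.card_units_eq_totient]
      exact Nat.totient_le q
    exact Nat.mul_le_mul le_rfl (Nat.pow_le_pow_left h1 4)
  have hfin : T.card ≤ 24 * q ^ 4 * (q ^ d) ^ 3 :=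
    (card_le_card hsub).trans ((card_biUnion_le_card_mul U R _ hR).trans
      (Nat.mul_le_mul_right _ hUc))
  unfold nn
  exact_mod_cast hfin

end Pool.Agent.UAA
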