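import Pool.Agent.UAA.St

set_option autoImplicit false

namespace Pool.Agent.UAA

open Finset

namespace DETaux

/-- Powers of two close complex numbers, natural exponents. -/
theorem pow_sub (z z0 : ℂ) (R : ℝ) (hR : 1 ≤ R) (hz : ‖z‖ ≤ R) (hz0 : ‖z0‖ = 1) (a : ℕ) :
    ‖z ^ a - z0 ^ a‖ ≤ a * R ^ a * ‖z - z0‖ := by
  induction a with
  | zero => simp
  | succ a ih =>
    have h1 : z ^ (a + 1) - z0 ^ (a + 1) = z ^ a * (z - z0) + (z ^ a - z0 ^ a) * z0 := by ring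
    rw [h1]
    have h2 : ‖z ^ a * (z - z0)‖ ≤ R ^ a * ‖z - z0‖ := by
      rw [norm_mul, norm_pow]
      exact mul_le_mul_of_nonneg_right (pow_le_pow_left₀ (norm_nonneg _) hz a) (norm_nonneg _)
    have h3 : ‖(z ^ a - z0 ^ a) * z0‖ ≤ a * R ^ a * ‖z - z0‖ := by
      rw [norm_mul, hz0, mul_one]; exact ih
    have h4 : R ^ a ≤ R ^ (a + 1) := pow_le_pow_right₀ hR (Nat.le_succ a)
    have h5 : (0 : ℝ) ≤ a := Nat.cast_nonneg a
    have h6 := norm_nonneg (z - z0)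
    calc ‖z ^ a * (z - z0) + (z ^ a - z0 ^ a) * z0‖ ≤ _ := norm_add_le _ _
      _ ≤ R ^ a * ‖z - z0‖ + a * R ^ a * ‖z - z0‖ := add_le_add h2 h3
      _ = ((a + 1 : ℝ) * R ^ a) * ‖z - z0‖ := by ring
      _ ≤ ((a + 1 : ℝ) * R ^ (a + 1)) * ‖z - z0‖ := by
          apply mul_le_mul_of_nonneg_right _ h6
          exact mul_le_mul_of_nonneg_left h4 (by linarith)
      _ = _ := by push_cast; ring

/-- Integer exponents. -/
theorem zpow_sub (z z0 : ℂ) (R : ℝ) (hR : 1 ≤ R) (hz : ‖z‖ ≤ R) (hz' : R⁻¹ ≤ ‖z‖)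
    (hz0 : ‖z0‖ = 1) (a : ℤ) :
    ‖z ^ a - z0 ^ a‖ ≤ |(a : ℝ)| * R ^ (2 * a.natAbs) * ‖z - z0‖ := by
  have hR0 : 0 < R := by linarith
  have hzpos : 0 < ‖z‖ := lt_of_lt_of_le (inv_pos.mpr hR0) hz'
  have hzne : z ≠ 0 := norm_pos_iff.mp hzpos
  have hz0ne : z0 ≠ 0 := by
    intro h; rw [h, norm_zero] at hz0; exact zero_ne_one hz0
  have key : ∀ n : ℕ, ‖z ^ n - z0 ^ n‖ ≤ n * R ^ n * ‖z - z0‖ := pow_sub z z0 R hR hz hz0
  have hmono : ∀ n : ℕ, R ^ n ≤ R ^ (2 * n) := fun n => pow_le_pow_right₀ hR (by omega)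
  have h6 := norm_nonneg (z - z0)
  obtain ⟨n, rfl | rfl⟩ := a.eq_nat_or_neg
  · rw [zpow_natCast, zpow_natCast]
    have : ((n : ℤ)).natAbs = n := Int.natAbs_natCast n
    rw [this]
    have h5 : |(((n : ℤ)) : ℝ)| = n := by
      rw [Int.cast_natCast]; exact abs_of_nonneg (Nat.cast_nonneg n)
    rw [h5]
    refine (key n).trans ?_
    apply mul_le_mul_of_nonneg_right _ h6
    exact mul_le_mul_of_nonneg_left (hmono n) (Nat.cast_nonneg n)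
  · have : (-(n : ℤ)).natAbs = n := by rw [Int.natAbs_neg]; exact Int.natAbs_natCast n
    rw [this]
    have h5 : |((-(n : ℤ) : ℤ) : ℝ)| = n := by
      rw [Int.cast_neg, Int.cast_natCast, abs_neg]; exact abs_of_nonneg (Nat.cast_nonneg n)
    rw [h5, zpow_neg, zpow_neg, zpow_natCast, zpow_natCast]
    have e : (z ^ n)⁻¹ - (z0 ^ n)⁻¹ = (z ^ n)⁻¹ * ((z0 ^ n - z ^ n) * (z0 ^ n)⁻¹) := by
      have h1 : z ^ n ≠ 0 := pow_ne_zero n hzne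
      have h2 : z0 ^ n ≠ 0 := pow_ne_zero n hz0ne
      field_simp
    rw [e, norm_mul, norm_mul, norm_inv, norm_inv, norm_pow, norm_pow, hz0, one_pow, inv_one,
      mul_one, norm_sub_rev]
    have h7 : (‖z‖ ^ n)⁻¹ ≤ R ^ n := by
      rw [← inv_pow]
      apply pow_le_pow_left₀ (by positivity)
      rw [inv_le_comm₀ hzpos hR0]
      exact hz'
    calc (‖z‖ ^ n)⁻¹ * ‖z ^ n - z0 ^ n‖ ≤ R ^ n * (n * R ^ n * ‖z - z0‖) :=
          mul_le_mul h7 (key n) (norm_nonneg _) (by positivity)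
      _ = n * R ^ (2 * n) * ‖z - z0‖ := by rw [two_mul, pow_add]; ring

/-- The size of `n`. -/
theorem large (q : ℕ) (hq : 2 ≤ q) (N0 : ℝ) : ∃ d0 : ℕ, ∀ d ≥ d0,
    N0 ≤ nn q d ∧ 1 ≤ nn q d ∧ 8 * Real.log (nn q d) ≤ nn q d ^ (1 / 4 : ℝ) := by
  have hq1 : (1 : ℝ) < q := by exact_mod_cast (by omega : 1 < q)
  have ht : Filter.Tendsto (fun d : ℕ => nn q d) Filter.atTop Filter.atTop := by
    unfold nn
    exact tendsto_pow_atTop_atTop_of_one_lt hq1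
  have h1 : ∀ᶠ x : ℝ in Filter.atTop, N0 ≤ x ∧ 1 ≤ x ∧ 8 * Real.log x ≤ x ^ (1 / 4 : ℝ) := by
    have h2 := (isLittleO_log_rpow_atTop (r := 1 / 4) (by norm_num)).bound
      (show (0 : ℝ) < 1 / 8 by norm_num)
    filter_upwards [h2, Filter.eventually_ge_atTop N0, Filter.eventually_ge_atTop (1 : ℝ)]
      with x hx hx0 hx1
    refine ⟨hx0, hx1, ?_⟩
    have h3 : ‖Real.log x‖ = Real.log x := Real.norm_of_nonneg (Real.log_nonneg hx1)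
    have h4 : ‖x ^ (1 / 4 : ℝ)‖ = x ^ (1 / 4 : ℝ) :=
      Real.norm_of_nonneg (Real.rpow_nonneg (by linarith) _)
    rw [h3, h4] at hx
    linarith
  exact Filter.eventually_atTop.mp (ht.eventually h1)

/-- The factor is at most `3`. -/
theorem fac (n : ℝ) (hn : 1 ≤ n) (hlog : 8 * Real.log n ≤ n ^ (1 / 4 : ℝ)) (a : ℤ)
    (ha : |(a : ℝ)| ≤ n ^ (3 / 4 : ℝ)) :
    Real.exp (4 * Real.log n / n) ^ (2 * a.natAbs) ≤ 3 := by
  have hn0 : 0 < n := by linarith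
  have hl : 0 ≤ Real.log n := Real.log_nonneg hn
  have h1 : ((2 * a.natAbs : ℕ) : ℝ) * (4 * Real.log n / n) ≤ 1 := by
    have h2 : ((a.natAbs : ℕ) : ℝ) = |(a : ℝ)| := by
      rw [Nat.cast_natAbs, Int.cast_abs]
    push_cast
    rw [h2]
    have h3 : 2 * |(a : ℝ)| * (4 * Real.log n / n) = |(a : ℝ)| * (8 * Real.log n) / n := by ring
    rw [h3, div_le_one hn0]
    calc |(a : ℝ)| * (8 * Real.log n) ≤ n ^ (3 / 4 : ℝ) * n ^ (1 / 4 : ℝ) :=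
          mul_le_mul ha hlog (by positivity) (by positivity)
      _ = n := by
          rw [← Real.rpow_add hn0]; norm_num
  rw [← Real.exp_nat_mul]
  have h4 : Real.exp (((2 * a.natAbs : ℕ) : ℝ) * (4 * Real.log n / n)) ≤ Real.exp 1 :=
    Real.exp_le_exp.mpr h1
  have h5 := Real.exp_one_lt_d9
  linarith

/-- The difference of the powers. -/
theorem dif (n ε : ℝ) (hn : 1 ≤ n) (hlog : 8 * Real.log n ≤ n ^ (1 / 4 : ℝ))
    (z z0 : ℂ) (hz : z ≠ 0) (hzl : |Real.log ‖z‖| ≤ 4 * Real.log n / n) (hz0 : ‖z0‖ = 1)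
    (hd : ‖z - z0‖ ≤ ε * n ^ (-(3 / 4) : ℝ)) (a : ℤ) (ha : |(a : ℝ)| ≤ n ^ (3 / 4 : ℝ)) :
    ‖z ^ a - z0 ^ a‖ ^ 2 ≤ 9 * ε ^ 2 * n ^ (-(3 / 2) : ℝ) * (a : ℝ) ^ 2 := by
  have hn0 : 0 < n := by linarith
  have hzp : 0 < ‖z‖ := norm_pos_iff.mpr hz
  have hl : 0 ≤ Real.log n := Real.log_nonneg hn
  obtain ⟨hl1, hl2⟩ := abs_le.mp hzl
  have h1 : ‖z‖ ≤ Real.exp (4 * Real.log n / n) := by
    rw [← Real.log_le_iff_le_exp hzp]; exact hl2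
  have h2 : (Real.exp (4 * Real.log n / n))⁻¹ ≤ ‖z‖ := by
    rw [← Real.exp_neg, ← Real.le_log_iff_exp_le hzp]; exact hl1
  have hR : 1 ≤ Real.exp (4 * Real.log n / n) := Real.one_le_exp (by positivity)
  have h3 := zpow_sub z z0 _ hR h1 h2 hz0 a
  have h4 := fac n hn hlog a ha
  have h5 : ‖z ^ a - z0 ^ a‖ ≤ |(a : ℝ)| * 3 * (ε * n ^ (-(3 / 4) : ℝ)) := by
    calc ‖z ^ a - z0 ^ a‖ ≤ _ := h3
      _ ≤ |(a : ℝ)| * 3 * (ε * n ^ (-(3 / 4) : ℝ)) := by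
          apply mul_le_mul _ hd (norm_nonneg _) (by positivity)
          exact mul_le_mul_of_nonneg_left h4 (abs_nonneg _)
  have h6 : (n ^ (-(3 / 4) : ℝ)) ^ 2 = n ^ (-(3 / 2) : ℝ) := by
    rw [← Real.rpow_natCast, ← Real.rpow_mul hn0.le]; norm_num
  calc ‖z ^ a - z0 ^ a‖ ^ 2 ≤ (|(a : ℝ)| * 3 * (ε * n ^ (-(3 / 4) : ℝ))) ^ 2 :=
        pow_le_pow_left₀ (norm_nonneg _) h5 2
    _ = 9 * ε ^ 2 * (n ^ (-(3 / 4) : ℝ)) ^ 2 * |(a : ℝ)| ^ 2 := by ring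
    _ = _ := by rw [h6, sq_abs]

/-- The sums of the differences. -/
theorem sums (hPAR : PAR_Stmt) (q d : ℕ) [NeZero q] (l m : G q d → ℤ) (ε : ℝ)
    (hn : 1 ≤ nn q d) (hlog : 8 * Real.log (nn q d) ≤ nn q d ^ (1 / 4 : ℝ))
    (hT1 : ∀ x, x ≠ 0 → |(l x : ℝ)| ≤ nn q d ^ (3 / 4 : ℝ))
    (hT3 : ∑ x, (l x : ℝ) ^ 2 ≤ nn q d ^ 2) (z z0 : ℂ) (hz : z ≠ 0)
    (hzl : |Real.log ‖z‖| ≤ 4 * Real.log (nn q d) / nn q d) (hz0 : ‖z0‖ = 1)
    (hd : ‖z - z0‖ ≤ ε * nn q d ^ (-(3 / 4) : ℝ)) (hm : ∀ x, m x = l x ∨ m x = - l x)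
    (u u0 : G q d → ℂ)
    (hu : ∀ b, u b = ∑ x ∈ (univ : Finset (G q d)).erase 0, z ^ (m x) * ch b x)
    (hu0 : ∀ b, u0 b = ∑ x ∈ (univ : Finset (G q d)).erase 0, z0 ^ (m x) * ch b x) :
    ∑ b, ‖u b - u0 b‖ ^ 2 ≤ 9 * ε ^ 2 * nn q d ^ (3 / 2 : ℝ) ∧
    ∀ b, ‖u b - u0 b‖ ^ 2 ≤ 9 * ε ^ 2 * nn q d ^ (3 / 2 : ℝ) := by
  classical
  have hn0 : 0 < nn q d := by linarith
  have hmr : ∀ x, |(m x : ℝ)| = |(l x : ℝ)| := by
    intro x
    rcases hm x with h | h <;> rw [h]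
    rw [Int.cast_neg, abs_neg]
  have hms : ∀ x, (m x : ℝ) ^ 2 = (l x : ℝ) ^ 2 := by
    intro x
    rw [← sq_abs, hmr x, sq_abs]
  set f : G q d → ℂ := fun x => if x = 0 then 0 else z ^ (m x) - z0 ^ (m x) with hf
  have hdiff : ∀ b, u b - u0 b = ∑ x, f x * ch b x := by
    intro b
    rw [hu, hu0, ← Finset.sum_sub_distrib]
    rw [← Finset.add_sum_erase univ (fun x => f x * ch b x) (Finset.mem_univ (0 : G q d))]
    have : f 0 * ch b 0 = 0 := by simp [hf]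
    rw [this, zero_add]
    refine Finset.sum_congr rfl fun x hx => ?_
    have hx0 : x ≠ 0 := Finset.ne_of_mem_erase hx
    simp only [hf, if_neg hx0]
    ring
  have hfs : ∑ x, ‖f x‖ ^ 2 ≤ 9 * ε ^ 2 * nn q d ^ (-(3 / 2) : ℝ) * nn q d ^ 2 := by
    calc ∑ x, ‖f x‖ ^ 2 ≤ ∑ x, 9 * ε ^ 2 * nn q d ^ (-(3 / 2) : ℝ) * (l x : ℝ) ^ 2 := by
          refine Finset.sum_le_sum fun x _ => ?_
          by_cases hx : x = 0
          · simp only [hf, if_pos hx, norm_zero]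
            have : (0 : ℝ) ≤ 9 * ε ^ 2 * nn q d ^ (-(3 / 2) : ℝ) * (l x : ℝ) ^ 2 := by positivity
            simpa using this
          · simp only [hf, if_neg hx]
            have := dif (nn q d) ε hn hlog z z0 hz hzl hz0 hd (m x) (by rw [hmr]; exact hT1 x hx)
            rw [hms] at this
            exact this
      _ = 9 * ε ^ 2 * nn q d ^ (-(3 / 2) : ℝ) * ∑ x, (l x : ℝ) ^ 2 := by rw [Finset.mul_sum]
      _ ≤ _ := mul_le_mul_of_nonneg_left hT3 (by positivity)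
  have hfin : nn q d * (9 * ε ^ 2 * nn q d ^ (-(3 / 2) : ℝ) * nn q d ^ 2) =
      9 * ε ^ 2 * nn q d ^ (3 / 2 : ℝ) := by
    have h1 : nn q d ^ (3 / 2 : ℝ) = nn q d ^ (-(3 / 2) : ℝ) * nn q d ^ (3 : ℕ) := by
      rw [← Real.rpow_natCast (nn q d) 3, ← Real.rpow_add hn0]; norm_num
    rw [h1]; ring
  have hle : nn q d * ∑ x, ‖f x‖ ^ 2 ≤ 9 * ε ^ 2 * nn q d ^ (3 / 2 : ℝ) := by
    rw [← hfin]
    exact mul_le_mul_of_nonneg_left hfs hn0.le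
  obtain ⟨hp1, hp2⟩ := hPAR q d f
  constructor
  · simp only [hdiff]
    rw [hp1]; exact hle
  · intro b
    rw [hdiff b]
    exact (hp2 b).trans hle

end DETaux

open DETaux in
theorem t_DET : DET_Stmt := by
  intro hFOU hPAR hLIN q _ hq
  have hq1 : (1 : ℝ) ≤ (q : ℝ) := by exact_mod_cast (by omega : 1 ≤ q)
  obtain ⟨τ, ε, N0, hτ, hε, hε1, hL⟩ := hLIN ((q : ℝ) ^ 2) (one_le_pow₀ hq1)
  obtain ⟨d0, hd0⟩ := large q hq N0
  refine ⟨τ, ε, hτ, hε, hε1, d0, ?_⟩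
  intro d hdd l hTyp z z0 hTII hzl hz0 hd hGd
  obtain ⟨hN0, hn1, hlog⟩ := hd0 d hdd
  obtain ⟨hT1, _, hT3, hT4⟩ := hTyp
  obtain ⟨hzne, hflat⟩ := hTII
  obtain ⟨hG1, hG2, hG3⟩ := hGd
  have hn0 : 0 < nn q d := by linarith
  obtain ⟨hF1, hF2, hF3, hF4, hF5⟩ := hFOU q d l z0 hz0 hT4
    (fun b => ∑ x ∈ (univ : Finset (G q d)).erase 0, z0 ^ (l x) * ch b x) (fun b => rfl)
  have hF2r : ∑ b : G q d, ‖∑ x ∈ (univ : Finset (G q d)).erase 0, z0 ^ (l x) * ch b x‖ ^ 4 =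
      nn q d * (T4 l z0).re := by
    have := congrArg Complex.re hF2
    rw [Complex.re_ofReal_mul, Complex.re_sum] at this
    rw [← this]
    refine Finset.sum_congr rfl fun b _ => ?_
    rw [Complex.ofReal_re]
  have hcb0 : ∀ b : G q d, ch b 0 = 1 := by
    intro b
    simp [ch]
  obtain ⟨hs1, hs2⟩ := sums hPAR q d l l ε hn1 hlog hT1 hT3 z z0 hzne hzl hz0 hd
    (fun x => Or.inl rfl)
    (fun b => ∑ x ∈ (univ : Finset (G q d)).erase 0, z ^ (l x) * ch b x)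
    (fun b => ∑ x ∈ (univ : Finset (G q d)).erase 0, z0 ^ (l x) * ch b x)
    (fun b => rfl) (fun b => rfl)
  obtain ⟨hs3, hs4⟩ := sums hPAR q d l (fun x => - l x) ε hn1 hlog hT1 hT3 z z0 hzne hzl hz0 hd
    (fun x => Or.inr rfl)
    (fun b => ∑ x ∈ (univ : Finset (G q d)).erase 0, z ^ (-(l x)) * ch b x)
    (fun b => ∑ x ∈ (univ : Finset (G q d)).erase 0, z0 ^ (-(l x)) * ch b x)
    (fun b => rfl) (fun b => rfl)
  refine hL (G q d) (nn q d) hN0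
    (fun b => ∑ x ∈ (univ : Finset (G q d)).erase 0, z0 ^ (l x) * ch b x)
    (fun b => ∑ x ∈ (univ : Finset (G q d)).erase 0, z ^ (l x) * ch b x)
    (fun b => ∑ x ∈ (univ : Finset (G q d)).erase 0, z ^ (-(l x)) * ch b x)
    (z ^ (l 0)) (zpow_ne_zero _ hzne) hF1 ?_ ?_ ?_ hF4 ?_ hs1 ?_ hs2 ?_ ?_
  · rw [hF2r]
    calc 17 / 10 * nn q d ^ 3 = nn q d * (17 / 10 * nn q d ^ 2) := by ring
      _ ≤ _ := mul_le_mul_of_nonneg_left hG1 hn0.le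
  · rw [hF2r]
    calc nn q d * (T4 l z0).re ≤ nn q d * (3 * (q : ℝ) ^ 2 * nn q d ^ 2) :=
          mul_le_mul_of_nonneg_left ((Complex.re_le_norm _).trans hG2) hn0.le
      _ = _ := by ring
  · rw [hF3, norm_mul, Complex.norm_real, Real.norm_of_nonneg hn0.le, mul_pow]
    calc nn q d ^ 2 * ‖T3 l z0‖ ^ 2 ≤ nn q d ^ 2 * (τ * nn q d ^ 3) :=
          mul_le_mul_of_nonneg_left hG3 (by positivity)
      _ = _ := by ring
  · simp [nn, G, ZMod.card]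
  · simp only [← hF5]
    exact hs3
  · intro b
    rw [← hF5 b]
    exact hs4 b
  · intro b
    have h := hflat b
    rw [← Finset.add_sum_erase univ (fun x => z ^ (l x) * ch b x) (Finset.mem_univ (0 : G q d)),
      ← Finset.add_sum_erase univ (fun x => z ^ (-(l x)) * ch b x) (Finset.mem_univ (0 : G q d)),
      hcb0, mul_one, mul_one, zpow_neg] at h
    exact h

end Pool.Agent.UAA
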