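import Pool.Agent.UAA.St

/-!
# The expectation of a monomial
-/

set_option autoImplicit false

namespace Pool.Agent.UAA

open Finset

namespace EXPaux

theorem zpow_sum {ι : Type} (s : Finset ι) (z : ℂ) (hz : z ≠ 0) (f : ι → ℤ) :
    z ^ (∑ i ∈ s, f i) = ∏ i ∈ s, z ^ f i := by
  classical
  induction s using Finset.induction_on with
  | empty => simp
  | insert a s ha ih => rw [sum_insert ha, prod_insert ha, zpow_add₀ hz, ih]

theorem part1 (q d : ℕ) [NeZero q] (z : ℂ) (hz : z ≠ 0) (e : Orb q d → ℤ) :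
    ∑ ω : Om q d, z ^ (∑ O : Orb q d, if O ≠ cl 0 ∧ ω O = true then e O else 0) =
      ∏ O : Orb q d, if O = cl 0 then 2 else (1 + z ^ e O) := by
  classical
  have h1 : ∀ ω : Om q d, z ^ (∑ O : Orb q d, if O ≠ cl 0 ∧ ω O = true then e O else 0) =
      ∏ O : Orb q d, (if O ≠ cl 0 ∧ ω O = true then z ^ e O else 1) := by
    intro ω
    rw [zpow_sum _ z hz]
    refine prod_congr rfl fun O _ => ?_
    split_ifs <;> simp
  rw [sum_congr rfl fun ω _ => h1 ω]
  have h2 := Finset.prod_univ_sum (fun _ : Orb q d => (univ : Finset Bool))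
    (fun O b => (if O ≠ cl 0 ∧ b = true then z ^ e O else 1 : ℂ))
  rw [Fintype.piFinset_univ] at h2
  rw [← h2]
  refine prod_congr rfl fun O _ => ?_
  rw [Fintype.sum_bool]
  by_cases hO : O = cl 0
  · simp only [hO, ne_eq, not_true_eq_false, false_and, if_false, if_true]
    norm_num
  · simp only [hO, ne_eq, not_false_eq_true, and_true, if_true, Bool.false_eq_true, and_false,
      if_false]
    ring

end EXPaux

theorem t_EXP : EXP_Stmt := by
  intro q d _ z hz
  refine ⟨fun e => EXPaux.part1 q d z hz e, fun k p m => ?_⟩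
  rw [← EXPaux.part1 q d z hz (ex p m)]
  refine sum_congr rfl fun ω _ => ?_
  congr 1
  simp only [la]
  rw [sum_comm, sum_comm (s := (univ : Finset (Fin k))), ← sum_sub_distrib]
  refine sum_congr rfl fun O _ => ?_
  by_cases h : O ≠ cl 0 ∧ ω O = true
  · simp only [h, and_self, if_true, ex, ne_eq, not_false_eq_true]
  · simp only [h, if_false, sum_const_zero, sub_zero]

end Pool.Agent.UAA
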