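import Pool.Agent.UAA.St

/-!
Flatness for all conjugates (MP_e32761_co).
-/

set_option autoImplicit false

namespace Pool.Agent.UAA

open Finset

namespace FLTaux

open Pool.Agent.Lib_helper58.CayleyUM Pool.Agent.UMix

variable {q d : ℕ} [NeZero q]

theorem ch_add (b x y : G q d) : ch b (x + y) = ch b x * ch b y := by
  unfold ch
  rw [← AddChar.map_add_eq_mul]
  congr 1
  rw [← Finset.sum_add_distrib]
  exact Finset.sum_congr rfl fun i _ => by rw [Pi.add_apply, mul_add]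

theorem ch_zero (b : G q d) : ch b 0 = 1 := by
  unfold ch
  have : ∑ i, b i * (0 : G q d) i = 0 := by simp
  rw [this]
  exact AddChar.map_zero_eq_one _

theorem chr_eq_ch (x c : G q d) : chr x c = ch x c := rfl

theorem chr_add (x y : G q d) : chr (x + y) = chr x + chr y := by
  ext c
  rw [AddChar.add_apply]
  show (ZMod.stdAddChar (∑ i, (x + y) i * c i) : ℂ) =
    ZMod.stdAddChar (∑ i, x i * c i) * ZMod.stdAddChar (∑ i, y i * c i)
  rw [← AddChar.map_add_eq_mul]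
  congr 1
  rw [← Finset.sum_add_distrib]
  exact Finset.sum_congr rfl fun i _ => by rw [Pi.add_apply, add_mul]

theorem chr_ne (η : G q d) (h : η ≠ 0) : chr η ≠ 0 := by
  intro h0
  apply h
  apply chr_injective
  rw [h0]
  ext c
  show (1 : ℂ) = (ZMod.stdAddChar (∑ i, (0 : G q d) i * c i) : ℂ)
  have : ∑ i, (0 : G q d) i * c i = 0 := by simp
  rw [this, AddChar.map_zero_eq_one]

/-- The autocorrelation. -/
noncomputable def PP (l : G q d → ℤ) (z : ℂ) (η : G q d) : ℂ :=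
  ∑ x, z ^ (l x - l (x + η))

theorem ph_z (hL : LAM_Stmt) (ω : Om q d) (t : ℝ) (x : G q d) :
    ph (Cs ω) t (chr x) = Complex.exp (Complex.I * (t : ℂ)) ^ (la ω x) := by
  unfold ph lam
  have h := (hL q d).1 ω x
  rw [← Complex.exp_int_mul]
  congr 1
  have h2 : ∑ c ∈ Cs ω, (chr x) c = ∑ c ∈ Cs ω, ch x c := rfl
  rw [h2, ← h]
  ring

theorem PP_zero (hL : LAM_Stmt) (ω : Om q d) (t : ℝ) (hF : Flat (Cs ω) t) (η : G q d)
    (hη : η ≠ 0) : PP (la ω) (Complex.exp (Complex.I * (t : ℂ))) η = 0 := by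
  have h := autocorr hF (chr η) (chr_ne η hη)
  rw [← (Equiv.ofBijective _ (chr_bijective (q := q) (d := d))).sum_comp] at h
  rw [← h]
  unfold PP
  refine Finset.sum_congr rfl fun x _ => ?_
  have e1 : (Equiv.ofBijective _ (chr_bijective (q := q) (d := d))) x = chr x := rfl
  rw [e1, ← chr_add, ph_z hL, ph_z hL]
  have hz : Complex.exp (Complex.I * (t : ℂ)) ≠ 0 := Complex.exp_ne_zero _
  have hc : (starRingEnd ℂ) (Complex.exp (Complex.I * (t : ℂ))) =
      (Complex.exp (Complex.I * (t : ℂ)))⁻¹ := by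
    rw [← Complex.exp_conj, ← Complex.exp_neg]
    congr 1
    simp
  rw [map_zpow₀, hc, zpow_sub₀ hz, inv_zpow, div_eq_mul_inv]

/-- A shift that makes all exponents nonnegative. -/
noncomputable def WW (l : G q d → ℤ) (η : G q d) : ℕ := ∑ x, (l x - l (x + η)).natAbs

theorem WW_le (l : G q d → ℤ) (η x : G q d) : 0 ≤ l x - l (x + η) + (WW l η : ℤ) := by
  have h : (l x - l (x + η)).natAbs ≤ WW l η :=
    Finset.single_le_sum (f := fun x => (l x - l (x + η)).natAbs) (fun i _ => Nat.zero_le _)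
      (Finset.mem_univ x)
  omega

/-- The exponents. -/
noncomputable def NN (l : G q d → ℤ) (η x : G q d) : ℕ := (l x - l (x + η) + (WW l η : ℤ)).toNat

theorem NN_cast (l : G q d → ℤ) (η x : G q d) :
    ((NN l η x : ℕ) : ℤ) = l x - l (x + η) + (WW l η : ℤ) :=
  Int.toNat_of_nonneg (WW_le l η x)

/-- The polynomial. -/
noncomputable def QQ (l : G q d → ℤ) (η : G q d) : Polynomial ℤ :=
  ∑ x, (Polynomial.X : Polynomial ℤ) ^ (NN l η x)

theorem QQ_eval (l : G q d → ℤ) (η : G q d) (z : ℂ) (hz : z ≠ 0) :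
    Polynomial.aeval z (QQ l η) = z ^ (WW l η) * PP l z η := by
  unfold QQ PP
  rw [map_sum, Finset.mul_sum]
  refine Finset.sum_congr rfl fun x _ => ?_
  rw [map_pow, Polynomial.aeval_X, ← zpow_natCast, NN_cast, add_comm, zpow_add₀ hz, zpow_natCast]

theorem QQ_monic (l : G q d → ℤ) (η : G q d) (h : ∀ x : G q d, x ≠ 0 →
    l x - l (x + η) < l 0 - l (0 + η)) : (QQ l η).Monic := by
  classical
  unfold QQ
  rw [← Finset.add_sum_erase _ _ (Finset.mem_univ (0 : G q d))]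
  refine Polynomial.monic_X_pow_add ?_
  refine (Polynomial.degree_sum_le _ _).trans_lt ?_
  rw [Finset.sup_lt_iff (WithBot.bot_lt_coe _)]
  intro x hx
  rw [Polynomial.degree_X_pow]
  have hx0 : x ≠ 0 := Finset.ne_of_mem_erase hx
  have h1 := h x hx0
  have h2 := NN_cast l η x
  have h3 := NN_cast l η 0
  exact_mod_cast (by omega : NN l η x < NN l η 0)

/-- The product formula. -/
theorem TII_of (l : G q d → ℤ) (hl : ∀ x, l (-x) = l x) (z : ℂ) (hz : z ≠ 0)
    (hP : ∀ η : G q d, η ≠ 0 → PP l z η = 0) : TII l z := by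
  classical
  refine ⟨hz, fun b => ?_⟩
  have h1 : ∑ x, z ^ (-(l x)) * ch b x = ∑ y, z ^ (-(l y)) * ch b (-y) := by
    rw [← Equiv.sum_comp (Equiv.neg (G q d)) fun x => z ^ (-(l x)) * ch b x]
    refine Finset.sum_congr rfl fun y _ => ?_
    rw [Equiv.neg_apply, hl]
  rw [h1, Finset.sum_mul_sum]
  have h2 : ∀ x : G q d, ∑ y, z ^ (l x) * ch b x * (z ^ (-(l y)) * ch b (-y)) =
      ∑ η, ch b (-η) * z ^ (l x - l (x + η)) := by
    intro x
    rw [← Equiv.sum_comp (Equiv.addLeft x) fun y => z ^ (l x) * ch b x * (z ^ (-(l y)) * ch b (-y))]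
    refine Finset.sum_congr rfl fun η _ => ?_
    rw [Equiv.coe_addLeft, sub_eq_add_neg, zpow_add₀ hz]
    have e : ch b (-η) = ch b x * ch b (-(x + η)) := by
      rw [← ch_add]
      congr 1
      abel
    rw [e]
    ring
  rw [Finset.sum_congr rfl fun x _ => h2 x, Finset.sum_comm]
  have h3 : ∀ η : G q d, ∑ x, ch b (-η) * z ^ (l x - l (x + η)) = ch b (-η) * PP l z η := by
    intro η
    rw [PP, Finset.mul_sum]
  rw [Finset.sum_congr rfl fun η _ => h3 η, Finset.sum_eq_single (0 : G q d)]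
  · rw [neg_zero, ch_zero, one_mul, PP]
    simp only [add_zero, sub_self, zpow_zero, Finset.sum_const, Finset.card_univ, nsmul_eq_mul,
      mul_one, nn, Fintype.card_fun, ZMod.card, Fintype.card_fin]
    push_cast
    ring
  · intro η _ hη
    rw [hP η hη, mul_zero]
  · intro h
    exact absurd (Finset.mem_univ _) h

/-- The exponent at `0` is the largest. -/
theorem expo_lt (l : G q d → ℤ) (hl : Typ l) (hn : (9 : ℝ) ^ 4 < nn q d) (η x : G q d)
    (hη : η ≠ 0) (hx : x ≠ 0) : l x - l (x + η) < l 0 - l (0 + η) := by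
  obtain ⟨h1, h2, -, -⟩ := hl
  have hn0 : 0 < nn q d := lt_trans (by norm_num) hn
  have h4 : 9 * nn q d ^ (3 / 4 : ℝ) < nn q d := by
    have h5 : (9 : ℝ) < nn q d ^ (1 / 4 : ℝ) := by
      have : ((9 : ℝ) ^ 4) ^ (1 / 4 : ℝ) = 9 := by
        rw [← Real.rpow_natCast, ← Real.rpow_mul (by norm_num)]
        norm_num
      rw [← this]
      exact Real.rpow_lt_rpow (by norm_num) hn (by norm_num)
    have h6 : nn q d = nn q d ^ (1 / 4 : ℝ) * nn q d ^ (3 / 4 : ℝ) := by
      rw [← Real.rpow_add hn0]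
      norm_num
    have h7 : 0 < nn q d ^ (3 / 4 : ℝ) := Real.rpow_pos_of_pos hn0 _
    calc 9 * nn q d ^ (3 / 4 : ℝ) < nn q d ^ (1 / 4 : ℝ) * nn q d ^ (3 / 4 : ℝ) :=
          mul_lt_mul_of_pos_right h5 h7
      _ = nn q d := h6.symm
  have hw : 0 < nn q d ^ (3 / 4 : ℝ) := Real.rpow_pos_of_pos hn0 _
  have hx1 := abs_le.mp (h1 x hx)
  have hη1 := abs_le.mp (h1 η hη)
  rw [zero_add]
  have hgoal : ((l x - l (x + η) : ℤ) : ℝ) < ((l 0 - l η : ℤ) : ℝ) := by
    push_cast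
    by_cases h0 : x + η = 0
    · rw [h0]
      linarith [hx1.1, hx1.2, hη1.1, hη1.2]
    · have hs := abs_le.mp (h1 _ h0)
      linarith [hx1.1, hx1.2, hη1.1, hη1.2, hs.1, hs.2]
  exact_mod_cast hgoal

end FLTaux

open FLTaux in
theorem t_FLT : FLT_Stmt := by
  intro hL q _ hq
  refine ⟨13, fun d hd ω hω t hF => ?_⟩
  have hn : (9 : ℝ) ^ 4 < nn q d := by
    have h1 : (2 : ℝ) ^ 13 ≤ (q : ℝ) ^ d := by
      calc (2 : ℝ) ^ 13 ≤ (q : ℝ) ^ 13 :=
            pow_le_pow_left₀ (by norm_num) (by exact_mod_cast hq) 13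
        _ ≤ (q : ℝ) ^ d := pow_le_pow_right₀ (by exact_mod_cast (by omega : 1 ≤ q)) hd
    unfold nn
    refine lt_of_lt_of_le ?_ h1
    norm_num
  set z : ℂ := Complex.exp (Complex.I * (t : ℂ)) with hz
  have hz0 : z ≠ 0 := Complex.exp_ne_zero _
  have hP : ∀ η : G q d, η ≠ 0 → PP (la ω) z η = 0 := fun η hη => PP_zero hL ω t hF η hη
  have hQ : ∀ η : G q d, η ≠ 0 → Polynomial.aeval z (QQ (la ω) η) = 0 := by
    intro η hη
    rw [QQ_eval _ _ _ hz0, hP η hη, mul_zero]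
  -- a nonzero element
  have : Fact (1 < q) := ⟨by omega⟩
  have hex : ∃ η : G q d, η ≠ 0 := by
    refine ⟨fun _ => 1, fun h => ?_⟩
    have := congrFun h ⟨0, by omega⟩
    exact one_ne_zero this
  obtain ⟨η0, hη0⟩ := hex
  have hint : IsIntegral ℤ z :=
    ⟨QQ (la ω) η0, QQ_monic _ _ fun x hx => expo_lt _ hω hn η0 x hη0 hx, hQ η0 hη0⟩
  refine ⟨hint, fun z' hz' => ?_⟩
  have hintQ : IsIntegral ℚ z := hint.tower_top
  have hz'0 : z' ≠ 0 := by
    intro h0
    rw [h0, ← Polynomial.coeff_zero_eq_aeval_zero'] at hz'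
    have h1 : (minpoly ℚ z).coeff 0 = 0 := by
      have := (algebraMap ℚ ℂ).injective (hz'.trans (map_zero _).symm)
      exact this
    exact minpoly.coeff_zero_ne_zero hintQ hz0 h1
  refine TII_of _ hω.2.2.2 z' hz'0 fun η hη => ?_
  have hd : minpoly ℚ z ∣ (QQ (la ω) η).map (Int.castRingHom ℚ) := by
    refine minpoly.dvd ℚ z ?_
    rw [← hQ η hη]
    exact Polynomial.aeval_map_algebraMap ℚ z (QQ (la ω) η)
  obtain ⟨R, hR⟩ := hd
  have h1 : Polynomial.aeval z' ((QQ (la ω) η).map (Int.castRingHom ℚ)) = 0 := by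
    rw [hR, map_mul, hz', zero_mul]
  have h2 : Polynomial.aeval z' (QQ (la ω) η) = 0 := by
    rw [← h1]
    exact (Polynomial.aeval_map_algebraMap ℚ z' (QQ (la ω) η)).symm
  rw [QQ_eval _ _ _ hz'0] at h2
  exact (mul_eq_zero.mp h2).resolve_left (pow_ne_zero _ hz'0)

end Pool.Agent.UAA
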