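import Pool.Agent.UAA.St
import Pool.Agent.UMix.Perp

/-!
# Module FOU: Fourier identities and the Parseval identity
-/

set_option autoImplicit false

namespace Pool.Agent.UAA

open Finset

namespace FOUaux

variable {q d : ℕ} [NeZero q]

theorem sum_ch (v : G q d) : ∑ b, ch b v = if v = 0 then (nn q d : ℂ) else 0 := by
  have h := Pool.Agent.UMix.sum_dot (q := q) v
  rw [Fintype.card_fin] at h
  have e : ∑ b, ch b v = ∑ y : G q d, (ZMod.stdAddChar (∑ i, v i * y i) : ℂ) := by
    refine Finset.sum_congr rfl fun b _ => ?_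
    unfold ch
    have e' : ∑ i, b i * v i = ∑ i, v i * b i :=
      Finset.sum_congr rfl fun i _ => mul_comm (b i) (v i)
    rw [e']
  rw [e, h]
  unfold nn
  push_cast
  rfl

theorem ch_add (b x y : G q d) : ch b (x + y) = ch b x * ch b y := by
  unfold ch
  have e : ∑ i, b i * (x + y) i = ∑ i, b i * x i + ∑ i, b i * y i := by
    rw [← Finset.sum_add_distrib]
    exact Finset.sum_congr rfl fun i _ => mul_add (b i) (x i) (y i)
  rw [e, AddChar.map_add_eq_mul]

theorem ch_zero (b : G q d) : ch b 0 = 1 := by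
  unfold ch
  simp

theorem ch_neg (b x : G q d) : ch b (-x) = (starRingEnd ℂ) (ch b x) := by
  unfold ch
  have e : ∑ i, b i * (-x) i = -(∑ i, b i * x i) := by
    rw [← Finset.sum_neg_distrib]
    exact Finset.sum_congr rfl fun i _ => by simp
  rw [e, AddChar.map_neg_eq_conj]

theorem ch_norm (b x : G q d) : ‖ch b x‖ = 1 := by
  unfold ch
  exact AddChar.norm_apply _ _

/-- The transform. -/
noncomputable def U (F : G q d → ℂ) (b : G q d) : ℂ := ∑ x, F x * ch b x

theorem U_conj (F : G q d → ℂ) (b : G q d) :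
    (starRingEnd ℂ) (U F b) = ∑ x, (starRingEnd ℂ) (F x) * ch b (-x) := by
  unfold U
  rw [map_sum]
  refine Finset.sum_congr rfl fun x _ => ?_
  rw [map_mul, ch_neg]

theorem parseval (F : G q d → ℂ) : ∑ b, ‖U F b‖ ^ 2 = nn q d * ∑ x, ‖F x‖ ^ 2 := by
  have h : ((∑ b, ‖U F b‖ ^ 2 : ℝ) : ℂ) = ((nn q d * ∑ x, ‖F x‖ ^ 2 : ℝ) : ℂ) := by
    push_cast
    have e1 : ∀ b, ((‖U F b‖ : ℂ)) ^ 2 = ∑ x, ∑ y, F x * (starRingEnd ℂ) (F y) * ch b (x + -y) := by
      intro b
      rw [← Complex.mul_conj', U_conj]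
      unfold U
      rw [Finset.sum_mul]
      refine Finset.sum_congr rfl fun x _ => ?_
      rw [Finset.mul_sum]
      refine Finset.sum_congr rfl fun y _ => ?_
      rw [ch_add]
      ring
    rw [Finset.sum_congr rfl fun b _ => e1 b, Finset.sum_comm, Finset.mul_sum]
    refine Finset.sum_congr rfl fun x _ => ?_
    rw [Finset.sum_comm]
    have e2 : ∀ y, ∑ b, F x * (starRingEnd ℂ) (F y) * ch b (x + -y) =
        if x = y then (nn q d : ℂ) * (F x * (starRingEnd ℂ) (F y)) else 0 := by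
      intro y
      rw [← Finset.mul_sum, sum_ch]
      by_cases hxy : x = y
      · rw [if_pos hxy, if_pos (by rw [hxy]; simp)]
        ring
      · rw [if_neg hxy, if_neg (fun h => hxy (by
          rw [← sub_eq_add_neg] at h
          exact sub_eq_zero.1 h)), mul_zero]
    rw [Finset.sum_congr rfl fun y _ => e2 y, Finset.sum_ite_eq, if_pos (Finset.mem_univ _),
      Complex.mul_conj']
  exact_mod_cast h

/-- Square of the transform. -/
theorem U_sq (F : G q d → ℂ) (b : G q d) :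
    U F b * U F b = ∑ p : Fin 2 → G q d, F (p 0) * F (p 1) * ch b (p 0 + p 1) := by
  have e : ∑ p : Fin 2 → G q d, F (p 0) * F (p 1) * ch b (p 0 + p 1) =
      ∑ z : G q d × G q d, F z.1 * F z.2 * ch b (z.1 + z.2) :=
    Fintype.sum_equiv (finTwoArrowEquiv (G q d)) _ _ (fun p => rfl)
  rw [e, Fintype.sum_prod_type]
  unfold U
  rw [Finset.sum_mul]
  refine Finset.sum_congr rfl fun x _ => ?_
  rw [Finset.mul_sum]
  refine Finset.sum_congr rfl fun y _ => ?_
  rw [ch_add]
  ring

theorem four (F : G q d → ℂ) : ∑ b, ((‖U F b‖ ^ 4 : ℝ) : ℂ) =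
    (nn q d : ℂ) * ∑ p : Fin 2 → G q d, ∑ m : Fin 2 → G q d,
      if p 0 + p 1 = m 0 + m 1 then
        F (p 0) * F (p 1) * (starRingEnd ℂ) (F (m 0) * F (m 1)) else 0 := by
  have e1 : ∀ b, ((‖U F b‖ ^ 4 : ℝ) : ℂ) = ∑ p : Fin 2 → G q d, ∑ m : Fin 2 → G q d,
      F (p 0) * F (p 1) * (starRingEnd ℂ) (F (m 0) * F (m 1)) *
        ch b (p 0 + p 1 + -(m 0 + m 1)) := by
    intro b
    have : ((‖U F b‖ ^ 4 : ℝ) : ℂ) = (U F b * U F b) * (starRingEnd ℂ) (U F b * U F b) := by
      rw [Complex.mul_conj', norm_mul]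
      push_cast
      ring
    rw [this, U_sq, map_sum, Finset.sum_mul]
    refine Finset.sum_congr rfl fun p _ => ?_
    rw [Finset.mul_sum]
    refine Finset.sum_congr rfl fun m _ => ?_
    rw [ch_add b (p 0 + p 1) (-(m 0 + m 1)), ch_neg, map_mul]
    ring
  rw [Finset.sum_congr rfl fun b _ => e1 b, Finset.sum_comm, Finset.mul_sum]
  refine Finset.sum_congr rfl fun p _ => ?_
  rw [Finset.sum_comm, Finset.mul_sum]
  refine Finset.sum_congr rfl fun m _ => ?_
  rw [← Finset.mul_sum, sum_ch]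
  by_cases hpm : p 0 + p 1 = m 0 + m 1
  · rw [if_pos hpm, if_pos (by rw [hpm]; simp)]
    ring
  · rw [if_neg hpm, if_neg (fun h => hpm (by
      rw [← sub_eq_add_neg] at h
      exact sub_eq_zero.1 h)), mul_zero, mul_zero]

theorem three (F : G q d → ℂ) : ∑ b, ((‖U F b‖ ^ 2 : ℝ) : ℂ) * U F b =
    (nn q d : ℂ) * ∑ p : Fin 2 → G q d,
      F (p 0) * F (p 1) * (starRingEnd ℂ) (F (p 0 + p 1)) := by
  have e1 : ∀ b, ((‖U F b‖ ^ 2 : ℝ) : ℂ) * U F b = ∑ p : Fin 2 → G q d, ∑ y : G q d,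
      F (p 0) * F (p 1) * (starRingEnd ℂ) (F y) * ch b (p 0 + p 1 + -y) := by
    intro b
    have : ((‖U F b‖ ^ 2 : ℝ) : ℂ) * U F b = (U F b * U F b) * (starRingEnd ℂ) (U F b) := by
      push_cast
      rw [← Complex.mul_conj']
      ring
    rw [this, U_sq, U_conj, Finset.sum_mul]
    refine Finset.sum_congr rfl fun p _ => ?_
    rw [Finset.mul_sum]
    refine Finset.sum_congr rfl fun y _ => ?_
    rw [ch_add b (p 0 + p 1) (-y)]
    ring
  rw [Finset.sum_congr rfl fun b _ => e1 b, Finset.sum_comm, Finset.mul_sum]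
  refine Finset.sum_congr rfl fun p _ => ?_
  rw [Finset.sum_comm]
  have e2 : ∀ y, ∑ b, F (p 0) * F (p 1) * (starRingEnd ℂ) (F y) * ch b (p 0 + p 1 + -y) =
      if p 0 + p 1 = y then (nn q d : ℂ) * (F (p 0) * F (p 1) * (starRingEnd ℂ) (F y)) else 0 := by
    intro y
    rw [← Finset.mul_sum, sum_ch]
    by_cases hxy : p 0 + p 1 = y
    · rw [if_pos hxy, if_pos (by rw [hxy]; simp)]
      ring
    · rw [if_neg hxy, if_neg (fun h => hxy (by
        rw [← sub_eq_add_neg] at h
        exact sub_eq_zero.1 h)), mul_zero]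
  rw [Finset.sum_congr rfl fun y _ => e2 y, Finset.sum_ite_eq, if_pos (Finset.mem_univ _)]

theorem one (F : G q d → ℂ) : ∑ b, U F b = (nn q d : ℂ) * F 0 := by
  unfold U
  rw [Finset.sum_comm]
  have e2 : ∀ x, ∑ b, F x * ch b x = if x = 0 then (nn q d : ℂ) * F x else 0 := by
    intro x
    rw [← Finset.mul_sum, sum_ch]
    by_cases hx : x = 0
    · rw [if_pos hx, if_pos hx]
      ring
    · rw [if_neg hx, if_neg hx, mul_zero]
  rw [Finset.sum_congr rfl fun y _ => e2 y, Finset.sum_ite_eq', if_pos (Finset.mem_univ _)]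

theorem conj_zpow {z : ℂ} (hz : ‖z‖ = 1) (a : ℤ) : (starRingEnd ℂ) (z ^ a) = z ^ (-a) := by
  have h : (starRingEnd ℂ) z = z⁻¹ := by
    rw [Complex.inv_def, Complex.normSq_eq_norm_sq, hz]
    simp
  rw [map_zpow₀, h, inv_zpow, zpow_neg]

theorem card_erase_nn (q d : ℕ) [NeZero q] :
    (((univ : Finset (G q d)).erase 0).card : ℝ) = nn q d - 1 := by
  rw [Finset.card_erase_of_mem (Finset.mem_univ _), Finset.card_univ, Nat.cast_sub
    Fintype.card_pos]
  have : Fintype.card (G q d) = q ^ d := by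
    rw [Fintype.card_fun, ZMod.card, Fintype.card_fin]
  rw [this]
  unfold nn
  push_cast
  rfl

end FOUaux

open FOUaux

theorem t_PAR : PAR_Stmt := by
  intro q d _ f
  have h : ∑ b, ‖∑ x, f x * ch b x‖ ^ 2 = nn q d * ∑ x, ‖f x‖ ^ 2 := parseval f
  refine ⟨h, fun b => ?_⟩
  rw [← h]
  exact Finset.single_le_sum (f := fun b => ‖∑ x, f x * ch b x‖ ^ 2)
    (fun _ _ => by positivity) (Finset.mem_univ b)

theorem t_FOU : FOU_Stmt := by
  intro q d _ l z hz hl u hu
  have hz0 : z ≠ 0 := by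
    rintro rfl
    simp at hz
  set F : G q d → ℂ := fun x => if x = 0 then 0 else z ^ (l x) with hF
  have hF0 : F 0 = 0 := by rw [hF]; simp
  have hF1 : ∀ x, x ≠ 0 → F x = z ^ (l x) := fun x hx => by
    rw [hF]
    simp only
    rw [if_neg hx]
  have huU : ∀ b, u b = U F b := by
    intro b
    rw [hu b]
    unfold U
    rw [← Finset.add_sum_erase _ _ (Finset.mem_univ (0 : G q d)), hF0, zero_mul, zero_add]
    refine Finset.sum_congr rfl fun x hx => ?_
    rw [hF1 x (Finset.ne_of_mem_erase hx)]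
  have hnorm : ∀ x, x ≠ 0 → ‖F x‖ = 1 := by
    intro x hx
    rw [hF1 x hx, norm_zpow, hz, one_zpow]
  refine ⟨?_, ?_, ?_, ?_, ?_⟩
  · rw [Finset.sum_congr rfl fun b _ => by rw [huU b], parseval]
    congr 1
    rw [← Finset.add_sum_erase _ _ (Finset.mem_univ (0 : G q d)), hF0, norm_zero]
    rw [Finset.sum_congr rfl fun x hx => by rw [hnorm x (Finset.ne_of_mem_erase hx)]]
    rw [Finset.sum_const, nsmul_eq_mul, card_erase_nn]
    ring
  · rw [Finset.sum_congr rfl fun b _ => by rw [huU b], four]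
    congr 1
    unfold T4
    refine Finset.sum_congr rfl fun p _ => Finset.sum_congr rfl fun m _ => ?_
    by_cases h : A4 p m
    · rw [if_pos h]
      obtain ⟨h1, h2, h3⟩ := h
      rw [if_pos h3, hF1 _ (h1 0), hF1 _ (h1 1), hF1 _ (h2 0), hF1 _ (h2 1), map_mul,
        conj_zpow hz, conj_zpow hz, Fin.sum_univ_two, Fin.sum_univ_two, ← zpow_add₀ hz0,
        ← zpow_add₀ hz0, ← zpow_add₀ hz0]
      congr 1
      ring
    · rw [if_neg h]
      by_cases h3 : p 0 + p 1 = m 0 + m 1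
      · rw [if_pos h3]
        by_cases a : p 0 = 0
        · rw [a, hF0]; ring
        by_cases b : p 1 = 0
        · rw [b, hF0]; ring
        by_cases c : m 0 = 0
        · rw [c, hF0, zero_mul, map_zero]; ring
        by_cases e : m 1 = 0
        · rw [e, hF0, mul_zero, map_zero]; ring
        exfalso
        exact h ⟨fun i => by fin_cases i <;> assumption, fun i => by fin_cases i <;> assumption,
          h3⟩
      · rw [if_neg h3]
  · rw [Finset.sum_congr rfl fun b _ => by rw [huU b], three]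
    congr 1
    unfold T3
    refine Finset.sum_congr rfl fun x _ => ?_
    by_cases h : A3 x
    · rw [if_pos h]
      obtain ⟨h1, h2, h3⟩ := h
      rw [hF1 _ h1, hF1 _ h2, hF1 _ h3, conj_zpow hz, ← zpow_add₀ hz0, ← zpow_add₀ hz0]
      congr 1
    · rw [if_neg h]
      by_cases a : x 0 = 0
      · rw [a, hF0]; ring
      by_cases b : x 1 = 0
      · rw [b, hF0]; ring
      by_cases c : x 0 + x 1 = 0
      · rw [c, hF0, map_zero]; ring
      exact absurd ⟨a, b, c⟩ h
  · rw [Finset.sum_congr rfl fun b _ => by rw [huU b], one, hF0, mul_zero]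
  · intro b
    rw [hu b, map_sum]
    refine Finset.sum_nbij' (fun x => -x) (fun x => -x) ?_ ?_ ?_ ?_ ?_
    · intro x hx
      rw [Finset.mem_erase] at hx ⊢
      exact ⟨neg_ne_zero.2 hx.1, Finset.mem_univ _⟩
    · intro x hx
      rw [Finset.mem_erase] at hx ⊢
      exact ⟨neg_ne_zero.2 hx.1, Finset.mem_univ _⟩
    · intro x _
      exact neg_neg x
    · intro x _
      exact neg_neg x
    · intro x _
      rw [map_mul, conj_zpow hz, ← ch_neg, neg_neg, hl]

end Pool.Agent.UAA
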