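import Pool.Agent.UAA.St

/-!
# The coefficients of the classes
-/

set_option autoImplicit false

namespace Pool.Agent.UAA

open Finset

namespace GEQaux

variable {q d : ℕ}

/-- A nonzero class for a prime `q`. -/
theorem ram_prime [NeZero q] (h : RAM_Stmt) (hq : q.Prime) (O : Orb q d) (hO : O ≠ cl 0)
    (x : G q d) : ∃ e : ℤ, 0 ≤ e ∧ e ≤ 1 ∧ ram x O = (q : ℤ) * e - 1 := by
  classical
  haveI : Fact q.Prime := ⟨hq⟩
  obtain ⟨c, rfl⟩ := cl_surj O
  have hc : ∃ i, c i ≠ 0 := by
    by_contra hcon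
    push Not at hcon
    apply hO
    rw [show c = 0 from funext hcon]
  obtain ⟨i, hi⟩ := hc
  have himg : ((univ : Finset (G q d)).filter fun c' => cl c' = cl c) =
      (univ : Finset (ZMod q)ˣ).image fun u : (ZMod q)ˣ => (fun i => (u : ZMod q) * c i : G q d) := by
    ext c'
    rw [Finset.mem_filter, Finset.mem_image]
    constructor
    · rintro ⟨_, h1⟩
      obtain ⟨u, hu⟩ := (cl_eq c c').1 h1.symm
      exact ⟨u, Finset.mem_univ _, funext fun i => (hu i).symm⟩
    · rintro ⟨u, _, rfl⟩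
      exact ⟨Finset.mem_univ _, ((cl_eq c _).2 ⟨u, fun _ => rfl⟩).symm⟩
  have hinj : Set.InjOn (fun u : (ZMod q)ˣ => (fun i => (u : ZMod q) * c i : G q d))
      ((univ : Finset (ZMod q)ˣ) : Set (ZMod q)ˣ) := by
    intro u _ v _ huv
    have h1 := congrFun huv i
    exact Units.ext (mul_right_cancel₀ hi h1)
  set s : ZMod q := ∑ i, x i * c i with hs
  have hch : ∀ u : (ZMod q)ˣ, ch x (fun i => (u : ZMod q) * c i) =
      (ZMod.stdAddChar ((u : ZMod q) * s) : ℂ) := by
    intro u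
    have e : ∑ i, x i * ((u : ZMod q) * c i) = (u : ZMod q) * s := by
      rw [hs, Finset.mul_sum]
      refine Finset.sum_congr rfl fun i _ => ?_
      ring
    unfold ch
    rw [e]
  have hun : (univ : Finset (ZMod q)ˣ).image (fun u : (ZMod q)ˣ => (u : ZMod q)) =
      (univ : Finset (ZMod q)).erase 0 := by
    ext a
    rw [Finset.mem_image, Finset.mem_erase]
    constructor
    · rintro ⟨u, _, rfl⟩
      exact ⟨u.ne_zero, Finset.mem_univ _⟩
    · rintro ⟨ha, _⟩
      exact ⟨Units.mk0 a ha, Finset.mem_univ _, rfl⟩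
  have h1 : ((ram x (cl c) : ℤ) : ℂ) = (∑ a : ZMod q, (ZMod.stdAddChar (a * s) : ℂ)) - 1 := by
    rw [(h q d).1 x (cl c), himg, Finset.sum_image hinj,
      Finset.sum_congr rfl fun u _ => hch u]
    have h2 : ∑ u : (ZMod q)ˣ, (ZMod.stdAddChar ((u : ZMod q) * s) : ℂ) =
        ∑ a ∈ (univ : Finset (ZMod q)).erase 0, (ZMod.stdAddChar (a * s) : ℂ) := by
      rw [← hun, Finset.sum_image]
      intro u _ v _ huv
      exact Units.ext huv
    rw [h2, ← Finset.sum_erase_add univ _ (Finset.mem_univ (0 : ZMod q)), zero_mul,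
      AddChar.map_zero_eq_one, add_sub_cancel_right]
  rw [AddChar.sum_mulShift s (ZMod.isPrimitive_stdAddChar q), ZMod.card] at h1
  by_cases hs0 : s = 0
  · rw [if_pos hs0] at h1
    refine ⟨1, zero_le_one, le_rfl, ?_⟩
    rw [mul_one]
    exact_mod_cast h1
  · rw [if_neg hs0] at h1
    refine ⟨0, le_rfl, zero_le_one, ?_⟩
    rw [mul_zero]
    exact_mod_cast h1

theorem sum_bd {k : ℕ} (e : Fin k → ℤ) (h0 : ∀ i, 0 ≤ e i) (h1 : ∀ i, e i ≤ 1) :
    0 ≤ ∑ i, e i ∧ ∑ i, e i ≤ (k : ℤ) := by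
  refine ⟨Finset.sum_nonneg fun i _ => h0 i, ?_⟩
  refine (Finset.sum_le_sum fun i _ => h1 i).trans ?_
  simp

end GEQaux

open GEQaux in
theorem t_GEQ (h : RAM_Stmt) : GEQ_Stmt := by
  constructor
  · intro q d _ k hk p m O _
    refine ⟨ex p m O, ?_, by simp⟩
    obtain ⟨_, _, h3, h4, _⟩ := h q d
    have hb : ∀ x : G q d, |ram x O| ≤ (q : ℤ) := by
      intro x
      refine (h3 x O).trans ?_
      exact_mod_cast h4 O
    have hs : ∀ p : Fin k → G q d, |∑ i, ram (p i) O| ≤ 4 * (q : ℤ) := by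
      intro p
      refine (Finset.abs_sum_le_sum_abs _ _).trans ?_
      refine (Finset.sum_le_sum fun i _ => hb (p i)).trans ?_
      rw [Finset.sum_const, Finset.card_univ, Fintype.card_fin, nsmul_eq_mul]
      have : (k : ℤ) ≤ 4 := by exact_mod_cast hk
      exact mul_le_mul_of_nonneg_right this (by positivity)
    unfold ex
    refine (abs_sub _ _).trans ?_
    have h5 := hs p
    have h6 := hs m
    push_cast
    linarith
  · intro q d _ hq k hk p m O hO
    choose e h0 h1 he using ram_prime h hq O hO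
    refine ⟨∑ i, e (p i) - ∑ i, e (m i), ?_, ?_⟩
    · obtain ⟨a1, a2⟩ := sum_bd (fun i => e (p i)) (fun i => h0 _) (fun i => h1 _)
      obtain ⟨b1, b2⟩ := sum_bd (fun i => e (m i)) (fun i => h0 _) (fun i => h1 _)
      have : (k : ℤ) ≤ 4 := by exact_mod_cast hk
      rw [abs_le]
      push_cast
      constructor <;> linarith
    · unfold ex
      rw [Finset.sum_congr rfl fun i _ => he (p i), Finset.sum_congr rfl fun i _ => he (m i),
        Finset.sum_sub_distrib, Finset.sum_sub_distrib, ← Finset.mul_sum, ← Finset.mul_sum]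
      ring

end Pool.Agent.UAA
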