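import Pool.Agent.UAA.St

set_option autoImplicit false

namespace Pool.Agent.UAA

open Finset

namespace INTEaux

/-- Fourier inversion. -/
lemma inv {q d : ℕ} [NeZero q] (C : Finset (G q d)) (lam : G q d → ℤ)
    (hlam : ∀ x, ∑ c ∈ C, ch x c = (lam x : ℂ)) (c : G q d) :
    ∑ x : G q d, (lam x : ℂ) * (ZMod.stdAddChar (-(∑ i, x i * c i)) : ℂ)
      = if c ∈ C then (q : ℂ) ^ d else 0 := by
  have e1 : ∀ x : G q d, (lam x : ℂ) * (ZMod.stdAddChar (-(∑ i, x i * c i)) : ℂ)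
      = ∑ c0 ∈ C, (ZMod.stdAddChar (∑ i, (c0 - c) i * x i) : ℂ) := by
    intro x
    rw [← hlam x, Finset.sum_mul]
    refine sum_congr rfl fun c0 _ => ?_
    unfold ch
    rw [← AddChar.map_add_eq_mul]
    congr 1
    rw [← sub_eq_add_neg, ← Finset.sum_sub_distrib]
    refine sum_congr rfl fun i _ => ?_
    rw [Pi.sub_apply]
    ring
  rw [sum_congr rfl fun x _ => e1 x, sum_comm,
    sum_congr rfl fun c0 _ => Pool.Agent.UMix.sum_dot (c0 - c)]
  simp only [Fintype.card_fin, sub_eq_zero, Finset.sum_ite_eq']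

/-- Conjugation. -/
lemma conj {q d : ℕ} [NeZero q] (C : Finset (G q d)) (lam : G q d → ℤ)
    (hlam : ∀ x, ∑ c ∈ C, ch x c = (lam x : ℂ)) (c c' : G q d) (hc : c ∈ C) (u : (ZMod q)ˣ)
    (hu : ∀ i, c' i = u * c i) : c' ∈ C := by
  have hq : 0 < q := Nat.pos_of_ne_zero (NeZero.ne q)
  obtain ⟨ζ, hζdef⟩ : ∃ ζ : ℂ, ζ = ZMod.stdAddChar (1 : ZMod q) := ⟨_, rfl⟩
  have hζ : IsPrimitiveRoot ζ q := by
    have h1 := ZMod.stdAddChar_coe (N := q) 1
    have h2 : ζ = Complex.exp (2 * Real.pi * Complex.I / q) := by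
      rw [hζdef]
      rw [Int.cast_one] at h1
      rw [h1]
      congr 1
      push_cast
      ring
    rw [h2]
    exact Complex.isPrimitiveRoot_exp q (NeZero.ne q)
  have hp1 : ∀ a : ZMod q, (ZMod.stdAddChar a : ℂ) = ζ ^ a.val := by
    intro a
    have e1 : a = a.val • (1 : ZMod q) := by
      rw [nsmul_eq_mul, mul_one, ZMod.natCast_zmod_val]
    rw [hζdef, ← AddChar.map_nsmul_eq_pow, ← e1]
  have hp2 : ∀ a b : ZMod q, (ZMod.stdAddChar (a * b) : ℂ) = (ζ ^ b.val) ^ a.val := by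
    intro a b
    have e1 : a * b = (b.val * a.val) • (1 : ZMod q) := by
      rw [nsmul_eq_mul, mul_one, Nat.cast_mul, ZMod.natCast_zmod_val, ZMod.natCast_zmod_val,
        mul_comm]
    rw [e1, AddChar.map_nsmul_eq_pow, ← hζdef, pow_mul]
  set P : Polynomial ℤ := ∑ x : G q d, Polynomial.C (lam x) *
    Polynomial.X ^ (-(∑ i, x i * c i)).val - Polynomial.C ((q : ℤ) ^ d) with hP
  have hae : ∀ z : ℂ, Polynomial.aeval z P
      = ∑ x : G q d, (lam x : ℂ) * z ^ (-(∑ i, x i * c i)).val - (q : ℂ) ^ d := by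
    intro z
    rw [hP]
    simp only [map_sub, map_sum, map_mul, map_pow, Polynomial.aeval_X, Polynomial.aeval_C]
    simp
  have h1 : Polynomial.aeval ζ P = 0 := by
    rw [hae]
    have h2 := inv C lam hlam c
    rw [if_pos hc] at h2
    rw [← h2, sub_eq_zero]
    refine sum_congr rfl fun x _ => ?_
    rw [hp1]
  have h2 : minpoly ℤ ζ ∣ P := minpoly.isIntegrallyClosed_dvd (hζ.isIntegral hq) h1
  have h3 : minpoly ℤ ζ = minpoly ℤ (ζ ^ (u : ZMod q).val) :=
    hζ.minpoly_eq_pow_coprime (ZMod.val_coe_unit_coprime u)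
  have h4 : Polynomial.aeval (ζ ^ (u : ZMod q).val) P = 0 := by
    rw [h3] at h2
    obtain ⟨R, hR⟩ := h2
    rw [hR, map_mul, minpoly.aeval, zero_mul]
  rw [hae, sub_eq_zero] at h4
  have h5 := inv C lam hlam c'
  have h6 : ∑ x : G q d, (lam x : ℂ) * (ZMod.stdAddChar (-(∑ i, x i * c' i)) : ℂ)
      = ∑ x : G q d, (lam x : ℂ) * (ζ ^ (u : ZMod q).val) ^ (-(∑ i, x i * c i)).val := by
    refine sum_congr rfl fun x _ => ?_
    rw [← hp2]
    congr 2
    rw [neg_mul, Finset.sum_mul]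
    congr 1
    refine sum_congr rfl fun i _ => ?_
    rw [hu]
    ring
  rw [h6, h4] at h5
  by_contra hcon
  rw [if_neg hcon] at h5
  have : (q : ℂ) ≠ 0 := by exact_mod_cast NeZero.ne q
  exact pow_ne_zero d this h5

end INTEaux

open INTEaux in
theorem t_INTE (h : RAM_Stmt) : INTE_Stmt := by
  intro q d _ C
  constructor
  · rintro ⟨h0, hC⟩
    refine ⟨h0, fun c hc => hC c hc (-c) ⟨-1, fun i => by simp⟩, fun x => ?_⟩
    obtain ⟨hram, -⟩ := h q d
    refine ⟨∑ O ∈ C.image cl, ram x O, ?_⟩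
    rw [Int.cast_sum, ← Finset.sum_fiberwise_of_maps_to (g := cl) (t := C.image cl)
      (fun c hc => mem_image_of_mem _ hc)]
    refine sum_congr rfl fun O hO => ?_
    rw [hram]
    refine sum_congr ?_ fun _ _ => rfl
    ext c
    simp only [mem_filter, mem_univ, true_and]
    constructor
    · rintro ⟨_, hc⟩; exact hc
    · intro hc
      refine ⟨?_, hc⟩
      obtain ⟨c0, hc0, hcl⟩ := mem_image.1 hO
      exact hC c0 hc0 c ((cl_eq c0 c).1 (hcl.trans hc.symm))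
  · rintro ⟨h0, -, hint⟩
    refine ⟨h0, fun c hc c' hcc => ?_⟩
    choose lam hlam using hint
    obtain ⟨u, hu⟩ := hcc
    exact conj C lam hlam c c' hc u hu

end Pool.Agent.UAA
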