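import Pool.Agent.UAA.St

/-!
# Module LAM: the eigenvalues of the random set
-/

set_option autoImplicit false

namespace Pool.Agent.UAA

open Finset

namespace LAMaux

variable {q d : ℕ} [NeZero q]

theorem ch_zero_left (c : G q d) : ch 0 c = 1 := by
  unfold ch
  have : ∑ i, (0 : G q d) i * c i = 0 := by simp
  rw [this]
  exact AddChar.map_zero_eq_one _

theorem cl_eq_zero (c : G q d) : cl c = cl (0 : G q d) ↔ c = 0 := by
  constructor
  · intro h
    obtain ⟨u, hu⟩ := (cl_eq c 0).1 h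
    funext i
    have h1 := hu i
    have h2 : (u : ZMod q) * c i = 0 := by rw [← h1]; rfl
    exact (Units.mul_right_eq_zero u).1 h2
  · rintro rfl
    rfl

theorem cls_neg (x : G q d) : Cls x (-x) := ⟨-1, fun i => by simp⟩

theorem ch_conj (x c : G q d) : (starRingEnd ℂ) (ch x c) = ch x (-c) := by
  unfold ch
  have e : ∑ i, x i * (-c) i = -∑ i, x i * c i := by
    rw [← Finset.sum_neg_distrib]
    exact Finset.sum_congr rfl fun i _ => by rw [Pi.neg_apply, mul_neg]
  rw [e, AddChar.map_neg_eq_conj]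

theorem ch_mul (x a b : G q d) : ch x a * ch x b = ch x (a + b) := by
  unfold ch
  have e : ∑ i, x i * (a + b) i = ∑ i, x i * a i + ∑ i, x i * b i := by
    rw [← Finset.sum_add_distrib]
    exact Finset.sum_congr rfl fun i _ => by rw [Pi.add_apply, mul_add]
  rw [e, AddChar.map_add_eq_mul]

theorem sum_ch (c : G q d) : ∑ x : G q d, ch x c = if c = 0 then (q : ℂ) ^ d else 0 := by
  have h := Pool.Agent.UMix.sum_dot (q := q) c
  rw [Fintype.card_fin] at h
  rw [← h]
  refine Finset.sum_congr rfl fun x _ => ?_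
  unfold ch
  have e : ∑ i, x i * c i = ∑ i, c i * x i := Finset.sum_congr rfl fun i _ => mul_comm _ _
  rw [e]

theorem la_eq (h : RAM_Stmt) (ω : Om q d) (x : G q d) :
    ((la ω x : ℤ) : ℂ) = ∑ c ∈ Cs ω, ch x c := by
  obtain ⟨h1, -⟩ := h q d
  unfold la
  rw [Int.cast_sum, ← Finset.sum_fiberwise (Cs ω) cl]
  refine Finset.sum_congr rfl fun O _ => ?_
  by_cases hO : O ≠ cl 0 ∧ ω O = true
  · rw [if_pos hO, h1 x O]
    refine Finset.sum_congr ?_ fun _ _ => rfl
    ext c
    simp only [Cs, mem_filter, mem_univ, true_and]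
    constructor
    · rintro rfl
      exact ⟨⟨fun hc => hO.1 (by rw [hc]), hO.2⟩, rfl⟩
    · rintro ⟨-, hc⟩
      exact hc
  · rw [if_neg hO, Int.cast_zero]
    symm
    apply Finset.sum_eq_zero
    intro c hc
    exfalso
    simp only [Cs, mem_filter, mem_univ, true_and] at hc
    obtain ⟨⟨hc0, hc1⟩, rfl⟩ := hc
    exact hO ⟨fun h => hc0 ((cl_eq_zero c).1 h), hc1⟩

theorem parseval (h : RAM_Stmt) (ω : Om q d) :
    ∑ x : G q d, (la ω x : ℝ) ^ 2 = ((Cs ω).card : ℝ) * (q : ℝ) ^ d := by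
  have key : ((∑ x : G q d, (la ω x : ℝ) ^ 2 : ℝ) : ℂ) = (((Cs ω).card : ℝ) * (q : ℝ) ^ d : ℝ) := by
    push_cast
    have e1 : ∀ x : G q d, ((la ω x : ℤ) : ℂ) ^ 2 =
        ∑ c ∈ Cs ω, ∑ c' ∈ Cs ω, ch x (c + -c') := by
      intro x
      have e2 : (starRingEnd ℂ) ((la ω x : ℤ) : ℂ) = ((la ω x : ℤ) : ℂ) := by
        rw [map_intCast]
      rw [sq]
      nth_rewrite 2 [← e2]
      rw [la_eq h, map_sum, Finset.sum_mul_sum]
      refine Finset.sum_congr rfl fun c _ => Finset.sum_congr rfl fun c' _ => ?_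
      rw [ch_conj, ch_mul]
    rw [Finset.sum_congr rfl fun x _ => e1 x, Finset.sum_comm]
    have e3 : ∀ c ∈ Cs ω, ∑ x : G q d, ∑ c' ∈ Cs ω, ch x (c + -c') = (q : ℂ) ^ d := by
      intro c hc
      rw [Finset.sum_comm]
      rw [Finset.sum_congr rfl fun c' _ => sum_ch (c + -c')]
      rw [Finset.sum_eq_single c]
      · rw [if_pos (add_neg_cancel c)]
      · intro b _ hb
        rw [if_neg]
        intro h0
        apply hb
        exact (add_neg_eq_zero.1 h0).symm
      · intro h0
        exact absurd hc h0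
    rw [Finset.sum_congr rfl e3, Finset.sum_const, nsmul_eq_mul]
  exact_mod_cast key

end LAMaux

open LAMaux in
/-- The eigenvalues of the random set. -/
theorem t_LAM (h : RAM_Stmt) : LAM_Stmt := by
  intro q d _
  obtain ⟨-, h2, -⟩ := h q d
  have hCls : ∀ (ω : Om q d) (x y : G q d), Cls x y → la ω x = la ω y := by
    intro ω x y hxy
    unfold la
    refine Finset.sum_congr rfl fun O _ => ?_
    rw [h2 x y O hxy]
  refine ⟨la_eq h, hCls, fun ω x => (hCls ω x (-x) (cls_neg x)).symm, ?_, ?_, ?_⟩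
  · intro ω
    have e := la_eq h ω 0
    rw [Finset.sum_congr rfl fun c _ => ch_zero_left c, Finset.sum_const, nsmul_eq_mul,
      mul_one] at e
    exact_mod_cast e
  · intro ω
    rw [parseval h ω, nn, sq]
    apply mul_le_mul_of_nonneg_right _ (by positivity)
    have e : (Cs ω).card ≤ q ^ d := by
      refine (Finset.card_le_univ _).trans (le_of_eq ?_)
      rw [Fintype.card_pi]
      simp [ZMod.card]
    exact_mod_cast e
  · intro ω
    refine ⟨?_, ?_⟩
    · simp [Cs]
    · intro c hc c' hcc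
      simp only [Cs, mem_filter, mem_univ, true_and] at hc ⊢
      have e : cl c = cl c' := (cl_eq c c').2 hcc
      refine ⟨fun h0 => hc.1 ?_, by rw [← e]; exact hc.2⟩
      rw [h0] at e
      exact (cl_eq_zero c).1 e

end Pool.Agent.UAA
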