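import Pool.Agent.UAA.St

/-!
# The linear algebra at a net point
-/

set_option autoImplicit false

namespace Pool.Agent.UAA

open Finset

namespace LINaux

variable {ι : Type} [Fintype ι]

/-- The `ℓ²` norm. -/
noncomputable def nrm (f : ι → ℂ) : ℝ := ‖(WithLp.toLp 2 f : EuclideanSpace ℂ ι)‖

lemma nrm_nonneg (f : ι → ℂ) : 0 ≤ nrm f := norm_nonneg _

lemma nrm_sq (f : ι → ℂ) : nrm f ^ 2 = ∑ b, ‖f b‖ ^ 2 := by
  rw [nrm, EuclideanSpace.norm_sq_eq]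

lemma nrm_eq (f : ι → ℂ) : nrm f = √(∑ b, ‖f b‖ ^ 2) := by
  rw [← nrm_sq, Real.sqrt_sq (nrm_nonneg f)]

lemma nrm_add (f g : ι → ℂ) : nrm (fun b => f b + g b) ≤ nrm f + nrm g := by
  have h : (WithLp.toLp 2 (fun b => f b + g b) : EuclideanSpace ℂ ι) =
      WithLp.toLp 2 f + WithLp.toLp 2 g := rfl
  rw [nrm, h]
  exact norm_add_le _ _

lemma nrm_smul (c : ℂ) (f : ι → ℂ) : nrm (fun b => c * f b) = ‖c‖ * nrm f := by
  have h : (WithLp.toLp 2 (fun b => c * f b) : EuclideanSpace ℂ ι) =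
      c • WithLp.toLp 2 f := rfl
  rw [nrm, h, norm_smul]
  rfl

lemma nrm_congr {f g : ι → ℂ} (h : ∀ b, ‖f b‖ = ‖g b‖) : nrm f = nrm g := by
  rw [nrm_eq, nrm_eq]
  congr 1
  exact Finset.sum_congr rfl fun b _ => by rw [h]

lemma nrm_le {f : ι → ℂ} {a : ℝ} (ha : 0 ≤ a) (h : ∑ b, ‖f b‖ ^ 2 ≤ a ^ 2) : nrm f ≤ a := by
  rw [← nrm_sq] at h
  exact abs_le_of_sq_le_sq' h ha |>.2

lemma cs (f g : ι → ℂ) : ‖∑ b, f b * g b‖ ≤ nrm f * nrm g := by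
  calc ‖∑ b, f b * g b‖ ≤ ∑ b, ‖f b‖ * ‖g b‖ := by
        refine (norm_sum_le _ _).trans (le_of_eq ?_)
        exact Finset.sum_congr rfl fun b _ => norm_mul _ _
    _ ≤ √(∑ b, ‖f b‖ ^ 2) * √(∑ b, ‖g b‖ ^ 2) := Real.sum_mul_le_sqrt_mul_sqrt _ _ _
    _ = nrm f * nrm g := by rw [nrm_eq, nrm_eq]

/-- `‖f g‖²` by fourth moments. -/
lemma nrm_mul_four (f g : ι → ℂ) (a c : ℝ) (ha : 0 ≤ a) (hc : 0 ≤ c)
    (hf : ∑ b, ‖f b‖ ^ 4 ≤ a ^ 4) (hg : ∑ b, ‖g b‖ ^ 4 ≤ c ^ 4) :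
    nrm (fun b => f b * g b) ≤ a * c := by
  apply nrm_le (by positivity)
  calc ∑ b, ‖f b * g b‖ ^ 2 = ∑ b, ‖f b‖ ^ 2 * ‖g b‖ ^ 2 := by
        apply Finset.sum_congr rfl
        intro b _
        rw [norm_mul, mul_pow]
    _ ≤ √(∑ b, (‖f b‖ ^ 2) ^ 2) * √(∑ b, (‖g b‖ ^ 2) ^ 2) := Real.sum_mul_le_sqrt_mul_sqrt _ _ _
    _ ≤ √((a ^ 2) ^ 2) * √((c ^ 2) ^ 2) := by
        apply mul_le_mul _ _ (Real.sqrt_nonneg _) (Real.sqrt_nonneg _)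
        · apply Real.sqrt_le_sqrt
          refine le_trans (le_of_eq ?_) (hf.trans (le_of_eq (by ring)))
          exact Finset.sum_congr rfl fun b _ => by ring
        · apply Real.sqrt_le_sqrt
          refine le_trans (le_of_eq ?_) (hg.trans (le_of_eq (by ring)))
          exact Finset.sum_congr rfl fun b _ => by ring
    _ = (a * c) ^ 2 := by
        rw [Real.sqrt_sq (by positivity), Real.sqrt_sq (by positivity), mul_pow]

lemma sum_four (f : ι → ℂ) (a : ℝ) (h1 : ∑ b, ‖f b‖ ^ 2 ≤ a) (h2 : ∀ b, ‖f b‖ ^ 2 ≤ a)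
    (ha : 0 ≤ a) : ∑ b, ‖f b‖ ^ 4 ≤ a ^ 2 := by
  calc ∑ b, ‖f b‖ ^ 4 ≤ ∑ b, a * ‖f b‖ ^ 2 := by
        apply Finset.sum_le_sum
        intro b _
        have := mul_le_mul_of_nonneg_right (h2 b) (sq_nonneg ‖f b‖)
        calc ‖f b‖ ^ 4 = ‖f b‖ ^ 2 * ‖f b‖ ^ 2 := by ring
          _ ≤ _ := this
    _ = a * ∑ b, ‖f b‖ ^ 2 := by rw [Finset.mul_sum]
    _ ≤ a * a := mul_le_mul_of_nonneg_left h1 ha
    _ = a ^ 2 := by ring

/-- The bound for `|Z|`. -/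
lemma Zbound (u v H : ι → ℂ) (Z : ℂ) (s κ : ℝ) (hs : 1 ≤ s) (hκ : 1 ≤ κ) (hZ : 1 ≤ ‖Z‖)
    (hH : nrm H ≤ (κ + 1) * s ^ 3) (hu : nrm u ≤ 2 * s ^ 2) (hv : s ^ 2 / 2 ≤ nrm v)
    (h : ∀ b, H b = -(Z * v b) - Z⁻¹ * u b) : ‖Z‖ + ‖Z⁻¹‖ ≤ (2 * κ + 7) * s := by
  have hZi : ‖Z⁻¹‖ ≤ 1 := by
    rw [norm_inv]
    exact inv_le_one_of_one_le₀ hZ
  have h1 : nrm (fun b => Z * v b) ≤ nrm H + ‖Z⁻¹‖ * nrm u := by
    have h2 : (fun b => Z * v b) = fun b => (-1) * H b + (-Z⁻¹) * u b := by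
      funext b
      rw [h b]
      ring
    rw [h2]
    refine (nrm_add _ _).trans ?_
    rw [nrm_smul, nrm_smul, norm_neg, norm_one, one_mul, norm_neg]
  rw [nrm_smul] at h1
  have h3 : ‖Z⁻¹‖ * nrm u ≤ 2 * s ^ 2 := by
    calc ‖Z⁻¹‖ * nrm u ≤ 1 * (2 * s ^ 2) :=
          mul_le_mul hZi hu (nrm_nonneg u) (by norm_num)
      _ = 2 * s ^ 2 := by ring
  have h4 : ‖Z‖ * (s ^ 2 / 2) ≤ (κ + 1) * s ^ 3 + 2 * s ^ 2 := by
    have := mul_le_mul_of_nonneg_left hv (norm_nonneg Z)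
    linarith
  have h5 : ‖Z‖ ≤ 2 * (κ + 1) * s + 4 := by
    have hs2 : 0 < s ^ 2 := by positivity
    by_contra hc
    push Not at hc
    have := mul_lt_mul_of_pos_right hc (by positivity : 0 < s ^ 2 / 2)
    nlinarith
  nlinarith

end LINaux

open LINaux in
/-- The linear algebra. -/
theorem t_LIN : LIN_Stmt := by
  intro B hB
  obtain ⟨κ, hκ⟩ : ∃ κ : ℝ, κ = √(3 * B) := ⟨_, rfl⟩
  have hκ2 : κ ^ 2 = 3 * B := by rw [hκ]; exact Real.sq_sqrt (by linarith)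
  have hκ1 : 1 ≤ κ := by
    rw [hκ]
    exact Real.one_le_sqrt.2 (by linarith)
  obtain ⟨Z1, hZ1⟩ : ∃ Z1 : ℝ, Z1 = 2 * κ + 7 := ⟨_, rfl⟩
  have hZ1p : 9 ≤ Z1 := by rw [hZ1]; linarith
  obtain ⟨δ, hδ⟩ : ∃ δ : ℝ, δ = 1 / (8 * Z1 * κ) := ⟨_, rfl⟩
  have hδ0 : 0 < δ := by rw [hδ]; positivity
  have hδZ : Z1 * δ * κ = 1 / 8 := by
    rw [hδ]
    field_simp
  have hδ1 : δ ≤ 1 / 4 := by
    rw [hδ]
    apply one_div_le_one_div_of_le (by norm_num)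
    nlinarith
  refine ⟨(1 / (8 * Z1)) ^ 2, min 1 (1 / (8 * κ * (6 * κ + 9))), (9 / δ ^ 2 + 16) ^ 2,
    by positivity, lt_min one_pos (by positivity), min_le_left _ _, ?_⟩
  obtain ⟨ε, hε⟩ : ∃ ε : ℝ, ε = min 1 (1 / (8 * κ * (6 * κ + 9))) := ⟨_, rfl⟩
  rw [← hε]
  have hε0 : 0 < ε := by rw [hε]; exact lt_min one_pos (by positivity)
  have hε1 : ε ≤ 1 := by rw [hε]; exact min_le_left _ _
  have hεκ : (6 * κ + 9) * ε * κ ≤ 1 / 8 := by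
    have h1 : ε ≤ 1 / (8 * κ * (6 * κ + 9)) := by rw [hε]; exact min_le_right _ _
    rw [le_div_iff₀ (by positivity)] at h1
    linarith
  intro ι _ N hN u0 u v Z hZ hu02 hu04l hu04u hY hu0s hcard hdu hdv hdub hdvb hrel
  -- the square root of N
  obtain ⟨s, hs⟩ : ∃ s : ℝ, s = √N := ⟨_, rfl⟩
  have hNpos : 0 < N := lt_of_lt_of_le (by positivity) hN
  have hs2 : s ^ 2 = N := by rw [hs]; exact Real.sq_sqrt hNpos.le
  have hsS : 9 / δ ^ 2 + 16 ≤ s := by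
    rw [hs]
    exact Real.le_sqrt_of_sq_le hN
  have hs16 : 16 ≤ s := by
    have : 0 < 9 / δ ^ 2 := by positivity
    linarith
  have hs0 : 0 < s := by linarith
  have hs1 : 1 ≤ s := by linarith
  have hN32 : N ^ (3 / 2 : ℝ) = s ^ 3 := by
    rw [hs, Real.sqrt_eq_rpow, ← Real.rpow_natCast, ← Real.rpow_mul hNpos.le]
    norm_num
  rw [hN32] at hdu hdv hdub hdvb
  have hsδ : 9 * ε ^ 2 * s ^ 3 ≤ (δ * s ^ 2) ^ 2 := by
    have h1 : 9 ≤ δ ^ 2 * s := by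
      have : 9 / δ ^ 2 ≤ s := by linarith
      rw [div_le_iff₀ (by positivity)] at this
      linarith
    have h2 : ε ^ 2 ≤ 1 := by nlinarith
    have h3 : 0 < s ^ 3 := by positivity
    calc 9 * ε ^ 2 * s ^ 3 ≤ 9 * 1 * s ^ 3 := by
          apply mul_le_mul_of_nonneg_right _ h3.le
          linarith
      _ ≤ δ ^ 2 * s * s ^ 3 := by
          have := mul_le_mul_of_nonneg_right h1 h3.le
          linarith
      _ = (δ * s ^ 2) ^ 2 := by ring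
  -- the functions
  set v0 : ι → ℂ := fun b => (starRingEnd ℂ) (u0 b) with hv0
  set du : ι → ℂ := fun b => u b - u0 b with hdu'
  set dv : ι → ℂ := fun b => v b - v0 b with hdv'
  set H0 : ι → ℂ := fun b => ((‖u0 b‖ ^ 2 - (N - 1) : ℝ) : ℂ) with hH0
  set H : ι → ℂ := fun b => u b * v b - ((N - 1 : ℝ) : ℂ) with hH
  set D : ι → ℂ := fun b => H b - H0 b with hD
  have hnu0 : nrm u0 ≤ s ^ 2 := by
    apply nrm_le (by positivity)
    rw [hu02, ← hs2]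
    nlinarith
  have hnu0' : 3 / 4 * s ^ 2 ≤ nrm u0 := by
    apply abs_le_of_sq_le_sq' _ (nrm_nonneg u0) |>.2
    rw [nrm_sq, hu02, ← hs2]
    have h16 : 256 ≤ s ^ 2 := by nlinarith
    nlinarith [mul_le_mul_of_nonneg_left h16 (sq_nonneg s)]
  have hnv0 : nrm v0 = nrm u0 := nrm_congr fun b => by rw [hv0]; exact RCLike.norm_conj _
  have hndu : nrm du ≤ δ * s ^ 2 := nrm_le (by positivity) (hdu.trans hsδ)
  have hndv : nrm dv ≤ δ * s ^ 2 := nrm_le (by positivity) (hdv.trans hsδ)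
  have hnu : nrm u ≤ 2 * s ^ 2 := by
    have h1 : u = fun b => u0 b + du b := by funext b; simp [hdu']
    rw [h1]
    refine (nrm_add _ _).trans ?_
    nlinarith [sq_nonneg s]
  have hnv : nrm v ≤ 2 * s ^ 2 := by
    have h1 : v = fun b => v0 b + dv b := by funext b; simp [hdv']
    rw [h1]
    refine (nrm_add _ _).trans ?_
    rw [hnv0]
    nlinarith [sq_nonneg s]
  have hnu' : s ^ 2 / 2 ≤ nrm u := by
    have h1 : u0 = fun b => u b + (-1) * du b := by funext b; simp [hdu']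
    have h2 : nrm u0 ≤ nrm u + nrm du := by
      rw [h1]
      refine (nrm_add _ _).trans ?_
      rw [nrm_smul, norm_neg, norm_one, one_mul]
    nlinarith [sq_nonneg s]
  have hnv' : s ^ 2 / 2 ≤ nrm v := by
    have h1 : v0 = fun b => v b + (-1) * dv b := by funext b; simp [hdv']
    have h2 : nrm v0 ≤ nrm v + nrm dv := by
      rw [h1]
      refine (nrm_add _ _).trans ?_
      rw [nrm_smul, norm_neg, norm_one, one_mul]
    rw [hnv0] at h2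
    nlinarith [sq_nonneg s]
  -- the norm of H0
  have hH0n : ∀ b, ‖H0 b‖ ^ 2 = ‖u0 b‖ ^ 4 - 2 * (N - 1) * ‖u0 b‖ ^ 2 + (N - 1) ^ 2 := by
    intro b
    rw [hH0]
    simp only
    rw [Complex.norm_real, Real.norm_eq_abs, sq_abs]
    ring
  have hH0s : nrm H0 ^ 2 = ∑ b, ‖u0 b‖ ^ 4 - N * (N - 1) ^ 2 := by
    rw [nrm_sq, Finset.sum_congr rfl fun b _ => hH0n b, Finset.sum_add_distrib,
      Finset.sum_sub_distrib, ← Finset.mul_sum, hu02, Finset.sum_const, Finset.card_univ,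
      nsmul_eq_mul, hcard]
    ring
  have hH0l : 7 / 10 * s ^ 6 ≤ nrm H0 ^ 2 := by
    rw [hH0s]
    have h1 : N ^ 3 = s ^ 6 := by rw [← hs2]; ring
    have h2 : N * (N - 1) ^ 2 ≤ N ^ 3 := by
      have : 1 ≤ N := by nlinarith
      nlinarith
    rw [← h1]
    linarith
  have hH0u : nrm H0 ≤ κ * s ^ 3 := by
    apply nrm_le (by positivity)
    rw [← nrm_sq, hH0s]
    have h1 : (κ * s ^ 3) ^ 2 = 3 * B * N ^ 3 := by
      rw [mul_pow, hκ2, ← hs2]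
      ring
    rw [h1]
    have : 0 ≤ N * (N - 1) ^ 2 := by positivity
    linarith
  -- the norm of D
  have hdu4 : ∑ b, ‖du b‖ ^ 4 ≤ (9 * ε ^ 2 * s ^ 3) ^ 2 := sum_four du _ hdu hdub (by positivity)
  have hdv4 : ∑ b, ‖dv b‖ ^ 4 ≤ (9 * ε ^ 2 * s ^ 3) ^ 2 := sum_four dv _ hdv hdvb (by positivity)
  obtain ⟨r, hr⟩ : ∃ r : ℝ, r = √s := ⟨_, rfl⟩
  have hr0 : 0 < r := by rw [hr]; positivity
  have hr2 : r ^ 2 = s := by rw [hr]; exact Real.sq_sqrt hs0.le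
  have hdu4' : ∑ b, ‖du b‖ ^ 4 ≤ (3 * ε * r ^ 3) ^ 4 := by
    refine hdu4.trans (le_of_eq ?_)
    rw [← hr2]
    ring
  have hdv4' : ∑ b, ‖dv b‖ ^ 4 ≤ (3 * ε * r ^ 3) ^ 4 := by
    refine hdv4.trans (le_of_eq ?_)
    rw [← hr2]
    ring
  have hu04' : ∑ b, ‖u0 b‖ ^ 4 ≤ (κ * r ^ 3) ^ 4 := by
    refine hu04u.trans ?_
    have h1 : (κ * r ^ 3) ^ 4 = κ ^ 2 * (κ ^ 2 * N ^ 3) := by
      rw [← hs2, ← hr2]
      ring
    rw [h1, hκ2]
    have h2 : 0 ≤ 3 * B * N ^ 3 := by positivity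
    nlinarith
  have hv04' : ∑ b, ‖v0 b‖ ^ 4 ≤ (κ * r ^ 3) ^ 4 := by
    refine le_trans (le_of_eq ?_) hu04'
    apply Finset.sum_congr rfl
    intro b _
    rw [hv0]
    simp only
    rw [RCLike.norm_conj]
  have hr3 : r ^ 3 * r ^ 3 = s ^ 3 := by
    rw [← hr2]
    ring
  have hnD : nrm D ≤ (6 * κ + 9) * ε * s ^ 3 := by
    have h1 : D = fun b => (du b * v0 b + u0 b * dv b) + du b * dv b := by
      funext b
      have h2 : ((‖u0 b‖ ^ 2 : ℝ) : ℂ) = u0 b * (starRingEnd ℂ) (u0 b) := by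
        rw [Complex.mul_conj, Complex.normSq_eq_norm_sq]
      simp only [hD, hH, hH0, hdu', hdv', hv0]
      push_cast at h2 ⊢
      rw [h2]
      ring
    rw [h1]
    have h3 := nrm_add (fun b => du b * v0 b + u0 b * dv b) (fun b => du b * dv b)
    have h4 := nrm_add (fun b => du b * v0 b) (fun b => u0 b * dv b)
    have h5 := nrm_mul_four du v0 (3 * ε * r ^ 3) (κ * r ^ 3) (by positivity) (by positivity)
      hdu4' hv04'
    have h6 := nrm_mul_four u0 dv (κ * r ^ 3) (3 * ε * r ^ 3) (by positivity) (by positivity)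
      hu04' hdv4'
    have h7 := nrm_mul_four du dv (3 * ε * r ^ 3) (3 * ε * r ^ 3) (by positivity) (by positivity)
      hdu4' hdv4'
    have h8 : 3 * ε * r ^ 3 * (κ * r ^ 3) = 3 * κ * ε * s ^ 3 := by rw [← hr3]; ring
    have h9 : κ * r ^ 3 * (3 * ε * r ^ 3) = 3 * κ * ε * s ^ 3 := by rw [← hr3]; ring
    have h10 : 3 * ε * r ^ 3 * (3 * ε * r ^ 3) = 9 * ε * ε * s ^ 3 := by rw [← hr3]; ring
    rw [h8] at h5
    rw [h9] at h6
    rw [h10] at h7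
    have h11 : 9 * ε * ε * s ^ 3 ≤ 9 * ε * s ^ 3 := by
      have : 0 ≤ 9 * ε * s ^ 3 := by positivity
      nlinarith
    linarith
  have hnH : nrm H ≤ (κ + 1) * s ^ 3 := by
    have h1 : H = fun b => H0 b + D b := by funext b; simp [hD]
    rw [h1]
    refine (nrm_add _ _).trans ?_
    have h2 : (6 * κ + 9) * ε ≤ 1 := by
      have : (6 * κ + 9) * ε * 1 ≤ (6 * κ + 9) * ε * κ :=
        mul_le_mul_of_nonneg_left hκ1 (by positivity)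
      linarith
    have h3 := mul_le_mul_of_nonneg_right h2 (by positivity : 0 ≤ s ^ 3)
    linarith
  -- the relation
  have hrel' : ∀ b, H b = -(Z * v b) - Z⁻¹ * u b := by
    intro b
    have h1 := hrel b
    have h2 : Z * Z⁻¹ = 1 := mul_inv_cancel₀ hZ
    rw [hH]
    simp only
    push_cast
    linear_combination h1 - h2
  have hZb : ‖Z‖ + ‖Z⁻¹‖ ≤ Z1 * s := by
    rw [hZ1]
    rcases le_total 1 ‖Z‖ with h | h
    · exact Zbound u v H Z s κ hs1 hκ1 h hnH hnu hnv' hrel'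
    · have h1 : 1 ≤ ‖Z⁻¹‖ := by
        rw [norm_inv]
        exact (one_le_inv₀ (norm_pos_iff.2 hZ)).2 h
      have h2 := Zbound v u H Z⁻¹ s κ hs1 hκ1 h1 hnH hnv hnu' (by
        intro b
        rw [hrel' b, inv_inv]
        ring)
      rw [inv_inv] at h2
      linarith
  -- the third moment
  have hY1 : ‖∑ b, u0 b * H0 b‖ ≤ 1 / (8 * Z1) * s ^ 5 := by
    have h1 : ∑ b, u0 b * H0 b = ∑ b, ((‖u0 b‖ ^ 2 : ℝ) : ℂ) * u0 b := by
      have h2 : ∀ b, u0 b * H0 b = ((‖u0 b‖ ^ 2 : ℝ) : ℂ) * u0 b - ((N - 1 : ℝ) : ℂ) * u0 b := by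
        intro b
        rw [hH0]
        simp only
        push_cast
        ring
      rw [Finset.sum_congr rfl fun b _ => h2 b, Finset.sum_sub_distrib, ← Finset.mul_sum, hu0s,
        mul_zero, sub_zero]
    rw [h1]
    apply abs_le_of_sq_le_sq' _ (by positivity) |>.2
    refine hY.trans (le_of_eq ?_)
    rw [← hs2]
    ring
  have hY2 : ‖∑ b, v0 b * H0 b‖ ≤ 1 / (8 * Z1) * s ^ 5 := by
    have h1 : ∑ b, v0 b * H0 b = (starRingEnd ℂ) (∑ b, u0 b * H0 b) := by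
      rw [map_sum]
      apply Finset.sum_congr rfl
      intro b _
      rw [map_mul, hH0]
      simp only
      rw [Complex.conj_ofReal]
    rw [h1, RCLike.norm_conj]
    exact hY1
  -- the end
  have hsum : ∑ b, H0 b * H0 b = -(Z * ∑ b, v0 b * H0 b) - Z⁻¹ * ∑ b, u0 b * H0 b -
      Z * ∑ b, dv b * H0 b - Z⁻¹ * ∑ b, du b * H0 b - ∑ b, D b * H0 b := by
    simp only [Finset.mul_sum]
    rw [← Finset.sum_neg_distrib, ← Finset.sum_sub_distrib, ← Finset.sum_sub_distrib,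
      ← Finset.sum_sub_distrib, ← Finset.sum_sub_distrib]
    apply Finset.sum_congr rfl
    intro b _
    have h1 : H0 b = H b - D b := by simp [hD]
    have h2 : v b = v0 b + dv b := by simp [hdv']
    have h3 : u b = u0 b + du b := by simp [hdu']
    have h4 := hrel' b
    rw [h2, h3] at h4
    have h5 : H0 b * H0 b = (H b - D b) * H0 b := by rw [← h1]
    rw [h5, h4]
    ring
  have hself : ∑ b, H0 b * H0 b = ((nrm H0 ^ 2 : ℝ) : ℂ) := by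
    rw [nrm_sq, Complex.ofReal_sum]
    apply Finset.sum_congr rfl
    intro b _
    rw [hH0]
    simp only
    rw [Complex.norm_real, Real.norm_eq_abs, sq_abs]
    push_cast
    ring
  have hfin : nrm H0 ^ 2 ≤ ‖Z‖ * ‖∑ b, v0 b * H0 b‖ + ‖Z⁻¹‖ * ‖∑ b, u0 b * H0 b‖ +
      ‖Z‖ * (nrm dv * nrm H0) + ‖Z⁻¹‖ * (nrm du * nrm H0) + nrm D * nrm H0 := by
    have h1 : nrm H0 ^ 2 = ‖∑ b, H0 b * H0 b‖ := by
      rw [hself, Complex.norm_real, Real.norm_eq_abs, abs_of_nonneg (sq_nonneg _)]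
    rw [h1, hsum]
    have h2 : ‖-(Z * ∑ b, v0 b * H0 b)‖ = ‖Z‖ * ‖∑ b, v0 b * H0 b‖ := by rw [norm_neg, norm_mul]
    have h3 : ‖Z⁻¹ * ∑ b, u0 b * H0 b‖ = ‖Z⁻¹‖ * ‖∑ b, u0 b * H0 b‖ := norm_mul _ _
    have h4 : ‖Z * ∑ b, dv b * H0 b‖ ≤ ‖Z‖ * (nrm dv * nrm H0) := by
      rw [norm_mul]
      exact mul_le_mul_of_nonneg_left (cs _ _) (norm_nonneg _)
    have h5 : ‖Z⁻¹ * ∑ b, du b * H0 b‖ ≤ ‖Z⁻¹‖ * (nrm du * nrm H0) := by
      rw [norm_mul]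
      exact mul_le_mul_of_nonneg_left (cs _ _) (norm_nonneg _)
    have h6 : ‖∑ b, D b * H0 b‖ ≤ nrm D * nrm H0 := cs _ _
    have t1 := norm_sub_le (-(Z * ∑ b, v0 b * H0 b)) (Z⁻¹ * ∑ b, u0 b * H0 b)
    have t2 := norm_sub_le (-(Z * ∑ b, v0 b * H0 b) - Z⁻¹ * ∑ b, u0 b * H0 b)
      (Z * ∑ b, dv b * H0 b)
    have t3 := norm_sub_le (-(Z * ∑ b, v0 b * H0 b) - Z⁻¹ * ∑ b, u0 b * H0 b -
      Z * ∑ b, dv b * H0 b) (Z⁻¹ * ∑ b, du b * H0 b)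
    have t4 := norm_sub_le (-(Z * ∑ b, v0 b * H0 b) - Z⁻¹ * ∑ b, u0 b * H0 b -
      Z * ∑ b, dv b * H0 b - Z⁻¹ * ∑ b, du b * H0 b) (∑ b, D b * H0 b)
    linarith
  have hA1 : ‖Z‖ * ‖∑ b, v0 b * H0 b‖ + ‖Z⁻¹‖ * ‖∑ b, u0 b * H0 b‖ ≤ 1 / 8 * s ^ 6 := by
    have h1 := mul_le_mul_of_nonneg_left hY2 (norm_nonneg Z)
    have h2 := mul_le_mul_of_nonneg_left hY1 (norm_nonneg Z⁻¹)
    have h3 : (‖Z‖ + ‖Z⁻¹‖) * (1 / (8 * Z1) * s ^ 5) ≤ Z1 * s * (1 / (8 * Z1) * s ^ 5) :=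
      mul_le_mul_of_nonneg_right hZb (by positivity)
    have h4 : Z1 * s * (1 / (8 * Z1) * s ^ 5) = 1 / 8 * s ^ 6 := by
      have : Z1 ≠ 0 := by linarith
      field_simp
    linarith
  have hA2 : ‖Z‖ * (nrm dv * nrm H0) + ‖Z⁻¹‖ * (nrm du * nrm H0) ≤ 1 / 8 * s ^ 6 := by
    have h1 : nrm dv * nrm H0 ≤ δ * s ^ 2 * (κ * s ^ 3) :=
      mul_le_mul hndv hH0u (nrm_nonneg _) (by positivity)
    have h2 : nrm du * nrm H0 ≤ δ * s ^ 2 * (κ * s ^ 3) :=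
      mul_le_mul hndu hH0u (nrm_nonneg _) (by positivity)
    have h3 := mul_le_mul_of_nonneg_left h1 (norm_nonneg Z)
    have h4 := mul_le_mul_of_nonneg_left h2 (norm_nonneg Z⁻¹)
    have h5 : (‖Z‖ + ‖Z⁻¹‖) * (δ * s ^ 2 * (κ * s ^ 3)) ≤ Z1 * s * (δ * s ^ 2 * (κ * s ^ 3)) :=
      mul_le_mul_of_nonneg_right hZb (by positivity)
    have h6 : Z1 * s * (δ * s ^ 2 * (κ * s ^ 3)) = 1 / 8 * s ^ 6 := by
      calc Z1 * s * (δ * s ^ 2 * (κ * s ^ 3)) = (Z1 * δ * κ) * s ^ 6 := by ring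
        _ = 1 / 8 * s ^ 6 := by rw [hδZ]
    linarith
  have hA3 : nrm D * nrm H0 ≤ 1 / 8 * s ^ 6 := by
    have h1 : nrm D * nrm H0 ≤ (6 * κ + 9) * ε * s ^ 3 * (κ * s ^ 3) :=
      mul_le_mul hnD hH0u (nrm_nonneg _) (by positivity)
    have h2 : (6 * κ + 9) * ε * s ^ 3 * (κ * s ^ 3) = ((6 * κ + 9) * ε * κ) * s ^ 6 := by ring
    have h3 := mul_le_mul_of_nonneg_right hεκ (by positivity : 0 ≤ s ^ 6)
    linarith
  have hs6 : 0 < s ^ 6 := by positivity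
  linarith

end Pool.Agent.UAA
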