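import Pool.Agent.UAA.St

/-!
# The main theorem for the random set
-/

set_option autoImplicit false

namespace Pool.Agent.UAA

open Finset Filter Topology

namespace MAIaux

/-- The deterministic step. -/
theorem flat_root {q d g E : ℕ} [NeZero q] {τ ε β : ℝ} (hALG : ALG_Stmt)
    (hDET : ∀ l : G q d → ℤ, Typ l → ∀ z z0 : ℂ, TII l z →
      |Real.log ‖z‖| ≤ 4 * Real.log (nn q d) / nn q d → ‖z0‖ = 1 →
      ‖z - z0‖ ≤ ε * nn q d ^ (-(3 / 4) : ℝ) → ¬ Gd τ l z0)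
    (hANN : ∀ l : G q d → ℤ, Typ l → ∀ z : ℂ, TII l z →
      |Real.log ‖z‖| ≤ 4 * Real.log (nn q d) / nn q d)
    (hNET : ∀ z : ℂ, z ≠ 0 → |Real.log ‖z‖| ≤ 4 * Real.log (nn q d) / nn q d →
      1 ≤ ‖∏ j ∈ Finset.Icc 1 E, (z ^ (g * j) - 1)‖ →
      ∃ k : ℕ, k < Mn ε q d ∧ ‖z - zn (Mn ε q d) k‖ ≤ ε * nn q d ^ (-(3 / 4) : ℝ) ∧
        Bulk g E β (zn (Mn ε q d) k))
    (ω : Om q d) (hTyp : Typ (la ω))
    (hFLT : ∀ t : ℝ, Pool.Agent.Lib_helper58.CayleyUM.Flat (Cs ω) t →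
      IsIntegral ℤ (Complex.exp (Complex.I * (t : ℂ))) ∧
      ∀ z' : ℂ, Polynomial.aeval z' (minpoly ℚ (Complex.exp (Complex.I * (t : ℂ)))) = 0 →
        TII (la ω) z')
    (hG : ∀ k < Mn ε q d, Bulk g E β (zn (Mn ε q d) k) → Gd τ (la ω) (zn (Mn ε q d) k)) (t : ℝ)
    (ht : Pool.Agent.Lib_helper58.CayleyUM.Flat (Cs ω) t) :
    ∃ j : ℕ, 1 ≤ j ∧ j ≤ E ∧ Complex.exp (Complex.I * (t : ℂ) * ((g : ℂ) * (j : ℂ))) = 1 := by
  obtain ⟨hint, hroot⟩ := hFLT t ht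
  set z := Complex.exp (Complex.I * (t : ℂ)) with hz
  set P : Polynomial ℤ := ∏ j ∈ Finset.Icc 1 E, (Polynomial.X ^ (g * j) - 1) with hP
  have hev : ∀ x : ℂ, Polynomial.aeval x P = ∏ j ∈ Finset.Icc 1 E, (x ^ (g * j) - 1) := by
    intro x
    rw [hP, map_prod]
    refine prod_congr rfl fun j _ => ?_
    rw [map_sub, map_pow, Polynomial.aeval_X, map_one]
  have h1 := hALG z P hint (by
    intro z' hz'
    by_contra hcon
    rw [not_lt, hev] at hcon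
    have h2 := hroot z' hz'
    have h3 := hANN _ hTyp z' h2
    obtain ⟨k, hk1, hk2, hk3⟩ := hNET z' h2.1 h3 hcon
    exact hDET _ hTyp z' _ h2 h3 hk3.1 hk2 (hG k hk1 hk3))
  rw [hev, prod_eq_zero_iff] at h1
  obtain ⟨j, hj, h2⟩ := h1
  rw [mem_Icc] at hj
  refine ⟨j, hj.1, hj.2, ?_⟩
  rw [sub_eq_zero, hz, ← Complex.exp_nat_mul] at h2
  rw [← h2]
  congr 1
  push_cast
  ring

open Classical in
/-- The union bound. -/
theorem union {q d g E : ℕ} [NeZero q] {τ β K : ℝ} (hτ : 0 < τ) (M : ℕ)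
    (h4 : ∀ z : ℂ, Bulk g E β z →
      (((univ : Finset (Om q d)).filter fun ω => ¬ (17 / 10 * nn q d ^ 2 ≤ (T4 (la ω) z).re ∧
        ‖T4 (la ω) z‖ ≤ 3 * (q : ℝ) ^ 2 * nn q d ^ 2)).card : ℝ) * nn q d ≤
        800 * (q : ℝ) ^ 4 * (Fintype.card (Om q d) : ℝ))
    (h3 : ∀ z : ℂ, Bulk g E β z →
      (((univ : Finset (Om q d)).filter fun ω =>
        ¬ ‖T3 (la ω) z‖ ^ 2 ≤ τ * nn q d ^ 3).card : ℝ) * (τ * nn q d) ≤
        7 * (q : ℝ) ^ 3 * (Fintype.card (Om q d) : ℝ))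
    (hT : (((univ : Finset (Om q d)).filter fun ω => ¬ Typ (la ω)).card : ℝ) * nn q d ≤
      K * (Fintype.card (Om q d) : ℝ)) (Good : Om q d → Prop)
    (hgood : ∀ ω, Typ (la ω) → (∀ k < M, Bulk g E β (zn M k) → Gd τ (la ω) (zn M k)) → Good ω) :
    (((univ : Finset (Om q d)).filter fun ω => ¬ Good ω).card : ℝ) * nn q d ≤
      (K + M * (800 * (q : ℝ) ^ 4 + 7 * (q : ℝ) ^ 3 / τ)) * (Fintype.card (Om q d) : ℝ) := by
  have hn : 0 ≤ nn q d := by unfold nn; positivity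
  set N : ℝ := (Fintype.card (Om q d) : ℝ) with hN
  set B : ℕ → Finset (Om q d) := fun k => if Bulk g E β (zn M k) then
    ((univ : Finset (Om q d)).filter fun ω =>
      ¬ (17 / 10 * nn q d ^ 2 ≤ (T4 (la ω) (zn M k)).re ∧
        ‖T4 (la ω) (zn M k)‖ ≤ 3 * (q : ℝ) ^ 2 * nn q d ^ 2)) ∪
    ((univ : Finset (Om q d)).filter fun ω => ¬ ‖T3 (la ω) (zn M k)‖ ^ 2 ≤ τ * nn q d ^ 3)
    else ∅ with hB
  have hBc : ∀ k, ((B k).card : ℝ) * nn q d ≤ (800 * (q : ℝ) ^ 4 + 7 * (q : ℝ) ^ 3 / τ) * N := by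
    intro k
    by_cases hk : Bulk g E β (zn M k)
    · have e1 := h4 _ hk
      have e2 := h3 _ hk
      have e3 : ((B k).card : ℝ) ≤
          (((univ : Finset (Om q d)).filter fun ω =>
            ¬ (17 / 10 * nn q d ^ 2 ≤ (T4 (la ω) (zn M k)).re ∧
            ‖T4 (la ω) (zn M k)‖ ≤ 3 * (q : ℝ) ^ 2 * nn q d ^ 2)).card : ℝ) +
          (((univ : Finset (Om q d)).filter fun ω =>
            ¬ ‖T3 (la ω) (zn M k)‖ ^ 2 ≤ τ * nn q d ^ 3).card : ℝ) := by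
        rw [hB]
        simp only [if_pos hk]
        exact_mod_cast card_union_le _ _
      have e4 : (((univ : Finset (Om q d)).filter fun ω =>
            ¬ ‖T3 (la ω) (zn M k)‖ ^ 2 ≤ τ * nn q d ^ 3).card : ℝ) * nn q d ≤
            7 * (q : ℝ) ^ 3 / τ * N := by
        rw [div_mul_eq_mul_div, le_div_iff₀ hτ]
        calc _ = (((univ : Finset (Om q d)).filter fun ω =>
            ¬ ‖T3 (la ω) (zn M k)‖ ^ 2 ≤ τ * nn q d ^ 3).card : ℝ) * (τ * nn q d) := by ring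
          _ ≤ _ := e2
      calc ((B k).card : ℝ) * nn q d ≤ _ := mul_le_mul_of_nonneg_right e3 hn
        _ ≤ _ := by
          rw [add_mul, add_mul]
          exact add_le_add e1 e4
    · have e1 : B k = ∅ := if_neg hk
      rw [e1, card_empty, Nat.cast_zero, zero_mul]
      positivity
  have hsub : ((univ : Finset (Om q d)).filter fun ω => ¬ Good ω) ⊆
      ((univ : Finset (Om q d)).filter fun ω => ¬ Typ (la ω)) ∪ (range M).biUnion B := by
    intro ω hω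
    rw [mem_filter] at hω
    rw [mem_union, mem_filter, mem_biUnion]
    by_contra hcon
    push Not at hcon
    obtain ⟨c1, c2⟩ := hcon
    apply hω.2
    refine hgood ω (c1 (mem_univ _)) fun k hk hbulk => ?_
    have c3 := c2 k (mem_range.2 hk)
    rw [hB] at c3
    simp only [if_pos hbulk] at c3
    rw [mem_union, mem_filter, mem_filter] at c3
    push Not at c3
    obtain ⟨c4, c5⟩ := c3
    exact ⟨(c4 (mem_univ _)).1, (c4 (mem_univ _)).2, c5 (mem_univ _)⟩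
  have h1 : (((univ : Finset (Om q d)).filter fun ω => ¬ Good ω).card : ℝ) ≤
      (((univ : Finset (Om q d)).filter fun ω => ¬ Typ (la ω)).card : ℝ) +
        ∑ k ∈ range M, ((B k).card : ℝ) := by
    have e1 := (card_le_card hsub).trans ((card_union_le _ _).trans
      (Nat.add_le_add_left card_biUnion_le _))
    exact_mod_cast e1
  calc (((univ : Finset (Om q d)).filter fun ω => ¬ Good ω).card : ℝ) * nn q d
      ≤ ((((univ : Finset (Om q d)).filter fun ω => ¬ Typ (la ω)).card : ℝ) +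
        ∑ k ∈ range M, ((B k).card : ℝ)) * nn q d := mul_le_mul_of_nonneg_right h1 hn
    _ = (((univ : Finset (Om q d)).filter fun ω => ¬ Typ (la ω)).card : ℝ) * nn q d +
        ∑ k ∈ range M, ((B k).card : ℝ) * nn q d := by rw [add_mul, sum_mul]
    _ ≤ K * N + ∑ _k ∈ range M, (800 * (q : ℝ) ^ 4 + 7 * (q : ℝ) ^ 3 / τ) * N :=
        add_le_add hT (sum_le_sum fun k _ => hBc k)
    _ = (K + M * (800 * (q : ℝ) ^ 4 + 7 * (q : ℝ) ^ 3 / τ)) * N := by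
        rw [sum_const, card_range, nsmul_eq_mul]
        ring

end MAIaux

open MAIaux in
theorem t_MAI : MAI_Stmt := by
  intro hMOM4 hMOM3 hBND hRAM hLAM hEXP hUNB hTNY hCNT8 hCNT6 hCNT4 hTYP hANN hFOU hPAR hLIN hDET
    hNET hALG hFLT q g E _ hq hg hE hGE
  classical
  have hβ0 : (0 : ℝ) < (1 / 3) ^ E := by positivity
  have hβ1 : ((1 : ℝ) / 3) ^ E ≤ 1 := pow_le_one₀ (by norm_num) (by norm_num)
  obtain ⟨τ, ε, hτ, hε, hε1, d0, hd0⟩ := hDET hFOU hPAR hLIN q hq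
  obtain ⟨d1, hd1⟩ := hMOM4 hBND hRAM hEXP hUNB hTNY hCNT8 hCNT4 q hq _ hβ0 hβ1
  obtain ⟨d2, hd2⟩ := hMOM3 hBND hRAM hEXP hUNB hTNY hCNT6 q hq _ τ hβ0 hβ1 hτ
  obtain ⟨K, d3, hd3⟩ := hTYP hRAM hLAM hEXP q hq
  obtain ⟨d4, hd4⟩ := hANN q hq
  obtain ⟨d5, hd5⟩ := hNET q hq ε hε hε1 g E hg hE
  obtain ⟨d6, hd6⟩ := hFLT hLAM q hq
  set D := d0 + d1 + d2 + d3 + d4 + d5 + d6 with hD
  have hq1 : (1 : ℝ) ≤ q := by exact_mod_cast (by omega : 1 ≤ q)
  set c : ℝ := 800 * (q : ℝ) ^ 4 + 7 * (q : ℝ) ^ 3 / τ with hc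
  have hc0 : 0 < c := by positivity
  refine ⟨|K| + (8 / ε + 2) * c + (q : ℝ) ^ D, by positivity, fun d => ?_⟩
  have hn1 : 1 ≤ nn q d := one_le_pow₀ hq1
  have hn0 : 0 < nn q d := by linarith
  have hN0 : (0 : ℝ) ≤ (Fintype.card (Om q d) : ℝ) := Nat.cast_nonneg _
  have hn4 : nn q d ^ (1 / 4 : ℝ) ≤ nn q d := by
    calc nn q d ^ (1 / 4 : ℝ) ≤ nn q d ^ (1 : ℝ) :=
          Real.rpow_le_rpow_of_exponent_le hn1 (by norm_num)
      _ = nn q d := Real.rpow_one _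
  rcases lt_or_ge d D with hlt | hge
  · have e1 : (((univ : Finset (Om q d)).filter fun ω => ¬ ∀ t : ℝ,
        Pool.Agent.Lib_helper58.CayleyUM.Flat (Cs ω) t → ∃ j : ℕ, 1 ≤ j ∧ j ≤ E ∧
        Complex.exp (Complex.I * (t : ℂ) * ((g : ℂ) * (j : ℂ))) = 1).card : ℝ) ≤
        (Fintype.card (Om q d) : ℝ) := by
      rw [← card_univ]
      exact_mod_cast card_le_card (filter_subset _ _)
    have e2 : nn q d ≤ (q : ℝ) ^ D := pow_le_pow_right₀ hq1 hlt.le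
    have e3 : 0 ≤ |K| + (8 / ε + 2) * c := by positivity
    calc _ ≤ (Fintype.card (Om q d) : ℝ) * (q : ℝ) ^ D := by
          apply mul_le_mul e1 (hn4.trans e2) (by positivity) hN0
      _ = (q : ℝ) ^ D * (Fintype.card (Om q d) : ℝ) := mul_comm _ _
      _ ≤ _ := by
          apply mul_le_mul_of_nonneg_right _ hN0
          linarith
  · have key := union (g := g) (E := E) (β := (1 / 3) ^ E) (K := K) hτ (Mn ε q d)
      (hd1 d (by omega) g E (hGE d)) (hd2 d (by omega) g E (hGE d)) (hd3 d (by omega))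
      (fun ω => ∀ t : ℝ, Pool.Agent.Lib_helper58.CayleyUM.Flat (Cs ω) t → ∃ j : ℕ, 1 ≤ j ∧
        j ≤ E ∧ Complex.exp (Complex.I * (t : ℂ) * ((g : ℂ) * (j : ℂ))) = 1)
      (fun ω hTyp hG t ht => flat_root hALG (hd0 d (by omega)) (hd4 d (by omega))
        (hd5 d (by omega)) ω hTyp (hd6 d (by omega) ω hTyp) hG t ht)
    set X : ℝ := (((univ : Finset (Om q d)).filter fun ω => ¬ ∀ t : ℝ,
        Pool.Agent.Lib_helper58.CayleyUM.Flat (Cs ω) t → ∃ j : ℕ, 1 ≤ j ∧ j ≤ E ∧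
        Complex.exp (Complex.I * (t : ℂ) * ((g : ℂ) * (j : ℂ))) = 1).card : ℝ) with hX
    have hM : (Mn ε q d : ℝ) ≤ (8 / ε + 1) * nn q d ^ (3 / 4 : ℝ) := by
      have e1 : 1 ≤ nn q d ^ (3 / 4 : ℝ) := Real.one_le_rpow hn1 (by norm_num)
      have e2 : (Mn ε q d : ℝ) < 8 / ε * nn q d ^ (3 / 4 : ℝ) + 1 :=
        Nat.ceil_lt_add_one (by positivity)
      linarith
    have h34 : nn q d ^ (3 / 4 : ℝ) * nn q d ^ (1 / 4 : ℝ) = nn q d := by
      rw [← Real.rpow_add hn0]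
      norm_num
    have h14 : 0 < nn q d ^ (1 / 4 : ℝ) := by positivity
    have e5 : X * nn q d ^ (1 / 4 : ℝ) * nn q d ≤
        ((|K| + (8 / ε + 1) * c) * (Fintype.card (Om q d) : ℝ)) * nn q d := by
      calc X * nn q d ^ (1 / 4 : ℝ) * nn q d = (X * nn q d) * nn q d ^ (1 / 4 : ℝ) := by ring
        _ ≤ ((K + Mn ε q d * c) * (Fintype.card (Om q d) : ℝ)) * nn q d ^ (1 / 4 : ℝ) :=
            mul_le_mul_of_nonneg_right key h14.le
        _ ≤ ((|K| + ((8 / ε + 1) * nn q d ^ (3 / 4 : ℝ)) * c) *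
            (Fintype.card (Om q d) : ℝ)) * nn q d ^ (1 / 4 : ℝ) := by
            apply mul_le_mul_of_nonneg_right _ h14.le
            apply mul_le_mul_of_nonneg_right _ hN0
            exact add_le_add (le_abs_self K) (mul_le_mul_of_nonneg_right hM hc0.le)
        _ = (|K| * nn q d ^ (1 / 4 : ℝ) + (8 / ε + 1) * c *
            (nn q d ^ (3 / 4 : ℝ) * nn q d ^ (1 / 4 : ℝ))) *
            (Fintype.card (Om q d) : ℝ) := by ring
        _ ≤ (|K| * nn q d + (8 / ε + 1) * c * nn q d) * (Fintype.card (Om q d) : ℝ) := by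
            rw [h34]
            apply mul_le_mul_of_nonneg_right _ hN0
            exact add_le_add (mul_le_mul_of_nonneg_left hn4 (abs_nonneg K)) le_rfl
        _ = _ := by ring
    have e6 := le_of_mul_le_mul_right e5 hn0
    refine e6.trans ?_
    apply mul_le_mul_of_nonneg_right _ hN0
    have e7 : 0 ≤ (q : ℝ) ^ D := by positivity
    have e8 : (8 / ε + 1) * c ≤ (8 / ε + 2) * c := by
      apply mul_le_mul_of_nonneg_right _ hc0.le
      linarith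
    linarith

end Pool.Agent.UAA
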