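import Pool.Agent.UAA.St

/-!
# The third moment is small (module `MOM3`)
-/

set_option autoImplicit false

namespace Pool.Agent.UAA

open Finset Filter Topology

namespace MOM3aux

/-- Markov. -/
theorem markov {Ω : Type*} [Fintype Ω] (f : Ω → ℝ) (r V : ℝ) (hf : ∀ ω, 0 ≤ f ω)
    (hV : ∑ ω, f ω ≤ V) (P : Ω → Prop) [DecidablePred P] (hP : ∀ ω, f ω ≤ r → P ω) :
    ((univ.filter fun ω => ¬ P ω).card : ℝ) * r ≤ V := by
  have h0 : ((univ.filter fun ω => ¬ P ω).card : ℝ) * r =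
      ∑ ω ∈ univ.filter (fun ω => ¬ P ω), r := by
    rw [Finset.sum_const, nsmul_eq_mul]
  rw [h0]
  refine le_trans ?_ hV
  refine le_trans (Finset.sum_le_sum (g := f) ?_) ?_
  · intro ω hω
    have h1 : ¬ P ω := (mem_filter.1 hω).2
    by_contra h
    exact h1 (hP ω (not_le.1 h).le)
  · exact Finset.sum_le_sum_of_subset_of_nonneg (filter_subset _ _) (fun _ _ _ => hf _)

variable {q d : ℕ}

theorem conj_zpow (z : ℂ) (hz : ‖z‖ = 1) (a : ℤ) : (starRingEnd ℂ) (z ^ a) = z ^ (-a) := by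
  rw [map_zpow₀, ← Complex.inv_eq_conj hz, inv_zpow']

/-- The monomial of a triple. -/
noncomputable def FF [NeZero q] (z : ℂ) (x : Fin 2 → G q d) (ω : Om q d) : ℂ :=
  z ^ (la ω (x 0) + la ω (x 1) - la ω (x 0 + x 1))

theorem FF_mul [NeZero q] (z : ℂ) (hz : ‖z‖ = 1) (x y : Fin 2 → G q d) (ω : Om q d) :
    FF z x ω * (starRingEnd ℂ) (FF z y ω) =
      z ^ (∑ i, la ω (![x 0, x 1, y 0 + y 1] i) - ∑ i, la ω (![y 0, y 1, x 0 + x 1] i)) := by
  have hz0 : z ≠ 0 := by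
    intro h
    rw [h, norm_zero] at hz
    exact zero_ne_one hz
  unfold FF
  rw [conj_zpow z hz, ← zpow_add₀ hz0, Fin.sum_univ_three, Fin.sum_univ_three]
  congr 1
  simp only [Matrix.cons_val_zero, Matrix.cons_val_one, Matrix.cons_val]
  ring

open Classical in
/-- The additive triples. -/
noncomputable def SS (q d : ℕ) [NeZero q] : Finset (Fin 2 → G q d) :=
  univ.filter fun x => A3 x

theorem T3_eq [NeZero q] (z : ℂ) (ω : Om q d) : T3 (la ω) z = ∑ x ∈ SS q d, FF z x ω := by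
  classical
  unfold T3 SS FF
  rw [Finset.sum_filter]

theorem card_SS [NeZero q] : ((SS q d).card : ℝ) ≤ nn q d ^ 2 := by
  have h : (Fintype.card (Fin 2 → G q d) : ℝ) = nn q d ^ 2 := by
    simp only [Fintype.card_fun, ZMod.card, Fintype.card_fin, nn]
    push_cast
    ring
  rw [← h]
  exact_mod_cast Finset.card_le_univ _

/-- The square of the modulus. -/
theorem sq_eq [NeZero q] (z : ℂ) (hz : ‖z‖ = 1) (ω : Om q d) :
    ((‖T3 (la ω) z‖ ^ 2 : ℝ) : ℂ) = ∑ x ∈ SS q d, ∑ y ∈ SS q d,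
      z ^ (∑ i, la ω (![x 0, x 1, y 0 + y 1] i) - ∑ i, la ω (![y 0, y 1, x 0 + x 1] i)) := by
  rw [T3_eq]
  push_cast
  rw [← Complex.mul_conj', map_sum, Finset.sum_mul_sum]
  refine Finset.sum_congr rfl fun x _ => Finset.sum_congr rfl fun y _ => ?_
  exact FF_mul z hz x y ω

/-- The balanced pairs. -/
def BB (x y : Fin 2 → G q d) : Prop := Bal ![x 0, x 1, y 0 + y 1] ![y 0, y 1, x 0 + x 1]

open Classical in
theorem bal_count [NeZero q] (h : CNT6_Stmt) :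
    ∑ x ∈ SS q d, ∑ y ∈ SS q d, (if BB x y then (1 : ℝ) else 0) ≤
      6 * (q : ℝ) ^ 3 * nn q d ^ 2 := by
  have h1 := h q d
  set W := (univ : Finset ((Fin 2 → G q d) × (Fin 2 → G q d))).filter
    fun t => A3 t.1 ∧ A3 t.2 ∧
      Bal ![t.1 0, t.1 1, t.2 0 + t.2 1] ![t.2 0, t.2 1, t.1 0 + t.1 1] with hW
  have h2 : ∑ x ∈ SS q d, ∑ y ∈ SS q d, (if BB x y then (1 : ℝ) else 0) =
      ((((SS q d) ×ˢ (SS q d)).filter fun x => BB x.1 x.2).card : ℝ) := by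
    rw [← Finset.sum_product', Finset.card_filter]
    push_cast
    rfl
  have h3 : (((SS q d) ×ˢ (SS q d)).filter fun x => BB x.1 x.2).card ≤ W.card := by
    refine Finset.card_le_card ?_
    intro x hx
    rw [Finset.mem_filter, Finset.mem_product] at hx
    obtain ⟨⟨ha, hb⟩, hc⟩ := hx
    have ha' : A3 x.1 := (mem_filter.1 ha).2
    have hb' : A3 x.2 := (mem_filter.1 hb).2
    rw [hW, Finset.mem_filter]
    exact ⟨mem_univ _, ha', hb', hc⟩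
  rw [h2]
  have h4 : ((((SS q d) ×ˢ (SS q d)).filter fun x => BB x.1 x.2).card : ℝ) ≤ (W.card : ℝ) := by
    exact_mod_cast h3
  exact h4.trans h1

/-- The second moment of `T3`. -/
theorem mom [NeZero q] (z : ℂ) (hz : ‖z‖ = 1) (tn : ℝ) (htn : 0 ≤ tn)
    (h8 : nn q d ^ 4 * tn ≤ 1) (hn : 1 ≤ nn q d) (hq1 : (1 : ℝ) ≤ q)
    (hB : ∀ (k : ℕ) (p m : Fin k → G q d), k ≤ 4 →
      (Bal p m → ∑ ω : Om q d, z ^ (∑ i, la ω (p i) - ∑ i, la ω (m i)) =
        (Fintype.card (Om q d) : ℂ)) ∧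
      (¬ Bal p m → ‖∑ ω : Om q d, z ^ (∑ i, la ω (p i) - ∑ i, la ω (m i))‖ ≤
        (Fintype.card (Om q d) : ℝ) * tn))
    (h6c : CNT6_Stmt) :
    ∑ ω : Om q d, ‖T3 (la ω) z‖ ^ 2 ≤
      (Fintype.card (Om q d) : ℝ) * (7 * (q : ℝ) ^ 3 * nn q d ^ 2) := by
  classical
  set N : ℕ := Fintype.card (Om q d) with hN
  have hNR : (0 : ℝ) ≤ (N : ℝ) := Nat.cast_nonneg _
  have key : ((∑ ω : Om q d, ‖T3 (la ω) z‖ ^ 2 : ℝ) : ℂ) =
      ∑ x ∈ SS q d, ∑ y ∈ SS q d, ∑ ω : Om q d,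
        z ^ (∑ i, la ω (![x 0, x 1, y 0 + y 1] i) - ∑ i, la ω (![y 0, y 1, x 0 + x 1] i)) := by
    rw [Complex.ofReal_sum]
    simp_rw [sq_eq z hz]
    rw [Finset.sum_comm]
    refine Finset.sum_congr rfl fun x _ => ?_
    rw [Finset.sum_comm]
  have h2 : ∑ ω : Om q d, ‖T3 (la ω) z‖ ^ 2 =
      ‖((∑ ω : Om q d, ‖T3 (la ω) z‖ ^ 2 : ℝ) : ℂ)‖ := by
    rw [Complex.norm_real, Real.norm_of_nonneg (Finset.sum_nonneg fun _ _ => by positivity)]
  have bound : ∀ x y : Fin 2 → G q d, ‖∑ ω : Om q d,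
      z ^ (∑ i, la ω (![x 0, x 1, y 0 + y 1] i) - ∑ i, la ω (![y 0, y 1, x 0 + x 1] i))‖ ≤
      (N : ℝ) * ((if BB x y then (1 : ℝ) else 0) + tn) := by
    intro x y
    have h3 := hB 3 ![x 0, x 1, y 0 + y 1] ![y 0, y 1, x 0 + x 1] (by norm_num)
    by_cases hb : BB x y
    · rw [h3.1 hb, if_pos hb, Complex.norm_natCast]
      nlinarith
    · rw [if_neg hb, zero_add]
      exact h3.2 hb
  rw [h2, key]
  have h4 : ‖∑ x ∈ SS q d, ∑ y ∈ SS q d, ∑ ω : Om q d,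
      z ^ (∑ i, la ω (![x 0, x 1, y 0 + y 1] i) - ∑ i, la ω (![y 0, y 1, x 0 + x 1] i))‖ ≤
      ∑ x ∈ SS q d, ∑ y ∈ SS q d, (N : ℝ) * ((if BB x y then (1 : ℝ) else 0) + tn) :=
    (norm_sum_le _ _).trans (Finset.sum_le_sum fun x _ =>
      (norm_sum_le _ _).trans (Finset.sum_le_sum fun y _ => bound x y))
  refine h4.trans ?_
  simp_rw [← Finset.mul_sum]
  refine mul_le_mul_of_nonneg_left ?_ hNR
  have h5 : ∑ x ∈ SS q d, ∑ y ∈ SS q d, ((if BB x y then (1 : ℝ) else 0) + tn) =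
      ∑ x ∈ SS q d, ∑ y ∈ SS q d, (if BB x y then (1 : ℝ) else 0) +
        ((SS q d).card : ℝ) * (((SS q d).card : ℝ) * tn) := by
    simp only [Finset.sum_add_distrib, Finset.sum_const, nsmul_eq_mul]
  have h6 := bal_count (q := q) (d := d) h6c
  have h7 := card_SS (q := q) (d := d)
  have h9 : ((SS q d).card : ℝ) * (((SS q d).card : ℝ) * tn) ≤ 1 := by
    have h10 : ((SS q d).card : ℝ) * (((SS q d).card : ℝ) * tn) ≤
        nn q d ^ 2 * (nn q d ^ 2 * tn) := by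
      refine mul_le_mul h7 (mul_le_mul_of_nonneg_right h7 htn) ?_ (by positivity)
      exact mul_nonneg (Nat.cast_nonneg _) htn
    have h11 : nn q d ^ 2 * (nn q d ^ 2 * tn) = nn q d ^ 4 * tn := by ring
    linarith
  have h12 : (1 : ℝ) ≤ (q : ℝ) ^ 3 * nn q d ^ 2 :=
    one_le_mul_of_one_le_of_one_le (one_le_pow₀ hq1) (one_le_pow₀ hn)
  rw [h5]
  linarith

end MOM3aux

theorem t_MOM3 : MOM3_Stmt := by
  classical
  intro hBND hRAM hEXP hUNB hTNY h6c q _ hq β τ hβ hβ1 hτ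
  obtain ⟨htn, d1, hd1⟩ := hTNY q hq β hβ hβ1 4
  refine ⟨max d1 10, fun d hd g E hGE z hz => ?_⟩
  have hd10 : 10 ≤ d := le_trans (le_max_right _ _) hd
  have hdd : d ≥ d1 := le_trans (le_max_left _ _) hd
  have hq2 : (2 : ℝ) ≤ q := by exact_mod_cast hq
  have hn : 1 ≤ nn q d := one_le_pow₀ (by linarith)
  have hmom := MOM3aux.mom z hz.1 (tiny q d β) (htn d) (hd1 d hdd) hn (by linarith)
    (fun k p m hk => hBND hRAM hEXP hUNB q d g E hq hGE hd10 β z hβ hβ1 hz k p m hk) h6c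
  have hM := MOM3aux.markov (fun ω : Om q d => ‖T3 (la ω) z‖ ^ 2) (τ * nn q d ^ 3) _
    (fun ω => by positivity) hmom (fun ω => ‖T3 (la ω) z‖ ^ 2 ≤ τ * nn q d ^ 3)
    (fun ω h => h)
  have hn0 : 0 < nn q d ^ 2 := by positivity
  have e : ∀ x : ℝ, x * (τ * nn q d ^ 3) = (x * (τ * nn q d)) * nn q d ^ 2 := by intro x; ring
  rw [e] at hM
  have e2 : (Fintype.card (Om q d) : ℝ) * (7 * (q : ℝ) ^ 3 * nn q d ^ 2) =
      (7 * (q : ℝ) ^ 3 * (Fintype.card (Om q d) : ℝ)) * nn q d ^ 2 := by ring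
  rw [e2] at hM
  have := le_of_mul_le_mul_right hM hn0
  convert this using 2

end Pool.Agent.UAA
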