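import Pool.Agent.UAA.St

/-!
# The fourth moment is concentrated (module `MOM4`)
-/

set_option autoImplicit false

namespace Pool.Agent.UAA

open Finset Filter Topology

namespace MOM4aux

/-- Chebyshev. -/
theorem cheb {Ω : Type*} [Fintype Ω] (f : Ω → ℂ) (μ : ℂ) (r V : ℝ) (hr : 0 ≤ r)
    (hV : ∑ ω, ‖f ω - μ‖ ^ 2 ≤ V) (P : Ω → Prop) [DecidablePred P]
    (hP : ∀ ω, ‖f ω - μ‖ ≤ r → P ω) :
    ((univ.filter fun ω => ¬ P ω).card : ℝ) * r ^ 2 ≤ V := by
  have h0 : ((univ.filter fun ω => ¬ P ω).card : ℝ) * r ^ 2 =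
      ∑ ω ∈ univ.filter (fun ω => ¬ P ω), r ^ 2 := by
    rw [Finset.sum_const, nsmul_eq_mul]
  rw [h0]
  refine le_trans ?_ hV
  refine le_trans (Finset.sum_le_sum (g := fun ω => ‖f ω - μ‖ ^ 2) ?_) ?_
  · intro ω hω
    have h1 : ¬ P ω := (mem_filter.1 hω).2
    have h2 : r ≤ ‖f ω - μ‖ := by
      by_contra h
      exact h1 (hP ω (not_le.1 h).le)
    exact pow_le_pow_left₀ hr h2 2
  · exact Finset.sum_le_sum_of_subset_of_nonneg (filter_subset _ _) (fun _ _ _ => by positivity)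

/-- The variance of a sum. -/
theorem var {Ω σ : Type*} [Fintype Ω] (S : Finset σ) (F : σ → Ω → ℂ)
    (A : σ → ℂ) (C : σ → σ → ℂ)
    (hA : ∀ s, ∑ ω, F s ω = (Fintype.card Ω : ℂ) * A s)
    (hC : ∀ s s', ∑ ω, F s ω * (starRingEnd ℂ) (F s' ω) = (Fintype.card Ω : ℂ) * C s s') :
    ∑ ω, ‖(∑ s ∈ S, F s ω) - ∑ s ∈ S, A s‖ ^ 2 ≤
      (Fintype.card Ω : ℝ) *
        ∑ s ∈ S, ∑ s' ∈ S, ‖C s s' - A s * (starRingEnd ℂ) (A s')‖ := by
  have key : ((∑ ω, ‖(∑ s ∈ S, F s ω) - ∑ s ∈ S, A s‖ ^ 2 : ℝ) : ℂ) =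
      (Fintype.card Ω : ℂ) *
        ∑ s ∈ S, ∑ s' ∈ S, (C s s' - A s * (starRingEnd ℂ) (A s')) := by
    have e1 : ∀ ω, (((‖(∑ s ∈ S, F s ω) - ∑ s ∈ S, A s‖ ^ 2 : ℝ)) : ℂ) =
        ∑ s ∈ S, ∑ s' ∈ S, (F s ω - A s) *
          ((starRingEnd ℂ) (F s' ω) - (starRingEnd ℂ) (A s')) := by
      intro ω
      push_cast
      rw [← Complex.mul_conj', ← Finset.sum_sub_distrib, map_sum, Finset.sum_mul_sum]
      simp only [map_sub]
    rw [Complex.ofReal_sum]
    simp_rw [e1]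
    rw [Finset.sum_comm, Finset.mul_sum]
    refine Finset.sum_congr rfl fun s _ => ?_
    rw [Finset.sum_comm, Finset.mul_sum]
    refine Finset.sum_congr rfl fun s' _ => ?_
    have e2 : ∀ ω, (F s ω - A s) * ((starRingEnd ℂ) (F s' ω) - (starRingEnd ℂ) (A s')) =
        F s ω * (starRingEnd ℂ) (F s' ω) - A s * (starRingEnd ℂ) (F s' ω) -
          F s ω * (starRingEnd ℂ) (A s') + A s * (starRingEnd ℂ) (A s') := by
      intro ω; ring
    simp_rw [e2]
    rw [Finset.sum_add_distrib, Finset.sum_sub_distrib, Finset.sum_sub_distrib,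
      ← Finset.mul_sum, ← Finset.sum_mul, hC, hA, ← map_sum, hA, map_mul, map_natCast,
      Finset.sum_const, card_univ, nsmul_eq_mul]
    ring
  have h2 : ∑ ω, ‖(∑ s ∈ S, F s ω) - ∑ s ∈ S, A s‖ ^ 2 =
      ‖((∑ ω, ‖(∑ s ∈ S, F s ω) - ∑ s ∈ S, A s‖ ^ 2 : ℝ) : ℂ)‖ := by
    rw [Complex.norm_real, Real.norm_of_nonneg (Finset.sum_nonneg fun _ _ => by positivity)]
  rw [h2, key, norm_mul, Complex.norm_natCast]
  refine mul_le_mul_of_nonneg_left ?_ (Nat.cast_nonneg _)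
  exact (norm_sum_le _ _).trans (Finset.sum_le_sum fun s _ => norm_sum_le _ _)

variable {q d : ℕ}

open Classical in
theorem card_append (p m : Fin 2 → G q d) (O : Orb q d) :
    (univ.filter fun i => cl (Fin.append p m i) = O).card =
      (univ.filter fun i => cl (p i) = O).card + (univ.filter fun i => cl (m i) = O).card := by
  simp only [Finset.card_filter]
  rw [Fin.sum_univ_add]
  simp only [Fin.append_left, Fin.append_right]

theorem bal_append (p m p' m' : Fin 2 → G q d) (h : Bal p m) (h' : Bal p' m') :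
    Bal (Fin.append p m') (Fin.append m p') := by
  intro O
  have h1 := h O
  have h2 := h' O
  have e1 := card_append p m' O
  have e2 := card_append m p' O
  have : (univ.filter fun i => cl (Fin.append p m' i) = O).card =
      (univ.filter fun i => cl (Fin.append m p' i) = O).card := by
    convert e1.trans (Eq.trans ?_ e2.symm) using 2
    convert congrArg₂ (· + ·) h1 h2.symm using 2
  exact this

theorem conj_zpow (z : ℂ) (hz : ‖z‖ = 1) (a : ℤ) : (starRingEnd ℂ) (z ^ a) = z ^ (-a) := by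
  rw [map_zpow₀, ← Complex.inv_eq_conj hz, inv_zpow']

/-- The monomial of a pair of tuples. -/
noncomputable def FF [NeZero q] (z : ℂ) (s : (Fin 2 → G q d) × (Fin 2 → G q d)) (ω : Om q d) : ℂ :=
  z ^ (∑ i, la ω (s.1 i) - ∑ i, la ω (s.2 i))

theorem FF_mul [NeZero q] (z : ℂ) (hz : ‖z‖ = 1) (s s' : (Fin 2 → G q d) × (Fin 2 → G q d))
    (ω : Om q d) :
    FF z s ω * (starRingEnd ℂ) (FF z s' ω) =
      z ^ (∑ i, la ω (Fin.append s.1 s'.2 i) - ∑ i, la ω (Fin.append s.2 s'.1 i)) := by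
  have hz0 : z ≠ 0 := by
    intro h
    rw [h, norm_zero] at hz
    exact zero_ne_one hz
  unfold FF
  rw [conj_zpow z hz, ← zpow_add₀ hz0, Fin.sum_univ_add, Fin.sum_univ_add]
  simp only [Fin.append_left, Fin.append_right]
  congr 1
  ring

theorem norm_FF [NeZero q] (z : ℂ) (hz : ‖z‖ = 1) (s : (Fin 2 → G q d) × (Fin 2 → G q d))
    (ω : Om q d) : ‖FF z s ω‖ = 1 := by
  unfold FF
  rw [norm_zpow, hz, one_zpow]

open Classical in
/-- The additive quadruples. -/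
noncomputable def SS (q d : ℕ) [NeZero q] : Finset ((Fin 2 → G q d) × (Fin 2 → G q d)) :=
  univ.filter fun s => A4 s.1 s.2

theorem T4_eq [NeZero q] (z : ℂ) (ω : Om q d) : T4 (la ω) z = ∑ s ∈ SS q d, FF z s ω := by
  classical
  unfold T4 SS FF
  rw [Finset.sum_filter, Fintype.sum_prod_type]

theorem card_X [NeZero q] :
    (Fintype.card ((Fin 2 → G q d) × (Fin 2 → G q d)) : ℝ) = nn q d ^ 4 := by
  simp only [Fintype.card_prod, Fintype.card_fun, ZMod.card, Fintype.card_fin, nn]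
  push_cast
  ring

theorem card_SS [NeZero q] : ((SS q d).card : ℝ) ≤ nn q d ^ 4 := by
  rw [← card_X]
  exact_mod_cast Finset.card_le_univ _

/-- The exceptional pairs of quadruples. -/
def Bad (s s' : (Fin 2 → G q d) × (Fin 2 → G q d)) : Prop :=
  Bal (Fin.append s.1 s'.2) (Fin.append s.2 s'.1) ∧ ¬ (Bal s.1 s.2 ∧ Bal s'.1 s'.2)

open Classical in
theorem bad_count [NeZero q] (h : CNT8_Stmt) :
    ∑ s ∈ SS q d, ∑ s' ∈ SS q d, (if Bad s s' then (2 : ℝ) else 0) ≤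
      48 * (q : ℝ) ^ 4 * nn q d ^ 3 := by
  have h1 := h q d
  set W := (univ : Finset ((Fin 2 → G q d) × (Fin 2 → G q d) × (Fin 2 → G q d) ×
    (Fin 2 → G q d))).filter fun t => A4 t.1 t.2.1 ∧ A4 t.2.2.1 t.2.2.2 ∧
      Bal (Fin.append t.1 t.2.2.2) (Fin.append t.2.1 t.2.2.1) ∧
      ¬ (Bal t.1 t.2.1 ∧ Bal t.2.2.1 t.2.2.2) with hW
  have h2 : ∑ s ∈ SS q d, ∑ s' ∈ SS q d, (if Bad s s' then (2 : ℝ) else 0) =
      2 * ((((SS q d) ×ˢ (SS q d)).filter fun x => Bad x.1 x.2).card : ℝ) := by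
    rw [← Finset.sum_product', Finset.card_filter]
    push_cast
    rw [Finset.mul_sum]
    refine Finset.sum_congr rfl fun x _ => ?_
    split_ifs <;> norm_num
  have h3 : (((SS q d) ×ˢ (SS q d)).filter fun x => Bad x.1 x.2).card ≤ W.card := by
    refine Finset.card_le_card_of_injOn (fun x => (x.1.1, x.1.2, x.2.1, x.2.2)) ?_ ?_
    · intro x hx
      rw [Finset.mem_coe, Finset.mem_filter, Finset.mem_product] at hx
      obtain ⟨⟨ha, hb⟩, hc, hd⟩ := hx
      have ha' : A4 x.1.1 x.1.2 := (mem_filter.1 ha).2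
      have hb' : A4 x.2.1 x.2.2 := (mem_filter.1 hb).2
      rw [Finset.mem_coe, hW, Finset.mem_filter]
      exact ⟨mem_univ _, ha', hb', hc, hd⟩
    · rintro ⟨⟨a, b⟩, ⟨c, e⟩⟩ _ ⟨⟨a', b'⟩, ⟨c', e'⟩⟩ _ hxy
      simp only [Prod.mk.injEq] at hxy
      obtain ⟨rfl, rfl, rfl, rfl⟩ := hxy
      rfl
  rw [h2]
  have h4 : ((((SS q d) ×ˢ (SS q d)).filter fun x => Bad x.1 x.2).card : ℝ) ≤ (W.card : ℝ) := by
    exact_mod_cast h3
  linarith

open Classical in
theorem bal_count [NeZero q] (h : CNT4_Stmt) :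
    (((SS q d).filter fun s => Bal s.1 s.2).card : ℝ) ≤ 2 * (q : ℝ) ^ 2 * nn q d ^ 2 ∧
    (nn q d - 1) * (2 * nn q d - 3) ≤ (((SS q d).filter fun s => Bal s.1 s.2).card : ℝ) := by
  have h1 := h q d
  have e : (SS q d).filter (fun s => Bal s.1 s.2) =
      (univ : Finset ((Fin 2 → G q d) × (Fin 2 → G q d))).filter
        fun t => A4 t.1 t.2 ∧ Bal t.1 t.2 := by
    unfold SS
    rw [Finset.filter_filter]
  rw [e]
  exact h1

open Classical in
theorem main (q d : ℕ) [NeZero q] (z : ℂ) (hz : ‖z‖ = 1) (tn : ℝ) (htn : 0 ≤ tn)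
    (h8 : nn q d ^ 8 * tn ≤ 1) (hn : 100 ≤ nn q d) (hq1 : (1 : ℝ) ≤ q)
    (hB : ∀ (k : ℕ) (p m : Fin k → G q d), k ≤ 4 →
      (Bal p m → ∑ ω : Om q d, z ^ (∑ i, la ω (p i) - ∑ i, la ω (m i)) =
        (Fintype.card (Om q d) : ℂ)) ∧
      (¬ Bal p m → ‖∑ ω : Om q d, z ^ (∑ i, la ω (p i) - ∑ i, la ω (m i))‖ ≤
        (Fintype.card (Om q d) : ℝ) * tn))
    (h8c : CNT8_Stmt) (h4c : CNT4_Stmt) :
    (((univ : Finset (Om q d)).filter fun ω => ¬ (17 / 10 * nn q d ^ 2 ≤ (T4 (la ω) z).re ∧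
      ‖T4 (la ω) z‖ ≤ 3 * (q : ℝ) ^ 2 * nn q d ^ 2)).card : ℝ) * nn q d ≤
      800 * (q : ℝ) ^ 4 * (Fintype.card (Om q d) : ℝ) := by
  set n := nn q d with hndef
  set N : ℕ := Fintype.card (Om q d) with hN
  have hNpos : 0 < N := Fintype.card_pos (α := Om q d)
  have hNR : (0 : ℝ) < (N : ℝ) := by exact_mod_cast hNpos
  have hNC : (N : ℂ) ≠ 0 := by exact_mod_cast hNpos.ne'
  have hn0 : (0 : ℝ) < n := by linarith
  have htn4 : n ^ 4 * tn ≤ 1 := by
    refine le_trans (mul_le_mul_of_nonneg_right ?_ htn) h8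
    exact pow_le_pow_right₀ (by linarith) (by norm_num)
  set A : (Fin 2 → G q d) × (Fin 2 → G q d) → ℂ := fun s => (∑ ω, FF z s ω) / (N : ℂ) with hA
  set C : (Fin 2 → G q d) × (Fin 2 → G q d) → (Fin 2 → G q d) × (Fin 2 → G q d) → ℂ :=
    fun s s' => (∑ ω, FF z s ω * (starRingEnd ℂ) (FF z s' ω)) / (N : ℂ) with hC
  have fA1 : ∀ s, Bal s.1 s.2 → A s = 1 := by
    intro s hs
    have := (hB 2 s.1 s.2 (by norm_num)).1 hs
    simp only [hA]
    rw [div_eq_one_iff_eq hNC]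
    exact this
  have fA2 : ∀ s, ¬ Bal s.1 s.2 → ‖A s‖ ≤ tn := by
    intro s hs
    have := (hB 2 s.1 s.2 (by norm_num)).2 hs
    simp only [hA]
    rw [norm_div, Complex.norm_natCast, div_le_iff₀ hNR, mul_comm]
    exact this
  have fA3 : ∀ s, ‖A s‖ ≤ 1 := by
    intro s
    simp only [hA]
    rw [norm_div, Complex.norm_natCast, div_le_iff₀ hNR, one_mul]
    refine (norm_sum_le _ _).trans ?_
    simp only [norm_FF z hz]
    rw [Finset.sum_const, card_univ, nsmul_eq_mul, mul_one]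
  have fC1 : ∀ s s', Bal (Fin.append s.1 s'.2) (Fin.append s.2 s'.1) → C s s' = 1 := by
    intro s s' hs
    have := (hB (2 + 2) (Fin.append s.1 s'.2) (Fin.append s.2 s'.1) (by norm_num)).1 hs
    simp only [hC, FF_mul z hz]
    rw [div_eq_one_iff_eq hNC]
    exact this
  have fC2 : ∀ s s', ¬ Bal (Fin.append s.1 s'.2) (Fin.append s.2 s'.1) → ‖C s s'‖ ≤ tn := by
    intro s s' hs
    have := (hB (2 + 2) (Fin.append s.1 s'.2) (Fin.append s.2 s'.1) (by norm_num)).2 hs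
    simp only [hC, FF_mul z hz]
    rw [norm_div, Complex.norm_natCast, div_le_iff₀ hNR, mul_comm]
    exact this
  have fAA : ∀ s s', ‖A s * (starRingEnd ℂ) (A s')‖ ≤ 1 := by
    intro s s'
    rw [norm_mul, RCLike.norm_conj]
    exact mul_le_one₀ (fA3 s) (norm_nonneg _) (fA3 s')
  have bound : ∀ s s', ‖C s s' - A s * (starRingEnd ℂ) (A s')‖ ≤
      (if Bad s s' then (2 : ℝ) else 0) + 2 * tn := by
    intro s s'
    by_cases hP : Bal (Fin.append s.1 s'.2) (Fin.append s.2 s'.1)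
    · by_cases hb : Bal s.1 s.2 ∧ Bal s'.1 s'.2
      · rw [fC1 s s' hP, fA1 s hb.1, fA1 s' hb.2, map_one, one_mul, sub_self, norm_zero]
        split_ifs <;> linarith
      · have hbad : Bad s s' := ⟨hP, hb⟩
        rw [if_pos hbad, fC1 s s' hP]
        have h1 := norm_sub_le (1 : ℂ) (A s * (starRingEnd ℂ) (A s'))
        have h2 := fAA s s'
        rw [norm_one] at h1
        linarith
    · have hb : ¬ (Bal s.1 s.2 ∧ Bal s'.1 s'.2) := fun hb =>
        hP (bal_append s.1 s.2 s'.1 s'.2 hb.1 hb.2)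
      have hbad : ¬ Bad s s' := fun h => hP h.1
      rw [if_neg hbad, zero_add]
      have h1 := norm_sub_le (C s s') (A s * (starRingEnd ℂ) (A s'))
      have h2 := fC2 s s' hP
      have h3 : ‖A s * (starRingEnd ℂ) (A s')‖ ≤ tn := by
        rw [norm_mul, RCLike.norm_conj]
        rcases not_and_or.1 hb with hb | hb
        · calc ‖A s‖ * ‖A s'‖ ≤ tn * 1 :=
              mul_le_mul (fA2 s hb) (fA3 s') (norm_nonneg _) htn
            _ = tn := mul_one _
        · calc ‖A s‖ * ‖A s'‖ ≤ 1 * tn :=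
              mul_le_mul (fA3 s) (fA2 s' hb) (norm_nonneg _) zero_le_one
            _ = tn := one_mul _
      linarith
  have hvar := var (SS q d) (FF z) A C
    (by intro s; simp only [hA]; rw [mul_div_cancel₀]; exact hNC)
    (by intro s s'; simp only [hC]; rw [mul_div_cancel₀]; exact hNC)
  have hsum : ∑ s ∈ SS q d, ∑ s' ∈ SS q d, ‖C s s' - A s * (starRingEnd ℂ) (A s')‖ ≤
      50 * (q : ℝ) ^ 4 * n ^ 3 := by
    have h1 : ∑ s ∈ SS q d, ∑ s' ∈ SS q d, ‖C s s' - A s * (starRingEnd ℂ) (A s')‖ ≤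
        ∑ s ∈ SS q d, ∑ s' ∈ SS q d, ((if Bad s s' then (2 : ℝ) else 0) + 2 * tn) :=
      Finset.sum_le_sum fun s _ => Finset.sum_le_sum fun s' _ => bound s s'
    have h2 : ∑ s ∈ SS q d, ∑ s' ∈ SS q d, ((if Bad s s' then (2 : ℝ) else 0) + 2 * tn) =
        ∑ s ∈ SS q d, ∑ s' ∈ SS q d, (if Bad s s' then (2 : ℝ) else 0) +
          ((SS q d).card : ℝ) * (((SS q d).card : ℝ) * (2 * tn)) := by
      simp only [Finset.sum_add_distrib, Finset.sum_const, nsmul_eq_mul]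
    have h3 := bad_count (q := q) (d := d) h8c
    have h4 := card_SS (q := q) (d := d)
    have h5 : ((SS q d).card : ℝ) * (((SS q d).card : ℝ) * (2 * tn)) ≤ 2 := by
      have h6 : ((SS q d).card : ℝ) * (((SS q d).card : ℝ) * (2 * tn)) ≤
          n ^ 4 * (n ^ 4 * (2 * tn)) := by
        refine mul_le_mul h4 (mul_le_mul_of_nonneg_right h4 (by linarith)) ?_ (by positivity)
        exact mul_nonneg (Nat.cast_nonneg _) (by linarith)
      have h7 : n ^ 4 * (n ^ 4 * (2 * tn)) = 2 * (n ^ 8 * tn) := by ring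
      linarith
    have h8' : (1 : ℝ) ≤ (q : ℝ) ^ 4 * n ^ 3 := by
      have ha : (1 : ℝ) ≤ (q : ℝ) ^ 4 := one_le_pow₀ hq1
      have hb : (1 : ℝ) ≤ n ^ 3 := one_le_pow₀ (by linarith)
      exact one_le_mul_of_one_le_of_one_le ha hb
    rw [h2] at h1
    nlinarith [h1, h3, h5, h8']
  have hV : ∑ ω : Om q d, ‖T4 (la ω) z - ∑ s ∈ SS q d, A s‖ ^ 2 ≤
      (N : ℝ) * (50 * (q : ℝ) ^ 4 * n ^ 3) := by
    simp only [T4_eq]
    exact hvar.trans (mul_le_mul_of_nonneg_left hsum hNR.le)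
  -- the mean
  have hsplit : ∑ s ∈ SS q d, A s = (((SS q d).filter fun s => Bal s.1 s.2).card : ℂ) +
      ∑ s ∈ (SS q d).filter (fun s => ¬ Bal s.1 s.2), A s := by
    rw [← Finset.sum_filter_add_sum_filter_not (SS q d) (fun s => Bal s.1 s.2)]
    congr 1
    rw [Finset.sum_congr rfl (fun s hs => fA1 s (mem_filter.1 hs).2), Finset.sum_const,
      nsmul_eq_mul, mul_one]
  have hrest : ‖∑ s ∈ (SS q d).filter (fun s => ¬ Bal s.1 s.2), A s‖ ≤ 1 := by
    refine (norm_sum_le _ _).trans ?_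
    refine (Finset.sum_le_sum fun s hs => fA2 s (mem_filter.1 hs).2).trans ?_
    rw [Finset.sum_const, nsmul_eq_mul]
    refine le_trans (mul_le_mul_of_nonneg_right ?_ htn) htn4
    refine le_trans ?_ (card_SS (q := q) (d := d))
    exact_mod_cast Finset.card_le_card (Finset.filter_subset _ _)
  obtain ⟨hb1, hb2⟩ := bal_count (q := q) (d := d) h4c
  set b := ((SS q d).filter fun s => Bal s.1 s.2).card with hbdef
  set R := ∑ s ∈ (SS q d).filter (fun s => ¬ Bal s.1 s.2), A s with hR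
  have hcheb := cheb (fun ω : Om q d => T4 (la ω) z) (∑ s ∈ SS q d, A s) (n ^ 2 / 4)
    ((N : ℝ) * (50 * (q : ℝ) ^ 4 * n ^ 3)) (by positivity) hV
    (fun ω => 17 / 10 * n ^ 2 ≤ (T4 (la ω) z).re ∧ ‖T4 (la ω) z‖ ≤ 3 * (q : ℝ) ^ 2 * n ^ 2) (by
      intro ω hω
      rw [hsplit] at hω
      set D := T4 (la ω) z - ((b : ℂ) + R) with hD
      have hT : T4 (la ω) z = (b : ℂ) + R + D := by rw [hD]; ring
      have hn2 : 100 * n ≤ n ^ 2 := by nlinarith
      constructor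
      · rw [hT, Complex.add_re, Complex.add_re, Complex.natCast_re]
        have h1 : -1 ≤ R.re := by
          have := (Complex.abs_re_le_norm R).trans hrest
          exact (abs_le.1 this).1
        have h2 : -(n ^ 2 / 4) ≤ D.re := by
          have := (Complex.abs_re_le_norm D).trans hω
          exact (abs_le.1 this).1
        nlinarith
      · rw [hT]
        have h1 := norm_add_le ((b : ℂ) + R) D
        have h2 := norm_add_le (b : ℂ) R
        rw [Complex.norm_natCast] at h2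
        have h3 : (1 : ℝ) ≤ (q : ℝ) ^ 2 := one_le_pow₀ hq1
        have h4 : n ^ 2 ≤ (q : ℝ) ^ 2 * n ^ 2 := le_mul_of_one_le_left (by positivity) h3
        nlinarith)
  have e : ∀ x : ℝ, x * (n ^ 2 / 4) ^ 2 = (x * n) * (n ^ 3 / 16) := by intro x; ring
  rw [e] at hcheb
  have e2 : (N : ℝ) * (50 * (q : ℝ) ^ 4 * n ^ 3) = (800 * (q : ℝ) ^ 4 * (N : ℝ)) * (n ^ 3 / 16) := by
    ring
  rw [e2] at hcheb
  have h16 : 0 < n ^ 3 / 16 := by positivity
  have := le_of_mul_le_mul_right hcheb h16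
  convert this using 2

end MOM4aux

theorem t_MOM4 : MOM4_Stmt := by
  intro hBND hRAM hEXP hUNB hTNY h8c h4c q _ hq β hβ hβ1
  obtain ⟨htn, d1, hd1⟩ := hTNY q hq β hβ hβ1 8
  refine ⟨max d1 10, fun d hd g E hGE z hz => ?_⟩
  have hd10 : 10 ≤ d := le_trans (le_max_right _ _) hd
  have hdd : d ≥ d1 := le_trans (le_max_left _ _) hd
  have hq2 : (2 : ℝ) ≤ q := by exact_mod_cast hq
  have hn : 100 ≤ nn q d := by
    unfold nn
    calc (100 : ℝ) ≤ 2 ^ 10 := by norm_num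
      _ ≤ (q : ℝ) ^ 10 := pow_le_pow_left₀ (by norm_num) hq2 10
      _ ≤ (q : ℝ) ^ d := pow_le_pow_right₀ (by linarith) hd10
  exact MOM4aux.main q d z hz.1 (tiny q d β) (htn d) (hd1 d hdd) hn (by linarith)
    (fun k p m hk => hBND hRAM hEXP hUNB q d g E hq hGE hd10 β z hβ hβ1 hz k p m hk) h8c h4c

end Pool.Agent.UAA
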