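import Pool.Agent.UAA.St

/-!
# Uniform mixing on almost all integral Cayley graphs: the net of the circle (NET)
-/

set_option autoImplicit false

namespace Pool.Agent.UAA

open Finset Filter

namespace NETaux

/-- Arcs are longer than chords. -/
lemma chord (a b : ℝ) : ‖Complex.exp (Complex.I * a) - Complex.exp (Complex.I * b)‖ ≤ |a - b| := by
  have h : Complex.exp (Complex.I * a) - Complex.exp (Complex.I * b) =
      Complex.exp (Complex.I * b) * (Complex.exp (Complex.I * ((a - b : ℝ) : ℂ)) - 1) := by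
    rw [mul_sub, ← Complex.exp_add, mul_one]
    congr 2
    push_cast
    ring
  rw [h, norm_mul, Complex.norm_exp_I_mul_ofReal, one_mul]
  exact Real.norm_exp_I_mul_ofReal_sub_one_le

lemma zn_eq (M k : ℕ) :
    zn M k = Complex.exp (Complex.I * ((2 * Real.pi * k / M : ℝ) : ℂ)) := by
  unfold zn
  congr 1
  push_cast
  ring

lemma norm_zn (M k : ℕ) : ‖zn M k‖ = 1 := by
  rw [zn_eq, Complex.norm_exp_I_mul_ofReal]

/-- The nearest point of the net. -/
lemma net (M : ℕ) (hM : 0 < M) (z : ℂ) :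
    ∃ k : ℕ, k < M ∧ ‖z - zn M k‖ ≤ |‖z‖ - 1| + 2 * Real.pi / M := by
  obtain ⟨t, ht0, ht1, ht⟩ : ∃ t : ℝ, 0 ≤ t ∧ t < 2 * Real.pi ∧
      (‖z‖ : ℂ) * Complex.exp (Complex.I * t) = z := by
    by_cases h : 0 ≤ Complex.arg z
    · refine ⟨Complex.arg z, h, ?_, ?_⟩
      · have := Complex.arg_le_pi z
        have := Real.pi_pos
        linarith
      · rw [mul_comm Complex.I]
        exact Complex.norm_mul_exp_arg_mul_I z
    · refine ⟨Complex.arg z + 2 * Real.pi, ?_, ?_, ?_⟩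
      · have := Complex.neg_pi_lt_arg z
        have := Real.pi_pos
        linarith
      · linarith [not_le.1 h]
      · push_cast
        rw [mul_add, Complex.exp_add, mul_comm Complex.I (Complex.arg z : ℂ),
          show Complex.I * (2 * (Real.pi : ℂ)) = 2 * Real.pi * Complex.I by ring,
          Complex.exp_two_pi_mul_I, mul_one]
        exact Complex.norm_mul_exp_arg_mul_I z
  have hMr : (0 : ℝ) < M := by exact_mod_cast hM
  have hpi := Real.pi_pos
  have h2 : 0 ≤ (M : ℝ) * t / (2 * Real.pi) := by positivity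
  refine ⟨⌊(M : ℝ) * t / (2 * Real.pi)⌋₊, ?_, ?_⟩
  · rw [Nat.floor_lt h2, div_lt_iff₀ (by positivity)]
    exact mul_lt_mul_of_pos_left ht1 hMr
  · set k := ⌊(M : ℝ) * t / (2 * Real.pi)⌋₊ with hk
    have h3 : (k : ℝ) ≤ (M : ℝ) * t / (2 * Real.pi) := Nat.floor_le h2
    have h4 : (M : ℝ) * t / (2 * Real.pi) < k + 1 := Nat.lt_floor_add_one _
    rw [le_div_iff₀ (by positivity)] at h3
    rw [div_lt_iff₀ (by positivity)] at h4
    have h5 : |t - 2 * Real.pi * k / M| ≤ 2 * Real.pi / M := by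
      rw [abs_le]
      constructor
      · rw [neg_le_sub_iff_le_add, ← sub_nonneg]
        have e : 2 * Real.pi / M + t - 2 * Real.pi * k / M =
            (2 * Real.pi + (M * t - k * (2 * Real.pi))) / M := by
          field_simp
          ring
        have : 0 ≤ (2 * Real.pi + (M * t - k * (2 * Real.pi))) / M := by
          apply div_nonneg _ hMr.le
          linarith
        linarith
      · have e : t - 2 * Real.pi * k / M = (M * t - k * (2 * Real.pi)) / M := by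
          field_simp
        rw [e]
        apply div_le_div_of_nonneg_right _ hMr.le
        linarith
    calc ‖z - zn M k‖ = ‖(z - Complex.exp (Complex.I * t)) +
          (Complex.exp (Complex.I * t) - zn M k)‖ := by ring_nf
      _ ≤ ‖z - Complex.exp (Complex.I * t)‖ + ‖Complex.exp (Complex.I * t) - zn M k‖ :=
          norm_add_le _ _
      _ ≤ |‖z‖ - 1| + 2 * Real.pi / M := by
          apply add_le_add
          · have e : z - Complex.exp (Complex.I * t) =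
                ((‖z‖ - 1 : ℝ) : ℂ) * Complex.exp (Complex.I * t) := by
              push_cast
              rw [sub_mul, ht, one_mul]
            rw [e, norm_mul, Complex.norm_exp_I_mul_ofReal, mul_one, Complex.norm_real,
              Real.norm_eq_abs]
          · rw [zn_eq]
            exact (chord _ _).trans h5

/-- Powers of close points are close. -/
lemma pow_close (R : ℝ) (hR : 1 ≤ R) (z w : ℂ) (hz : ‖z‖ ≤ R) (hw : ‖w‖ ≤ R) (m : ℕ) :
    ‖z ^ m - w ^ m‖ ≤ m * R ^ m * ‖z - w‖ := by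
  induction m with
  | zero => simp
  | succ m ih =>
    have e : z ^ (m + 1) - w ^ (m + 1) = z * (z ^ m - w ^ m) + (z - w) * w ^ m := by ring
    have hR0 : 0 ≤ R := by linarith
    calc ‖z ^ (m + 1) - w ^ (m + 1)‖ ≤ ‖z * (z ^ m - w ^ m)‖ + ‖(z - w) * w ^ m‖ := by
          rw [e]; exact norm_add_le _ _
      _ = ‖z‖ * ‖z ^ m - w ^ m‖ + ‖z - w‖ * ‖w‖ ^ m := by rw [norm_mul, norm_mul, norm_pow]
      _ ≤ R * (m * R ^ m * ‖z - w‖) + ‖z - w‖ * R ^ (m + 1) := by
          apply add_le_add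
          · exact mul_le_mul hz ih (norm_nonneg _) hR0
          · apply mul_le_mul_of_nonneg_left _ (norm_nonneg _)
            calc ‖w‖ ^ m ≤ R ^ m := pow_le_pow_left₀ (norm_nonneg _) hw m
              _ ≤ R ^ (m + 1) := pow_le_pow_right₀ hR (Nat.le_succ m)
      _ = ((m + 1 : ℕ) : ℝ) * R ^ (m + 1) * ‖z - w‖ := by push_cast; ring

/-- The factors of a product of norm at least one. -/
lemma factor (E : ℕ) (f : ℕ → ℂ) (h : ∀ j ∈ Finset.Icc 1 E, ‖f j‖ ≤ 5 / 2)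
    (h1 : 1 ≤ ‖∏ j ∈ Finset.Icc 1 E, f j‖) (j : ℕ) (hj : j ∈ Finset.Icc 1 E) :
    (2 / 5 : ℝ) ^ (E - 1) ≤ ‖f j‖ := by
  have hp : ‖∏ i ∈ Finset.Icc 1 E, f i‖ = ‖f j‖ * ∏ i ∈ (Finset.Icc 1 E).erase j, ‖f i‖ := by
    rw [norm_prod, Finset.mul_prod_erase _ (fun i => ‖f i‖) hj]
  have hq : ∏ i ∈ (Finset.Icc 1 E).erase j, ‖f i‖ ≤ (5 / 2 : ℝ) ^ (E - 1) := by
    calc ∏ i ∈ (Finset.Icc 1 E).erase j, ‖f i‖ ≤ ∏ i ∈ (Finset.Icc 1 E).erase j, (5 / 2 : ℝ) :=
          Finset.prod_le_prod (fun i _ => norm_nonneg _)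
            (fun i hi => h i (Finset.mem_of_mem_erase hi))
      _ = (5 / 2 : ℝ) ^ (E - 1) := by
          rw [Finset.prod_const, Finset.card_erase_of_mem hj, Nat.card_Icc, Nat.add_sub_cancel]
  have h2 : 1 ≤ ‖f j‖ * (5 / 2 : ℝ) ^ (E - 1) := by
    rw [hp] at h1
    exact h1.trans (mul_le_mul_of_nonneg_left hq (norm_nonneg _))
  have h3 : (2 / 5 : ℝ) ^ (E - 1) * (5 / 2 : ℝ) ^ (E - 1) = 1 := by
    rw [← mul_pow]; norm_num
  have h4 : (0 : ℝ) < (5 / 2 : ℝ) ^ (E - 1) := by positivity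
  by_contra h5
  have := mul_lt_mul_of_pos_right (not_le.1 h5) h4
  linarith

end NETaux

open NETaux in
theorem t_NET : NET_Stmt := by
  intro q hq ε hε hε1 g E hg hE
  have hgE : (0 : ℝ) < g * E := by
    have h1 : (0 : ℝ) < g := by exact_mod_cast hg
    have h2 : (0 : ℝ) < E := by exact_mod_cast hE
    positivity
  -- the constant
  have hc : 0 < (2 / 5 : ℝ) ^ (E - 1) - (1 / 3 : ℝ) ^ E := by
    have h1 : (1 / 3 : ℝ) ^ E ≤ (1 / 3 : ℝ) ^ (E - 1) * (1 / 3) := by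
      rw [← pow_succ, Nat.sub_add_cancel hE]
    have h2 : (1 / 3 : ℝ) ^ (E - 1) ≤ (2 / 5 : ℝ) ^ (E - 1) :=
      pow_le_pow_left₀ (by norm_num) (by norm_num) _
    have h3 : (0 : ℝ) < (1 / 3 : ℝ) ^ (E - 1) := by positivity
    linarith
  have hn : Tendsto (fun d : ℕ => nn q d) atTop atTop := by
    unfold nn
    exact tendsto_pow_atTop_atTop_of_one_lt (by exact_mod_cast hq)
  have e1 : ∀ᶠ x : ℝ in atTop, 1 ≤ x := eventually_ge_atTop 1
  have e2 : ∀ᶠ x : ℝ in atTop, Real.log x ≤ ε / 64 * x ^ (1 / 4 : ℝ) := by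
    have := (isLittleO_log_rpow_atTop (show (0 : ℝ) < 1 / 4 by norm_num)).def
      (show 0 < ε / 64 by positivity)
    filter_upwards [this, e1] with x hx hx1
    have h1 : 0 ≤ Real.log x := Real.log_nonneg hx1
    have h2 : (0 : ℝ) ≤ x ^ (1 / 4 : ℝ) := by positivity
    rwa [Real.norm_eq_abs, Real.norm_eq_abs, abs_of_nonneg h1, abs_of_nonneg h2] at hx
  have e3 : ∀ᶠ x : ℝ in atTop, g * E * (4 * Real.log x / x) ≤ 1 / 4 := by
    have := Real.isLittleO_log_id_atTop.def (show 0 < 1 / (16 * (g * E : ℝ)) by positivity)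
    filter_upwards [this, e1] with x hx hx1
    have h1 : 0 ≤ Real.log x := Real.log_nonneg hx1
    have h2 : (0 : ℝ) < x := by linarith
    rw [Real.norm_eq_abs, Real.norm_eq_abs, abs_of_nonneg h1, id, abs_of_nonneg h2.le] at hx
    have h3 : Real.log x / x ≤ 1 / (16 * (g * E : ℝ)) := (div_le_iff₀ h2).2 hx
    calc g * E * (4 * Real.log x / x) = 4 * (g * E) * (Real.log x / x) := by ring
      _ ≤ 4 * (g * E) * (1 / (16 * (g * E : ℝ))) :=
          mul_le_mul_of_nonneg_left h3 (by positivity)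
      _ = 1 / 4 := by field_simp; norm_num
  have e4 : ∀ᶠ x : ℝ in atTop, g * E * (3 / 2) * (ε * x ^ (-(3 / 4) : ℝ)) ≤
      (2 / 5 : ℝ) ^ (E - 1) - (1 / 3 : ℝ) ^ E := by
    have h1 : Tendsto (fun x : ℝ => g * E * (3 / 2) * (ε * x ^ (-(3 / 4) : ℝ))) atTop
        (nhds (g * E * (3 / 2) * (ε * 0))) :=
      ((tendsto_rpow_neg_atTop (by norm_num)).const_mul ε).const_mul _
    rw [mul_zero, mul_zero] at h1
    filter_upwards [h1.eventually (gt_mem_nhds hc)] with x hx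
    exact hx.le
  obtain ⟨d0, hd0⟩ := eventually_atTop.1 (hn.eventually (e1.and (e2.and (e3.and e4))))
  refine ⟨d0, fun d hd z hz hlog hprod => ?_⟩
  obtain ⟨a1, a2, a3, a4⟩ := hd0 d hd
  set n := nn q d with hndef
  have hn0 : 0 < n := by linarith
  have hln : 0 ≤ Real.log n := Real.log_nonneg a1
  have hgE1 : (1 : ℝ) ≤ g * E := by
    have h1 : (1 : ℝ) ≤ g := by exact_mod_cast hg
    have h2 : (1 : ℝ) ≤ E := by exact_mod_cast hE
    nlinarith
  have hδ0 : 0 ≤ 4 * Real.log n / n := by positivity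
  have hδ : 4 * Real.log n / n ≤ 1 / 4 :=
    (le_mul_of_one_le_left hδ0 hgE1).trans a3
  have hr0 : 0 < ‖z‖ := norm_pos_iff.2 hz
  have hrexp : Real.exp (Real.log ‖z‖) = ‖z‖ := Real.exp_log hr0
  -- the modulus
  have hr1 : |‖z‖ - 1| ≤ 2 * (4 * Real.log n / n) := by
    have h := Real.abs_exp_sub_one_le (x := Real.log ‖z‖) (by linarith)
    rw [hrexp] at h
    linarith
  have hpow : n ^ (1 / 4 : ℝ) / n = n ^ (-(3 / 4) : ℝ) := by
    rw [show (-(3 / 4) : ℝ) = 1 / 4 - 1 by norm_num, Real.rpow_sub_one hn0.ne']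
  have hr2 : |‖z‖ - 1| ≤ ε / 8 * n ^ (-(3 / 4) : ℝ) := by
    refine hr1.trans ?_
    rw [← hpow]
    calc 2 * (4 * Real.log n / n) = 8 * (Real.log n / n) := by ring
      _ ≤ 8 * (ε / 64 * n ^ (1 / 4 : ℝ) / n) := by
          apply mul_le_mul_of_nonneg_left _ (by norm_num)
          exact div_le_div_of_nonneg_right a2 hn0.le
      _ = ε / 8 * (n ^ (1 / 4 : ℝ) / n) := by ring
  -- the net
  have hnp : 0 < n ^ (3 / 4 : ℝ) := by positivity
  have hMge : 8 / ε * n ^ (3 / 4 : ℝ) ≤ (Mn ε q d : ℝ) := Nat.le_ceil _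
  have hMpos : (0 : ℝ) < Mn ε q d := lt_of_lt_of_le (by positivity) hMge
  obtain ⟨k, hk, hkd⟩ := net (Mn ε q d) (by exact_mod_cast hMpos) z
  have hnn : n ^ (-(3 / 4) : ℝ) * n ^ (3 / 4 : ℝ) = 1 := by
    rw [← Real.rpow_add hn0]; norm_num
  have hdist : ‖z - zn (Mn ε q d) k‖ ≤ ε * n ^ (-(3 / 4) : ℝ) := by
    refine hkd.trans ?_
    have h1 : 2 * Real.pi / (Mn ε q d : ℝ) ≤ ε * (7 / 8) * n ^ (-(3 / 4) : ℝ) := by
      rw [div_le_iff₀ hMpos]
      have h2 : ε * (7 / 8) * n ^ (-(3 / 4) : ℝ) * (8 / ε * n ^ (3 / 4 : ℝ)) ≤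
          ε * (7 / 8) * n ^ (-(3 / 4) : ℝ) * (Mn ε q d : ℝ) :=
        mul_le_mul_of_nonneg_left hMge (by positivity)
      have h3 : ε * (7 / 8) * n ^ (-(3 / 4) : ℝ) * (8 / ε * n ^ (3 / 4 : ℝ)) = 7 := by
        calc ε * (7 / 8) * n ^ (-(3 / 4) : ℝ) * (8 / ε * n ^ (3 / 4 : ℝ)) =
            7 * (ε / ε) * (n ^ (-(3 / 4) : ℝ) * n ^ (3 / 4 : ℝ)) := by ring
          _ = 7 := by rw [hnn, div_self hε.ne']; norm_num
      have h4 : 2 * Real.pi ≤ 7 := by linarith [Real.pi_lt_d2]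
      linarith
    have h5 : ε * n ^ (-(3 / 4) : ℝ) = ε / 8 * n ^ (-(3 / 4) : ℝ) +
        ε * (7 / 8) * n ^ (-(3 / 4) : ℝ) := by ring
    rw [h5]
    exact add_le_add hr2 h1
  refine ⟨k, hk, hdist, norm_zn _ _, fun j hj1 hjE => ?_⟩
  -- the powers
  set R : ℝ := max 1 ‖z‖ with hR
  have hR1 : 1 ≤ R := le_max_left _ _
  have hRlog : Real.log R ≤ 4 * Real.log n / n := by
    rcases le_total ‖z‖ 1 with h | h
    · rw [hR, max_eq_left h, Real.log_one]; exact hδ0
    · rw [hR, max_eq_right h]; exact (le_abs_self _).trans hlog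
  have hRm : ∀ m : ℕ, m ≤ g * E → R ^ m ≤ 3 / 2 := by
    intro m hm
    have h1 : R ^ m ≤ R ^ (g * E) := pow_le_pow_right₀ hR1 hm
    have h2 : R ^ (g * E) = Real.exp ((g * E : ℝ) * Real.log R) := by
      rw [show (g * E : ℝ) * Real.log R = ((g * E : ℕ) : ℝ) * Real.log R by push_cast; ring,
        ← Real.log_pow, Real.exp_log (by positivity)]
    have h3 : (g * E : ℝ) * Real.log R ≤ 1 / 4 :=
      (mul_le_mul_of_nonneg_left hRlog hgE.le).trans a3
    have h4 : 0 ≤ (g * E : ℝ) * Real.log R := mul_nonneg hgE.le (Real.log_nonneg hR1)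
    have h5 := Real.abs_exp_sub_one_le (x := (g * E : ℝ) * Real.log R)
      (by rw [abs_of_nonneg h4]; linarith)
    rw [abs_of_nonneg h4] at h5
    have h6 := (abs_le.1 h5).2
    rw [h2] at h1
    linarith
  have hmj : ∀ i, i ≤ E → g * i ≤ g * E := fun i hi => Nat.mul_le_mul_left g hi
  have hf : ∀ i ∈ Finset.Icc 1 E, ‖z ^ (g * i) - 1‖ ≤ 5 / 2 := by
    intro i hi
    have h1 : ‖z‖ ^ (g * i) ≤ R ^ (g * i) :=
      pow_le_pow_left₀ (norm_nonneg _) (le_max_right _ _) _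
    have h2 := hRm (g * i) (hmj i (Finset.mem_Icc.1 hi).2)
    calc ‖z ^ (g * i) - 1‖ ≤ ‖z ^ (g * i)‖ + ‖(1 : ℂ)‖ := norm_sub_le _ _
      _ = ‖z‖ ^ (g * i) + 1 := by rw [norm_pow, norm_one]
      _ ≤ 5 / 2 := by linarith
  have hlow := factor E (fun i => z ^ (g * i) - 1) hf hprod j (Finset.mem_Icc.2 ⟨hj1, hjE⟩)
  have hclose := pow_close R hR1 z (zn (Mn ε q d) k) (le_max_right _ _)
    (by rw [norm_zn]; exact hR1) (g * j)
  have hb : ((g * j : ℕ) : ℝ) * R ^ (g * j) * ‖z - zn (Mn ε q d) k‖ ≤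
      g * E * (3 / 2) * (ε * n ^ (-(3 / 4) : ℝ)) := by
    apply mul_le_mul _ hdist (norm_nonneg _) (by positivity)
    apply mul_le_mul _ (hRm _ (hmj j hjE)) (by positivity) hgE.le
    have := hmj j hjE
    exact_mod_cast this
  have htri : ‖z ^ (g * j) - 1‖ ≤ ‖z ^ (g * j) - zn (Mn ε q d) k ^ (g * j)‖ +
      ‖zn (Mn ε q d) k ^ (g * j) - 1‖ := by
    have e : z ^ (g * j) - 1 = (z ^ (g * j) - zn (Mn ε q d) k ^ (g * j)) +
      (zn (Mn ε q d) k ^ (g * j) - 1) := by ring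
    rw [e]
    exact norm_add_le _ _
  linarith

end Pool.Agent.UAA
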