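import Pool.Agent.UAA.St
import Pool.Agent.UMix.Span

/-!
# Class sums of characters are integers
-/

set_option autoImplicit false

namespace Pool.Agent.UAA

open Finset

namespace RAMaux

variable {q d : ℕ}

/-- Multiplication by a unit. -/
def um (u : (ZMod q)ˣ) (c : G q d) : G q d := fun i => u * c i

/-- Multiplication by a unit, as a permutation. -/
def ume (u : (ZMod q)ˣ) : G q d ≃ G q d where
  toFun := um u
  invFun := um u⁻¹
  left_inv c := by
    funext i
    exact Units.inv_mul_cancel_left u (c i)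
  right_inv c := by
    funext i
    exact Units.mul_inv_cancel_left u (c i)

theorem cl_um (u : (ZMod q)ˣ) (c : G q d) : cl (um u c) = cl c :=
  ((cl_eq c (um u c)).2 ⟨u, fun _ => rfl⟩).symm

/-- Generators of the same cyclic subgroup are in the same class. -/
theorem cls_of_zmultiples [NeZero q] {x y : G q d}
    (h : AddSubgroup.zmultiples x = AddSubgroup.zmultiples y) : Cls x y := by
  have hy : y ∈ AddSubgroup.zmultiples x := by
    rw [h]
    exact AddSubgroup.mem_zmultiples y
  have hx : x ∈ AddSubgroup.zmultiples y := by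
    rw [← h]
    exact AddSubgroup.mem_zmultiples x
  obtain ⟨k, hk⟩ := AddSubgroup.mem_zmultiples_iff.1 hy
  obtain ⟨l, hl⟩ := AddSubgroup.mem_zmultiples_iff.1 hx
  have hq : addOrderOf x ∣ q := by
    apply addOrderOf_dvd_of_nsmul_eq_zero
    funext i
    rw [Pi.smul_apply, nsmul_eq_mul, ZMod.natCast_self, zero_mul]
    rfl
  have hkl : ((addOrderOf x : ℕ) : ℤ) ∣ k * l - 1 := by
    rw [addOrderOf_dvd_iff_zsmul_eq_zero, sub_smul, one_smul, mul_comm, mul_smul, hk, hl, sub_self]
  have h1 : ((k : ℤ) : ZMod (addOrderOf x)) * ((l : ℤ) : ZMod (addOrderOf x)) = 1 := by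
    have h2 := (ZMod.intCast_zmod_eq_zero_iff_dvd (k * l - 1) (addOrderOf x)).2 hkl
    push_cast at h2
    exact sub_eq_zero.1 h2
  let v : (ZMod (addOrderOf x))ˣ := ⟨k, l, h1, by rw [mul_comm]; exact h1⟩
  obtain ⟨u, hu⟩ := ZMod.unitsMap_surjective hq v
  have hu' : ZMod.castHom hq (ZMod (addOrderOf x)) (u : ZMod q) =
      ((k : ℤ) : ZMod (addOrderOf x)) := by
    have := congrArg (fun z : (ZMod (addOrderOf x))ˣ => (z : ZMod (addOrderOf x))) hu
    exact this
  have hw : ZMod.castHom hq (ZMod (addOrderOf x)) ((u : ZMod q) - ((k : ℤ) : ZMod q)) = 0 := by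
    rw [map_sub, hu', map_intCast, sub_self]
  set w : ZMod q := (u : ZMod q) - ((k : ℤ) : ZMod q) with hwd
  rw [← ZMod.natCast_zmod_val w, map_natCast, ZMod.natCast_eq_zero_iff] at hw
  have hwx : w.val • x = 0 := addOrderOf_dvd_iff_nsmul_eq_zero.1 hw
  refine ⟨u, fun i => ?_⟩
  have h3 : w * x i = 0 := by
    have h4 := congrFun hwx i
    rw [Pi.smul_apply, nsmul_eq_mul, ZMod.natCast_zmod_val] at h4
    exact h4
  have h5 : y i = ((k : ℤ) : ZMod q) * x i := by
    rw [← hk, Pi.smul_apply, zsmul_eq_mul]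
  rw [h5]
  rw [hwd, sub_mul, sub_eq_zero] at h3
  exact h3.symm

theorem ch_add [NeZero q] (x a b : G q d) : ch x (a + b) = ch x a * ch x b := by
  have e : ∑ i, x i * (a + b) i = ∑ i, x i * a i + ∑ i, x i * b i := by
    rw [← Finset.sum_add_distrib]
    refine Finset.sum_congr rfl fun i _ => ?_
    rw [Pi.add_apply, mul_add]
  unfold ch
  rw [e, AddChar.map_add_eq_mul]

theorem norm_ch [NeZero q] (x c : G q d) : ‖ch x c‖ = 1 := by
  unfold ch
  exact AddChar.norm_apply _ _

open Classical in
/-- Sums of a character over a subgroup are integers. -/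
theorem sum_subgroup [NeZero q] (x : G q d) (K : AddSubgroup (G q d)) :
    ∃ n : ℤ, ∑ c : G q d, (if c ∈ K then ch x c else 0) = (n : ℂ) := by
  by_cases h : ∀ c ∈ K, ch x c = 1
  · refine ⟨(((univ : Finset (G q d)).filter fun c => c ∈ K).card : ℤ), ?_⟩
    rw [← Finset.sum_filter, Finset.sum_congr rfl fun c hc => h c (Finset.mem_filter.1 hc).2]
    simp
  · push Not at h
    obtain ⟨k, hk, hk1⟩ := h
    refine ⟨0, ?_⟩
    have h1 : ∑ c : G q d, (if c ∈ K then ch x c else 0) =
        ch x k * ∑ c : G q d, (if c ∈ K then ch x c else 0) := by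
      rw [Finset.mul_sum]
      refine (Fintype.sum_equiv (Equiv.addLeft k) _ _ fun c => ?_).symm
      have h2 : k + c ∈ K ↔ c ∈ K := K.add_mem_cancel_left hk
      rw [Equiv.coe_addLeft]
      by_cases hc : c ∈ K
      · rw [if_pos hc, if_pos (h2.2 hc), ch_add]
      · rw [if_neg hc, if_neg (fun h => hc (h2.1 h)), mul_zero]
    have h3 : (1 - ch x k) * ∑ c : G q d, (if c ∈ K then ch x c else 0) = 0 := by
      rw [sub_mul, one_mul, ← h1, sub_self]
    rcases mul_eq_zero.1 h3 with h4 | h4
    · exact absurd (sub_eq_zero.1 h4).symm hk1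
    · rw [h4, Int.cast_zero]

/-- Class sums of characters are integers. -/
theorem class_sum [NeZero q] (x : G q d) (O : Orb q d) :
    ∃ n : ℤ, ∑ c ∈ (univ : Finset (G q d)).filter (fun c => cl c = O), ch x c = (n : ℂ) := by
  classical
  have hF : UMix.ClassFun (fun c : G q d => if cl c = O then (1 : ℤ) else 0) := by
    intro a b hab
    have h1 : cl a = cl b := (cl_eq a b).2 (cls_of_zmultiples hab)
    simp only [h1]
  obtain ⟨α, hα⟩ := hF.inSpan
  choose n hn using sum_subgroup x
  refine ⟨∑ K : AddSubgroup (G q d), α K * n K, ?_⟩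
  rw [Finset.sum_filter]
  have h1 : ∀ c : G q d, (if cl c = O then ch x c else 0) =
      ∑ K : AddSubgroup (G q d), (α K : ℂ) * (if c ∈ K then ch x c else 0) := by
    intro c
    have h2 : (if cl c = O then ch x c else 0) =
        (((if cl c = O then (1 : ℤ) else 0 : ℤ)) : ℂ) * ch x c := by
      split_ifs <;> simp
    have h3 := hα c
    simp only at h3
    rw [h2, h3, Int.cast_sum, Finset.sum_mul]
    refine Finset.sum_congr rfl fun K _ => ?_
    split_ifs <;> simp
  rw [Finset.sum_congr rfl fun c _ => h1 c, Finset.sum_comm]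
  push_cast
  refine Finset.sum_congr rfl fun K _ => ?_
  rw [← Finset.mul_sum, hn K]

theorem ram_eq [NeZero q] (x : G q d) (O : Orb q d) :
    ((ram x O : ℤ) : ℂ) = ∑ c ∈ (univ : Finset (G q d)).filter (fun c => cl c = O), ch x c := by
  obtain ⟨n, hn⟩ := class_sum x O
  have h1 : ram x O = n := by
    unfold ram
    rw [hn, Complex.intCast_re, Int.floor_intCast]
  rw [h1, hn]

end RAMaux

open RAMaux in
theorem t_RAM : RAM_Stmt := by
  intro q d _
  refine ⟨ram_eq, ?_, ?_, ?_, ?_⟩
  · rintro x y O ⟨u, hu⟩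
    have h1 : ∀ c, ch y c = ch x (um u c) := by
      intro c
      have e : ∑ i, y i * c i = ∑ i, x i * um u c i := by
        refine Finset.sum_congr rfl fun i _ => ?_
        rw [hu]
        unfold um
        ring
      unfold ch
      rw [e]
    unfold ram
    congr 2
    rw [Finset.sum_congr rfl fun c _ => h1 c]
    symm
    refine Finset.sum_equiv (ume u) (fun c => ?_) (fun c _ => rfl)
    rw [Finset.mem_filter, Finset.mem_filter]
    have h2 : cl (ume u c) = cl c := cl_um u c
    rw [h2]
    simp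
  · intro x O
    have h1 := ram_eq x O
    have h2 : ‖((ram x O : ℤ) : ℂ)‖ ≤
        (((univ : Finset (G q d)).filter fun c => cl c = O).card : ℝ) := by
      rw [h1]
      refine (norm_sum_le _ _).trans ?_
      rw [Finset.sum_congr rfl fun c _ => norm_ch x c]
      simp
    rw [Complex.norm_intCast] at h2
    exact_mod_cast h2
  · intro O
    obtain ⟨c, rfl⟩ := cl_surj O
    have h1 : ((univ : Finset (G q d)).filter fun c' => cl c' = cl c) ⊆
        (univ : Finset (ZMod q)ˣ).image fun u => um u c := by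
      intro c' hc'
      obtain ⟨u, hu⟩ := (cl_eq c c').1 (Finset.mem_filter.1 hc').2.symm
      refine Finset.mem_image.2 ⟨u, Finset.mem_univ _, ?_⟩
      funext i
      exact (hu i).symm
    refine (Finset.card_le_card h1).trans (Finset.card_image_le.trans ?_)
    rw [Finset.card_univ, ZMod.card_units_eq_totient]
    exact Nat.totient_le q
  · intro O
    obtain ⟨c, rfl⟩ := cl_surj O
    exact Finset.card_pos.2 ⟨c, Finset.mem_filter.2 ⟨Finset.mem_univ _, rfl⟩⟩

end Pool.Agent.UAA
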