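import Pool.Agent.UAA.St

/-!
# Module TNY: `tiny` is smaller than all powers of `1/n`
-/

set_option autoImplicit false

open Finset Filter Topology

namespace Pool.Agent.UAA

theorem t_TNY : TNY_Stmt := by
  intro q hq β hβ hβ1 A
  have hb : β ^ 2 ≤ 1 := pow_le_one₀ hβ.le hβ1
  have hb0 : 0 < β ^ 2 := by positivity
  have hr0 : 0 ≤ 1 - β ^ 2 / 8 := by linarith
  refine ⟨fun d => pow_nonneg hr0 _, ?_⟩
  have hr : |1 - β ^ 2 / 8| < 1 := by
    rw [abs_of_nonneg hr0]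
    linarith
  have hq0 : (0 : ℝ) < q := by
    have : 0 < q := by omega
    exact_mod_cast this
  have h1 := tendsto_pow_const_mul_const_pow_of_abs_lt_one A hr
  have h2 : Tendsto (fun d : ℕ => q ^ (d - 10)) atTop atTop :=
    (tendsto_pow_atTop_atTop_of_one_lt (by omega : 1 < q)).comp (tendsto_sub_atTop_nat 10)
  have h3 := h1.comp h2
  have h4 : (0 : ℝ) < 1 / ((q : ℝ) ^ (10 * A)) := by positivity
  have h5 := (h3.eventually (gt_mem_nhds h4)).and (eventually_ge_atTop 10)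
  obtain ⟨d0, hd0⟩ := eventually_atTop.1 h5
  refine ⟨d0, fun d hd => ?_⟩
  obtain ⟨h6, h7⟩ := hd0 d hd
  simp only [Function.comp_apply] at h6
  unfold tiny nn
  have h8 : ((q : ℝ) ^ d) ^ A = (q : ℝ) ^ (10 * A) * (((q ^ (d - 10) : ℕ) : ℝ)) ^ A := by
    push_cast
    rw [← pow_mul, ← pow_mul, ← pow_add]
    congr 1
    rw [← Nat.add_mul]
    congr 1
    omega
  rw [h8, mul_assoc]
  have h9 : (0 : ℝ) < (q : ℝ) ^ (10 * A) := by positivity
  calc (q : ℝ) ^ (10 * A) * ((((q ^ (d - 10) : ℕ) : ℝ)) ^ A * (1 - β ^ 2 / 8) ^ (q ^ (d - 10)))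
      ≤ (q : ℝ) ^ (10 * A) * (1 / (q : ℝ) ^ (10 * A)) := mul_le_mul_of_nonneg_left h6.le h9.le
    _ = 1 := by field_simp

end Pool.Agent.UAA
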