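import Pool.Agent.UAA.St

/-!
# Torsion times, `q = 2`
-/

set_option autoImplicit false

namespace Pool.Agent.UAA

open Finset

namespace TO2aux

open Pool.Agent.Lib_helper58.CayleyUM Pool.Agent.UMix

/-- the additive character of `ℤ_2` -/
lemma std2 (a : ZMod 2) : (ZMod.stdAddChar a : ℂ) = if a = 0 then 1 else -1 := by
  have h0 : (ZMod.stdAddChar (0 : ZMod 2) : ℂ) = 1 := AddChar.map_zero_eq_one _
  have h1 : (ZMod.stdAddChar (1 : ZMod 2) : ℂ) = -1 := by
    have h2 : (ZMod.stdAddChar (1 : ZMod 2) : ℂ) * ZMod.stdAddChar (1 : ZMod 2) = 1 := by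
      rw [← AddChar.map_add_eq_mul]
      have : (1 + 1 : ZMod 2) = 0 := by decide
      rw [this, h0]
    rcases mul_self_eq_one_iff.1 h2 with h | h
    · exfalso
      have h3 : (1 : ZMod 2) = 0 := ZMod.injective_stdAddChar (h.trans h0.symm)
      exact absurd h3 (by decide)
    · exact h
  have h : a = 0 ∨ a = 1 := by
    revert a
    decide
  rcases h with rfl | rfl
  · rw [if_pos rfl, h0]
  · rw [if_neg (by decide), h1]

/-- the bilinear form -/
def dt {d : ℕ} (x c : G 2 d) : ZMod 2 := ∑ i, x i * c i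

lemma dt_add {d : ℕ} (x y c : G 2 d) : dt (x + y) c = dt x c + dt y c := by
  unfold dt
  rw [← Finset.sum_add_distrib]
  exact Finset.sum_congr rfl fun i _ => by rw [Pi.add_apply, add_mul]

/-- the number of `c` with `x·c = 1` -/
def w {d : ℕ} (C : Finset (G 2 d)) (x : G 2 d) : ℕ := (C.filter fun c => dt x c ≠ 0).card

/-- the number of `c` with `x·c = y·c = 1` -/
def mm {d : ℕ} (C : Finset (G 2 d)) (x y : G 2 d) : ℕ :=
  (C.filter fun c => dt x c ≠ 0 ∧ dt y c ≠ 0).card

lemma w_add {d : ℕ} (C : Finset (G 2 d)) (x y : G 2 d) :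
    w C x + w C y = w C (x + y) + 2 * mm C x y := by
  unfold w mm
  rw [Finset.card_filter, Finset.card_filter, Finset.card_filter, Finset.card_filter,
    ← Finset.sum_add_distrib, Finset.mul_sum, ← Finset.sum_add_distrib]
  refine Finset.sum_congr rfl fun c _ => ?_
  rw [dt_add]
  generalize dt x c = a
  generalize dt y c = b
  revert a b
  decide

lemma mm_cast {d : ℕ} (C : Finset (G 2 d)) (x y : G 2 d) :
    ((mm C x y : ℕ) : ZMod 2) = ∑ i, (Matrix.mulVec (Gram C) y) i * x i := by
  have h1 : ((mm C x y : ℕ) : ZMod 2) = ∑ c ∈ C, dt x c * dt y c := by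
    unfold mm
    rw [Finset.card_filter]
    push_cast
    refine Finset.sum_congr rfl fun c _ => ?_
    generalize dt x c = a
    generalize dt y c = b
    revert a b
    decide
  rw [h1]
  have h2 : ∀ i, (Matrix.mulVec (Gram C) y) i * x i = ∑ c ∈ C, x i * c i * dt y c := by
    intro i
    unfold Matrix.mulVec dotProduct Gram dt
    simp only [Matrix.of_apply]
    rw [Finset.sum_mul]
    have : ∀ j, (∑ c ∈ C, c i * c j) * y j * x i = ∑ c ∈ C, x i * c i * (y j * c j) := by
      intro j
      rw [Finset.sum_mul, Finset.sum_mul]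
      exact Finset.sum_congr rfl fun c _ => by ring
    rw [Finset.sum_congr rfl fun j _ => this j, Finset.sum_comm]
    exact Finset.sum_congr rfl fun c _ => by rw [Finset.mul_sum]
  rw [Finset.sum_congr rfl fun i _ => h2 i, Finset.sum_comm]
  refine Finset.sum_congr rfl fun c _ => ?_
  rw [← Finset.sum_mul]
  rfl

lemma lam_chr {d : ℕ} (C : Finset (G 2 d)) (x : G 2 d) :
    lam C (chr x) = (C.card : ℂ) - 2 * (w C x : ℂ) := by
  unfold lam w
  have h1 : ∀ c ∈ C, (chr x) c = 1 - 2 * (if dt x c ≠ 0 then (1 : ℂ) else 0) := by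
    intro c _
    rw [chr_apply, std2]
    by_cases h : dt x c = 0
    · have h' : (∑ i, x i * c i) = 0 := h
      rw [if_pos h', if_neg (by simpa using h)]
      ring
    · have h' : ¬ (∑ i, x i * c i) = 0 := h
      rw [if_neg h', if_pos h]
      ring
  rw [Finset.sum_congr rfl h1, Finset.sum_sub_distrib, ← Finset.mul_sum, Finset.sum_boole]
  simp

/-- the number `z` -/
noncomputable def zz (t : ℝ) : ℂ := Complex.exp (((-(2 * t) : ℝ) : ℂ) * Complex.I)

lemma zz_conj (t : ℝ) : zz t * (starRingEnd ℂ) (zz t) = 1 := by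
  rw [Complex.mul_conj, Complex.normSq_eq_norm_sq]
  unfold zz
  rw [Complex.norm_exp_ofReal_mul_I]
  simp

lemma ph_chr {d : ℕ} (C : Finset (G 2 d)) (t : ℝ) (x : G 2 d) :
    ph C t (chr x) = Complex.exp (((t * C.card : ℝ) : ℂ) * Complex.I) * zz t ^ (w C x) := by
  unfold ph zz
  rw [lam_chr, ← Complex.exp_nat_mul, ← Complex.exp_add]
  congr 1
  push_cast
  ring

/-- the sums `P_η` -/
noncomputable def PP {d : ℕ} (C : Finset (G 2 d)) (t : ℝ) (η : G 2 d) : ℂ :=
  ∑ x : G 2 d, ph C t (chr x) * (starRingEnd ℂ) (ph C t (chr (x + η)))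

lemma PP_eq {d : ℕ} (C : Finset (G 2 d)) (t : ℝ) (η : G 2 d) :
    PP C t η = ((starRingEnd ℂ) (zz t)) ^ (w C η) * ∑ x : G 2 d, (zz t ^ 2) ^ (mm C x η) := by
  unfold PP
  rw [Finset.mul_sum]
  refine Finset.sum_congr rfl fun x _ => ?_
  rw [ph_chr, ph_chr, map_mul, map_pow]
  set E := Complex.exp (((t * C.card : ℝ) : ℂ) * Complex.I) with hE
  have hEE : E * (starRingEnd ℂ) E = 1 := by
    rw [Complex.mul_conj, Complex.normSq_eq_norm_sq, hE, Complex.norm_exp_ofReal_mul_I]
    simp
  set z := zz t with hz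
  set y := (starRingEnd ℂ) z with hy
  have hzy : z * y = 1 := zz_conj t
  have hw := w_add C x η
  calc E * z ^ w C x * ((starRingEnd ℂ) E * y ^ w C (x + η))
      = (E * (starRingEnd ℂ) E) * (z ^ w C x * y ^ w C (x + η)) := by ring
    _ = z ^ w C x * y ^ w C (x + η) * (z * y) ^ (2 * mm C x η) := by
        rw [hEE, hzy, one_pow, one_mul, mul_one]
    _ = z ^ w C x * (z ^ 2) ^ mm C x η * y ^ (w C (x + η) + 2 * mm C x η) := by
        rw [mul_pow, pow_add, ← pow_mul]
        ring
    _ = (z * y) ^ w C x * ((z ^ 2) ^ mm C x η * y ^ w C η) := by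
        rw [← hw, pow_add, mul_pow]
        ring
    _ = y ^ w C η * (z ^ 2) ^ mm C x η := by
        rw [hzy, one_pow, one_mul, mul_comm]

lemma chr_add {d : ℕ} (x y : G 2 d) : (chr (x + y) : AddChar (G 2 d) ℂ) = chr x + chr y := by
  ext c
  rw [AddChar.add_apply, chr_apply, chr_apply, chr_apply, ← AddChar.map_add_eq_mul]
  congr 1
  exact dt_add x y c

lemma chr_zero' {d : ℕ} : (chr (0 : G 2 d) : AddChar (G 2 d) ℂ) = 0 := by
  ext c
  rw [AddChar.zero_apply, chr_apply]
  simp

lemma card_G {d : ℕ} : Fintype.card (G 2 d) = 2 ^ d := by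
  simp [G]

/-- flatness in terms of the sums `P_η` -/
lemma flat_iff {d : ℕ} (C : Finset (G 2 d)) (t : ℝ) :
    Flat C t ↔ ∀ η : G 2 d, η ≠ 0 → PP C t η = 0 := by
  constructor
  · intro h η hη
    have h1 : (chr η : AddChar (G 2 d) ℂ) ≠ 0 := by
      intro h2
      exact hη (chr_injective (h2.trans chr_zero'.symm))
    have h2 := autocorr h (chr η) h1
    rw [← Function.Bijective.sum_comp (chr_bijective (q := 2) (d := d))
      (fun ψ => ph C t ψ * (starRingEnd ℂ) (ph C t (ψ + chr η)))] at h2
    unfold PP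
    rw [← h2]
    exact Finset.sum_congr rfl fun x _ => by rw [chr_add]
  · intro h b
    have hC : ∀ c ∈ C, -c ∈ C := by
      intro c hc
      have : -c = c := by
        funext i
        rw [Pi.neg_apply]
        generalize c i = a
        revert a
        decide
      rw [this]
      exact hc
    have hn : (Fintype.card (G 2 d) : ℝ) ≠ 0 := (card_pos (G := G 2 d)).ne'
    have h0 := row_eq C t b
    rw [← Function.Bijective.sum_comp (chr_bijective (q := 2) (d := d))
      (fun ψ => ph C t ψ * ψ (-b))] at h0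
    -- the square
    have h1 : ((Fintype.card (G 2 d) : ℂ) * row C t b) *
        (starRingEnd ℂ) ((Fintype.card (G 2 d) : ℂ) * row C t b) =
        (Fintype.card (G 2 d) : ℂ) := by
      rw [h0, map_sum, Finset.sum_mul_sum]
      have e1 : ∀ x : G 2 d, ∑ y : G 2 d, ph C t (chr x) * (chr x) (-b) *
          (starRingEnd ℂ) (ph C t (chr y) * (chr y) (-b)) =
          ∑ η : G 2 d, (starRingEnd ℂ) ((chr η) (-b)) *
            (ph C t (chr x) * (starRingEnd ℂ) (ph C t (chr (x + η)))) := by
        intro x
        rw [← Fintype.sum_equiv (Equiv.addLeft x)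
          (fun η => ph C t (chr x) * (chr x) (-b) *
            (starRingEnd ℂ) (ph C t (chr (x + η)) * (chr (x + η)) (-b))) _ (fun η => rfl)]
        refine Finset.sum_congr rfl fun η _ => ?_
        have e2 : (chr x) (-b) * (starRingEnd ℂ) ((chr x) (-b)) = (1 : ℂ) := by
          rw [Complex.mul_conj, Complex.normSq_eq_norm_sq, norm_char]
          simp
        rw [chr_add x η, AddChar.add_apply, map_mul, map_mul]
        calc ph C t (chr x) * (chr x) (-b) * ((starRingEnd ℂ) (ph C t (chr x + chr η)) *
              ((starRingEnd ℂ) ((chr x) (-b)) * (starRingEnd ℂ) ((chr η) (-b))))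
            = ((chr x) (-b) * (starRingEnd ℂ) ((chr x) (-b))) *
              ((starRingEnd ℂ) ((chr η) (-b)) * (ph C t (chr x) *
                (starRingEnd ℂ) (ph C t (chr x + chr η)))) := by ring
          _ = _ := by rw [e2, one_mul]
      rw [Finset.sum_congr rfl fun x _ => e1 x, Finset.sum_comm]
      have e3 : ∀ η : G 2 d, ∑ x : G 2 d, (starRingEnd ℂ) ((chr η) (-b)) *
            (ph C t (chr x) * (starRingEnd ℂ) (ph C t (chr (x + η)))) =
          (starRingEnd ℂ) ((chr η) (-b)) * PP C t η := by
        intro η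
        rw [← Finset.mul_sum]
        rfl
      rw [Finset.sum_congr rfl fun η _ => e3 η, Finset.sum_eq_single 0]
      · rw [chr_zero', AddChar.zero_apply, map_one, one_mul]
        unfold PP
        have e4 : ∀ x : G 2 d, ph C t (chr x) * (starRingEnd ℂ) (ph C t (chr (x + 0))) = 1 := by
          intro x
          rw [add_zero, Complex.mul_conj, Complex.normSq_eq_norm_sq, norm_ph C hC]
          simp
        rw [Finset.sum_congr rfl fun x _ => e4 x]
        simp
      · intro η _ hη
        rw [h η hη, mul_zero]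
      · intro hh
        exact absurd (Finset.mem_univ _) hh
    rw [Complex.mul_conj, Complex.normSq_eq_norm_sq, norm_mul, mul_pow] at h1
    have h2 : (Fintype.card (G 2 d) : ℝ) ^ 2 * ‖row C t b‖ ^ 2 = Fintype.card (G 2 d) := by
      have h3 : ‖(Fintype.card (G 2 d) : ℂ)‖ = (Fintype.card (G 2 d) : ℝ) :=
        Complex.norm_natCast _
      rw [h3] at h1
      exact_mod_cast h1
    rw [eq_div_iff hn]
    have h4 : (Fintype.card (G 2 d) : ℝ) * (‖row C t b‖ ^ 2 * (Fintype.card (G 2 d) : ℝ)) =
        (Fintype.card (G 2 d) : ℝ) * 1 := by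
      rw [mul_one]
      calc (Fintype.card (G 2 d) : ℝ) * (‖row C t b‖ ^ 2 * (Fintype.card (G 2 d) : ℝ))
          = (Fintype.card (G 2 d) : ℝ) ^ 2 * ‖row C t b‖ ^ 2 := by ring
        _ = _ := h2
    exact mul_left_cancel₀ hn h4

/-- sums of cube roots of unity -/
lemma cube {ι : Type} [Fintype ι] (ζ : ℂ) (h3 : ζ ^ 3 = 1) (h1 : ζ ≠ 1) (m : ι → ℕ)
    (h : ∑ x, ζ ^ m x = 0) : 3 ∣ Fintype.card ι := by
  classical
  have hq : ζ ^ 2 = -1 - ζ := by
    have e : (ζ - 1) * (ζ ^ 2 + ζ + 1) = 0 := by
      have : (ζ - 1) * (ζ ^ 2 + ζ + 1) = ζ ^ 3 - 1 := by ring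
      rw [this, h3, sub_self]
    rcases mul_eq_zero.1 e with h | h
    · exact absurd (sub_eq_zero.1 h) h1
    · linear_combination h
  have him : ζ.im ≠ 0 := by
    intro hi
    have hre := congrArg Complex.re hq
    simp only [pow_two, Complex.mul_re, Complex.sub_re, Complex.neg_re, Complex.one_re, hi,
      mul_zero, sub_zero] at hre
    nlinarith [sq_nonneg (2 * ζ.re + 1)]
  have e1 : ∀ x, ζ ^ m x = ((if m x % 3 = 0 then (1 : ℂ) else 0) -
      (if m x % 3 = 2 then (1 : ℂ) else 0)) + ((if m x % 3 = 1 then (1 : ℂ) else 0) -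
      (if m x % 3 = 2 then (1 : ℂ) else 0)) * ζ := by
    intro x
    have e2 : ζ ^ m x = ζ ^ (m x % 3) := by
      conv_lhs => rw [← Nat.div_add_mod (m x) 3, pow_add, pow_mul, h3, one_pow, one_mul]
    have e3 : m x % 3 < 3 := Nat.mod_lt _ (by norm_num)
    rw [e2]
    interval_cases m x % 3
    · simp
    · simp
    · rw [hq]
      simp
      ring
  rw [Finset.sum_congr rfl fun x _ => e1 x, Finset.sum_add_distrib, ← Finset.sum_mul,
    Finset.sum_sub_distrib, Finset.sum_sub_distrib, Finset.sum_boole, Finset.sum_boole,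
    Finset.sum_boole] at h
  set a0 := ((univ : Finset ι).filter fun x => m x % 3 = 0).card with ha0
  set a1 := ((univ : Finset ι).filter fun x => m x % 3 = 1).card with ha1
  set a2 := ((univ : Finset ι).filter fun x => m x % 3 = 2).card with ha2
  have h12 : a1 = a2 := by
    have e := congrArg Complex.im h
    simp only [Complex.add_im, Complex.sub_im, Complex.mul_im, Complex.sub_re,
      Complex.natCast_im, Complex.natCast_re, Complex.zero_im, sub_zero, zero_mul, add_zero,
      zero_add] at e
    rcases mul_eq_zero.1 e with h' | h'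
    · have : (a1 : ℝ) = a2 := by linarith
      exact_mod_cast this
    · exact absurd h' him
  have h02 : a0 = a2 := by
    rw [h12, sub_self, zero_mul, add_zero, sub_eq_zero] at h
    exact_mod_cast h
  have htot : Fintype.card ι = a0 + a1 + a2 := by
    have e : Fintype.card ι = ∑ x : ι, 1 := by simp
    rw [e, ha0, ha1, ha2, Finset.card_filter, Finset.card_filter, Finset.card_filter,
      ← Finset.sum_add_distrib, ← Finset.sum_add_distrib]
    refine Finset.sum_congr rfl fun x _ => ?_
    have e3 : m x % 3 < 3 := Nat.mod_lt _ (by norm_num)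
    interval_cases m x % 3 <;> simp
  rw [htot, h02, h12]
  exact ⟨a2, by ring⟩

end TO2aux

open TO2aux Pool.Agent.UMix Pool.Agent.Lib_helper58.CayleyUM in
theorem t_TO2 : TO2_Stmt := by
  intro d hd C _ t ⟨j, hj1, hj4, hj⟩
  rw [flat_iff]
  set z := zz t with hz
  have hzpow : z ^ j = 1 := by
    have h1 : z ^ j * Complex.exp (Complex.I * (t : ℂ) * ((2 : ℂ) * (j : ℂ))) = 1 := by
      rw [hz]
      unfold zz
      rw [← Complex.exp_nat_mul, ← Complex.exp_add]
      convert Complex.exp_zero using 2
      push_cast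
      ring
    rwa [hj, mul_one] at h1
  have hζpow : (z ^ 2) ^ j = 1 := by
    rw [← pow_mul, mul_comm, pow_mul, hzpow, one_pow]
  have hz0 : z ≠ 0 := by
    intro h0
    have := zz_conj t
    rw [← hz, h0, zero_mul] at this
    exact one_ne_zero this.symm
  have hy0 : (starRingEnd ℂ) z ≠ 0 := by
    intro h0
    have := zz_conj t
    rw [← hz, h0, mul_zero] at this
    exact one_ne_zero this.symm
  -- a nonzero vector
  have hη : ∃ η : G 2 d, η ≠ 0 := by
    refine ⟨fun _ => 1, fun h => ?_⟩
    have h1 : (1 : ZMod 2) = 0 := congrFun h ⟨0, hd⟩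
    exact absurd h1 (by decide)
  -- the times
  have htime : (∃ k : ℤ, t = (2 * (k : ℝ) + 1) * Real.pi / 4) ↔ z ^ 2 = -1 := by
    have e1 : z ^ 2 = Complex.exp (-(4 * (t : ℂ) * Complex.I)) := by
      rw [hz]
      unfold zz
      rw [← Complex.exp_nat_mul]
      congr 1
      push_cast
      ring
    rw [e1]
    constructor
    · rintro ⟨k, rfl⟩
      have e2 : -(4 * (((2 * (k : ℝ) + 1) * Real.pi / 4 : ℝ) : ℂ) * Complex.I) =
          ((-k - 1 : ℤ) : ℂ) * (2 * Real.pi * Complex.I) + Real.pi * Complex.I := by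
        push_cast
        ring
      rw [e2, Complex.exp_add, Complex.exp_int_mul_two_pi_mul_I, one_mul, Complex.exp_pi_mul_I]
    · intro h
      have h2 : Complex.exp (-(4 * (t : ℂ) * Complex.I) + Real.pi * Complex.I) = 1 := by
        rw [Complex.exp_add, h, Complex.exp_pi_mul_I]
        ring
      rw [Complex.exp_eq_one_iff] at h2
      obtain ⟨k, hk⟩ := h2
      refine ⟨-k, ?_⟩
      have h3 : ((-(4 * t) + Real.pi : ℝ) : ℂ) = ((k * (2 * Real.pi) : ℝ) : ℂ) := by
        have h4 : Complex.I * ((-(4 * t) + Real.pi : ℝ) : ℂ) =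
            Complex.I * ((k * (2 * Real.pi) : ℝ) : ℂ) := by
          push_cast
          linear_combination hk
        exact mul_left_cancel₀ Complex.I_ne_zero h4
      have h5 : -(4 * t) + Real.pi = k * (2 * Real.pi) := by exact_mod_cast h3
      push_cast
      linarith
  rw [htime]
  by_cases hcase : z ^ 2 = -1
  · -- the main case
    have hPP : ∀ η : G 2 d, PP C t η = 0 ↔ Matrix.mulVec (Gram C) η ≠ 0 := by
      intro η
      rw [PP_eq, ← hz, hcase]
      have e1 : ∀ x : G 2 d, (-1 : ℂ) ^ mm C x η =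
          ZMod.stdAddChar (∑ i, (Matrix.mulVec (Gram C) η) i * x i) := by
        intro x
        rw [← mm_cast, std2]
        by_cases he : Even (mm C x η)
        · rw [he.neg_one_pow, if_pos ((ZMod.natCast_eq_zero_iff_even).2 he)]
        · rw [(Nat.not_even_iff_odd.1 he).neg_one_pow,
            if_neg (fun h => he ((ZMod.natCast_eq_zero_iff_even).1 h))]
      rw [Finset.sum_congr rfl fun x _ => e1 x, sum_dot, mul_eq_zero]
      constructor
      · rintro (h | h)
        · exact absurd h (pow_ne_zero _ hy0)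
        · intro h0
          rw [if_pos h0] at h
          exact absurd h (pow_ne_zero _ (by norm_num))
      · intro h
        right
        rw [if_neg h]
    constructor
    · intro h
      refine ⟨hcase, fun hdet => ?_⟩
      obtain ⟨v, hv, hv0⟩ := Matrix.exists_mulVec_eq_zero_iff.2 hdet
      exact (hPP v).1 (h v hv) hv0
    · rintro ⟨-, hdet⟩ η hη0
      rw [hPP]
      intro h0
      exact hdet (Matrix.exists_mulVec_eq_zero_iff.1 ⟨η, hη0, h0⟩)
  · -- no mixing
    constructor
    · intro h
      exfalso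
      obtain ⟨η, hη0⟩ := hη
      have h1 := h η hη0
      rw [PP_eq, ← hz, mul_eq_zero] at h1
      rcases h1 with h1 | h1
      · exact absurd h1 (pow_ne_zero _ hy0)
      · by_cases hone : z ^ 2 = 1
        · rw [hone] at h1
          simp only [one_pow, Finset.sum_const, Finset.card_univ, nsmul_eq_mul, mul_one] at h1
          have h2 : Fintype.card (G 2 d) = 0 := by exact_mod_cast h1
          rw [card_G] at h2
          exact absurd h2 (by positivity)
        · have h3 : (z ^ 2) ^ 3 = 1 := by
            interval_cases j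
            · exfalso
              apply hone
              rw [pow_one] at hzpow
              rw [hzpow, one_pow]
            · exact absurd hzpow hone
            · exact hζpow
            · exfalso
              have h4 : (z ^ 2 - 1) * (z ^ 2 + 1) = 0 := by
                have : (z ^ 2 - 1) * (z ^ 2 + 1) = z ^ 4 - 1 := by ring
                rw [this, hzpow, sub_self]
              rcases mul_eq_zero.1 h4 with h5 | h5
              · exact hone (sub_eq_zero.1 h5)
              · exact hcase (eq_neg_of_add_eq_zero_left h5)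
          have h4 := cube (z ^ 2) h3 hone (fun x => mm C x η) h1
          rw [card_G] at h4
          have h5 := (Nat.prime_three.dvd_of_dvd_pow h4)
          exact absurd h5 (by decide)
    · rintro ⟨h, -⟩
      exact absurd h hcase

end Pool.Agent.UAA
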