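import Pool.Agent.UAA.St

/-!
# Module TO3: the torsion times for `q = 3`
-/

set_option autoImplicit false

namespace Pool.Agent.UAA

namespace TO3aux

open Finset Pool.Agent.Lib_helper58.CayleyUM Pool.Agent.UMix

section Gen

variable {A : Type*} [AddCommGroup A] [Fintype A] [DecidableEq A]

/-- the orthogonality relations give flatness -/
lemma flat_of {C : Finset A} (hC : ∀ c ∈ C, -c ∈ C) {t : ℝ}
    (h : ∀ η : AddChar A ℂ, η ≠ 0 →
      ∑ ψ : AddChar A ℂ, ph C t ψ * (starRingEnd ℂ) (ph C t (ψ + η)) = 0) : Flat C t := by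
  intro b
  have hn : (Fintype.card A : ℝ) ≠ 0 := (card_pos (G := A)).ne'
  have hcard : Fintype.card (AddChar A ℂ) = Fintype.card A := AddChar.card_eq
  have key : ((Fintype.card A : ℂ) * row C t b) *
      (starRingEnd ℂ) ((Fintype.card A : ℂ) * row C t b) = (Fintype.card A : ℂ) := by
    rw [row_eq, map_sum, Finset.sum_mul_sum]
    have h1 : ∀ ψ : AddChar A ℂ, ∑ φ : AddChar A ℂ,
        (ph C t ψ * ψ (-b)) * (starRingEnd ℂ) (ph C t φ * φ (-b)) =
        ∑ η : AddChar A ℂ, η b * (ph C t ψ * (starRingEnd ℂ) (ph C t (ψ + η))) := by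
      intro ψ
      refine (Fintype.sum_equiv (Equiv.addLeft ψ) _ _ fun η => ?_).symm
      rw [Equiv.coe_addLeft, map_mul, conj_char, neg_neg, AddChar.add_apply]
      have h2 : ψ (-b) * ψ b = 1 := by
        rw [← AddChar.map_add_eq_mul, neg_add_cancel, AddChar.map_zero_eq_one]
      linear_combination (-(ph C t ψ * (starRingEnd ℂ) (ph C t (ψ + η)) * η b)) * h2
    rw [Finset.sum_congr rfl fun ψ _ => h1 ψ, Finset.sum_comm]
    rw [Finset.sum_eq_single (0 : AddChar A ℂ)]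
    · have h3 : ∀ ψ : AddChar A ℂ,
          (0 : AddChar A ℂ) b * (ph C t ψ * (starRingEnd ℂ) (ph C t (ψ + 0))) = 1 := by
        intro ψ
        rw [add_zero, AddChar.zero_apply, one_mul, Complex.mul_conj, Complex.normSq_eq_norm_sq,
          norm_ph C hC]
        norm_num
      rw [Finset.sum_congr rfl fun ψ _ => h3 ψ, Finset.sum_const, Finset.card_univ, hcard]
      simp
    · intro η _ hη
      rw [← Finset.mul_sum, h η hη, mul_zero]
    · intro h'
      exact absurd (Finset.mem_univ _) h'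
  rw [Complex.mul_conj, Complex.normSq_eq_norm_sq, norm_mul, mul_pow] at key
  have key2 : ‖(Fintype.card A : ℂ)‖ ^ 2 * ‖row C t b‖ ^ 2 = (Fintype.card A : ℝ) := by
    exact_mod_cast key
  rw [Complex.norm_natCast] at key2
  field_simp
  have h4 : (Fintype.card A : ℝ) * ((Fintype.card A : ℝ) * ‖row C t b‖ ^ 2) =
      (Fintype.card A : ℝ) * 1 := by
    rw [mul_one]
    linarith [key2]
  have h5 := mul_left_cancel₀ hn h4
  linarith [h5]

end Gen

variable {d : ℕ}

lemma chr_add {q : ℕ} [NeZero q] (x y : G q d) : chr x + chr y = chr (x + y) := by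
  ext c
  have h1 : ∑ i, (x + y) i * c i = ∑ i, x i * c i + ∑ i, y i * c i := by
    rw [← Finset.sum_add_distrib]
    exact Finset.sum_congr rfl fun i _ => by rw [Pi.add_apply, add_mul]
  rw [AddChar.add_apply, chr_apply, chr_apply, chr_apply, h1, AddChar.map_add_eq_mul]

lemma chr_zero {q : ℕ} [NeZero q] : chr (0 : G q d) = 0 := by
  ext c
  rw [chr_apply, AddChar.zero_apply]
  simp

/-- sums of fourth roots of unity -/
lemma even_of_four {ι : Type*} [Fintype ι] (z : ι → ℂ) (hz : ∀ i, z i ^ 4 = 1)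
    (h : ∑ i, z i = 0) : Even (Fintype.card ι) := by
  have h1 : ∀ i, ∃ e : ℤ, Odd e ∧ (z i).re + (z i).im = (e : ℝ) := by
    intro i
    have h2 : (z i - 1) * (z i + 1) * ((z i - Complex.I) * (z i + Complex.I)) = 0 := by
      have h3 := hz i
      have h4 := Complex.I_sq
      linear_combination h3 - (z i ^ 2 - 1) * h4
    rcases mul_eq_zero.1 h2 with h3 | h3 <;> rcases mul_eq_zero.1 h3 with h4 | h4
    · exact ⟨1, odd_one, by rw [sub_eq_zero.1 h4]; simp⟩
    · exact ⟨-1, by decide, by rw [eq_neg_of_add_eq_zero_left h4]; simp⟩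
    · exact ⟨1, odd_one, by rw [sub_eq_zero.1 h4]; simp⟩
    · exact ⟨-1, by decide, by rw [eq_neg_of_add_eq_zero_left h4]; simp⟩
  choose e he1 he2 using h1
  have h2 : (∑ i, e i : ℤ) = 0 := by
    have h3 : ((∑ i, e i : ℤ) : ℝ) = (∑ i, z i).re + (∑ i, z i).im := by
      rw [Complex.re_sum, Complex.im_sum, ← Finset.sum_add_distrib]
      push_cast
      exact Finset.sum_congr rfl fun i _ => (he2 i).symm
    rw [h] at h3
    simp only [Complex.zero_re, Complex.zero_im, add_zero] at h3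
    exact_mod_cast h3
  have h3 : ((∑ i, e i : ℤ) : ZMod 2) = ((Fintype.card ι : ℕ) : ZMod 2) := by
    have h4 : ∀ i, ((e i : ℤ) : ZMod 2) = 1 := by
      intro i
      obtain ⟨k, hk⟩ := he1 i
      rw [hk]
      push_cast
      rw [show (2 : ZMod 2) = 0 by decide, zero_mul, zero_add]
    push_cast
    rw [Finset.sum_congr rfl fun i _ => h4 i]
    simp
  rw [h2] at h3
  have h4 : ((Fintype.card ι : ℕ) : ZMod 2) = 0 := by
    rw [← h3]
    simp
  exact (ZMod.natCast_eq_zero_iff_even).1 h4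

/-- the number of `c` with `x·c ≠ 0` -/
def w (C : Finset (G 3 d)) (x : G 3 d) : ℕ := (C.filter fun c => ∑ i, x i * c i ≠ 0).card

lemma neg_ne {c : G 3 d} (hc : c ≠ 0) : -c ≠ c := by
  intro h
  apply hc
  funext i
  have h1 := congrFun h i
  rw [Pi.neg_apply] at h1
  have h2 : ∀ a : ZMod 3, -a = a → a = 0 := by decide
  exact h2 _ h1

lemma w_even (C : Finset (G 3 d)) (h0 : (0 : G 3 d) ∉ C) (hC : ∀ c ∈ C, -c ∈ C) (x : G 3 d) :
    ∃ h : ℕ, w C x = 2 * h := by
  have h1 : ∑ c ∈ C.filter (fun c => ∑ i, x i * c i ≠ 0), (1 : ZMod 2) = 0 := by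
    refine Finset.sum_involution (fun c _ => -c) (fun c _ => by decide) (fun c hc _ => ?_)
      (fun c hc => ?_) (fun c _ => neg_neg c)
    · rw [Finset.mem_filter] at hc
      exact neg_ne fun h => h0 (h ▸ hc.1)
    · rw [Finset.mem_filter] at hc ⊢
      refine ⟨hC c hc.1, fun h => hc.2 ?_⟩
      rw [← neg_eq_zero, ← h, ← Finset.sum_neg_distrib]
      exact Finset.sum_congr rfl fun i _ => by rw [Pi.neg_apply, mul_neg]
  rw [Finset.sum_const, nsmul_eq_mul, mul_one] at h1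
  obtain ⟨k, hk⟩ := (ZMod.natCast_eq_zero_iff_even).1 h1
  exact ⟨k, by rw [w, hk]; ring⟩

lemma std3 (a : ZMod 3) : (ZMod.stdAddChar a : ℂ) + ZMod.stdAddChar (-a) =
    2 - 3 * (if a ≠ 0 then 1 else 0) := by
  have h1 : ∑ b : ZMod 3, (ZMod.stdAddChar b : ℂ) = 0 := by
    rw [AddChar.sum_eq_zero_iff_ne_zero]
    intro h
    have h2 : (ZMod.stdAddChar (1 : ZMod 3) : ℂ) = ZMod.stdAddChar (0 : ZMod 3) := by
      rw [h]
      simp
    exact absurd (ZMod.injective_stdAddChar h2) (by decide)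
  have h2 : ∑ b : ZMod 3, (ZMod.stdAddChar b : ℂ) = ZMod.stdAddChar (0 : ZMod 3) +
      ZMod.stdAddChar (1 : ZMod 3) + ZMod.stdAddChar (2 : ZMod 3) := Fin.sum_univ_three _
  rw [h2, AddChar.map_zero_eq_one] at h1
  have h3 : ∀ a : ZMod 3, a = 0 ∨ a = 1 ∨ a = 2 := by decide
  rcases h3 a with rfl | rfl | rfl
  · rw [neg_zero, AddChar.map_zero_eq_one]
    norm_num
  · rw [show (-1 : ZMod 3) = 2 by decide, if_pos (by decide)]
    linear_combination h1
  · rw [show (-2 : ZMod 3) = 1 by decide, if_pos (by decide)]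
    linear_combination h1

lemma lam_eq (C : Finset (G 3 d)) (hC : ∀ c ∈ C, -c ∈ C) (x : G 3 d) :
    2 * lam C (chr x) = 2 * (C.card : ℂ) - 3 * (w C x : ℂ) := by
  have h1 : lam C (chr x) = ∑ c ∈ C, (ZMod.stdAddChar (-(∑ i, x i * c i)) : ℂ) := by
    unfold lam
    refine Finset.sum_nbij' (fun c => -c) (fun c => -c) hC hC (fun c _ => neg_neg c)
      (fun c _ => neg_neg c) (fun c _ => ?_)
    rw [chr_apply, ← Finset.sum_neg_distrib]
    congr 1
    exact Finset.sum_congr rfl fun i _ => by rw [Pi.neg_apply, mul_neg, neg_neg]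
  have h2 : 2 * lam C (chr x) = ∑ c ∈ C, ((ZMod.stdAddChar (∑ i, x i * c i) : ℂ) +
      ZMod.stdAddChar (-(∑ i, x i * c i))) := by
    rw [Finset.sum_add_distrib, ← h1, two_mul]
    rfl
  rw [h2, Finset.sum_congr rfl fun c _ => std3 _, Finset.sum_sub_distrib, ← Finset.mul_sum,
    ← Finset.sum_filter, Finset.sum_const, Finset.sum_const, nsmul_eq_mul, nsmul_eq_mul, w]
  ring

/-- the bilinear form of the Gram matrix -/
lemma gram_form (C : Finset (G 3 d)) (x y : G 3 d) :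
    ∑ c ∈ C, (∑ i, x i * c i) * (∑ i, y i * c i) = ∑ i, x i * (Matrix.mulVec (Gram C) y) i := by
  have h1 : ∀ i, x i * (Matrix.mulVec (Gram C) y) i =
      ∑ c ∈ C, (x i * c i) * (∑ j, y j * c j) := by
    intro i
    rw [Matrix.mulVec, dotProduct]
    simp only [Gram, Matrix.of_apply]
    rw [Finset.mul_sum]
    have h2 : ∀ j, x i * ((∑ c ∈ C, c i * c j) * y j) = ∑ c ∈ C, (x i * c i) * (y j * c j) := by
      intro j
      rw [Finset.sum_mul, Finset.mul_sum]
      exact Finset.sum_congr rfl fun c _ => by ring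
    rw [Finset.sum_congr rfl fun j _ => h2 j, Finset.sum_comm]
    exact Finset.sum_congr rfl fun c _ => by rw [Finset.mul_sum]
  rw [Finset.sum_congr rfl fun i _ => h1 i, Finset.sum_comm]
  exact Finset.sum_congr rfl fun c _ => by rw [Finset.sum_mul]

lemma w_cast (C : Finset (G 3 d)) (x : G 3 d) :
    ((w C x : ℕ) : ZMod 3) = ∑ c ∈ C, (∑ i, x i * c i) * (∑ i, x i * c i) := by
  have h1 : ∀ a : ZMod 3, a * a = if a ≠ 0 then 1 else 0 := by decide
  rw [Finset.sum_congr rfl fun c _ => h1 _, ← Finset.sum_filter, Finset.sum_const, nsmul_eq_mul,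
    mul_one, w]

lemma w_diff (C : Finset (G 3 d)) (x η : G 3 d) :
    ((w C x : ℕ) : ZMod 3) - ((w C (x + η) : ℕ) : ZMod 3) =
      ∑ i, x i * (Matrix.mulVec (Gram C) η) i - ((w C η : ℕ) : ZMod 3) := by
  rw [← gram_form, w_cast, w_cast, w_cast, ← Finset.sum_sub_distrib, ← Finset.sum_sub_distrib]
  refine Finset.sum_congr rfl fun c _ => ?_
  have h1 : ∑ i, (x + η) i * c i = ∑ i, x i * c i + ∑ i, η i * c i := by
    rw [← Finset.sum_add_distrib]
    exact Finset.sum_congr rfl fun i _ => by rw [Pi.add_apply, add_mul]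
  rw [h1]
  have h3 : (3 : ZMod 3) = 0 := by decide
  linear_combination (-(∑ i, x i * c i) * (∑ i, η i * c i)) * h3

/-- the phase -/
lemma ph_eq3 (C : Finset (G 3 d)) (h0 : (0 : G 3 d) ∉ C) (hC : ∀ c ∈ C, -c ∈ C) (t : ℝ)
    (x : G 3 d) : ∃ h : ℕ, w C x = 2 * h ∧ ph C t (chr x) =
      Complex.exp (Complex.I * (t : ℂ) * (C.card : ℂ)) *
        (Complex.exp (Complex.I * (t : ℂ) * 3))⁻¹ ^ h := by
  obtain ⟨h, hh⟩ := w_even C h0 hC x
  refine ⟨h, hh, ?_⟩
  have h1 : lam C (chr x) = (C.card : ℂ) - 3 * (h : ℂ) := by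
    have h2 := lam_eq C hC x
    rw [hh] at h2
    push_cast at h2
    linear_combination h2 / 2
  unfold ph
  rw [h1, ← Complex.exp_neg, ← Complex.exp_nat_mul, ← Complex.exp_add]
  congr 1
  ring

/-- the phase at the times with `exp(9it) = 1` -/
lemma ph_eq3' (C : Finset (G 3 d)) (h0 : (0 : G 3 d) ∉ C) (hC : ∀ c ∈ C, -c ∈ C) (t : ℝ)
    (hy : Complex.exp (Complex.I * (t : ℂ) * 3) ^ 3 = 1) (x : G 3 d) :
    ph C t (chr x) = Complex.exp (Complex.I * (t : ℂ) * (C.card : ℂ)) *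
      AddChar.zmodChar 3 hy ((w C x : ℕ) : ZMod 3) := by
  obtain ⟨h, hh, hp⟩ := ph_eq3 C h0 hC t x
  rw [hp, AddChar.zmodChar_apply', hh, pow_mul]
  congr 1
  congr 1
  have hne : Complex.exp (Complex.I * (t : ℂ) * 3) ≠ 0 := Complex.exp_ne_zero _
  rw [inv_eq_iff_eq_inv, eq_comm, inv_eq_of_mul_eq_one_left]
  rw [← hy]
  ring

lemma norm_e (t : ℝ) (n : ℕ) : ‖Complex.exp (Complex.I * (t : ℂ) * (n : ℂ))‖ = 1 := by
  rw [show Complex.I * (t : ℂ) * (n : ℂ) = ((t * n : ℝ) : ℂ) * Complex.I by push_cast; ring]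
  exact Complex.norm_exp_ofReal_mul_I _

/-- the correlation at the times with `exp(9it) = 1` -/
lemma corr (C : Finset (G 3 d)) (h0 : (0 : G 3 d) ∉ C) (hC : ∀ c ∈ C, -c ∈ C) (t : ℝ)
    (hy : Complex.exp (Complex.I * (t : ℂ) * 3) ^ 3 = 1) (η : G 3 d) :
    ∑ ψ : AddChar (G 3 d) ℂ, ph C t ψ * (starRingEnd ℂ) (ph C t (ψ + chr η)) =
      AddChar.zmodChar 3 hy (-((w C η : ℕ) : ZMod 3)) *
        ∑ x : G 3 d, AddChar.zmodChar 3 hy (∑ i, x i * (Matrix.mulVec (Gram C) η) i) := by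
  rw [← chr_bijective.sum_comp, Finset.mul_sum]
  refine Finset.sum_congr rfl fun x _ => ?_
  rw [chr_add, ph_eq3' C h0 hC t hy, ph_eq3' C h0 hC t hy, map_mul]
  have h1 : (starRingEnd ℂ) (AddChar.zmodChar 3 hy ((w C (x + η) : ℕ) : ZMod 3)) =
      AddChar.zmodChar 3 hy (-((w C (x + η) : ℕ) : ZMod 3)) := by
    rw [AddChar.map_neg_eq_conj]
  have h2 : Complex.exp (Complex.I * (t : ℂ) * (C.card : ℂ)) *
      (starRingEnd ℂ) (Complex.exp (Complex.I * (t : ℂ) * (C.card : ℂ))) = 1 := by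
    rw [Complex.mul_conj, Complex.normSq_eq_norm_sq, norm_e]
    norm_num
  have h3 : AddChar.zmodChar 3 hy ((w C x : ℕ) : ZMod 3) *
      AddChar.zmodChar 3 hy (-((w C (x + η) : ℕ) : ZMod 3)) =
      AddChar.zmodChar 3 hy (-((w C η : ℕ) : ZMod 3)) *
        AddChar.zmodChar 3 hy (∑ i, x i * (Matrix.mulVec (Gram C) η) i) := by
    rw [← AddChar.map_add_eq_mul, ← AddChar.map_add_eq_mul]
    congr 1
    have h4 := w_diff C x η
    linear_combination h4
  rw [h1]
  linear_combination (AddChar.zmodChar 3 hy ((w C x : ℕ) : ZMod 3) *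
      AddChar.zmodChar 3 hy (-((w C (x + η) : ℕ) : ZMod 3))) * h2 + h3

lemma sum_zero {y : ℂ} (hy : y ^ 3 = 1) (hy1 : y ≠ 1) (v : G 3 d) (hv : v ≠ 0) :
    ∑ x : G 3 d, AddChar.zmodChar 3 hy (∑ i, x i * v i) = 0 := by
  let χ : AddChar (G 3 d) ℂ :=
    { toFun := fun x => AddChar.zmodChar 3 hy (∑ i, x i * v i)
      map_zero_eq_one' := by simp
      map_add_eq_mul' := fun a b => by
        rw [← AddChar.map_add_eq_mul, ← Finset.sum_add_distrib]
        congr 1
        exact Finset.sum_congr rfl fun i _ => by rw [Pi.add_apply, add_mul] }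
  have h1 : χ ≠ 0 := by
    intro h
    obtain ⟨i, hi⟩ : ∃ i, v i ≠ 0 := by
      by_contra hh
      push Not at hh
      exact hv (funext hh)
    have h2 : χ (Pi.single i (v i)) = 1 := by rw [h]; rfl
    have h3 : χ (Pi.single i (v i)) = AddChar.zmodChar 3 hy (v i * v i) := by
      show AddChar.zmodChar 3 hy (∑ j, (Pi.single i (v i) : G 3 d) j * v j) = _
      congr 1
      rw [Finset.sum_eq_single i]
      · rw [Pi.single_eq_same]
      · intro j _ hne
        rw [Pi.single_eq_of_ne hne, zero_mul]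
      · intro hh
        exact absurd (Finset.mem_univ i) hh
    have h4 : ∀ a : ZMod 3, a ≠ 0 → a * a = 1 := by decide
    rw [h2, h4 _ hi, AddChar.zmodChar_apply] at h3
    have h5 : (1 : ZMod 3).val = 1 := rfl
    rw [h5, pow_one] at h3
    exact hy1 h3.symm
  exact AddChar.sum_eq_zero_iff_ne_zero.2 h1

lemma time_iff (t : ℝ) : (∃ k : ℤ, ¬ (3 : ℤ) ∣ k ∧ t = 2 * Real.pi * (k : ℝ) / 9) ↔
    Complex.exp (Complex.I * (t : ℂ) * 3) ^ 3 = 1 ∧ Complex.exp (Complex.I * (t : ℂ) * 3) ≠ 1 := by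
  have hpi : (Real.pi : ℝ) ≠ 0 := Real.pi_ne_zero
  have e9 : Complex.exp (Complex.I * (t : ℂ) * 3) ^ 3 = 1 ↔
      ∃ k : ℤ, t = 2 * Real.pi * (k : ℝ) / 9 := by
    rw [← Complex.exp_nat_mul, Complex.exp_eq_one_iff]
    refine exists_congr fun k => ?_
    constructor
    · intro h
      have h1 : Complex.I * ((t : ℂ) * 9) = Complex.I * ((k : ℂ) * (2 * Real.pi)) := by
        push_cast at h
        linear_combination h
      have h2 := mul_left_cancel₀ Complex.I_ne_zero h1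
      have h3 : t * 9 = (k : ℝ) * (2 * Real.pi) := by exact_mod_cast h2
      linarith
    · intro h
      rw [h]
      push_cast
      ring
  have e3 : Complex.exp (Complex.I * (t : ℂ) * 3) = 1 ↔
      ∃ k : ℤ, t = 2 * Real.pi * (k : ℝ) / 3 := by
    rw [Complex.exp_eq_one_iff]
    refine exists_congr fun k => ?_
    constructor
    · intro h
      have h1 : Complex.I * ((t : ℂ) * 3) = Complex.I * ((k : ℂ) * (2 * Real.pi)) := by
        linear_combination h
      have h2 := mul_left_cancel₀ Complex.I_ne_zero h1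
      have h3 : t * 3 = (k : ℝ) * (2 * Real.pi) := by exact_mod_cast h2
      linarith
    · intro h
      rw [h]
      push_cast
      ring
  rw [e9, Ne, e3]
  constructor
  · rintro ⟨k, hk, ht⟩
    refine ⟨⟨k, ht⟩, ?_⟩
    rintro ⟨m, hm⟩
    apply hk
    refine ⟨m, ?_⟩
    have h1 : 2 * Real.pi * (k : ℝ) / 9 = 2 * Real.pi * (m : ℝ) / 3 := by rw [← ht, ← hm]
    have h2 : (k : ℝ) = 3 * m := by
      have h3 : Real.pi * (k : ℝ) = Real.pi * (3 * m) := by linarith
      exact mul_left_cancel₀ hpi h3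
    exact_mod_cast h2
  · rintro ⟨⟨k, ht⟩, h⟩
    refine ⟨k, ?_, ht⟩
    rintro ⟨m, rfl⟩
    exact h ⟨m, by rw [ht]; push_cast; ring⟩

end TO3aux

open TO3aux Pool.Agent.Lib_helper58.CayleyUM Pool.Agent.UMix in
theorem t_TO3 : TO3_Stmt := by
  intro d hd C h0 hC t hj
  have hcard : Fintype.card (G 3 d) = 3 ^ d := by
    simp [G, ZMod.card]
  obtain ⟨y, hy⟩ : ∃ y, y = Complex.exp (Complex.I * (t : ℂ) * 3) := ⟨_, rfl⟩
  have hne : ∃ η : G 3 d, η ≠ 0 := by
    refine ⟨fun _ => 1, fun h => ?_⟩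
    exact one_ne_zero (congrFun h ⟨0, hd⟩)
  have hchr : ∀ η : G 3 d, η ≠ 0 → chr η ≠ 0 := fun η hη h =>
    hη (chr_injective (h.trans chr_zero.symm))
  -- no flatness if `y ^ 4 = 1`
  have hfour : y ^ 4 = 1 → ¬ Flat C t := by
    intro h4 hF
    obtain ⟨η, hη⟩ := hne
    have h1 := autocorr hF (chr η) (hchr η hη)
    rw [← chr_bijective.sum_comp] at h1
    have h2 := even_of_four _ (fun x => ?_) h1
    · rw [hcard] at h2
      exact absurd h2 (Nat.not_even_iff_odd.2 (Odd.pow (by decide)))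
    · have h3 : ∀ z : G 3 d, ph C t (chr z) ^ 4 =
          Complex.exp (Complex.I * (t : ℂ) * (C.card : ℂ)) ^ 4 := by
        intro z
        obtain ⟨h, -, hp⟩ := ph_eq3 C h0 hC t z
        rw [hp, mul_pow, ← hy, ← pow_mul, mul_comm h 4, pow_mul, inv_pow, h4, inv_one, one_pow,
          mul_one]
      rw [chr_add, mul_pow, ← map_pow, h3, h3, Complex.mul_conj, Complex.normSq_eq_norm_sq,
        norm_pow, norm_e]
      norm_num
  have hpow : ∀ j : ℕ, Complex.exp (Complex.I * (t : ℂ) * ((3 : ℂ) * (j : ℂ))) = y ^ j := by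
    intro j
    rw [hy, ← Complex.exp_nat_mul]
    congr 1
    ring
  have main : ∀ hy3 : y ^ 3 = 1, y ≠ 1 → (Flat C t ↔ (Gram C).det ≠ 0) := by
    intro hy3 hy1
    have hy3' : Complex.exp (Complex.I * (t : ℂ) * 3) ^ 3 = 1 := by rw [← hy]; exact hy3
    have hy1' : Complex.exp (Complex.I * (t : ℂ) * 3) ≠ 1 := by rw [← hy]; exact hy1
    constructor
    · intro hF hdet
      obtain ⟨η, hη, hG⟩ := Matrix.exists_mulVec_eq_zero_iff.2 hdet
      have h1 := autocorr hF (chr η) (hchr η hη)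
      rw [corr C h0 hC t hy3' η, hG] at h1
      simp only [Pi.zero_apply, mul_zero, Finset.sum_const_zero, AddChar.map_zero_eq_one,
        Finset.sum_const, Finset.card_univ, nsmul_eq_mul, mul_one] at h1
      rcases mul_eq_zero.1 h1 with h2 | h2
      · have h3 := AddChar.norm_apply (AddChar.zmodChar 3 hy3') (-((w C η : ℕ) : ZMod 3))
        rw [h2] at h3
        simp at h3
      · rw [hcard] at h2
        have h3 : (3 ^ d : ℕ) ≠ 0 := by positivity
        exact h3 (by exact_mod_cast h2)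
    · intro hdet
      refine flat_of hC fun φ hφ => ?_
      obtain ⟨η, rfl⟩ := chr_bijective.2 φ
      have hη : η ≠ 0 := by
        rintro rfl
        exact hφ chr_zero
      rw [corr C h0 hC t hy3' η, sum_zero hy3' hy1' _ ?_, mul_zero]
      intro hG
      exact hdet (Matrix.exists_mulVec_eq_zero_iff.1 ⟨η, hη, hG⟩)
  rw [time_iff, ← hy]
  constructor
  · intro hF
    have hn4 : y ^ 4 ≠ 1 := fun h => hfour h hF
    obtain ⟨j, hj1, hj4, hj⟩ := hj
    rw [hpow] at hj
    have hj3 : j = 3 := by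
      by_contra hh
      have : j = 1 ∨ j = 2 ∨ j = 4 := by omega
      rcases this with rfl | rfl | rfl
      · exact hn4 (by rw [show (4 : ℕ) = 1 * 4 by norm_num, pow_mul, hj, one_pow])
      · exact hn4 (by rw [show (4 : ℕ) = 2 * 2 by norm_num, pow_mul, hj, one_pow])
      · exact hn4 hj
    subst hj3
    have hy1 : y ≠ 1 := fun h => hn4 (by rw [h, one_pow])
    exact ⟨⟨hj, hy1⟩, (main hj hy1).1 hF⟩
  · rintro ⟨⟨hy3, hy1⟩, hdet⟩
    exact (main hy3 hy1).2 hdet

end Pool.Agent.UAA
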