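import Pool.Agent.UAA.St

/-!
# No uniform mixing at the times `2πk/(pj)`, `j ≤ 4`, `p ≥ 5` prime
-/

set_option autoImplicit false

namespace Pool.Agent.UAA

open Finset

namespace TO5aux

open Pool.Agent.Lib_helper58.CayleyUM Pool.Agent.UMix

section

variable {p d : ℕ} [Fact p.Prime] [Nonempty (Fin d)]

/-- The leading coefficient. -/
noncomputable def ld (c : G p d) : ZMod p := c (Classical.epsilon fun i => c i ≠ 0)

theorem ld_ne (c : G p d) (hc : c ≠ 0) : ld c ≠ 0 := by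
  unfold ld
  apply Classical.epsilon_spec (p := fun i => c i ≠ 0)
  exact Function.ne_iff.1 hc

theorem ld_smul (u : ZMod p) (hu : u ≠ 0) (c : G p d) : ld (fun i => u * c i) = u * ld c := by
  unfold ld
  have h : (fun i => u * c i ≠ 0) = fun i => c i ≠ 0 := by
    funext i
    rw [Ne, mul_eq_zero, or_iff_right hu]
  rw [h]

open Classical in
/-- The representatives. -/
noncomputable def rp (C : Finset (G p d)) : Finset (G p d) := C.filter fun c => ld c = 1

theorem PC_smul {C : Finset (G p d)} (hC : PC C) {c : G p d} (hc : c ∈ C) {u : ZMod p}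
    (hu : u ≠ 0) : (fun i => u * c i) ∈ C :=
  hC.2 c hc _ ⟨Units.mk0 u hu, fun _ => rfl⟩

theorem sum_rp {C : Finset (G p d)} (hC : PC C) (F : G p d → ℂ) :
    ∑ c ∈ C, F c = ∑ c ∈ rp C, ∑ u ∈ (univ : Finset (ZMod p)).erase 0, F fun i => u * c i := by
  classical
  rw [← Finset.sum_product']
  symm
  have hne : ∀ c ∈ C, c ≠ 0 := fun c hc h0 => hC.1 (h0 ▸ hc)
  refine Finset.sum_bij' (fun x _ => fun i => x.2 * x.1 i)
    (fun c _ => ((fun i => (ld c)⁻¹ * c i), ld c)) ?_ ?_ ?_ ?_ ?_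
  · rintro ⟨c, u⟩ h
    rw [mem_product, rp, mem_filter, mem_erase] at h
    exact PC_smul hC h.1.1 h.2.1
  · intro c hc
    have h1 := ld_ne c (hne c hc)
    rw [mem_product, rp, mem_filter, mem_erase]
    refine ⟨⟨PC_smul hC hc (inv_ne_zero h1), ?_⟩, h1, mem_univ _⟩
    show ld (fun i => (ld c)⁻¹ * c i) = 1
    rw [ld_smul _ (inv_ne_zero h1), inv_mul_cancel₀ h1]
  · rintro ⟨c, u⟩ h
    rw [mem_product, rp, mem_filter, mem_erase] at h
    have h1 : ld (fun i => u * c i) = u := by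
      rw [ld_smul _ h.2.1, h.1.2, mul_one]
    refine Prod.ext ?_ h1
    funext i
    show (ld (fun i => u * c i))⁻¹ * (u * c i) = c i
    rw [h1, ← mul_assoc, inv_mul_cancel₀ h.2.1, one_mul]
  · intro c hc
    have h1 := ld_ne c (hne c hc)
    funext i
    show ld c * ((ld c)⁻¹ * c i) = c i
    rw [← mul_assoc, mul_inv_cancel₀ h1, one_mul]
  · intro x _
    rfl

theorem sum_erase (s : ZMod p) :
    ∑ u ∈ (univ : Finset (ZMod p)).erase 0, (ZMod.stdAddChar (s * u) : ℂ) =
      (p : ℂ) * (if s = 0 then 1 else 0) - 1 := by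
  have h := sum_std s
  rw [← Finset.add_sum_erase _ _ (mem_univ (0 : ZMod p)), mul_zero, AddChar.map_zero_eq_one] at h
  have h2 := eq_sub_of_add_eq' h
  rw [h2]
  split_ifs <;> simp

theorem lam_eq_int {C : Finset (G p d)} (hC : PC C) (ψ : AddChar (G p d) ℂ) :
    ∃ a : ℤ, lam C ψ = (p : ℂ) * (a : ℂ) - ((rp C).card : ℂ) := by
  classical
  obtain ⟨x, rfl⟩ := (chr_bijective (q := p) (d := d)).2 ψ
  refine ⟨(((rp C).filter fun c => ∑ i, x i * c i = 0).card : ℤ), ?_⟩
  unfold lam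
  rw [sum_rp hC]
  have h1 : ∀ c ∈ rp C, ∑ u ∈ (univ : Finset (ZMod p)).erase 0, chr x (fun i => u * c i) =
      (p : ℂ) * (if ∑ i, x i * c i = 0 then 1 else 0) - 1 := by
    intro c _
    rw [← sum_erase]
    refine Finset.sum_congr rfl fun u _ => ?_
    rw [chr_apply]
    congr 2
    rw [Finset.sum_mul]
    exact Finset.sum_congr rfl fun i _ => by ring
  rw [Finset.sum_congr rfl h1, Finset.sum_sub_distrib, ← Finset.mul_sum, Finset.sum_boole]
  simp

end

theorem four (w : ℂ) (h : w ^ 4 = 1) : ∃ k : ℤ, w.re + w.im = 2 * (k : ℝ) + 1 := by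
  have h0 : (w - 1) * ((w + 1) * ((w - Complex.I) * (w + Complex.I))) = 0 := by
    have : (w - 1) * ((w + 1) * ((w - Complex.I) * (w + Complex.I))) =
        w ^ 4 - w ^ 2 * (1 + Complex.I ^ 2) + Complex.I ^ 2 := by ring
    rw [this, Complex.I_sq, h]
    ring
  rcases mul_eq_zero.1 h0 with h1 | h1
  · refine ⟨0, ?_⟩
    rw [sub_eq_zero.1 h1]
    simp
  rcases mul_eq_zero.1 h1 with h1 | h1
  · refine ⟨-1, ?_⟩
    rw [eq_neg_of_add_eq_zero_left h1]
    simp
    norm_num
  rcases mul_eq_zero.1 h1 with h1 | h1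
  · refine ⟨0, ?_⟩
    rw [sub_eq_zero.1 h1]
    simp
  · refine ⟨-1, ?_⟩
    rw [eq_neg_of_add_eq_zero_left h1]
    simp
    norm_num

theorem three (w : ℂ) (h : w ^ 3 = 1) : ∃ k : ℤ, 2 * w.re = 3 * (k : ℝ) + 2 := by
  have h0 : (w - 1) * (w ^ 2 + w + 1) = 0 := by
    have : (w - 1) * (w ^ 2 + w + 1) = w ^ 3 - 1 := by ring
    rw [this, h, sub_self]
  rcases mul_eq_zero.1 h0 with h1 | h1
  · refine ⟨0, ?_⟩
    rw [sub_eq_zero.1 h1]
    simp
  · refine ⟨-1, ?_⟩
    have hre := congrArg Complex.re h1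
    have him := congrArg Complex.im h1
    simp [pow_two] at hre him
    have h2 : w.im * (2 * w.re + 1) = 0 := by linarith
    rcases mul_eq_zero.1 h2 with h3 | h3
    · rw [h3] at hre
      nlinarith [sq_nonneg (w.re + 1 / 2)]
    · push_cast
      linarith

/-- Sums of roots of unity. -/
theorem no_sum {ι : Type*} [Fintype ι] (w : ι → ℂ) (j : ℕ) (h1 : 1 ≤ j) (h4 : j ≤ 4)
    (hw : ∀ i, w i ^ j = 1) (hs : ∑ i, w i = 0) : 2 ∣ Fintype.card ι ∨ 3 ∣ Fintype.card ι := by
  have key4 : (∀ i, w i ^ 4 = 1) → 2 ∣ Fintype.card ι := by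
    intro hw4
    choose k hk using fun i => four (w i) (hw4 i)
    have hre := congrArg Complex.re hs
    have him := congrArg Complex.im hs
    rw [Complex.re_sum, Complex.zero_re] at hre
    rw [Complex.im_sum, Complex.zero_im] at him
    have h2 : ∑ i, ((w i).re + (w i).im) = 0 := by
      rw [Finset.sum_add_distrib, hre, him, add_zero]
    rw [Finset.sum_congr rfl fun i _ => hk i, Finset.sum_add_distrib, ← Finset.mul_sum,
      Finset.sum_const, card_univ, nsmul_eq_mul, mul_one] at h2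
    have h3 : 2 * ∑ i, k i + (Fintype.card ι : ℤ) = 0 := by exact_mod_cast h2
    have h5 : (2 : ℤ) ∣ (Fintype.card ι : ℤ) := ⟨-∑ i, k i, by linarith⟩
    exact_mod_cast h5
  have key3 : (∀ i, w i ^ 3 = 1) → 3 ∣ Fintype.card ι := by
    intro hw3
    choose k hk using fun i => three (w i) (hw3 i)
    have hre := congrArg Complex.re hs
    rw [Complex.re_sum, Complex.zero_re] at hre
    have h2 : ∑ i, (2 * (w i).re) = 0 := by
      rw [← Finset.mul_sum, hre, mul_zero]
    rw [Finset.sum_congr rfl fun i _ => hk i, Finset.sum_add_distrib, ← Finset.mul_sum,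
      Finset.sum_const, card_univ, nsmul_eq_mul] at h2
    have h3 : 3 * ∑ i, k i + (Fintype.card ι : ℤ) * 2 = 0 := by exact_mod_cast h2
    omega
  rcases (by omega : j = 1 ∨ j = 2 ∨ j = 3 ∨ j = 4) with rfl | rfl | rfl | rfl
  · left
    apply key4
    intro i
    rw [show (4 : ℕ) = 1 * 4 from rfl, pow_mul, hw i, one_pow]
  · left
    apply key4
    intro i
    rw [show (4 : ℕ) = 2 * 2 from rfl, pow_mul, hw i, one_pow]
  · right
    exact key3 hw
  · left
    exact key4 hw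

end TO5aux

open TO5aux Pool.Agent.Lib_helper58.CayleyUM Pool.Agent.UMix in
theorem t_TO5 : TO5_Stmt := by
  intro p d _ hp hp5 hd C hC t hj hF
  obtain ⟨j, hj1, hj4, hjt⟩ := hj
  classical
  haveI : Fact p.Prime := ⟨hp⟩
  haveI : Nonempty (Fin d) := ⟨⟨0, hd⟩⟩
  let e : G p d := Pi.single ⟨0, hd⟩ 1
  have he : e ≠ 0 := by
    intro h
    have h1 := congrFun h ⟨0, hd⟩
    simp [e] at h1
  have hη : (chr e : AddChar (G p d) ℂ) ≠ 0 := by
    intro h
    apply he
    apply chr_injective (q := p) (d := d)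
    rw [h]
    refine DFunLike.ext _ _ fun z => ?_
    rw [chr_apply]
    simp
  have hac := autocorr hF (chr e) hη
  choose a ha using fun ψ => lam_eq_int hC ψ
  have hw : ∀ ψ : AddChar (G p d) ℂ,
      (ph C t ψ * (starRingEnd ℂ) (ph C t (ψ + chr e))) ^ j = 1 := by
    intro ψ
    have h1 : (starRingEnd ℂ) (ph C t (ψ + chr e)) =
        Complex.exp (-(Complex.I * (t : ℂ) * lam C (ψ + chr e))) := by
      unfold ph
      rw [← Complex.exp_conj]
      congr 1
      rw [ha]
      simp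
    rw [h1]
    unfold ph
    rw [← Complex.exp_add, ← Complex.exp_nat_mul, ha, ha]
    have h2 : (j : ℂ) * (Complex.I * (t : ℂ) * ((p : ℂ) * (a ψ : ℂ) - ((rp C).card : ℂ)) +
        -(Complex.I * (t : ℂ) * ((p : ℂ) * (a (ψ + chr e) : ℂ) - ((rp C).card : ℂ)))) =
        ((a ψ - a (ψ + chr e) : ℤ) : ℂ) * (Complex.I * (t : ℂ) * ((p : ℂ) * (j : ℂ))) := by
      push_cast
      ring
    rw [h2, Complex.exp_int_mul, hjt, one_zpow]
  have h3 := no_sum _ j hj1 hj4 hw hac
  have hcard : Fintype.card (AddChar (G p d) ℂ) = p ^ d := by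
    rw [AddChar.card_eq, Fintype.card_fun, ZMod.card, Fintype.card_fin]
  rw [hcard] at h3
  rcases h3 with h3 | h3
  · have h4 := Nat.prime_two.dvd_of_dvd_pow h3
    have h5 := (Nat.prime_dvd_prime_iff_eq Nat.prime_two hp).1 h4
    omega
  · have h4 := Nat.prime_three.dvd_of_dvd_pow h3
    have h5 := (Nat.prime_dvd_prime_iff_eq Nat.prime_three hp).1 h4
    omega

end Pool.Agent.UAA
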