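import Pool.Agent.UAA.St

/-!
# Transfer between the sample space and the unions of classes
-/

set_option autoImplicit false

namespace Pool.Agent.UAA

open Finset

namespace TRAaux

variable {q d : ℕ}

theorem cl_eq_zero (x : G q d) : cl x = cl 0 ↔ x = 0 := by
  constructor
  · intro h
    obtain ⟨u, hu⟩ := (cl_eq x 0).1 h
    funext i
    have h1 := hu i
    have h2 : ((u⁻¹ : (ZMod q)ˣ) : ZMod q) * ((u : ZMod q) * x i) = 0 := by
      rw [← h1]; simp
    rw [Units.inv_mul_cancel_left] at h2
    exact h2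
  · rintro rfl; rfl

open Classical in
/-- The point of the sample space of a union of classes. -/
noncomputable def om (C : Finset (G q d)) (b : Bool) : Om q d :=
  fun O => if O = cl 0 then b else decide (∃ c ∈ C, cl c = O)

theorem om_zero (C : Finset (G q d)) (b : Bool) : om C b (cl 0) = b := by
  unfold om; rw [if_pos rfl]

theorem om_ne (C : Finset (G q d)) (b : Bool) (O : Orb q d) (hO : O ≠ cl 0) :
    om C b O = true ↔ ∃ c ∈ C, cl c = O := by
  unfold om; rw [if_neg hO, decide_eq_true_iff]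

variable [NeZero q]

theorem mem_Cs (ω : Om q d) (c : G q d) : c ∈ Cs ω ↔ c ≠ 0 ∧ ω (cl c) = true := by
  unfold Cs; rw [mem_filter]; simp only [mem_univ, true_and]

theorem Cs_om (C : Finset (G q d)) (b : Bool) (hC : PC C) : Cs (om C b) = C := by
  ext c
  rw [mem_Cs]
  constructor
  · rintro ⟨h0, h⟩
    rw [om_ne C b (cl c) (fun h' => h0 ((cl_eq_zero c).1 h'))] at h
    obtain ⟨c', hc', he⟩ := h
    exact hC.2 c' hc' c ((cl_eq c' c).1 he)
  · intro h
    have h0 : c ≠ 0 := by rintro rfl; exact hC.1 h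
    refine ⟨h0, ?_⟩
    rw [om_ne C b (cl c) (fun h' => h0 ((cl_eq_zero c).1 h'))]
    exact ⟨c, h, rfl⟩

theorem om_Cs (ω : Om q d) : om (Cs ω) (ω (cl 0)) = ω := by
  funext O
  by_cases hO : O = cl 0
  · subst hO; exact om_zero _ _
  · obtain ⟨x, rfl⟩ := cl_surj O
    have h : om (Cs ω) (ω (cl 0)) (cl x) = true ↔ ω (cl x) = true := by
      rw [om_ne _ _ _ hO]
      constructor
      · rintro ⟨c, hc, he⟩
        rw [← he]
        exact ((mem_Cs ω c).1 hc).2
      · intro h
        refine ⟨x, (mem_Cs ω x).2 ⟨?_, h⟩, rfl⟩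
        rintro rfl; exact hO rfl
    exact Bool.eq_iff_iff.2 h

theorem PC_Cs (ω : Om q d) : PC (Cs ω) := by
  constructor
  · rw [mem_Cs]; simp
  · intro c hc c' hcc
    rw [mem_Cs] at hc ⊢
    have he : cl c = cl c' := (cl_eq c c').2 hcc
    rw [← he]
    refine ⟨?_, hc.2⟩
    rintro rfl
    exact hc.1 ((cl_eq_zero c).1 he)

end TRAaux

open TRAaux in
theorem t_TRA : TRA_Stmt := by
  classical
  intro q d _ P
  have h : (((univ : Finset (Finset (G q d))).filter fun C => PC C ∧ P C) ×ˢ
      (univ : Finset Bool)).card = ((univ : Finset (Om q d)).filter fun ω => P (Cs ω)).card := by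
    refine Finset.card_bij' (fun t _ => om t.1 t.2) (fun ω _ => (Cs ω, ω (cl 0))) ?_ ?_ ?_ ?_
    · intro t ht
      rw [mem_product, mem_filter] at ht
      rw [mem_filter]
      refine ⟨mem_univ _, ?_⟩
      rw [Cs_om _ _ ht.1.2.1]
      exact ht.1.2.2
    · intro ω hω
      rw [mem_filter] at hω
      rw [mem_product, mem_filter]
      exact ⟨⟨mem_univ _, PC_Cs ω, hω.2⟩, mem_univ _⟩
    · intro t ht
      rw [mem_product, mem_filter] at ht
      refine Prod.ext ?_ ?_
      · exact Cs_om _ _ ht.1.2.1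
      · exact om_zero _ _
    · intro ω _
      exact om_Cs ω
  rw [card_product, card_univ, Fintype.card_bool] at h
  convert (mul_comm _ _).trans h using 2

end Pool.Agent.UAA
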