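import Pool.Agent.UAA.St

/-!
# Most sets are typical (exponential moments)
-/

set_option autoImplicit false

namespace Pool.Agent.UAA

open Finset

namespace TYPaux

variable {q d : ℕ}

theorem one_add_exp_le (y : ℝ) : 1 + Real.exp y ≤ 2 * Real.exp (y / 2 + y ^ 2 / 8) := by
  have h1 : 1 + Real.exp y = 2 * (Real.exp (y / 2) * Real.cosh (y / 2)) := by
    rw [Real.cosh_eq]
    have h2 : Real.exp y = Real.exp (y / 2) * Real.exp (y / 2) := by
      rw [← Real.exp_add]; congr 1; ring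
    have h3 : Real.exp (y / 2) * Real.exp (-(y / 2)) = 1 := by
      rw [← Real.exp_add]; simp
    rw [h2]
    linear_combination -h3
  rw [h1, Real.exp_add]
  have h4 := Real.cosh_le_exp_half_sq (y / 2)
  have h5 : (y / 2) ^ 2 / 2 = y ^ 2 / 8 := by ring
  rw [h5] at h4
  have h6 := Real.exp_pos (y / 2)
  nlinarith [mul_le_mul_of_nonneg_left h4 h6.le]

theorem zpow_exp (s : ℝ) (k : ℤ) : ((Real.exp s : ℝ) : ℂ) ^ k = ((Real.exp (s * k) : ℝ) : ℂ) := by
  rw [← Complex.ofReal_zpow, Real.exp_mul, Real.rpow_intCast]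

theorem sum_card [NeZero q] :
    ∑ O : Orb q d, (((univ : Finset (G q d)).filter fun c => cl c = O).card : ℝ) = nn q d := by
  have h := Finset.card_eq_sum_card_fiberwise (s := (univ : Finset (G q d)))
    (t := (univ : Finset (Orb q d))) (f := cl) (fun _ _ => by simp)
  have h2 : (univ : Finset (G q d)).card = q ^ d := by
    rw [Finset.card_univ, Fintype.card_fun, ZMod.card, Fintype.card_fin]
  rw [h2] at h
  rw [nn, ← Nat.cast_pow, h]
  push_cast
  rfl

theorem sum_ram [NeZero q] (hR : RAM_Stmt) (x : G q d) :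
    ((∑ O : Orb q d, (ram x O : ℝ) : ℝ) : ℂ) = ∑ c : G q d, ch x c := by
  push_cast
  have h : ∀ O : Orb q d, ((ram x O : ℤ) : ℂ) =
      ∑ c ∈ (univ : Finset (G q d)).filter (fun c => cl c = O), ch x c := (hR q d).1 x
  rw [Finset.sum_congr rfl fun O _ => h O]
  exact Finset.sum_fiberwise (univ : Finset (G q d)) cl (ch x)

theorem sum_ch_zero [NeZero q] {x : G q d} (hx : x ≠ 0) : ∑ c : G q d, ch x c = 0 := by
  obtain ⟨i, hi⟩ : ∃ i, x i ≠ 0 := by
    by_contra h
    push Not at h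
    exact hx (funext h)
  have h1 : ∀ c : G q d, ch x (c + Pi.single i 1) = ch x c * ZMod.stdAddChar (x i) := by
    intro c
    have : ∑ j, x j * (c + Pi.single i 1 : G q d) j = ∑ j, x j * c j + x i := by
      simp only [Pi.add_apply, mul_add, Finset.sum_add_distrib]
      congr 1
      simp [Pi.single_apply]
    rw [ch, this, AddChar.map_add_eq_mul]
    rfl
  have h2 : ∑ c : G q d, ch x c = (∑ c : G q d, ch x c) * ZMod.stdAddChar (x i) := by
    rw [Finset.sum_mul]
    rw [← Equiv.sum_comp (Equiv.addRight (Pi.single i 1 : G q d)) (ch x)]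
    exact Finset.sum_congr rfl fun c _ => h1 c
  have h3 : (ZMod.stdAddChar (x i) : ℂ) ≠ 1 := by
    intro h
    apply hi
    apply ZMod.injective_stdAddChar
    rw [h, AddChar.map_zero_eq_one]
  have h4 : (∑ c : G q d, ch x c) * (ZMod.stdAddChar (x i) - 1) = 0 := by
    rw [mul_sub, mul_one, ← h2, sub_self]
  rcases mul_eq_zero.1 h4 with h | h
  · exact h
  · exact absurd (sub_eq_zero.1 h) h3

theorem abs_ram_le [NeZero q] (hR : RAM_Stmt) (x : G q d) (O : Orb q d) :
    |(ram x O : ℝ)| ≤ (((univ : Finset (G q d)).filter fun c => cl c = O).card : ℝ) := by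
  have h := (hR q d).2.2.1 x O
  exact_mod_cast h

theorem card_cl_le [NeZero q] (hR : RAM_Stmt) (O : Orb q d) :
    (((univ : Finset (G q d)).filter fun c => cl c = O).card : ℝ) ≤ q := by
  exact_mod_cast (hR q d).2.2.2.1 O

theorem sum_sq_le [NeZero q] (hR : RAM_Stmt) (x : G q d) :
    ∑ O : Orb q d, (ram x O : ℝ) ^ 2 ≤ q * nn q d := by
  rw [← sum_card, Finset.mul_sum]
  apply Finset.sum_le_sum
  intro O _
  have h1 := abs_ram_le hR x O
  have h2 := card_cl_le hR O
  have h3 : (ram x O : ℝ) ^ 2 = |(ram x O : ℝ)| * |(ram x O : ℝ)| := by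
    rw [← sq, sq_abs]
  rw [h3]
  exact mul_le_mul (h1.trans h2) h1 (abs_nonneg _) (by positivity)

/-- The sum over the classes different from the class of zero. -/
noncomputable def SS [NeZero q] (x : G q d) : ℝ :=
  ∑ O ∈ (univ : Finset (Orb q d)).erase (cl 0), (ram x O : ℝ)

theorem SS_ne [NeZero q] (hR : RAM_Stmt) {x : G q d} (hx : x ≠ 0) : |SS x| ≤ q := by
  have h1 : (∑ O : Orb q d, (ram x O : ℝ)) = 0 := by
    have h := sum_ram hR x
    rw [sum_ch_zero hx] at h
    exact_mod_cast h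
  have h2 : SS x = - (ram x (cl 0) : ℝ) := by
    have h := Finset.add_sum_erase (univ : Finset (Orb q d)) (fun O => (ram x O : ℝ))
      (Finset.mem_univ (cl 0))
    rw [h1] at h
    rw [SS]
    linarith
  rw [h2, abs_neg]
  exact (abs_ram_le hR x _).trans (card_cl_le hR _)

theorem SS_zero [NeZero q] (hR : RAM_Stmt) : nn q d - q ≤ SS (0 : G q d) := by
  have h1 : (∑ O : Orb q d, (ram (0 : G q d) O : ℝ)) = nn q d := by
    have h := sum_ram hR (0 : G q d)
    have h2 : ∑ c : G q d, ch (0 : G q d) c = ((nn q d : ℝ) : ℂ) := by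
      have h3 : ∀ c : G q d, ch (0 : G q d) c = 1 := by
        intro c
        simp [ch]
      rw [Finset.sum_congr rfl fun c _ => h3 c]
      simp [nn, ZMod.card]
    rw [h2] at h
    exact_mod_cast h
  have h := Finset.add_sum_erase (univ : Finset (Orb q d)) (fun O => (ram (0 : G q d) O : ℝ))
    (Finset.mem_univ (cl 0))
  rw [h1] at h
  have h4 := (le_abs_self (ram (0 : G q d) (cl 0) : ℝ)).trans
    ((abs_ram_le hR (0 : G q d) (cl 0)).trans (card_cl_le hR _))
  rw [SS]
  linarith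

theorem mgf [NeZero q] (hR : RAM_Stmt) (hE : EXP_Stmt) (x : G q d) (s : ℝ) :
    ∑ ω : Om q d, Real.exp (s * (la ω x : ℝ)) ≤
      (Fintype.card (Om q d) : ℝ) * Real.exp (s / 2 * SS x + s ^ 2 / 8 * (q * nn q d)) := by
  have h1 := (hE q d ((Real.exp s : ℝ) : ℂ)
    (by exact_mod_cast (Real.exp_pos s).ne')).1 (ram x)
  have h2 : ∑ ω : Om q d, Real.exp (s * (la ω x : ℝ)) =
      ∏ O : Orb q d, if O = cl 0 then 2 else (1 + Real.exp (s * (ram x O : ℝ))) := by
    have h3 : ((∑ ω : Om q d, Real.exp (s * (la ω x : ℝ)) : ℝ) : ℂ) =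
        ((∏ O : Orb q d, if O = cl 0 then 2 else (1 + Real.exp (s * (ram x O : ℝ))) : ℝ) : ℂ) := by
      have h4 : ((∑ ω : Om q d, Real.exp (s * (la ω x : ℝ)) : ℝ) : ℂ) =
          ∑ ω : Om q d, ((Real.exp s : ℝ) : ℂ) ^
            (∑ O : Orb q d, if O ≠ cl 0 ∧ ω O = true then ram x O else 0) := by
        rw [Complex.ofReal_sum]
        refine Finset.sum_congr rfl fun ω _ => ?_
        rw [zpow_exp]
        rfl
      rw [h4, h1, Complex.ofReal_prod]
      refine Finset.prod_congr rfl fun O _ => ?_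
      by_cases hO : O = cl 0
      · rw [if_pos hO, if_pos hO]; norm_num
      · rw [if_neg hO, if_neg hO, zpow_exp]; push_cast; rfl
    exact_mod_cast h3
  rw [h2]
  have h5 : ∀ O : Orb q d, (if O = cl 0 then (2 : ℝ) else (1 + Real.exp (s * (ram x O : ℝ)))) ≤
      2 * Real.exp (if O = cl 0 then 0 else s / 2 * (ram x O : ℝ) + s ^ 2 / 8 * (ram x O : ℝ) ^ 2) := by
    intro O
    by_cases hO : O = cl 0
    · rw [if_pos hO, if_pos hO]; simp
    · rw [if_neg hO, if_neg hO]
      refine (one_add_exp_le _).trans_eq ?_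
      congr 2; ring
  refine (Finset.prod_le_prod (fun O _ => ?_) fun O _ => h5 O).trans ?_
  · by_cases hO : O = cl 0
    · rw [if_pos hO]; norm_num
    · rw [if_neg hO]; positivity
  rw [Finset.prod_mul_distrib, ← Real.exp_sum]
  have h6 : ∏ _O : Orb q d, (2 : ℝ) = (Fintype.card (Om q d) : ℝ) := by
    rw [Finset.prod_const, Finset.card_univ]
    simp [Om]
  rw [h6]
  apply mul_le_mul_of_nonneg_left _ (by positivity)
  apply Real.exp_le_exp.2
  have h7 : ∑ O : Orb q d, (if O = cl 0 then (0 : ℝ) else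
      s / 2 * (ram x O : ℝ) + s ^ 2 / 8 * (ram x O : ℝ) ^ 2) =
      ∑ O ∈ (univ : Finset (Orb q d)).erase (cl 0),
        (s / 2 * (ram x O : ℝ) + s ^ 2 / 8 * (ram x O : ℝ) ^ 2) := by
    rw [← Finset.add_sum_erase (univ : Finset (Orb q d)) _ (Finset.mem_univ (cl 0)), if_pos rfl,
      zero_add]
    refine Finset.sum_congr rfl fun O hO => ?_
    rw [if_neg (Finset.ne_of_mem_erase hO)]
  rw [h7, Finset.sum_add_distrib, ← Finset.mul_sum, ← Finset.mul_sum, SS]
  have h8 : ∑ O ∈ (univ : Finset (Orb q d)).erase (cl 0), (ram x O : ℝ) ^ 2 ≤ q * nn q d :=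
    (Finset.sum_le_sum_of_subset_of_nonneg (Finset.erase_subset _ _)
      (fun _ _ _ => sq_nonneg _)).trans (sum_sq_le hR x)
  have h9 : 0 ≤ s ^ 2 / 8 := by positivity
  nlinarith [mul_le_mul_of_nonneg_left h8 h9]

open Classical in
theorem markov [NeZero q] (hR : RAM_Stmt) (hE : EXP_Stmt) (x : G q d) (s a b : ℝ)
    (P : Om q d → Prop) (hP : ∀ ω, P ω → a ≤ s * (la ω x : ℝ))
    (hb : s / 2 * SS x + s ^ 2 / 8 * (q * nn q d) - a ≤ b) :
    (((univ : Finset (Om q d)).filter P).card : ℝ) ≤ (Fintype.card (Om q d) : ℝ) * Real.exp b := by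
  have h1 : (((univ : Finset (Om q d)).filter P).card : ℝ) * Real.exp a ≤
      ∑ ω : Om q d, Real.exp (s * (la ω x : ℝ)) := by
    calc (((univ : Finset (Om q d)).filter P).card : ℝ) * Real.exp a
        = ∑ _ω ∈ (univ : Finset (Om q d)).filter P, Real.exp a := by
          rw [Finset.sum_const, nsmul_eq_mul]
      _ ≤ ∑ ω ∈ (univ : Finset (Om q d)).filter P, Real.exp (s * (la ω x : ℝ)) := by
          apply Finset.sum_le_sum
          intro ω hω
          exact Real.exp_le_exp.2 (hP ω (Finset.mem_filter.1 hω).2)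
      _ ≤ _ := Finset.sum_le_sum_of_subset_of_nonneg (Finset.filter_subset _ _)
          (fun _ _ _ => (Real.exp_pos _).le)
  have h2 := h1.trans (mgf hR hE x s)
  have h3 : (((univ : Finset (Om q d)).filter P).card : ℝ) =
      (((univ : Finset (Om q d)).filter P).card : ℝ) * Real.exp a * Real.exp (-a) := by
    rw [mul_assoc, ← Real.exp_add, add_neg_cancel, Real.exp_zero, mul_one]
  rw [h3]
  refine (mul_le_mul_of_nonneg_right h2 (Real.exp_pos _).le).trans ?_
  rw [mul_assoc, ← Real.exp_add]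
  apply mul_le_mul_of_nonneg_left _ (by positivity)
  apply Real.exp_le_exp.2
  linarith

open Classical in
/-- The main estimate, `r ^ 4 = n`. -/
theorem main [NeZero q] (hR : RAM_Stmt) (hL : LAM_Stmt) (hE : EXP_Stmt) (r : ℝ) (hr : 6 ≤ r)
    (hr4 : r ^ 4 = nn q d) (hr3 : r ^ 3 = nn q d ^ (3 / 4 : ℝ)) :
    (((univ : Finset (Om q d)).filter fun ω => ¬ Typ (la ω)).card : ℝ) ≤
      2 * nn q d * ((Fintype.card (Om q d) : ℝ) * Real.exp (2 - 2 * (r ^ 2 / q))) := by
  have hq : (1 : ℝ) ≤ q := by exact_mod_cast NeZero.one_le (n := q)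
  have hq0 : (0 : ℝ) < q := by linarith
  have hr0 : (0 : ℝ) < r := by linarith
  set N : ℝ := (Fintype.card (Om q d) : ℝ) with hN
  set B : ℝ := N * Real.exp (2 - 2 * (r ^ 2 / q)) with hB
  have hB0 : 0 ≤ B := by positivity
  set σ : ℝ := 4 / (q * r) with hσ
  have hσ0 : 0 < σ := by positivity
  have e1 : σ * r ^ 3 = 4 * (r ^ 2 / q) := by rw [hσ]; field_simp
  have e2 : σ ^ 2 / 8 * (q * nn q d) = 2 * (r ^ 2 / q) := by
    rw [hσ, ← hr4]; field_simp; norm_num
  have e3 : σ / 2 * q ≤ 2 := by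
    have : σ / 2 * q = 2 / r := by rw [hσ]; field_simp; norm_num
    rw [this, div_le_iff₀ hr0]; linarith
  -- nonzero points
  have hne : ∀ x : G q d, x ≠ 0 →
      (((univ : Finset (Om q d)).filter fun ω => r ^ 3 < |(la ω x : ℝ)|).card : ℝ) ≤ 2 * B := by
    intro x hx
    have hS := SS_ne hR hx
    rw [abs_le] at hS
    have h1 := markov hR hE x σ (σ * r ^ 3) (2 - 2 * (r ^ 2 / q))
      (fun ω => r ^ 3 < (la ω x : ℝ)) (fun ω hω => mul_le_mul_of_nonneg_left hω.le hσ0.le)
      (by rw [e1, e2]; nlinarith [mul_le_mul_of_nonneg_left hS.2 (by positivity : 0 ≤ σ / 2)])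
    have h2 := markov hR hE x (-σ) (σ * r ^ 3) (2 - 2 * (r ^ 2 / q))
      (fun ω => (la ω x : ℝ) < - r ^ 3) (fun ω hω => by nlinarith)
      (by rw [e1, neg_sq, e2]; nlinarith [mul_le_mul_of_nonneg_left hS.1 (by positivity : 0 ≤ σ / 2)])
    have h3 : ((univ : Finset (Om q d)).filter fun ω => r ^ 3 < |(la ω x : ℝ)|) ⊆
        ((univ : Finset (Om q d)).filter fun ω => r ^ 3 < (la ω x : ℝ)) ∪
        ((univ : Finset (Om q d)).filter fun ω => (la ω x : ℝ) < - r ^ 3) := by
      intro ω hω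
      rw [Finset.mem_union, Finset.mem_filter, Finset.mem_filter]
      have hω' := (Finset.mem_filter.1 hω).2
      rcases lt_abs.1 hω' with h | h
      · exact Or.inl ⟨Finset.mem_univ _, h⟩
      · exact Or.inr ⟨Finset.mem_univ _, by linarith⟩
    have h4 : (((univ : Finset (Om q d)).filter fun ω => r ^ 3 < |(la ω x : ℝ)|).card : ℝ) ≤
        (((univ : Finset (Om q d)).filter fun ω => r ^ 3 < (la ω x : ℝ)).card : ℝ) +
        (((univ : Finset (Om q d)).filter fun ω => (la ω x : ℝ) < - r ^ 3).card : ℝ) := by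
      exact_mod_cast (Finset.card_le_card h3).trans (Finset.card_union_le _ _)
    linarith
  -- the point zero
  have hz : (((univ : Finset (Om q d)).filter fun ω => (la ω 0 : ℝ) < nn q d / 3).card : ℝ) ≤ B := by
    have hS := SS_zero (q := q) (d := d) hR
    have h5 : σ * nn q d = 4 * r ^ 3 / q := by rw [hσ, ← hr4]; field_simp
    have h6 : 4 * r ^ 3 / q ≥ 24 * (r ^ 2 / q) := by
      rw [ge_iff_le, ← mul_div_assoc, div_le_div_iff_of_pos_right hq0]
      nlinarith [sq_nonneg r, mul_nonneg (sq_nonneg r) (sub_nonneg.2 hr)]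
    exact markov hR hE 0 (-σ) (-σ * (nn q d / 3)) (2 - 2 * (r ^ 2 / q))
      (fun ω => (la ω 0 : ℝ) < nn q d / 3) (fun ω hω => by nlinarith)
      (by rw [neg_sq, e2]; nlinarith [mul_le_mul_of_nonneg_left hS (by positivity : 0 ≤ σ / 2)])
  -- union bound
  have hsub : ((univ : Finset (Om q d)).filter fun ω => ¬ Typ (la ω)) ⊆
      ((univ : Finset (G q d)).erase 0).biUnion
        (fun x => (univ : Finset (Om q d)).filter fun ω => r ^ 3 < |(la ω x : ℝ)|) ∪
      ((univ : Finset (Om q d)).filter fun ω => (la ω 0 : ℝ) < nn q d / 3) := by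
    intro ω hω
    have hω' := (Finset.mem_filter.1 hω).2
    rw [Finset.mem_union]
    by_contra hc
    push Not at hc
    apply hω'
    refine ⟨?_, ?_, (hL q d).2.2.2.2.1 ω, fun x => (hL q d).2.2.1 ω x⟩
    · intro x hx
      by_contra h
      push Not at h
      apply hc.1
      rw [Finset.mem_biUnion]
      exact ⟨x, Finset.mem_erase.2 ⟨hx, Finset.mem_univ _⟩,
        Finset.mem_filter.2 ⟨Finset.mem_univ _, by rw [hr3]; exact h⟩⟩
    · by_contra h
      push Not at h
      exact hc.2 (Finset.mem_filter.2 ⟨Finset.mem_univ _, h⟩)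
  have hcard : (((univ : Finset (G q d)).erase 0).card : ℝ) ≤ nn q d - 1 := by
    rw [Finset.card_erase_of_mem (Finset.mem_univ _), Finset.card_univ, Fintype.card_fun,
      ZMod.card, Fintype.card_fin, Nat.cast_sub (Nat.one_le_pow _ _ (NeZero.one_le (n := q)))]
    push_cast
    rfl
  have h7 : (((univ : Finset (Om q d)).filter fun ω => ¬ Typ (la ω)).card : ℝ) ≤
      ∑ x ∈ (univ : Finset (G q d)).erase 0,
        (((univ : Finset (Om q d)).filter fun ω => r ^ 3 < |(la ω x : ℝ)|).card : ℝ) +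
      (((univ : Finset (Om q d)).filter fun ω => (la ω 0 : ℝ) < nn q d / 3).card : ℝ) := by
    exact_mod_cast (Finset.card_le_card hsub).trans ((Finset.card_union_le _ _).trans
      (Nat.add_le_add_right Finset.card_biUnion_le _))
  have h8 : ∑ x ∈ (univ : Finset (G q d)).erase 0,
        (((univ : Finset (Om q d)).filter fun ω => r ^ 3 < |(la ω x : ℝ)|).card : ℝ) ≤
      (nn q d - 1) * (2 * B) := by
    refine (Finset.sum_le_card_nsmul _ _ (2 * B)
      (fun x hx => hne x (Finset.ne_of_mem_erase hx))).trans ?_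
    rw [nsmul_eq_mul]
    exact mul_le_mul_of_nonneg_right hcard (by positivity)
  linarith

end TYPaux

open Classical in
theorem t_TYP : TYP_Stmt := by
  intro hR hL hE q _ hq
  refine ⟨3 * Real.exp 2 * (q : ℝ) ^ 4, 11, fun d hd => ?_⟩
  have hn : (1296 : ℝ) ≤ nn q d := by
    have h1 : 2 ^ 11 ≤ q ^ d := (Nat.pow_le_pow_left hq 11).trans
      (Nat.pow_le_pow_right (by omega) hd)
    have h2 : ((2 ^ 11 : ℕ) : ℝ) ≤ ((q ^ d : ℕ) : ℝ) := by exact_mod_cast h1
    rw [nn]
    push_cast at h2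
    linarith
  have hn0 : (0 : ℝ) ≤ nn q d := by linarith
  set r : ℝ := nn q d ^ (1 / 4 : ℝ) with hr
  have hr0 : 0 ≤ r := Real.rpow_nonneg hn0 _
  have hr4 : r ^ 4 = nn q d := by
    rw [hr, ← Real.rpow_natCast, ← Real.rpow_mul hn0]; norm_num
  have hr3 : r ^ 3 = nn q d ^ (3 / 4 : ℝ) := by
    rw [hr, ← Real.rpow_natCast, ← Real.rpow_mul hn0]; norm_num
  have hr6 : 6 ≤ r := by
    by_contra h
    push Not at h
    have h1 : r ^ 4 < 6 ^ 4 := pow_lt_pow_left₀ h hr0 (by norm_num)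
    rw [hr4] at h1
    norm_num at h1
    linarith
  have h := TYPaux.main hR hL hE r hr6 hr4 hr3
  have hq0 : (0 : ℝ) < q := by
    have : (0 : ℕ) < q := by omega
    exact_mod_cast this
  set N : ℝ := (Fintype.card (Om q d) : ℝ) with hN
  have hN0 : 0 ≤ N := by positivity
  have h1 : (2 * (r ^ 2 / q)) ^ 4 / 24 ≤ Real.exp (2 * (r ^ 2 / q)) := by
    have := Real.pow_div_factorial_le_exp (2 * (r ^ 2 / q)) (by positivity) 4
    norm_num [Nat.factorial] at this ⊢
    exact this
  have h2 : nn q d * nn q d * Real.exp (- (2 * (r ^ 2 / q))) ≤ 3 / 2 * (q : ℝ) ^ 4 := by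
    rw [Real.exp_neg, ← div_eq_mul_inv, div_le_iff₀ (Real.exp_pos _)]
    have h3 : nn q d * nn q d = 3 / 2 * (q : ℝ) ^ 4 * ((2 * (r ^ 2 / q)) ^ 4 / 24) := by
      rw [← hr4]; field_simp; norm_num
    rw [h3]
    exact mul_le_mul_of_nonneg_left h1 (by positivity)
  have h4 : Real.exp (2 - 2 * (r ^ 2 / q)) = Real.exp 2 * Real.exp (- (2 * (r ^ 2 / q))) := by
    rw [← Real.exp_add]; congr 1
  rw [h4] at h
  calc (((univ : Finset (Om q d)).filter fun ω => ¬ Typ (la ω)).card : ℝ) * nn q d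
      ≤ 2 * nn q d * (N * (Real.exp 2 * Real.exp (- (2 * (r ^ 2 / q))))) * nn q d := by
        exact mul_le_mul_of_nonneg_right (by convert h) hn0
    _ = 2 * (N * Real.exp 2) * (nn q d * nn q d * Real.exp (- (2 * (r ^ 2 / q)))) := by ring
    _ ≤ 2 * (N * Real.exp 2) * (3 / 2 * (q : ℝ) ^ 4) :=
        mul_le_mul_of_nonneg_left h2 (by positivity)
    _ = 3 * Real.exp 2 * (q : ℝ) ^ 4 * N := by ring

end Pool.Agent.UAA
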