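import Pool.Agent.UAA.St

/-!
# Module UNB: unbalanced tuples have many nonzero coefficients
-/

set_option autoImplicit false

namespace Pool.Agent.UAA

open Finset

namespace UNBaux

variable {q d : ℕ} [NeZero q]

/-- Multiplication by a unit. -/
def us (u : (ZMod q)ˣ) (c : G q d) : G q d := fun i => (u : ZMod q) * c i

omit [NeZero q] in
lemma us_mul (u v : (ZMod q)ˣ) (c : G q d) : us (u * v) c = us u (us v c) := by
  funext i
  simp only [us, Units.val_mul, mul_assoc]

omit [NeZero q] in
lemma us_inv (u : (ZMod q)ˣ) (c : G q d) : us u⁻¹ (us u c) = c := by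
  funext i
  simp only [us, Units.inv_mul_cancel_left]

omit [NeZero q] in
lemma us_inv' (u : (ZMod q)ˣ) (c : G q d) : us u (us u⁻¹ c) = c := by
  funext i
  simp only [us, Units.mul_inv_cancel_left]

omit [NeZero q] in
lemma us_add (u : (ZMod q)ˣ) (c c' : G q d) : us u (c + c') = us u c + us u c' := by
  funext i
  simp only [us, Pi.add_apply, mul_add]

lemma ch_us (u : (ZMod q)ˣ) (x c : G q d) : ch x (us u c) = ch (us u x) c := by
  unfold ch us
  congr 1
  apply Finset.sum_congr rfl
  intro i _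
  ring

lemma ch_add (x c c' : G q d) : ch x (c + c') = ch x c * ch x c' := by
  unfold ch
  rw [← AddChar.map_add_eq_mul, ← Finset.sum_add_distrib]
  congr 1
  apply Finset.sum_congr rfl
  intro i _
  rw [Pi.add_apply, mul_add]

lemma ch_mul (x y c : G q d) : ch x c * ch y c = ch (x + y) c := by
  unfold ch
  rw [← AddChar.map_add_eq_mul, ← Finset.sum_add_distrib]
  congr 1
  apply Finset.sum_congr rfl
  intro i _
  rw [Pi.add_apply, add_mul]

lemma sum_ch (x : G q d) : ∑ c : G q d, ch x c = if x = 0 then (q : ℂ) ^ d else 0 := by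
  have := Pool.Agent.UMix.sum_dot (q := q) x
  rw [Fintype.card_fin] at this
  exact this

omit [NeZero q] in
lemma cl_us (u : (ZMod q)ˣ) (c : G q d) : cl (us u c) = cl c :=
  ((cl_eq c (us u c)).2 ⟨u, fun _ => rfl⟩).symm

omit [NeZero q] in
lemma exists_us {x y : G q d} (h : cl x = cl y) : ∃ u : (ZMod q)ˣ, us u x = y := by
  obtain ⟨u, hu⟩ := (cl_eq x y).1 h
  exact ⟨u, (funext hu).symm⟩

/-- The stabilizer. -/
noncomputable def st (c : G q d) : ℕ := ((univ : Finset (ZMod q)ˣ).filter fun u => us u c = c).card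

lemma st_ne (c : G q d) : st c ≠ 0 := by
  apply Finset.card_ne_zero_of_mem (a := 1)
  rw [Finset.mem_filter]
  exact ⟨Finset.mem_univ _, funext fun i => by simp [us]⟩

lemma fiber1 {c c' : G q d} (h : cl c' = cl c) :
    ((univ : Finset (ZMod q)ˣ).filter fun u => us u c = c').card = st c := by
  obtain ⟨u₀, rfl⟩ := exists_us h.symm
  symm
  apply Finset.card_nbij' (fun u => u₀ * u) (fun u => u₀⁻¹ * u)
  · intro u hu
    simp only [Finset.coe_filter, Finset.mem_univ, true_and, Set.mem_ofPred_eq] at hu ⊢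
    rw [us_mul, hu]
  · intro u hu
    simp only [Finset.coe_filter, Finset.mem_univ, true_and, Set.mem_ofPred_eq] at hu ⊢
    rw [us_mul, hu, us_inv]
  · intro u _; simp
  · intro u _; simp

lemma fiber2 {x y : G q d} (h : cl x = cl y) :
    ((univ : Finset (ZMod q)ˣ).filter fun u => us u x = y).card = st y := by
  obtain ⟨v, rfl⟩ := exists_us h.symm
  apply Finset.card_nbij' (fun u => u * v) (fun u => u * v⁻¹)
  · intro u hu
    simp only [Finset.coe_filter, Finset.mem_univ, true_and, Set.mem_ofPred_eq] at hu ⊢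
    rw [us_mul, hu]
  · intro u hu
    simp only [Finset.coe_filter, Finset.mem_univ, true_and, Set.mem_ofPred_eq] at hu ⊢
    rw [us_mul, us_inv, hu]
  · intro u _; simp
  · intro u _; simp

lemma fiber3 {x y : G q d} (h : cl x ≠ cl y) :
    ((univ : Finset (ZMod q)ˣ).filter fun u => us u x = y).card = 0 := by
  rw [Finset.card_eq_zero, Finset.filter_eq_empty_iff]
  rintro u _ rfl
  exact h (cl_us u x).symm

lemma unit_sum (f : G q d → ℂ) (c : G q d) :
    ∑ u : (ZMod q)ˣ, f (us u c) =
      (st c : ℂ) * ∑ c' ∈ (univ : Finset (G q d)).filter (fun c' => cl c' = cl c), f c' := by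
  classical
  rw [← Finset.sum_fiberwise_of_maps_to (s := (univ : Finset (ZMod q)ˣ))
    (t := (univ : Finset (G q d)).filter (fun c' => cl c' = cl c)) (g := fun u => us u c)
    (fun u _ => by rw [Finset.mem_filter]; exact ⟨Finset.mem_univ _, cl_us u c⟩),
    Finset.mul_sum]
  apply Finset.sum_congr rfl
  intro c' hc'
  rw [Finset.mem_filter] at hc'
  rw [Finset.sum_congr rfl (g := fun _ => f c') (fun u hu => by
    rw [Finset.mem_filter] at hu
    rw [hu.2]), Finset.sum_const, nsmul_eq_mul]
  congr 2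
  rw [← fiber1 hc'.2]

/-- The difference of the character sums. -/
noncomputable def df {k : ℕ} (p m : Fin k → G q d) (c : G q d) : ℂ :=
  ∑ i, ch (p i) c - ∑ i, ch (m i) c

lemma ex_eq (hR : RAM_Stmt) {k : ℕ} (p m : Fin k → G q d) (O : Orb q d) :
    ((ex p m O : ℤ) : ℂ) =
      ∑ c ∈ (univ : Finset (G q d)).filter (fun c => cl c = O), df p m c := by
  unfold ex df
  rw [Int.cast_sub, Int.cast_sum, Int.cast_sum, Finset.sum_sub_distrib, Finset.sum_comm,
    Finset.sum_comm (s := (univ : Finset (G q d)).filter (fun c => cl c = O))]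
  congr 1
  · exact Finset.sum_congr rfl fun i _ => (hR q d).1 (p i) O
  · exact Finset.sum_congr rfl fun i _ => (hR q d).1 (m i) O

lemma F_eq (hR : RAM_Stmt) {k : ℕ} (p m : Fin k → G q d) (c : G q d) :
    ∑ u : (ZMod q)ˣ, df p m (us u c) = (st c : ℂ) * ((ex p m (cl c) : ℤ) : ℂ) := by
  rw [unit_sum, ex_eq hR]

lemma sum_one (x y : G q d) :
    ∑ u : (ZMod q)ˣ, ∑ c : G q d, ch x (us u c) * ch (-y) c =
      (q : ℂ) ^ d * ((st y : ℂ) * if cl x = cl y then 1 else 0) := by
  classical
  have h1 : ∀ u : (ZMod q)ˣ, ∑ c : G q d, ch x (us u c) * ch (-y) c =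
      if us u x = y then (q : ℂ) ^ d else 0 := by
    intro u
    rw [Finset.sum_congr rfl fun c _ => by rw [ch_us, ch_mul], sum_ch]
    by_cases h : us u x = y
    · rw [if_pos h, if_pos (by rw [h, add_neg_cancel])]
    · rw [if_neg h, if_neg (fun h' => h (by rwa [add_neg_eq_zero] at h'))]
  rw [Finset.sum_congr rfl fun u _ => h1 u, ← Finset.sum_filter, Finset.sum_const, nsmul_eq_mul]
  by_cases h : cl x = cl y
  · rw [if_pos h, ← fiber2 h, mul_one, mul_comm]
  · have := fiber3 h
    rw [if_neg h, mul_zero, mul_zero]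
    have e : ((univ : Finset (ZMod q)ˣ).filter fun u => us u x = y).card = 0 := by
      convert this
    rw [e]; simp

lemma exists_ne (hR : RAM_Stmt) {k : ℕ} (p m : Fin k → G q d) (hB : ¬ Bal p m) :
    ∃ c : G q d, ex p m (cl c) ≠ 0 := by
  classical
  by_contra hcon
  push Not at hcon
  apply hB
  intro O
  obtain ⟨y, rfl⟩ := cl_surj O
  have h0 : ∑ c : G q d, (∑ u : (ZMod q)ˣ, df p m (us u c)) * ch (-y) c = 0 := by
    apply Finset.sum_eq_zero
    intro c _
    rw [F_eq hR, hcon c]
    simp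
  have h1 : ∀ x : Fin k → G q d, ∑ c : G q d, (∑ u : (ZMod q)ˣ, ∑ i, ch (x i) (us u c)) * ch (-y) c =
      (q : ℂ) ^ d * ((st y : ℂ) *
        (((univ : Finset (Fin k)).filter fun i => cl (x i) = cl y).card : ℂ)) := by
    intro x
    have e1 : ∑ c : G q d, (∑ u : (ZMod q)ˣ, ∑ i, ch (x i) (us u c)) * ch (-y) c =
        ∑ i, ∑ u : (ZMod q)ˣ, ∑ c : G q d, ch (x i) (us u c) * ch (-y) c := by
      simp only [Finset.sum_mul]
      rw [Finset.sum_comm]
      rw [Finset.sum_congr rfl fun u _ => Finset.sum_comm]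
      rw [Finset.sum_comm]
    rw [e1, Finset.sum_congr rfl fun i _ => sum_one (x i) y, ← Finset.mul_sum, ← Finset.mul_sum,
      Finset.sum_boole]
  have h2 : ∑ c : G q d, (∑ u : (ZMod q)ˣ, df p m (us u c)) * ch (-y) c =
      ∑ c : G q d, (∑ u : (ZMod q)ˣ, ∑ i, ch (p i) (us u c)) * ch (-y) c -
        ∑ c : G q d, (∑ u : (ZMod q)ˣ, ∑ i, ch (m i) (us u c)) * ch (-y) c := by
    rw [← Finset.sum_sub_distrib]
    apply Finset.sum_congr rfl
    intro c _
    rw [← sub_mul]
    congr 1
    unfold df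
    rw [Finset.sum_sub_distrib]
  rw [h2, h1 p, h1 m, sub_eq_zero] at h0
  have hq : (q : ℂ) ^ d ≠ 0 := pow_ne_zero _ (by exact_mod_cast NeZero.ne q)
  have h3 := mul_left_cancel₀ (by exact_mod_cast st_ne y) (mul_left_cancel₀ hq h0)
  have h4 : ((univ : Finset (Fin k)).filter fun i => cl (p i) = cl y).card =
      ((univ : Finset (Fin k)).filter fun i => cl (m i) = cl y).card := by exact_mod_cast h3
  convert h4

/-- The pairing with the tuples. -/
def pairing {k : ℕ} (p m : Fin k → G q d) : G q d →+ (Fin k → ZMod q) × (Fin k → ZMod q) where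
  toFun v := (fun i => ∑ j, p i j * v j, fun i => ∑ j, m i j * v j)
  map_zero' := by
    ext i <;> simp
  map_add' v w := by
    ext i <;> simp [mul_add, Finset.sum_add_distrib]

lemma card_ker {k : ℕ} (p m : Fin k → G q d) :
    q ^ d ≤ q ^ (2 * k) * Nat.card (pairing p m).ker := by
  have h1 : Nat.card (pairing p m).ker * (pairing p m).ker.index = Nat.card (G q d) :=
    AddSubgroup.card_mul_index _
  rw [AddSubgroup.index_ker] at h1
  have h2 : Nat.card (G q d) = q ^ d := by
    rw [Nat.card_fun, Nat.card_zmod, Nat.card_eq_fintype_card, Fintype.card_fin]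
  have h3 : Nat.card (pairing p m).range ≤ q ^ (2 * k) := by
    have h4 : Nat.card ((Fin k → ZMod q) × (Fin k → ZMod q)) = q ^ (2 * k) := by
      rw [Nat.card_prod, Nat.card_fun, Nat.card_zmod, Nat.card_eq_fintype_card, Fintype.card_fin,
        ← pow_add, two_mul]
    rw [← h4]
    exact Nat.card_le_card_of_injective _ Subtype.val_injective
  rw [← h2, ← h1, mul_comm]
  exact Nat.mul_le_mul_right _ h3

lemma ch_ker (x : G q d) (u : (ZMod q)ˣ) (v : G q d) (h : ∑ j, x j * v j = 0) :
    ch x (us u v) = 1 := by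
  unfold ch us
  have : ∑ i, x i * ((u : ZMod q) * v i) = (u : ZMod q) * ∑ j, x j * v j := by
    rw [Finset.mul_sum]
    exact Finset.sum_congr rfl fun i _ => by ring
  rw [this, h, mul_zero, AddChar.map_zero_eq_one]

lemma ex_shift (hR : RAM_Stmt) {k : ℕ} (p m : Fin k → G q d) (c v : G q d)
    (hc : ex p m (cl c) ≠ 0) (hv : v ∈ (pairing p m).ker) : ex p m (cl (c + v)) ≠ 0 := by
  have hp : ∀ i, ∑ j, p i j * v j = 0 := fun i => congrFun (congrArg Prod.fst hv) i
  have hm : ∀ i, ∑ j, m i j * v j = 0 := fun i => congrFun (congrArg Prod.snd hv) i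
  have h1 : ∑ u : (ZMod q)ˣ, df p m (us u (c + v)) = ∑ u : (ZMod q)ˣ, df p m (us u c) := by
    apply Finset.sum_congr rfl
    intro u _
    unfold df
    rw [us_add]
    congr 1
    · exact Finset.sum_congr rfl fun i _ => by
        rw [ch_add, ch_ker (p i) u v (hp i), mul_one]
    · exact Finset.sum_congr rfl fun i _ => by
        rw [ch_add, ch_ker (m i) u v (hm i), mul_one]
  rw [F_eq hR, F_eq hR] at h1
  intro h0
  rw [h0, Int.cast_zero, mul_zero] at h1
  have := (mul_eq_zero.1 h1.symm).resolve_left (by exact_mod_cast st_ne c)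
  exact hc (by exact_mod_cast this)

end UNBaux

open UNBaux in
theorem t_UNB : UNB_Stmt := by
  classical
  intro hR q d _ hq k p m hB hk
  obtain ⟨c, hc⟩ := exists_ne hR p m hB
  set T : Finset (G q d) := univ.filter fun x => ex p m (cl x) ≠ 0 with hT
  have h1 : Nat.card (pairing p m).ker ≤ T.card := by
    rw [Nat.card_eq_fintype_card, ← Finset.card_univ]
    apply Finset.card_le_card_of_injOn (fun v : (pairing p m).ker => c + (v : G q d))
    · intro v _
      rw [hT, Finset.coe_filter]
      exact ⟨Finset.mem_univ _, ex_shift hR p m c v hc v.2⟩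
    · intro v _ w _ h
      exact Subtype.ext (add_left_cancel h)
  have h2 : T.card ≤ 1 + q *
      ((univ : Finset (Orb q d)).filter fun O => O ≠ cl 0 ∧ ex p m O ≠ 0).card := by
    have h3 : (T.erase 0).card ≤ q *
        ((univ : Finset (Orb q d)).filter fun O => O ≠ cl 0 ∧ ex p m O ≠ 0).card := by
      apply Finset.card_le_mul_card_image_of_maps_to (f := cl)
      · intro a ha
        rw [Finset.mem_erase, hT, Finset.mem_filter] at ha
        rw [Finset.mem_filter]
        refine ⟨Finset.mem_univ _, ?_, ha.2.2⟩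
        intro h
        obtain ⟨u, hu⟩ := exists_us h.symm
        apply ha.1
        rw [← hu]
        funext i
        simp [us]
      · intro O _
        refine le_trans (Finset.card_le_card ?_) ((hR q d).2.2.2.1 O)
        intro a ha
        rw [Finset.mem_filter] at ha ⊢
        exact ⟨Finset.mem_univ _, ha.2⟩
    have h4 : T.card - 1 ≤ (T.erase 0).card := Finset.pred_card_le_card_erase
    omega
  have h5 := card_ker p m
  set N := ((univ : Finset (Orb q d)).filter fun O => O ≠ cl 0 ∧ ex p m O ≠ 0).card with hN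
  have h6 : q ^ d ≤ q ^ (2 * k) * (1 + q * N) :=
    h5.trans (Nat.mul_le_mul_left _ (h1.trans h2))
  have h7 : q ^ (2 * k + 2) * N = q * (q ^ (2 * k) * (q * N)) := by ring
  have h8 : 2 * (q ^ (2 * k) * (q * N)) ≤ q * (q ^ (2 * k) * (q * N)) := Nat.mul_le_mul_right _ hq
  rw [h7]
  have h9 : q ^ (2 * k) * (1 + q * N) = q ^ (2 * k) + q ^ (2 * k) * (q * N) := by ring
  rw [h9] at h6
  set A := q ^ (2 * k) * (q * N)
  set B := q ^ (2 * k)
  omega

end Pool.Agent.UAA
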