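import Pool.Agent.UAA.St
import Pool.Agent.UAA.FOU

/-!
# Points of flatness are close to the unit circle
-/

set_option autoImplicit false

namespace Pool.Agent.UAA

open Finset

namespace ANN2aux

variable {q d : ℕ} [NeZero q]

theorem card_G : Fintype.card (G q d) = q ^ d := by
  rw [Fintype.card_fun, ZMod.card, Fintype.card_fin]

theorem ch_add_r (b x y : G q d) : ch b (x + y) = ch b x * ch b y := by
  unfold ch
  rw [← AddChar.map_add_eq_mul]
  congr 1
  rw [← Finset.sum_add_distrib]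
  exact Finset.sum_congr rfl fun i _ => by rw [Pi.add_apply, mul_add]

theorem sum_ch_b (v : G q d) : ∑ b : G q d, ch b v = if v = 0 then (nn q d : ℂ) else 0 := by
  have h1 : ∀ b : G q d, ch b v = Pool.Agent.UMix.chr v b := by
    intro b
    rw [Pool.Agent.UMix.chr_apply]
    unfold ch
    congr 1
    exact Finset.sum_congr rfl fun i _ => mul_comm _ _
  rw [Finset.sum_congr rfl fun b _ => h1 b]
  have h2 : ((Pool.Agent.UMix.chr v : AddChar (G q d) ℂ) = 0) ↔ v = 0 := by
    constructor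
    · intro h
      have h3 : Pool.Agent.UMix.chr (0 : G q d) = (0 : AddChar (G q d) ℂ) := by
        ext z
        rw [Pool.Agent.UMix.chr_apply]
        simp
      exact Pool.Agent.UMix.chr_injective (h.trans h3.symm)
    · rintro rfl
      ext z
      rw [Pool.Agent.UMix.chr_apply]
      simp
  by_cases hv : v = 0
  · rw [if_pos hv, h2.2 hv]
    have h4 : ∀ b : G q d, (0 : AddChar (G q d) ℂ) b = 1 := fun b => by simp
    rw [Finset.sum_congr rfl fun b _ => h4 b, Finset.sum_const, Finset.card_univ, card_G]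
    unfold nn
    simp
  · rw [if_neg hv]
    exact AddChar.sum_eq_zero_iff_ne_zero.2 fun h => hv (h2.1 h)

/-- the autocorrelation vanishes -/
theorem corr {l : G q d → ℤ} {z : ℂ} (h : TII l z) (η : G q d) (hη : η ≠ 0) :
    ∑ x, z ^ (l x) * z ^ (-(l (η - x))) = 0 := by
  obtain ⟨hz, h⟩ := h
  have hn : (nn q d : ℂ) ≠ 0 := by
    unfold nn
    have : (q : ℝ) ^ d ≠ 0 := pow_ne_zero _ (Nat.cast_ne_zero.2 (NeZero.ne q))
    exact_mod_cast this
  have h1 : ∑ b : G q d, ch b (-η) * ((∑ x, z ^ (l x) * ch b x) * (∑ x, z ^ (-(l x)) * ch b x)) =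
      0 := by
    rw [Finset.sum_congr rfl fun b _ => by rw [h b], ← Finset.sum_mul, sum_ch_b,
      if_neg (neg_ne_zero.2 hη), zero_mul]
  have h2 : ∀ b : G q d, ch b (-η) * ((∑ x, z ^ (l x) * ch b x) *
      (∑ x, z ^ (-(l x)) * ch b x)) =
      ∑ x, ∑ y, (z ^ (l x) * z ^ (-(l y))) * ch b (-η + x + y) := by
    intro b
    rw [Finset.sum_mul_sum, Finset.mul_sum]
    refine Finset.sum_congr rfl fun x _ => ?_
    rw [Finset.mul_sum]
    refine Finset.sum_congr rfl fun y _ => ?_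
    rw [ch_add_r, ch_add_r]
    ring
  rw [Finset.sum_congr rfl fun b _ => h2 b, Finset.sum_comm] at h1
  have h3 : ∀ x : G q d, ∑ b : G q d, ∑ y, (z ^ (l x) * z ^ (-(l y))) * ch b (-η + x + y) =
      (nn q d : ℂ) * (z ^ (l x) * z ^ (-(l (η - x)))) := by
    intro x
    rw [Finset.sum_comm]
    have h4 : ∀ y : G q d, ∑ b : G q d, (z ^ (l x) * z ^ (-(l y))) * ch b (-η + x + y) =
        if y = η - x then (nn q d : ℂ) * (z ^ (l x) * z ^ (-(l y))) else 0 := by
      intro y
      rw [← Finset.mul_sum, sum_ch_b]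
      by_cases hy : y = η - x
      · rw [if_pos hy, if_pos (by rw [hy]; abel), mul_comm]
      · rw [if_neg hy, if_neg, mul_zero]
        intro hh
        apply hy
        have : y = y - (-η + x + y) := by rw [hh, sub_zero]
        rw [this]
        abel
    rw [Finset.sum_congr rfl fun y _ => h4 y, Finset.sum_ite_eq' Finset.univ,
      if_pos (Finset.mem_univ _)]
  rw [Finset.sum_congr rfl fun x _ => h3 x, ← Finset.mul_sum] at h1
  exact (mul_eq_zero.1 h1).resolve_left hn

theorem tii_inv {l : G q d → ℤ} {z : ℂ} (h : TII l z) : TII l z⁻¹ := by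
  obtain ⟨hz, h⟩ := h
  refine ⟨inv_ne_zero hz, fun b => ?_⟩
  have h1 := h b
  rw [mul_comm] at h1
  rw [← h1]
  congr 1
  · exact Finset.sum_congr rfl fun x _ => by rw [inv_zpow, zpow_neg]
  · exact Finset.sum_congr rfl fun x _ => by rw [inv_zpow, zpow_neg, inv_inv]

theorem one_side {l : G q d → ℤ} (hl : Typ l) {z : ℂ} (h : TII l z) (hd : 1 ≤ d) (hq : 2 ≤ q)
    (hn : (36 : ℝ) ^ 4 ≤ nn q d) (hz1 : 1 ≤ ‖z‖) :
    Real.log ‖z‖ ≤ 4 * Real.log (nn q d) / nn q d := by
  haveI : Fact (1 < q) := ⟨by omega⟩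
  obtain ⟨η, hη⟩ : ∃ η : G q d, η ≠ 0 := by
    refine ⟨fun _ => 1, fun hh => ?_⟩
    have := congrFun hh ⟨0, hd⟩
    exact one_ne_zero this
  obtain ⟨h1, h2, -, h4⟩ := hl
  have hc := corr h η hη
  set N := nn q d with hN
  have hN0 : 0 < N := lt_of_lt_of_le (by norm_num) hn
  set W : ℝ := N ^ (3 / 4 : ℝ) with hW
  have hW0 : 0 ≤ W := by positivity
  have hWN : 36 * W ≤ N := by
    have e1 : N = N ^ (3 / 4 : ℝ) * N ^ (1 / 4 : ℝ) := by
      rw [← Real.rpow_add hN0]
      norm_num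
    have e2 : (36 : ℝ) ≤ N ^ (1 / 4 : ℝ) := by
      have e3 : (36 : ℝ) = ((36 : ℝ) ^ 4) ^ (1 / 4 : ℝ) := by
        rw [← Real.rpow_natCast, ← Real.rpow_mul (by norm_num)]
        norm_num
      rw [e3]
      exact Real.rpow_le_rpow (by norm_num) hn (by norm_num)
    calc 36 * W = W * 36 := mul_comm _ _
      _ ≤ N ^ (3 / 4 : ℝ) * N ^ (1 / 4 : ℝ) := mul_le_mul_of_nonneg_left e2 hW0
      _ = N := e1.symm
  set r := ‖z‖ with hr
  have hr0 : 0 < r := by linarith
  -- the exponents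
  set e : G q d → ℤ := fun x => l x - l (η - x) with he
  have hzz : ∀ x : G q d, ‖z ^ (l x) * z ^ (-(l (η - x)))‖ = r ^ ((e x : ℤ) : ℝ) := by
    intro x
    rw [← zpow_add₀ h.1, norm_zpow, Real.rpow_intCast]
    rfl
  have hbound : ∀ x : G q d, x ≠ 0 → ((e x : ℤ) : ℝ) ≤ 2 * W := by
    intro x hx
    have hx1 := abs_le.1 (h1 x hx)
    by_cases hxη : η - x = 0
    · have e5 : e x = l x - l 0 := by rw [he]; simp only; rw [hxη]
      rw [e5]
      push_cast
      have : 0 ≤ N / 3 := by positivity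
      linarith [hx1.2]
    · have hx2 := abs_le.1 (h1 _ hxη)
      rw [he]
      push_cast
      linarith [hx1.2, hx2.1]
  have hmain : r ^ ((e 0 : ℤ) : ℝ) ≤ N * r ^ (2 * W) := by
    have h5 : z ^ (l 0) * z ^ (-(l (η - 0))) =
        -∑ x ∈ (univ : Finset (G q d)).erase 0, z ^ (l x) * z ^ (-(l (η - x))) := by
      rw [eq_neg_iff_add_eq_zero]
      have h8 := Finset.add_sum_erase (univ : Finset (G q d))
        (fun x => z ^ (l x) * z ^ (-(l (η - x)))) (Finset.mem_univ 0)
      exact h8.trans hc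
    rw [← hzz 0, h5, norm_neg]
    refine (norm_sum_le _ _).trans ?_
    have h6 : ∀ x ∈ (univ : Finset (G q d)).erase 0,
        ‖z ^ (l x) * z ^ (-(l (η - x)))‖ ≤ r ^ (2 * W) := by
      intro x hx
      rw [hzz]
      exact Real.rpow_le_rpow_of_exponent_le hz1 (hbound x (Finset.ne_of_mem_erase hx))
    refine (Finset.sum_le_card_nsmul _ _ _ h6).trans ?_
    rw [nsmul_eq_mul]
    apply mul_le_mul_of_nonneg_right _ (by positivity)
    have h7 : ((univ : Finset (G q d)).erase 0).card ≤ Fintype.card (G q d) :=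
      Finset.card_le_card (Finset.erase_subset _ _)
    rw [card_G] at h7
    rw [hN]
    unfold nn
    exact_mod_cast h7
  have hlog := Real.log_le_log (by positivity) hmain
  rw [Real.log_rpow hr0, Real.log_mul hN0.ne' (by positivity), Real.log_rpow hr0] at hlog
  have he0 : N / 3 - W ≤ ((e 0 : ℤ) : ℝ) := by
    rw [he]
    push_cast
    have hη1 : (0 : G q d) ≠ η - 0 := by rw [sub_zero]; exact hη.symm
    have := abs_le.1 (h1 (η - 0) hη1.symm)
    linarith [this.2]
  have hlr : 0 ≤ Real.log r := Real.log_nonneg hz1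
  rw [le_div_iff₀ hN0]
  nlinarith [mul_le_mul_of_nonneg_right he0 hlr, mul_le_mul_of_nonneg_right hWN hlr]

end ANN2aux

open ANN2aux in
theorem t_ANN2 : ANN_Stmt := by
  intro q _ hq
  refine ⟨24, fun d hd l hl z hz => ?_⟩
  have hn : (36 : ℝ) ^ 4 ≤ nn q d := by
    have h1 : (2 : ℝ) ^ 24 ≤ (q : ℝ) ^ d := by
      calc (2 : ℝ) ^ 24 ≤ (q : ℝ) ^ 24 := pow_le_pow_left₀ (by norm_num) (by exact_mod_cast hq) _
        _ ≤ (q : ℝ) ^ d := pow_le_pow_right₀ (by exact_mod_cast (by omega : 1 ≤ q)) hd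
    unfold nn
    refine le_trans ?_ h1
    norm_num
  have hz0 : 0 < ‖z‖ := norm_pos_iff.2 hz.1
  rcases le_total 1 ‖z‖ with h | h
  · rw [abs_of_nonneg (Real.log_nonneg h)]
    exact one_side hl hz (by omega) hq hn h
  · have h2 : 1 ≤ ‖z⁻¹‖ := by
      rw [norm_inv]
      exact one_le_inv_iff₀.2 ⟨hz0, h⟩
    have h3 := one_side hl (tii_inv hz) (by omega) hq hn h2
    rw [norm_inv, Real.log_inv] at h3
    rw [abs_of_nonpos (Real.log_nonpos hz0.le h)]
    exact h3

end Pool.Agent.UAA
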