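import Pool.Agent.UMix.Flat
import Pool.Agent.Lib_helper58.CayleyUM2

/-!
# Uniform mixing on almost all integral Cayley graphs over `ℤ_q^d` (MP_e32761_co): definitions

`G q d = ℤ_q^d`, `n = q^d`. The classes (`Orb`) are the orbits of the units of `ℤ_q` on `G q d`; a
connection set has integer eigenvalues if and only if it is a union of classes. A random union of
classes is given by `ω : Orb q d → Bool`.
-/

set_option autoImplicit false

namespace Pool.Agent.UAA

open Finset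

/-- The group `ℤ_q^d`. -/
abbrev G (q d : ℕ) := Fin d → ZMod q

variable {q d : ℕ}

/-- The characters. -/
noncomputable def ch [NeZero q] (x c : G q d) : ℂ := (ZMod.stdAddChar (∑ i, x i * c i) : ℂ)

/-- `y = u x` for a unit `u` of `ℤ_q`. -/
def Cls (x y : G q d) : Prop := ∃ u : (ZMod q)ˣ, ∀ i, y i = u * x i

/-- The equivalence relation. -/
def rel (q d : ℕ) : Setoid (G q d) where
  r := Cls
  iseqv :=
    { refl := fun x => ⟨1, fun i => by simp⟩
      symm := by
        rintro x y ⟨u, hu⟩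
        exact ⟨u⁻¹, fun i => by rw [hu, Units.inv_mul_cancel_left]⟩
      trans := by
        rintro x y z ⟨u, hu⟩ ⟨v, hv⟩
        exact ⟨v * u, fun i => by rw [hv, hu, Units.val_mul, mul_assoc]⟩ }

/-- The classes. -/
def Orb (q d : ℕ) : Type := Quotient (rel q d)

/-- The class of a point. -/
def cl (x : G q d) : Orb q d := Quotient.mk (rel q d) x

theorem cl_eq (x y : G q d) : cl x = cl y ↔ Cls x y := Quotient.eq (r := rel q d)

theorem cl_surj (O : Orb q d) : ∃ x : G q d, cl x = O := Quotient.exists_rep O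

instance [NeZero q] : Finite (Orb q d) := Finite.of_surjective cl cl_surj

noncomputable instance [NeZero q] : Fintype (Orb q d) := Fintype.ofFinite _

noncomputable instance : DecidableEq (Orb q d) := Classical.decEq _

/-- The sum of a character over a class (an integer). -/
noncomputable def ram [NeZero q] (x : G q d) (O : Orb q d) : ℤ :=
  ⌊(∑ c ∈ (univ : Finset (G q d)).filter (fun c => cl c = O), ch x c).re⌋

/-- The sample space. -/
abbrev Om (q d : ℕ) := Orb q d → Bool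

/-- The random connection set. -/
noncomputable def Cs [NeZero q] (ω : Om q d) : Finset (G q d) :=
  univ.filter fun c => c ≠ 0 ∧ ω (cl c) = true

/-- Its eigenvalues. -/
noncomputable def la [NeZero q] (ω : Om q d) (x : G q d) : ℤ :=
  ∑ O : Orb q d, if O ≠ cl 0 ∧ ω O = true then ram x O else 0

/-- Unions of classes of nonzero elements. -/
def PC (C : Finset (G q d)) : Prop :=
  (0 : G q d) ∉ C ∧ ∀ c ∈ C, ∀ c', Cls c c' → c' ∈ C

/-- The difference of two sums of eigenvalues, coefficient of the class `O`. -/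
noncomputable def ex [NeZero q] {k : ℕ} (p m : Fin k → G q d) (O : Orb q d) : ℤ :=
  ∑ i, ram (p i) O - ∑ i, ram (m i) O

/-- The tuples `p`, `m` meet every class equally often. -/
def Bal {k : ℕ} (p m : Fin k → G q d) : Prop :=
  ∀ O : Orb q d, (univ.filter fun i => cl (p i) = O).card = (univ.filter fun i => cl (m i) = O).card

/-- Additive quadruples of nonzero points. -/
def A4 (p m : Fin 2 → G q d) : Prop :=
  (∀ i, p i ≠ 0) ∧ (∀ i, m i ≠ 0) ∧ p 0 + p 1 = m 0 + m 1

/-- Additive triples of nonzero points. -/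
def A3 (x : Fin 2 → G q d) : Prop := x 0 ≠ 0 ∧ x 1 ≠ 0 ∧ x 0 + x 1 ≠ 0

open Classical in
/-- The fourth moment. -/
noncomputable def T4 [NeZero q] (l : G q d → ℤ) (z : ℂ) : ℂ :=
  ∑ p : Fin 2 → G q d, ∑ m : Fin 2 → G q d,
    if A4 p m then z ^ (∑ i, l (p i) - ∑ i, l (m i)) else 0

open Classical in
/-- The third moment. -/
noncomputable def T3 [NeZero q] (l : G q d → ℤ) (z : ℂ) : ℂ :=
  ∑ x : Fin 2 → G q d, if A3 x then z ^ (l (x 0) + l (x 1) - l (x 0 + x 1)) else 0

/-- The number of points. -/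
noncomputable def nn (q d : ℕ) : ℝ := (q : ℝ) ^ d

/-- The coefficients of the classes are multiples `g j` of `g` with `|j| ≤ E`. -/
def GE (q d g E : ℕ) [NeZero q] : Prop :=
  ∀ k : ℕ, k ≤ 4 → ∀ (p m : Fin k → G q d) (O : Orb q d), O ≠ cl 0 →
    ∃ j : ℤ, |j| ≤ (E : ℤ) ∧ ex p m O = (g : ℤ) * j

/-- Points of the unit circle away from the roots of unity of small order. -/
def Bulk (g E : ℕ) (β : ℝ) (z : ℂ) : Prop :=
  ‖z‖ = 1 ∧ ∀ j : ℕ, 1 ≤ j → j ≤ E → β ≤ ‖z ^ (g * j) - 1‖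

/-- A quantity that is smaller than every power of `1/n`. -/
noncomputable def tiny (q d : ℕ) (β : ℝ) : ℝ := (1 - β ^ 2 / 8) ^ (q ^ (d - 10))

/-- The good event at a point `z` of the circle. -/
def Gd [NeZero q] (τ : ℝ) (l : G q d → ℤ) (z : ℂ) : Prop :=
  17 / 10 * nn q d ^ 2 ≤ (T4 l z).re ∧ ‖T4 l z‖ ≤ 3 * (q : ℝ) ^ 2 * nn q d ^ 2 ∧
    ‖T3 l z‖ ^ 2 ≤ τ * nn q d ^ 3

/-- Typical eigenvalues. -/
def Typ [NeZero q] (l : G q d → ℤ) : Prop :=
  (∀ x, x ≠ 0 → |(l x : ℝ)| ≤ nn q d ^ (3 / 4 : ℝ)) ∧ nn q d / 3 ≤ (l 0 : ℝ) ∧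
    ∑ x, (l x : ℝ) ^ 2 ≤ nn q d ^ 2 ∧ ∀ x, l (-x) = l x

/-- `z` is a (possibly not unimodular) point of flatness. -/
def TII [NeZero q] (l : G q d → ℤ) (z : ℂ) : Prop :=
  z ≠ 0 ∧ ∀ b : G q d, (∑ x, z ^ (l x) * ch b x) * (∑ x, z ^ (-(l x)) * ch b x) = (nn q d : ℂ)

/-- The number of points of the net. -/
noncomputable def Mn (ε : ℝ) (q d : ℕ) : ℕ := ⌈8 / ε * nn q d ^ (3 / 4 : ℝ)⌉₊

/-- The points of the net. -/
noncomputable def zn (M k : ℕ) : ℂ := Complex.exp (2 * Real.pi * (k : ℂ) / (M : ℂ) * Complex.I)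

/-- The Gram matrix of a set. -/
def Gram (C : Finset (G q d)) : Matrix (Fin d) (Fin d) (ZMod q) :=
  Matrix.of fun i j => ∑ c ∈ C, c i * c j

end Pool.Agent.UAA
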