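import Pool.Agent.UAA.Core

/-!
# The statements of the modules

Theorem: for every `q ≥ 2` the proportion of the connection sets `C ⊂ ℤ_q^d` with integer eigenvalues
for which some uniform mixing time is not of the form `2πk/j`, `1 ≤ j ≤ 8q`, is at most
`K_q q^{-d/4}`; exact results for `q` prime. `n = q^d = nn q d`.

IDEA. Let `z = exp(it)`, `λ_x` the eigenvalues (integers). Flatness at `t` implies
`P_η(z) = ∑_x z^{λ_x - λ_{x+η}} = 0` for all `η ≠ 0`, so `z` is an algebraic integer and all conjugates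
`z'` of `z` are points of flatness in the algebraic sense (`TII`). As `λ_0 = |C|` is large, they are in the
annulus `|log |z'|| ≤ 4 log n / n`. For a fixed point `z₀` of the circle that is not close to a root of
unity of small order the numbers `z₀^{λ_x}` behave (moments of bounded order, exponentially small errors)
like independent uniform points of the circle, so `u_b = ∑_{x ≠ 0} z₀^{λ_x} ch b x` satisfies
`∑_b |u_b|^4 ≈ 2 n^3`, `∑_b |u_b|^2 u_b ≈ 0` with probability `1 - O(1/n)`; and flatness at distance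
`ε n^{-3/4}` from `z₀` contradicts this. A net with `O(n^{3/4})` points shows that almost surely all
conjugates of `z` are close to roots of unity of small order; then the norm of the algebraic integer
`∏_j (z^{gj} - 1)` is less than `1`, so it is `0` and `z` is a root of unity.
-/

set_option autoImplicit false

namespace Pool.Agent.UAA

open Finset Filter Topology

/-! ### Part A: classes and eigenvalues -/

/-- Class sums of characters.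

Proof. (1) If `c, c'` generate the same subgroup then `Cls c c'`: `c' = k c` with `k` prime to the order
`m` of `c`, `m ∣ q`, and `k` lifts to a unit of `ℤ_q` (`ZMod.unitsMap_surjective`). So the indicator of a
class is a `ClassFun` (`UMix/Span.lean`), and `ClassFun.inSpan` gives `1_O = ∑_K α_K 1_K` with subgroups
`K` and integers `α_K`; the sum of a character over a subgroup `K` is `|K|` or `0`, so the class sum is an
integer, and `ram` is its value. (2) `ch (u x) c = ch x (u c)` and `c ↦ u c` permutes the class.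
(3) Triangle inequality. (4) the class of `c` is the image of the units, at most `q`. (5) `cl` is onto. -/
def RAM_Stmt : Prop := ∀ (q d : ℕ) [NeZero q],
  (∀ (x : G q d) (O : Orb q d),
    ((ram x O : ℤ) : ℂ) = ∑ c ∈ (univ : Finset (G q d)).filter (fun c => cl c = O), ch x c) ∧
  (∀ (x y : G q d) (O : Orb q d), Cls x y → ram x O = ram y O) ∧
  (∀ (x : G q d) (O : Orb q d),
    |ram x O| ≤ (((univ : Finset (G q d)).filter fun c => cl c = O).card : ℤ)) ∧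
  (∀ O : Orb q d, ((univ : Finset (G q d)).filter fun c => cl c = O).card ≤ q) ∧
  ∀ O : Orb q d, 1 ≤ ((univ : Finset (G q d)).filter fun c => cl c = O).card

/-- The eigenvalues of the random set.

Proof. (1) Sum over the classes (`RAM` (1)); `c ≠ 0 ↔ cl c ≠ cl 0`. (2) `RAM` (2). (3) `Cls x (-x)`
(unit `-1`). (4) `ch 0 c = 1` and (1). (5) Parseval: `∑_x |∑_{c ∈ C} ch x c|² = n |C| ≤ n²`. (6) clear.
(7) `ω ↦ Cs ω` maps onto the `C` with `PC C`, and every fibre has two elements (the value of `ω` at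
`cl 0` is free, all other values are determined by `Cs ω`). -/
def LAM_Stmt : Prop := ∀ (q d : ℕ) [NeZero q],
  (∀ (ω : Om q d) (x : G q d), ((la ω x : ℤ) : ℂ) = ∑ c ∈ Cs ω, ch x c) ∧
  (∀ (ω : Om q d) (x y : G q d), Cls x y → la ω x = la ω y) ∧
  (∀ (ω : Om q d) (x : G q d), la ω (-x) = la ω x) ∧
  (∀ ω : Om q d, la ω 0 = ((Cs ω).card : ℤ)) ∧
  (∀ ω : Om q d, ∑ x : G q d, (la ω x : ℝ) ^ 2 ≤ nn q d ^ 2) ∧
  (∀ ω : Om q d, PC (Cs ω))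

open Classical in
/-- Transfer between `ω` and `C` (see `LAM` (7)). -/
def TRA_Stmt : Prop := ∀ (q d : ℕ) [NeZero q] (P : Finset (G q d) → Prop),
  2 * ((univ : Finset (Finset (G q d))).filter fun C => PC C ∧ P C).card =
    ((univ : Finset (Om q d)).filter fun ω => P (Cs ω)).card

/-- The coefficients are multiples of `g`.

Proof. (1) `|ram x O| ≤ q`, so `|ex p m O| ≤ 2 k q ≤ 8 q`. (2) `q = p` prime: for `O = cl c`, `c ≠ 0`, the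
class is `{u c : u ≠ 0}` and `ram x O = ∑_{u ≠ 0} stdAddChar (u (x·c)) = p [x·c = 0] - 1`. So `ex p m O` is
`p` times a difference of two numbers in `{0..4}`. -/
def GEQ_Stmt : Prop := (∀ (q d : ℕ) [NeZero q], GE q d 1 (8 * q)) ∧
  ∀ (q d : ℕ) [NeZero q], q.Prime → GE q d q 4

/-- Integer eigenvalues.

Proof. If `PC C` then `C` is a union of classes, and `RAM` (1) gives the integers; `-c` is in the class
of `c`. Conversely let `λ_x = ∑_{c ∈ C} ch x c` be integers. Fourier inversion: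
`n 1_C(c) = ∑_x λ_x stdAddChar (-(x·c))`. Let `ζ = stdAddChar 1`, a primitive `q`-th root of unity, and
`F_c(X) = ∑_x λ_x X^{(-(x·c)).val} - n 1_C(c)`, an integer polynomial with `F_c(ζ) = 0`. For a unit `u` the
power `ζ^u` is a conjugate of `ζ` (`IsPrimitiveRoot.minpoly_eq_pow_coprime`), so `F_c(ζ^u) = 0`, i.e.
`n 1_C(u c) = n 1_C(c)`. -/
def INTE_Stmt : Prop := ∀ (q d : ℕ) [NeZero q] (C : Finset (G q d)),
  PC C ↔ (0 : G q d) ∉ C ∧ (∀ c ∈ C, -c ∈ C) ∧ ∀ x : G q d, ∃ k : ℤ, ∑ c ∈ C, ch x c = (k : ℂ)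

/-! ### Part B: expectations -/

/-- The expectation of a monomial.

Proof. (1) The left side is `∑_ω ∏_O f_O(ω_O)` with `f_O(true) = z^{e(O)}`, `f_O(false) = 1` for
`O ≠ cl 0` and `f_{cl 0} = 1`; expand the product of sums (`Finset.prod_univ_sum`, `Fintype.piFinset`).
(2) is (1) for `e = ex p m`. -/
def EXP_Stmt : Prop := ∀ (q d : ℕ) [NeZero q] (z : ℂ), z ≠ 0 →
  (∀ e : Orb q d → ℤ, ∑ ω : Om q d, z ^ (∑ O : Orb q d, if O ≠ cl 0 ∧ ω O = true then e O else 0) =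
    ∏ O : Orb q d, if O = cl 0 then 2 else (1 + z ^ e O)) ∧
  ∀ (k : ℕ) (p m : Fin k → G q d),
    ∑ ω : Om q d, z ^ (∑ i, la ω (p i) - ∑ i, la ω (m i)) =
      ∏ O : Orb q d, if O = cl 0 then 2 else (1 + z ^ ex p m O)

/-- Unbalanced tuples have many nonzero coefficients.

Proof. Let `U` be the group of units and `F(c) = ∑_{u ∈ U} (∑_i ch (p i) (u c) - ∑_i ch (m i) (u c))`. By `RAM` (1) `F(c) = (|U|/|O|) ex p m O`
for `O = cl c` (each element of the class is `u c` for `|U|/|O|` units `u`), so `F(c) ≠ 0` iff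
`ex p m (cl c) ≠ 0`. `F` is not identically zero: `∑_c F(c) ch (-y) c` is `n` times
`∑_{u} (#{i : u p_i = y} - #{i : u m_i = y}) = |Stab y| (#{i : p_i ∈ cl y} - #{i : m_i ∈ cl y})`, which is not
`0` for some `y`. If `F(c₀) ≠ 0` then `F(c₀ + v) = F(c₀)` for every `v` with `p_i·v = m_i·v = 0` for all
`i`; the number of these `v` is at least `n / q^{2k}` (kernel of a homomorphism to `ℤ_q^{2k}`). So at
least `n/q^{2k} - 1 ≥ n/(2q^{2k})` nonzero `c` have `ex p m (cl c) ≠ 0`, and a class has at most `q`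
elements. -/
def UNB_Stmt : Prop := RAM_Stmt → ∀ (q d : ℕ) [NeZero q], 2 ≤ q → ∀ (k : ℕ) (p m : Fin k → G q d),
  ¬ Bal p m → 2 * q ^ (2 * k) ≤ q ^ d →
    q ^ d ≤ q ^ (2 * k + 2) *
      ((univ : Finset (Orb q d)).filter fun O => O ≠ cl 0 ∧ ex p m O ≠ 0).card

/-- Balanced and unbalanced tuples.

Proof. Balanced: `ex p m O = 0` for all `O` (group the `i` by the class of `p i`; `ram (·) O` is
constant on classes, `RAM` (2)), and `EXP`. Unbalanced: by `EXP` the modulus is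
`2^{#Orb} ∏_{O ≠ cl 0} |1 + z^{ex p m O}|/2`; every factor is at most `1`, and if `ex p m O = g j ≠ 0`, then
`1 ≤ |j| ≤ E` and `|1 + z^{gj}|² = 4 - |1 - z^{gj}|² ≤ 4 - β²` (for negative `j` conjugate), so the factor is
at most `√(1 - β²/4) ≤ 1 - β²/8`. By `UNB` (`2k + 2 ≤ 10 ≤ d`) there are at least `q^{d-10}` such
classes. `Fintype.card (Om q d) = 2^{#Orb}`. -/
def BND_Stmt : Prop := RAM_Stmt → EXP_Stmt → UNB_Stmt → ∀ (q d g E : ℕ) [NeZero q], 2 ≤ q →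
  GE q d g E → 10 ≤ d → ∀ (β : ℝ) (z : ℂ), 0 < β → β ≤ 1 → Bulk g E β z →
  ∀ (k : ℕ) (p m : Fin k → G q d), k ≤ 4 →
    (Bal p m → ∑ ω : Om q d, z ^ (∑ i, la ω (p i) - ∑ i, la ω (m i)) =
      (Fintype.card (Om q d) : ℂ)) ∧
    (¬ Bal p m → ‖∑ ω : Om q d, z ^ (∑ i, la ω (p i) - ∑ i, la ω (m i))‖ ≤
      (Fintype.card (Om q d) : ℝ) * tiny q d β)

/-- `tiny` is smaller than all powers of `1/n`.

Proof. `(1 - x)^N ≤ exp(-x N)` with `x = β²/8`, `N = q^{d-10}`, and `q^{dA} = exp(A d log q)`; `q^{d-10}`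
grows faster than `d`. -/
def TNY_Stmt : Prop := ∀ q : ℕ, 2 ≤ q → ∀ β : ℝ, 0 < β → β ≤ 1 → ∀ A : ℕ,
  (∀ d, 0 ≤ tiny q d β) ∧ ∃ d0 : ℕ, ∀ d ≥ d0, nn q d ^ A * tiny q d β ≤ 1

/-! ### Part C: counting -/

open Classical in
/-- Counting pairs of quadruples.

Proof. Write `P = (p0, p1, m'0, m'1)`, `M = (m0, m1, p'0, p'1)` for the two appended tuples. Balanced means that
there are a permutation `σ` of `Fin 4` and units `a_i` with `M (σ i) = a_i P i` (equal numbers of indices in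
each class). If `σ` maps `{0,1}` to `{0,1}` then `Bal p m` and (hence `σ` maps `{2,3}` to itself) `Bal p' m'`.
Otherwise some `i ∈ {0,1}` has `σ i ∈ {2,3}`, i.e. `p_i` is matched with an element of `p'`; then
`m0, m1` are unit multiples of elements `P j`, `j ≠ i`, and the equation `p0 + p1 = m0 + m1` determines
`P i` from the three other `P j`. So for each `σ` (24 of them) and each choice of the units (at most `q^4`)
there are at most `n^3` tuples. -/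
def CNT8_Stmt : Prop := ∀ (q d : ℕ) [NeZero q],
  (((univ : Finset ((Fin 2 → G q d) × (Fin 2 → G q d) × (Fin 2 → G q d) × (Fin 2 → G q d))).filter
    fun t => A4 t.1 t.2.1 ∧ A4 t.2.2.1 t.2.2.2 ∧
      Bal (Fin.append t.1 t.2.2.2) (Fin.append t.2.1 t.2.2.1) ∧
      ¬ (Bal t.1 t.2.1 ∧ Bal t.2.2.1 t.2.2.2)).card : ℝ) ≤ 24 * (q : ℝ) ^ 4 * nn q d ^ 3

open Classical in
/-- Counting pairs of triples.

Proof. As for `CNT8`: `P = (x0, x1, y0 + y1)`, `M = (y0, y1, x0 + x1)`, `M (σ i) = a_i P i` with a permutation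
`σ` of `Fin 3` and units `a_i`. If `x0 + x1 = a_i P i` with `i = 0` (`i = 1`, `i = 2`) then `x1`
(`x0`, `x0`) is determined by the two other `P j`. -/
def CNT6_Stmt : Prop := ∀ (q d : ℕ) [NeZero q],
  (((univ : Finset ((Fin 2 → G q d) × (Fin 2 → G q d))).filter
    fun t => A3 t.1 ∧ A3 t.2 ∧
      Bal ![t.1 0, t.1 1, t.2 0 + t.2 1] ![t.2 0, t.2 1, t.1 0 + t.1 1]).card : ℝ) ≤
    6 * (q : ℝ) ^ 3 * nn q d ^ 2

open Classical in
/-- Counting balanced quadruples.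

Proof. Upper bound: a permutation of `Fin 2`, two units and `p0, p1`. Lower bound: for `p0 ≠ p1` both
`m = (p0, p1)` and `m = (p1, p0)`, for `p0 = p1` `m = p`: `2 (n-1)(n-2) + (n-1)` pairs. -/
def CNT4_Stmt : Prop := ∀ (q d : ℕ) [NeZero q],
  (((univ : Finset ((Fin 2 → G q d) × (Fin 2 → G q d))).filter
    fun t => A4 t.1 t.2 ∧ Bal t.1 t.2).card : ℝ) ≤ 2 * (q : ℝ) ^ 2 * nn q d ^ 2 ∧
  (nn q d - 1) * (2 * nn q d - 3) ≤
    (((univ : Finset ((Fin 2 → G q d) × (Fin 2 → G q d))).filter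
      fun t => A4 t.1 t.2 ∧ Bal t.1 t.2).card : ℝ)

/-! ### Part D: moments -/

open Classical in
/-- The fourth moment is concentrated.

Proof. Let `N = card Om`, `μ = (1/N) ∑_ω T4 (la ω) z`. By `BND` (`k = 2`) and `CNT4`,
`Re μ ≥ (n-1)(2n-3) - n³ tiny`, `|μ| ≤ 2q²n² + n³ tiny` (there are at most `n³` pairs with `A4`).
Variance: `(1/N) ∑_ω |T4 - μ|² = (1/N) ∑_ω |T4|² - |μ|²`, and, with `conj (z^a) = z^{-a}`,
`|T4|² = ∑ z^{(P) - (M)}` over pairs of quadruples, `P = append p m'`, `M = append m p'`. For both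
quadruples balanced the contribution to the difference is `1 - 1 = 0`. For `P, M` balanced and not both
quadruples balanced it is at most `2` in modulus: `CNT8`. For `P, M` not balanced it is at most
`2 tiny` (if both quadruples were balanced, `P, M` would be balanced). So the variance is at most
`48 q⁴ n³ + 2 n⁶ tiny ≤ 50 q⁴ n³` for large `d` (`TNY`). Chebyshev: `|T4 - μ| ≥ n²/4` for at most
`N 16 · 50 q⁴ / n` of the `ω`. Otherwise `Re T4 ≥ (n-1)(2n-3) - 1 - n²/4 ≥ 1.7 n²` and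
`|T4| ≤ 2q²n² + 1 + n²/4 ≤ 3q²n²` for large `n`. -/
def MOM4_Stmt : Prop := BND_Stmt → RAM_Stmt → EXP_Stmt → UNB_Stmt → TNY_Stmt → CNT8_Stmt →
  CNT4_Stmt → ∀ (q : ℕ) [NeZero q], 2 ≤ q → ∀ β : ℝ, 0 < β → β ≤ 1 →
  ∃ d0 : ℕ, ∀ d ≥ d0, ∀ g E : ℕ, GE q d g E → ∀ z : ℂ, Bulk g E β z →
    (((univ : Finset (Om q d)).filter fun ω => ¬ (17 / 10 * nn q d ^ 2 ≤ (T4 (la ω) z).re ∧
      ‖T4 (la ω) z‖ ≤ 3 * (q : ℝ) ^ 2 * nn q d ^ 2)).card : ℝ) * nn q d ≤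
      800 * (q : ℝ) ^ 4 * (Fintype.card (Om q d) : ℝ)

open Classical in
/-- The third moment is small.

Proof. `|T3|² = ∑ z^{l(x0)+l(x1)+l(y0+y1) - l(y0)-l(y1)-l(x0+x1)}` over pairs of triples; by `BND` (`k = 3`)
and `CNT6` its mean is at most `6q³n² + n⁴ tiny ≤ 7q³n²` for large `d`; Markov. -/
def MOM3_Stmt : Prop := BND_Stmt → RAM_Stmt → EXP_Stmt → UNB_Stmt → TNY_Stmt → CNT6_Stmt →
  ∀ (q : ℕ) [NeZero q], 2 ≤ q → ∀ β τ : ℝ, 0 < β → β ≤ 1 → 0 < τ →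
  ∃ d0 : ℕ, ∀ d ≥ d0, ∀ g E : ℕ, GE q d g E → ∀ z : ℂ, Bulk g E β z →
    (((univ : Finset (Om q d)).filter fun ω =>
      ¬ ‖T3 (la ω) z‖ ^ 2 ≤ τ * nn q d ^ 3).card : ℝ) * (τ * nn q d) ≤
      7 * (q : ℝ) ^ 3 * (Fintype.card (Om q d) : ℝ)

open Classical in
/-- Most `ω` are typical.

Proof. The third and fourth condition of `Typ` always hold (`LAM` (5), (3)). First condition: for
`x ≠ 0` and real `s`, by `EXP` (1) with `z = e^s`, `e = ram x ·`, `(1/N) ∑_ω e^{s la ω x} =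
∏_{O ≠ cl 0} (1 + e^{s ram x O})/2 = e^{-s/2} ∏ cosh (s ram x O / 2) ≤ e^{-s/2} exp(s² q n / 8)`, because
`∑_{O ≠ cl 0} ram x O = ∑_{c ≠ 0} ch x c = -1` and `∑_O (ram x O)² ≤ q ∑_O |O| = q n`
(`Real.cosh_le_exp_half_sq`). With `s = ± 4 w/(q n)`, `w = n^{3/4}`: the proportion of the `ω` with
`|la ω x| > w` is at most `2 exp(|s|/2 - 2 w²/(q n)) ≤ 2 exp(2/q - 2 √n / q)`; times `n` points `x`, times
`n`: bounded. Second condition: `la ω 0` has mean `(n-1)/2` and variance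
`(1/4) ∑_{O ≠ cl 0} |O|² ≤ q n / 4`; Chebyshev (or `s = - small constant / √n …`): the proportion of
`la ω 0 < n/3` is at most `(q n/4)/(n/6 - 1/2)²`. -/
def TYP_Stmt : Prop := RAM_Stmt → LAM_Stmt → EXP_Stmt → ∀ (q : ℕ) [NeZero q], 2 ≤ q →
  ∃ (K : ℝ) (d0 : ℕ), ∀ d ≥ d0,
    (((univ : Finset (Om q d)).filter fun ω => ¬ Typ (la ω)).card : ℝ) * nn q d ≤
      K * (Fintype.card (Om q d) : ℝ)

/-! ### Part E: deterministic part -/

/-- Points of flatness are close to the unit circle.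

Proof. For `η ≠ 0` multiply `TII` by `ch b (-η)` and sum over `b`:
`P_η(z) := ∑_x z^{l(x) - l(x+η)} = 0` (use `l(-x) = l(x)`). Replacing `z` by `1/z` (also `TII`) we may assume
`|z| ≥ 1`. The term `x = 0` is `z^{l(0) - l(η)}`; for all other `x` the exponent is at most `2W`,
`W = n^{3/4}` (for `x = -η` it is `l(η) - l(0) ≤ 0`). So `|z|^{l(0) - l(η)} ≤ n |z|^{2W}`,
`(n/3 - 3W) log|z| ≤ log n`, and `n/3 - 3W ≥ n/4` for large `n`. -/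
def ANN_Stmt : Prop := ∀ (q : ℕ) [NeZero q], 2 ≤ q → ∃ d0 : ℕ, ∀ d ≥ d0, ∀ l : G q d → ℤ, Typ l →
  ∀ z : ℂ, TII l z → |Real.log ‖z‖| ≤ 4 * Real.log (nn q d) / nn q d

/-- Fourier identities at a point of the unit circle, `u_b = ∑_{x ≠ 0} z^{l x} ch b x`.

Proof. Orthogonality of the characters (`∑_b ch b v = n [v = 0]`) and `conj (z^a) = z^{-a}`,
`conj (ch b x) = ch b (-x)`. (1) `∑_b |u_b|² = n (n-1)`. (2) `∑_b |u_b|⁴ = n T4`. (3) `∑_b |u_b|² u_b = n T3`.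
(4) `∑_b u_b = 0`. (5) `∑_{x≠0} z^{-l x} ch b x = conj (u_b)` if `l (-x) = l x`. -/
def FOU_Stmt : Prop := ∀ (q d : ℕ) [NeZero q] (l : G q d → ℤ) (z : ℂ), ‖z‖ = 1 →
  (∀ x, l (-x) = l x) → ∀ u : G q d → ℂ,
  (∀ b, u b = ∑ x ∈ (univ : Finset (G q d)).erase 0, z ^ (l x) * ch b x) →
    ∑ b, ‖u b‖ ^ 2 = nn q d * (nn q d - 1) ∧
    ∑ b, ((‖u b‖ ^ 4 : ℝ) : ℂ) = (nn q d : ℂ) * T4 l z ∧
    ∑ b, ((‖u b‖ ^ 2 : ℝ) : ℂ) * u b = (nn q d : ℂ) * T3 l z ∧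
    ∑ b, u b = 0 ∧
    ∀ b, ∑ x ∈ (univ : Finset (G q d)).erase 0, z ^ (-(l x)) * ch b x = (starRingEnd ℂ) (u b)

/-- Parseval for a general function, `u_b = ∑_x f x ch b x`. -/
def PAR_Stmt : Prop := ∀ (q d : ℕ) [NeZero q] (f : G q d → ℂ),
  ∑ b, ‖∑ x, f x * ch b x‖ ^ 2 = nn q d * ∑ x, ‖f x‖ ^ 2 ∧
  ∀ b, ‖∑ x, f x * ch b x‖ ^ 2 ≤ nn q d * ∑ x, ‖f x‖ ^ 2

/-- The linear algebra. All norms are `ℓ²` norms over a finite type, `N` is the number of points.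

Here `u0, v0 = conj u0, h0 = |u0|² - (N-1)` belong to the net point, `u, v, h = u v - (N-1)` to the point of
flatness, `Z` is the value of the trivial character.

Proof. Put `ε' = ε N^{3/4}`; `A2 f = ∑ ‖f b‖²`. Let `Δu = u - u0`, `Δv = v - v0`.
`h - h0 = Δu v0 + u0 Δv + Δu Δv`, `∑ |Δu|⁴ ≤ (max |Δu|²) ∑ |Δu|² ≤ 81 ε⁴ N³`,
`∑ |Δu v0|² ≤ (∑ |Δu|⁴)^{1/2} (∑ |v0|⁴)^{1/2} ≤ 9 ε² N^{3/2} (3 B N³)^{1/2}`, the same for `u0 Δv`, and
`∑ |Δu Δv|² ≤ 81 ε⁴ N³`. So `‖h - h0‖² ≤ c₁ ε² N³`, `c₁ = 54 √(3B) + 243`. `‖h0‖² = ∑ |u0|⁴ - N (N-1)²`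
lies between `N³/2` and `3 B N³` (hypotheses on `∑ |u0|⁴ = N Re T4`). From `h = -Z v - Z⁻¹ u` and
`‖v‖ ≥ N/2`, `‖u‖ ≤ 2N` (for large `N`, as `‖u0‖² = N(N-1)`, `‖Δu‖² ≤ 9 ε² N^{3/2}`): if `|Z| ≥ 1`,
`|Z| ‖v‖ ≤ ‖h‖ + ‖u‖`, so `|Z| ≤ Z₁ √N`, `Z₁ = 4 √(3B) + 8`; if `|Z| < 1` the same for `|Z⁻¹|`. Then
`h0 = -Z v0 - Z⁻¹ u0 - (Z Δv + Z⁻¹ Δu) - (h - h0)`, and taking the inner product with `h0` (real),
`∑_b u0_b h0_b = N T3` (because `∑ u0 = 0`), so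
`‖h0‖² ≤ (|Z| + |Z⁻¹|) N |T3| + (|Z| + |Z⁻¹|) 3 ε N^{3/4} ‖h0‖ + √c₁ ε N^{3/2} ‖h0‖
 ≤ 2 Z₁ √τ N³ + 6 Z₁ ε √(3B) N^{11/4} + √(3 B c₁) ε N³ < N³/2` for `τ, ε` small (depending on `B`) and `N`
large. -/
def LIN_Stmt : Prop := ∀ B : ℝ, 1 ≤ B → ∃ τ ε N0 : ℝ, 0 < τ ∧ 0 < ε ∧ ε ≤ 1 ∧
  ∀ (ι : Type) [Fintype ι], ∀ N : ℝ, N0 ≤ N → ∀ (u0 u v : ι → ℂ) (Z : ℂ), Z ≠ 0 →
  ∑ b, ‖u0 b‖ ^ 2 = N * (N - 1) → 17 / 10 * N ^ 3 ≤ ∑ b, ‖u0 b‖ ^ 4 →
  ∑ b, ‖u0 b‖ ^ 4 ≤ 3 * B * N ^ 3 → ‖∑ b, ((‖u0 b‖ ^ 2 : ℝ) : ℂ) * u0 b‖ ^ 2 ≤ τ * N ^ 5 →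
  ∑ b, u0 b = 0 → (Fintype.card ι : ℝ) = N →
  ∑ b, ‖u b - u0 b‖ ^ 2 ≤ 9 * ε ^ 2 * N ^ (3 / 2 : ℝ) →
  ∑ b, ‖v b - (starRingEnd ℂ) (u0 b)‖ ^ 2 ≤ 9 * ε ^ 2 * N ^ (3 / 2 : ℝ) →
  (∀ b, ‖u b - u0 b‖ ^ 2 ≤ 9 * ε ^ 2 * N ^ (3 / 2 : ℝ)) →
  (∀ b, ‖v b - (starRingEnd ℂ) (u0 b)‖ ^ 2 ≤ 9 * ε ^ 2 * N ^ (3 / 2 : ℝ)) →
  (∀ b, (Z + u b) * (Z⁻¹ + v b) = (N : ℂ)) → False

/-- The deterministic contradiction.

Proof. Apply `LIN` with `B = q²` (it gives `τ, ε, N0`), `N = n`, `Z = z^{l(0)}`,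
`u_b = ∑_{x≠0} z^{l x} ch b x`, `v_b = ∑_{x≠0} z^{-l x} ch b x`, `u0` the same as `u` at `z₀`; `FOU` gives the
identities at `z₀`. Differences: for an integer `a`, `|a| ≤ n^{3/4}`,
`|z^a - z₀^a| ≤ |a| |z - z₀| max(|z|, 1/|z|)^{|a|+1} ≤ 3/2 |a| |z - z₀|` for large `n` (`|log|z|| ≤ 4 log n/n`), so
`∑_{x≠0} |z^{l x} - z₀^{l x}|² ≤ (9/4) ε² n^{-3/2} n²`, and `PAR` gives
`∑_b |u_b - u0_b|² ≤ (9/4) ε² n^{3/2}`, and the same bound for each `|u_b - u0_b|²` (`PAR` (2)). (In `LIN` the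
bounds are `9 ε² N^{3/2}`.) -/
def DET_Stmt : Prop := FOU_Stmt → PAR_Stmt → LIN_Stmt → ∀ (q : ℕ) [NeZero q], 2 ≤ q →
  ∃ τ ε : ℝ, 0 < τ ∧ 0 < ε ∧ ε ≤ 1 ∧ ∃ d0 : ℕ, ∀ d ≥ d0, ∀ l : G q d → ℤ, Typ l → ∀ z z0 : ℂ, TII l z →
    |Real.log ‖z‖| ≤ 4 * Real.log (nn q d) / nn q d → ‖z0‖ = 1 →
    ‖z - z0‖ ≤ ε * nn q d ^ (-(3 / 4) : ℝ) → ¬ Gd τ l z0

/-- The net.

Proof. Let `z* = z/|z|`; `|z - z*| = ||z| - 1| ≤ 8 log n/n ≤ (ε/8) n^{-3/4}` for large `n`. The points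
`zn M k`, `M = Mn ε q d`, divide the circle, so some `zn M k` has distance at most
`π/M ≤ (ε/2) n^{-3/4}` (`π/8 < 1/2`) from `z*`; sum at most `ε n^{-3/4}`. If
`|∏_{j=1}^{E} (z^{gj} - 1)| ≥ 1`, then, as `|z^{gj} - 1| ≤ |z|^{gE} + 1 ≤ 5/2` for large `n`, each factor is at least
`(2/5)^{E}`... precisely at least `(2/5)^{E-1}`, and `|z0^{gj} - z^{gj}| ≤ 2 g E |z - z0|` is small, so
`|z0^{gj} - 1| ≥ (1/3)^E`. (`E ≥ 1`, `d0` depends on `ε, g, E`.) -/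
def NET_Stmt : Prop := ∀ q : ℕ, 2 ≤ q → ∀ ε : ℝ, 0 < ε → ε ≤ 1 → ∀ g E : ℕ, 1 ≤ g → 1 ≤ E →
  ∃ d0 : ℕ, ∀ d ≥ d0, ∀ z : ℂ, z ≠ 0 → |Real.log ‖z‖| ≤ 4 * Real.log (nn q d) / nn q d →
    1 ≤ ‖∏ j ∈ Finset.Icc 1 E, (z ^ (g * j) - 1)‖ →
    ∃ k : ℕ, k < Mn ε q d ∧ ‖z - zn (Mn ε q d) k‖ ≤ ε * nn q d ^ (-(3 / 4) : ℝ) ∧
      Bulk g E ((1 / 3) ^ E) (zn (Mn ε q d) k)

/-! ### Part F: algebraic part -/

/-- An algebraic integer all of whose conjugates are small is zero.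

Proof. Let `K = ℚ(z)` (`IntermediateField.adjoin ℚ {z}`), `a = A(z) ∈ K`, integral over `ℤ`. Its norm
`N(a) ∈ ℚ` is integral (`Algebra.isIntegral_norm`), so an integer, and `N(a) = ∏_σ σ(a)`
(`Algebra.norm_eq_prod_embeddings`), `σ(a) = A(σ z)` and `σ z` is a root of the minimal polynomial of
`z`. So `|N(a)| < 1`, `N(a) = 0`, `a = 0`. -/
def ALG_Stmt : Prop := ∀ (z : ℂ) (A : Polynomial ℤ), IsIntegral ℤ z →
  (∀ z' : ℂ, Polynomial.aeval z' (minpoly ℚ z) = 0 → ‖Polynomial.aeval z' A‖ < 1) →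
    Polynomial.aeval z A = 0

/-- Flatness and its conjugates.

Proof. Let `C = Cs ω`, `l = la ω`, `z = exp(it)`. The eigenvalues of `C` are `l x` (`LAM` (1)); `autocorr`
(`Lib_helper58/CayleyUM2.lean`) for the character `chr η` (`UMix/Flat.lean`) gives
`P_η(z) = ∑_x z^{l x - l(x+η)} = 0` for `η ≠ 0`. For large `n` the exponent `l 0 - l η` is larger than all the
others (`Typ`), so `z^W P_η(z)` is a monic integer polynomial in `z` for suitable `W`: `z` is integral.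
(`η ≠ 0` exists as `d ≥ 1`.) For every `η ≠ 0` the polynomial `z^{W} P_η(z)` vanishes at the root `z'` of the
minimal polynomial (`minpoly.dvd`), and `z' ≠ 0` (the minimal polynomial of `z ≠ 0` is irreducible, not
`X`). So `P_η(z') = 0` for `η ≠ 0`, `P_0(z') = n`, and
`(∑_x z'^{l x} ch b x)(∑_y z'^{-l y} ch b y) = ∑_η ch b (-η) P_η(z') = n` (replace `y` by `-y`; `l(-y) = l y`;
put `η = y - x`). -/
def FLT_Stmt : Prop := LAM_Stmt → ∀ (q : ℕ) [NeZero q], 2 ≤ q → ∃ d0 : ℕ, ∀ d ≥ d0, ∀ ω : Om q d,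
  Typ (la ω) → ∀ t : ℝ, Pool.Agent.Lib_helper58.CayleyUM.Flat (Cs ω) t →
    IsIntegral ℤ (Complex.exp (Complex.I * (t : ℂ))) ∧
    ∀ z' : ℂ, Polynomial.aeval z' (minpoly ℚ (Complex.exp (Complex.I * (t : ℂ)))) = 0 →
      TII (la ω) z'

open Classical in
/-- The main theorem for the random set.

Proof. `DET` gives `τ, ε`; `β = (1/3)^E`. Let `ω` be typical and `Gd τ (la ω) (zn M k)` for all `k < M` for
which `zn M k` is in the bulk. If `Flat (Cs ω) t`, `z = exp(it)`, then for every root `z'` of the minimal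
polynomial: `TII` (`FLT`), `ANN`, and if `|∏_j (z'^{gj} - 1)| ≥ 1` then `NET` and `DET` give a contradiction. So
`ALG` with `A = ∏_{j=1}^E (X^{gj} - 1)` gives `A(z) = 0`, i.e. `z^{gj} = 1` for some `j`. The number of the bad
`ω` is at most `K/n N + M (800 q⁴/n + 7q³/(τ n)) N`, `M = Mn ε q d ≤ (8/ε) n^{3/4} + 1`: at most
`K' n^{-1/4} N`; for `d < d0` enlarge `K'` (`n^{1/4} ≤ n ≤ q^{d0}`). -/
def MAI_Stmt : Prop := MOM4_Stmt → MOM3_Stmt → BND_Stmt → RAM_Stmt → LAM_Stmt → EXP_Stmt →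
  UNB_Stmt → TNY_Stmt → CNT8_Stmt → CNT6_Stmt → CNT4_Stmt → TYP_Stmt → ANN_Stmt → FOU_Stmt →
  PAR_Stmt → LIN_Stmt → DET_Stmt → NET_Stmt → ALG_Stmt → FLT_Stmt → ∀ (q g E : ℕ) [NeZero q],
  2 ≤ q → 1 ≤ g → 1 ≤ E → (∀ d, GE q d g E) → ∃ K : ℝ, 0 < K ∧ ∀ d : ℕ,
    (((univ : Finset (Om q d)).filter fun ω => ¬ ∀ t : ℝ,
      Pool.Agent.Lib_helper58.CayleyUM.Flat (Cs ω) t → ∃ j : ℕ, 1 ≤ j ∧ j ≤ E ∧
        Complex.exp (Complex.I * (t : ℂ) * ((g : ℂ) * (j : ℂ))) = 1).card : ℝ) *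
      nn q d ^ (1 / 4 : ℝ) ≤ K * (Fintype.card (Om q d) : ℝ)

/-! ### Part G: the torsion times for prime `q` -/

/-- `q = 2`.

Proof. `λ_x = 2 N_x - |C|`, `N_x = #{c ∈ C : x·c = 0}`. Let `y = exp(2it)`, of order `1, 2, 3` or `4` by
hypothesis (`y^j = 1`). Flat implies (`autocorr`) `P_η = ∑_x y^{N_x - N_{x+η}} = 0` for `η ≠ 0` (`n = 2^d`).
Order 1: `P_η = n`. Order 2: `(-1)^{N_x} = (-1)^{|C|} (-1)^{x·s}`, `s = ∑_{c∈C} c`, so `P_η = ± n`. Order 3: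
`P_η = n0 + n1 y + n2 y²` with `n0 + n1 + n2 = n`, zero only if `n0 = n1 = n2`, but `3 ∤ 2^d`. Order 4:
`y = ±i`, `t` is an odd multiple of `π/4`, and with `w_x = |C| - N_x = #{c ∈ C : x·c = 1}`:
`w_x + w_η - w_{x+η} = 2 #{c : x·c = η·c = 1}`, and `#{c ∈ C : x·c = η·c = 1} = x·(Gram C η)` modulo `2`. So
`P_η = (root of unity) ∑_x (-1)^{x·(Gram C η)}`, which is `0` iff `Gram C η ≠ 0`; `P_η = 0` for all `η ≠ 0` iff
`det (Gram C) ≠ 0`. Conversely `P_η = 0` for all `η ≠ 0` gives flatness: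
`n² |row b|² = ∑_η (character values) P_η = n` (`row_eq`). -/
def TO2_Stmt : Prop := ∀ (d : ℕ), 1 ≤ d → ∀ C : Finset (G 2 d), (0 : G 2 d) ∉ C → ∀ t : ℝ,
  (∃ j : ℕ, 1 ≤ j ∧ j ≤ 4 ∧ Complex.exp (Complex.I * (t : ℂ) * ((2 : ℂ) * (j : ℂ))) = 1) →
    (Pool.Agent.Lib_helper58.CayleyUM.Flat C t ↔
      (∃ k : ℤ, t = (2 * (k : ℝ) + 1) * Real.pi / 4) ∧ (Gram C).det ≠ 0)

/-- `q = 3`.

Proof. `λ_x = (3 N_x - |C|)/2`, `N_x = #{c ∈ C : x·c = 0}` (the pairs `±c` with `x·c ≠ 0` contribute `-1`),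
`|C|` and `N_x` are even. `y = exp(3it)` has order `1, 2, 3` or `4`, and
`P_η = ∑_x y^{(N_x - N_{x+η})/2}`. Order 1: `P_η = n = 3^d`. Order 2 and 4: `P_η = 0` would give
`n` even. Order 3: `3t = 2πk/3`, `3 ∤ k`, and modulo 3 `|C| - N_x = ∑_{c∈C} (x·c)² = x·(Gram C x)`, so
`N_{x+η} - N_x = - 2 x·(Gram C η) - η·(Gram C η)` modulo 3, and `P_η` is a root of unity times
`∑_x y^{± x·(Gram C η)}` (`1/2 = -1` modulo 3), zero iff `Gram C η ≠ 0`. Conversely as for `q = 2`. -/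
def TO3_Stmt : Prop := ∀ (d : ℕ), 1 ≤ d → ∀ C : Finset (G 3 d), (0 : G 3 d) ∉ C →
  (∀ c ∈ C, -c ∈ C) → ∀ t : ℝ,
  (∃ j : ℕ, 1 ≤ j ∧ j ≤ 4 ∧ Complex.exp (Complex.I * (t : ℂ) * ((3 : ℂ) * (j : ℂ))) = 1) →
    (Pool.Agent.Lib_helper58.CayleyUM.Flat C t ↔
      (∃ k : ℤ, ¬ (3 : ℤ) ∣ k ∧ t = 2 * Real.pi * (k : ℝ) / 9) ∧ (Gram C).det ≠ 0)

/-- `q = p ≥ 5` prime: no uniform mixing at these times.

Proof. `λ_x = (p N_x - |C|)/(p - 1)` with `N_x = #{c ∈ C : x·c = 0}`, a multiple of `p - 1` (as is `|C|`).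
`y = exp(pit)` has order `1, 2, 3` or `4` and `P_η = ∑_x y^{(N_x - N_{x+η})/(p-1)}`, a sum of `n = p^d` powers of
`y`. Order 1: `P_η = n`. Orders 2 and 4: `P_η = 0` implies `n` even (real and imaginary part). Order 3:
`3 ∣ n`. All impossible (`η ≠ 0` exists). -/
def TO5_Stmt : Prop := ∀ (p d : ℕ) [NeZero p], p.Prime → 5 ≤ p → 1 ≤ d → ∀ C : Finset (G p d),
  PC C → ∀ t : ℝ,
  (∃ j : ℕ, 1 ≤ j ∧ j ≤ 4 ∧ Complex.exp (Complex.I * (t : ℂ) * ((p : ℂ) * (j : ℂ))) = 1) →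
    ¬ Pool.Agent.Lib_helper58.CayleyUM.Flat C t

end Pool.Agent.UAA
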